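import Pool.Agent.UDT.StC

set_option autoImplicit false

/-!
# UDT / C1: few integers with a rational ratio to a given one
-/

namespace Pool.Agent.UDT

open NumberField

private theorem C1_place {L : Type} [Field L] [NumberField L] (w : InfinitePlace L)
    (hw : w.IsReal) : ∃ τ : L →+* ℝ, ∀ x : L, w x = |τ x| := by
  refine ⟨InfinitePlace.embedding_of_isReal hw, fun x => ?_⟩
  rw [← InfinitePlace.norm_embedding_eq, ← InfinitePlace.embedding_of_isReal_apply hw,
    Complex.norm_real, Real.norm_eq_abs]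

private theorem C1_norm {L : Type} [Field L] [NumberField L]
    (hreal : ∀ w : InfinitePlace L, w.IsReal) (C : ℕ) (β : 𝓞 L)
    (hβ : ∀ τ : L →+* ℝ, 0 < τ (β : L) ∧ τ (β : L) ≤ C) :
    (Algebra.norm ℤ β).natAbs ≤ C ^ Module.finrank ℚ L := by
  have h1 := InfinitePlace.prod_eq_abs_norm (β : L)
  have h2 : ∏ w : InfinitePlace L, w (β : L) ^ w.mult ≤ (C : ℝ) ^ Module.finrank ℚ L := by
    calc ∏ w : InfinitePlace L, w (β : L) ^ w.mult ≤ ∏ w : InfinitePlace L, (C : ℝ) ^ w.mult := by
          apply Finset.prod_le_prod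
          · intro w _
            positivity
          · intro w _
            obtain ⟨τ, hτ⟩ := C1_place w (hreal w)
            have h3 := hβ τ
            have h4 : w (β : L) ≤ C := by
              rw [hτ, abs_of_pos h3.1]
              exact h3.2
            exact pow_le_pow_left₀ (apply_nonneg _ _) h4 _
      _ = (C : ℝ) ^ Module.finrank ℚ L := by
          rw [Finset.prod_pow_eq_pow_sum, InfinitePlace.sum_mult_eq]
  rw [h1, ← Algebra.coe_norm_int] at h2
  have h5 : (((Algebra.norm ℤ β).natAbs : ℤ) : ℝ) ≤ (C : ℝ) ^ Module.finrank ℚ L := by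
    rw [Int.natCast_natAbs]
    push_cast at h2 ⊢
    exact h2
  exact_mod_cast h5

private theorem C1_den {D a b N M C : ℕ} (hD : D ≠ 0) (hab : Nat.Coprime a b) (hN : N ≠ 0)
    (hNC : N ≤ C ^ D) (h : b ^ D * M = a ^ D * N) : b ≤ C := by
  have h1 : b ^ D ∣ a ^ D * N := ⟨M, h.symm⟩
  have h2 : b ^ D ∣ N := (Nat.Coprime.pow D D hab.symm).dvd_of_dvd_mul_left h1
  have h3 := (Nat.le_of_dvd (Nat.pos_of_ne_zero hN) h2).trans hNC
  exact (Nat.pow_le_pow_iff_left hD).mp h3

theorem thm_C1 : St_C1 := by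
  classical
  intro C L _ _ hreal σ β₀ X h0 hX
  set D := Module.finrank ℚ L with hDdef
  have hD : D ≠ 0 := (Module.finrank_pos).ne'
  -- the ratio
  have hβ0 : (β₀ : L) ≠ 0 := by
    intro h
    have := (h0 σ).1
    rw [h, map_zero] at this
    exact lt_irrefl _ this
  have hN0 : (Algebra.norm ℤ β₀).natAbs ≠ 0 := by
    rw [Int.natAbs_ne_zero, Algebra.norm_ne_zero_iff]
    intro h
    exact hβ0 (by rw [h]; rfl)
  have key : ∀ β ∈ X, ∃ r : ℚ, (β : L) = (r : L) * (β₀ : L) ∧ r.num.toNat ∈ Finset.Icc 1 C ∧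
      r.den ∈ Finset.Icc 1 C ∧ 0 < r := by
    intro β hβ
    obtain ⟨h1, r, hr⟩ := hX β hβ
    have hrpos : 0 < r := by
      have h2 := (h1 σ).1
      rw [hr] at h2
      have h3 := (h0 σ).1
      have : (0 : ℝ) < r := by
        by_contra hcon
        push Not at hcon
        nlinarith
      exact_mod_cast this
    have heq : (β : L) = (r : L) * (β₀ : L) := by
      apply σ.injective
      rw [map_mul, hr]
      congr 1
      simp
    refine ⟨r, heq, ?_⟩
    have hnorm : Algebra.norm ℚ (β : L) = r ^ D * Algebra.norm ℚ (β₀ : L) := by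
      rw [heq, map_mul]
      congr 1
      have : (r : L) = algebraMap ℚ L r := by simp
      rw [this, Algebra.norm_algebraMap]
    rw [← Algebra.coe_norm_int, ← Algebra.coe_norm_int] at hnorm
    have hnum : 0 < r.num := Rat.num_pos.mpr hrpos
    have hint : (r.den : ℤ) ^ D * Algebra.norm ℤ β = r.num ^ D * Algebra.norm ℤ β₀ := by
      have h2 : (r.den : ℚ) ^ D * (Algebra.norm ℤ β : ℚ) =
          (r.num : ℚ) ^ D * (Algebra.norm ℤ β₀ : ℚ) := by
        rw [hnorm, ← mul_assoc, ← mul_pow, Rat.den_mul_eq_num]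
      exact_mod_cast h2
    have hnat : r.den ^ D * (Algebra.norm ℤ β).natAbs =
        r.num.natAbs ^ D * (Algebra.norm ℤ β₀).natAbs := by
      have h3 := congrArg Int.natAbs hint
      simpa [Int.natAbs_mul, Int.natAbs_pow] using h3
    have hnb : (Algebra.norm ℤ β).natAbs ≠ 0 := by
      intro h
      rw [h, mul_zero] at hnat
      have h4 : r.num.natAbs ^ D ≠ 0 := pow_ne_zero _ (Int.natAbs_ne_zero.mpr hnum.ne')
      exact (mul_ne_zero h4 hN0) hnat.symm
    have hb := C1_den hD r.reduced hN0 (C1_norm hreal C β₀ h0) hnat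
    have ha := C1_den hD r.reduced.symm hnb (C1_norm hreal C β h1) hnat.symm
    refine ⟨?_, ?_, hrpos⟩
    · rw [Finset.mem_Icc]
      constructor
      · omega
      · omega
    · rw [Finset.mem_Icc]
      exact ⟨r.den_pos, hb⟩
  choose! r hr using key
  have hinj : Set.InjOn (fun β => ((r β).num.toNat, (r β).den)) (X : Set (𝓞 L)) := by
    intro β hβ β' hβ' he
    simp only [Prod.mk.injEq] at he
    obtain ⟨e1, -, -, p1⟩ := hr β hβ
    obtain ⟨e2, -, -, p2⟩ := hr β' hβ'
    have hrr : r β = r β' := by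
      have n1 : 0 < (r β).num := Rat.num_pos.mpr p1
      have n2 : 0 < (r β').num := Rat.num_pos.mpr p2
      apply Rat.ext
      · omega
      · exact he.2
    apply RingOfIntegers.ext
    rw [e1, e2, hrr]
  calc X.card ≤ (Finset.Icc 1 C ×ˢ Finset.Icc 1 C).card := by
        apply Finset.card_le_card_of_injOn _ _ hinj
        intro β hβ
        obtain ⟨-, h1, h2, -⟩ := hr β hβ
        simp only [Finset.coe_product, Set.mem_prod, Finset.mem_coe]
        exact ⟨h1, h2⟩
    _ = C ^ 2 := by
        rw [Finset.card_product, Nat.card_Icc]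
        ring_nf
        simp [sq]

end Pool.Agent.UDT
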