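import Pool.Agent.UDT.StC

set_option autoImplicit false

/-!
# UDT / C2: fields with coprime discriminants only have rational numbers in common
-/

namespace Pool.Agent.UDT

open NumberField IntermediateField

theorem thm_C2 : St_C2 := by
  intro L₁ L₂ _ _ _ _ hcop σ₁ σ₂ x₁ x₂ hx
  have hmin : minpoly ℚ x₁ = minpoly ℚ x₂ := by
    rw [← minpoly.algHom_eq σ₁.toRatAlgHom σ₁.injective x₁,
      ← minpoly.algHom_eq σ₂.toRatAlgHom σ₂.injective x₂]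
    congr 1
  have hint : IsIntegral ℚ x₁ := Algebra.IsIntegral.isIntegral x₁
  let f : ℚ⟮x₁⟯ →ₐ[ℚ] L₂ := (adjoin.powerBasis hint).lift x₂ (by
    rw [adjoin.powerBasis_gen, minpoly_gen ℚ x₁, hmin, minpoly.aeval])
  let _ : Algebra ℚ⟮x₁⟯ L₂ := f.toRingHom.toAlgebra
  have h1 : discr ℚ⟮x₁⟯ ∣ discr L₁ := NumberField.discr_dvd_discr ℚ⟮x₁⟯ L₁
  have h2 : discr ℚ⟮x₁⟯ ∣ discr L₂ := NumberField.discr_dvd_discr ℚ⟮x₁⟯ L₂
  have h3 : (discr ℚ⟮x₁⟯).natAbs = 1 :=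
    Nat.eq_one_of_dvd_coprimes hcop (Int.natAbs_dvd_natAbs.mpr h1) (Int.natAbs_dvd_natAbs.mpr h2)
  have h4 : Module.finrank ℚ ℚ⟮x₁⟯ = 1 := by
    by_contra hne
    have hpos : 0 < Module.finrank ℚ ℚ⟮x₁⟯ := Module.finrank_pos
    have := NumberField.abs_discr_gt_two (K := ℚ⟮x₁⟯) (by omega)
    rw [Int.abs_eq_natAbs, h3] at this
    norm_num at this
  rw [IntermediateField.finrank_eq_one_iff] at h4
  have h5 : x₁ ∈ (⊥ : IntermediateField ℚ L₁) := h4 ▸ mem_adjoin_simple_self ℚ x₁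
  obtain ⟨r, hr⟩ := IntermediateField.mem_bot.mp h5
  refine ⟨r, ?_⟩
  rw [← hr]
  simp

end Pool.Agent.UDT
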