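import Pool.Agent.UDT.StC

set_option autoImplicit false

/-!
# UDT / C3: union of two configurations
-/

namespace Pool.Agent.UDT

open Pool.Agent.Helper53.Generic Pool.Agent.Helper60.Gap

private theorem C3_scaled (A : Finset Plane) {d₁ : ℝ} (hd : 0 < d₁) :
    ∃ B : Finset Plane, B.card = A.card ∧ ∀ s, P B s = P A (s * d₁) := by
  obtain ⟨B, hB, h⟩ := exists_scaled A (c := 1 / d₁) (by positivity)
  refine ⟨B, hB, fun s => ?_⟩
  rw [← h (s * d₁)]
  congr 1
  field_simp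

theorem thm_C3 : St_C3 := by
  classical
  intro A₁ A₂ d₁ d₂ R hd1 hd2 ha1 ha2 hm1 hm2 hR
  obtain ⟨B₁, hB1, hP1⟩ := C3_scaled A₁ hd1
  obtain ⟨B₂, hB2, hP2⟩ := C3_scaled A₂ hd2
  set a₁ := P A₁ d₁ with ha1d
  set a₂ := P A₂ d₂ with ha2d
  obtain ⟨U, hU, hPU⟩ := family3 (Finset.univ : Finset (Fin a₂ ⊕ Fin a₁))
    (Sum.elim (fun _ => B₁) (fun _ => B₂))
  have hsum : ∀ d, ∑ i : Fin a₂ ⊕ Fin a₁, P (Sum.elim (fun _ => B₁) (fun _ => B₂) i) d =
      a₂ * P B₁ d + a₁ * P B₂ d := by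
    intro d
    rw [Fintype.sum_sum_type]
    simp
  have e1 := P_even A₁ d₁
  have e2 := P_even A₂ d₂
  have h1 : 2 ≤ a₁ := by omega
  have h2 : 2 ≤ a₂ := by omega
  have h4 : 2 ≤ a₁ * a₂ := by nlinarith
  refine ⟨U, ?_, 1, distances B₁ ∩ distances B₂, ?_, ?_⟩
  · rw [hU, Fintype.sum_sum_type]
    simp [hB1, hB2]
  · apply hR
    intro s hs
    rw [Finset.mem_inter, mem_distances, mem_distances, hP1, hP2] at hs
    exact hs
  · intro d hd
    have hU1 := (hPU 1).1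
    rw [hsum, hP1, hP2, one_mul, one_mul, ← ha1d, ← ha2d] at hU1
    have hUd := (hPU d).2
    rw [hsum] at hUd
    have hb1 : P B₁ d ≤ a₁ := by rw [hP1]; exact hm1 _
    have hb2 : P B₂ d ≤ a₂ := by rw [hP2]; exact hm2 _
    have hcase : P B₁ d = 0 ∨ P B₂ d = 0 := by
      by_contra hcon
      push Not at hcon
      apply hd
      rw [Finset.mem_inter, mem_distances, mem_distances]
      exact hcon
    have hle : a₂ * P B₁ d + a₁ * P B₂ d ≤ a₁ * a₂ := by
      rcases hcase with h | h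
      · rw [h, mul_zero, zero_add]
        exact Nat.mul_le_mul_left _ hb2
      · rw [h, mul_zero, add_zero, mul_comm a₁ a₂]
        exact Nat.mul_le_mul_left _ hb1
    have hmax : P U d ≤ a₁ * a₂ := hUd.trans (max_le hle h4)
    have : a₂ * a₁ = a₁ * a₂ := mul_comm _ _
    omega

end Pool.Agent.UDT
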