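import Pool.Agent.UDT.StC

set_option autoImplicit false

/-!
# UDT / C4: from the sequence of configurations to all `n`
-/

namespace Pool.Agent.UDT

open Pool.Agent.Helper53.Generic Pool.Agent.Helper60.Gap

private theorem C4_gap (U : Finset Plane) (R g n : ℕ) (hU : 1 ≤ U.card) (hn : U.card ≤ n)
    (hT : Top U R g) : n * g ≤ 4 * (Mstar R n + 1) * U.card := by
  classical
  obtain ⟨d₀, S, hS, hgap⟩ := hT
  set k := n / U.card with hk
  have hk1 : k * U.card ≤ n := Nat.div_mul_le_self _ _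
  have hk2 : n < (k + 1) * U.card := by
    have h1 := Nat.div_add_mod n U.card
    have h2 := Nat.mod_lt n (show 0 < U.card by omega)
    rw [← hk] at h1
    rw [add_mul, one_mul, mul_comm k]
    omega
  obtain ⟨U₁, hU1, hP1⟩ := family3 (Finset.univ : Finset (Fin k)) (fun _ => U)
  have hc1 : U₁.card = k * U.card := by rw [hU1]; simp
  have hs1 : ∀ d, k * P U d ≤ P U₁ d ∧ P U₁ d ≤ max (k * P U d) 2 := by
    intro d
    have := hP1 d
    simpa using this
  obtain ⟨U₂, hU2, hP2⟩ := pad U₁ (N := n) (by rw [hc1]; exact hk1)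
  have hup : ∀ d, P U₂ d ≤ k * P U d + 2 := by
    intro d
    have h1 := (hP2 d).2
    have h2 := (hs1 d).2
    omega
  have hlow : k * P U d₀ ≤ P U₂ d₀ := (hs1 d₀).1.trans (hP2 d₀).1
  have hM : fr U₂ 1 - fr U₂ (R + 1) ≤ Mstar R n := le_csSup (Mstar_bdd R n) ⟨U₂, hU2, rfl⟩
  have hf0 := f_le_fr_one U₂ d₀
  have hpe := P_even U₂ d₀
  have hkg : ∀ d, d ∉ S → P U₂ d + k * g ≤ P U₂ d₀ + 2 := by
    intro d hd
    have h1 := Nat.mul_le_mul_left k (hgap d hd)
    have h2 := hup d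
    rw [mul_add] at h1
    omega
  have hfr := fr_le U₂ R ((P U₂ d₀ + 2 - k * g) / 2) S hS (by
    intro d hd
    have h1 := hkg d hd
    have h2 := P_even U₂ d
    omega)
  have hmain : k * g ≤ 2 * (Mstar R n + 1) := by
    by_cases hsm : k * g ≤ 2
    · omega
    · have h3 : k * g ≤ P U₂ d₀ + 2 := by
        obtain ⟨d, hd⟩ : ∃ d : ℝ, d ∉ S := Infinite.exists_notMem_finset S
        have := hkg d hd
        omega
      omega
  have hn2 : n ≤ 2 * (k * U.card) := by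
    have hk0 : 1 ≤ k := by
      by_contra h
      have h0 : k = 0 := Nat.eq_zero_of_not_pos h
      rw [h0] at hk2
      omega
    nlinarith
  calc n * g ≤ 2 * (k * U.card) * g := Nat.mul_le_mul_right _ hn2
    _ = 2 * (k * g) * U.card := by ring
    _ ≤ 2 * (2 * (Mstar R n + 1)) * U.card := by gcongr
    _ = _ := by ring

private theorem C4_max (C n : ℕ) (hC : 2 ≤ C) (hn : C ≤ n) :
    ∃ m : ℕ, C ^ 2 ^ m ≤ n ∧ n < C ^ 2 ^ (m + 1) := by
  classical
  have hex : ∃ m : ℕ, n < C ^ 2 ^ m := by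
    refine ⟨n, ?_⟩
    calc n < 2 ^ n := Nat.lt_two_pow_self
      _ ≤ C ^ n := Nat.pow_le_pow_left hC n
      _ ≤ C ^ 2 ^ n := Nat.pow_le_pow_right (by omega) Nat.lt_two_pow_self.le
  have hpos : Nat.find hex ≠ 0 := by
    intro h0
    have := Nat.find_spec hex
    rw [h0] at this
    simp at this
    omega
  obtain ⟨m, hm⟩ := Nat.exists_eq_succ_of_ne_zero hpos
  refine ⟨m, ?_, ?_⟩
  · have := Nat.find_min hex (m := m) (by omega)
    omega
  · have := Nat.find_spec hex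
    rw [hm] at this
    exact this

theorem thm_C4 : St_C4 := by
  intro C R hC _ h
  have hCr : (1 : ℝ) < C := by exact_mod_cast (by omega : 1 < C)
  have hlogC : 0 < Real.log C := Real.log_pos hCr
  have hlog2 : 0 < Real.log 2 := Real.log_pos (by norm_num)
  set x : ℝ := Real.log 2 / (2 * Real.log C) with hx
  have hxpos : 0 < x := by positivity
  have hev : ∀ᶠ t : ℝ in Filter.atTop, (8 : ℝ) ≤ t ^ (x / 2) :=
    (tendsto_rpow_atTop (by positivity : 0 < x / 2)).eventually_ge_atTop 8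
  have hevn : ∀ᶠ n : ℕ in Filter.atTop, (8 : ℝ) ≤ (n : ℝ) ^ (x / 2) :=
    tendsto_natCast_atTop_atTop.eventually hev
  obtain ⟨n₁, hn₁⟩ := Filter.eventually_atTop.mp hevn
  refine ⟨x / 2, by positivity, max n₁ C, ?_⟩
  intro n hn
  have hn1 : n₁ ≤ n := (le_max_left _ _).trans hn
  have hnC : C ≤ n := (le_max_right _ _).trans hn
  have hnpos : (0 : ℝ) < n := by exact_mod_cast (by omega : 0 < n)
  have hn1r : (1 : ℝ) ≤ n := by exact_mod_cast (by omega : 1 ≤ n)
  obtain ⟨m, hm1, hm2⟩ := C4_max C n hC hnC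
  obtain ⟨U, g, hU1, hU2, hg, hT⟩ := h m
  have hgap := C4_gap U R g n hU1 (hU2.trans hm1) hT
  -- cancel the cardinality
  have h1 : n * 2 ^ 2 ^ m ≤ 4 * (Mstar R n + 1) := by
    have h2 : n * (2 ^ 2 ^ m * U.card) ≤ 4 * (Mstar R n + 1) * U.card :=
      (Nat.mul_le_mul_left n hg).trans hgap
    rw [← mul_assoc] at h2
    exact Nat.le_of_mul_le_mul_right h2 (by omega)
  have h1r : (n : ℝ) * 2 ^ 2 ^ m ≤ 4 * ((Mstar R n : ℝ) + 1) := by exact_mod_cast h1
  -- the power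
  have h2 : (n : ℝ) ^ x ≤ 2 ^ 2 ^ m := by
    have h3 : (n : ℝ) ≤ (C : ℝ) ^ 2 ^ (m + 1) := by exact_mod_cast hm2.le
    have h4 : (n : ℝ) ^ x ≤ ((C : ℝ) ^ 2 ^ (m + 1)) ^ x :=
      Real.rpow_le_rpow hnpos.le h3 hxpos.le
    have h5 : ((C : ℝ) ^ 2 ^ (m + 1)) ^ x = 2 ^ 2 ^ m := by
      have hC0 : (0 : ℝ) < C := by linarith
      rw [← Real.exp_log (show (0 : ℝ) < 2 ^ 2 ^ m by positivity),
        Real.rpow_def_of_pos (by positivity), Real.log_pow, Real.log_pow]
      congr 1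
      rw [hx]
      push_cast
      field_simp
      ring
    rw [h5] at h4
    exact h4
  have h8 := hn₁ n hn1
  have hsplit : (n : ℝ) ^ x = (n : ℝ) ^ (x / 2) * (n : ℝ) ^ (x / 2) := by
    rw [← Real.rpow_add hnpos]
    congr 1
    ring
  have hone : (n : ℝ) ^ (1 + x / 2) = n * (n : ℝ) ^ (x / 2) := by
    rw [Real.rpow_add hnpos, Real.rpow_one]
  rw [hone]
  set y := (n : ℝ) ^ (x / 2) with hy
  have h6 : (n : ℝ) * (y * y) ≤ 4 * ((Mstar R n : ℝ) + 1) := by
    rw [← hsplit]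
    exact (mul_le_mul_of_nonneg_left h2 hnpos.le).trans h1r
  nlinarith [mul_nonneg hnpos.le (by linarith : (0 : ℝ) ≤ y - 8), mul_nonneg (mul_nonneg hnpos.le (by linarith : (0 : ℝ) ≤ y)) (by linarith : (0 : ℝ) ≤ y - 8)]

end Pool.Agent.UDT
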