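import Pool.Agent.UDT.StC

set_option autoImplicit false

/-!
# UDT / C5: several copies
-/

namespace Pool.Agent.UDT

open Finset Pool.Agent.Helper53.Generic Pool.Agent.Helper60.Gap

/-- an `n`-point set with `r` distances of multiplicity at least `T`, all others of multiplicity
at most `s` -/
private def C5_G (n r T s : ℕ) : Prop :=
  ∃ U : Finset Plane, ∃ D : Finset ℝ, U.card = n ∧ D.card = r ∧
    (∀ d ∈ D, 2 * T ≤ P U d) ∧ (∀ d, d ∉ D → P U d ≤ 2 * s)

private theorem C5_zero (T s : ℕ) : C5_G 0 0 T s := by
  refine ⟨∅, ∅, rfl, rfl, ?_, ?_⟩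
  · intro d hd
    exact absurd hd (Finset.notMem_empty d)
  · intro d _
    simp [P]

private theorem C5_single (T s : ℕ) : C5_G 1 0 T s := by
  refine ⟨{0}, ∅, by simp, rfl, ?_, ?_⟩
  · intro d hd
    exact absurd hd (Finset.notMem_empty d)
  · intro d _
    simp [P]

/-- Adding configurations. -/
private theorem C5_add {n r n' r' T s : ℕ} (hT : 1 ≤ T) (hs : 1 ≤ s) (h : C5_G n r T s)
    (h' : C5_G n' r' T s) : C5_G (n + n') (r + r') T s := by
  classical
  obtain ⟨U, D, hU, hD, h1, h2⟩ := h
  obtain ⟨V, E, hV, hE, h3, h4⟩ := h'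
  have hEpos : ∀ d ∈ distances V, 0 < d := by
    intro d hd
    rw [mem_distances] at hd
    by_contra hneg
    exact hd (P_nonpos (not_lt.mp hneg))
  obtain ⟨c, hc, hcd⟩ : ∃ c : ℝ, 0 < c ∧ ∀ d ∈ distances U, ∀ e ∈ distances V, d < c * e := by
    have h5 : ∀ᶠ c : ℝ in Filter.atTop, ∀ d ∈ distances U, ∀ e ∈ distances V, d < c * e := by
      rw [Filter.eventually_all_finset]
      intro d _
      rw [Filter.eventually_all_finset]
      intro e he
      have := hEpos e he
      exact (Filter.Tendsto.atTop_mul_const this Filter.tendsto_id).eventually_gt_atTop d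
    obtain ⟨c, hc1, hc2⟩ := (h5.and (Filter.eventually_gt_atTop 0)).exists
    exact ⟨c, hc2, hc1⟩
  obtain ⟨V', hV', hPV'⟩ := exists_scaled V hc
  have hP' : ∀ d, P V' d = P V (d / c) := by
    intro d
    have := hPV' (d / c)
    rwa [mul_div_cancel₀ _ hc.ne'] at this
  obtain ⟨W, hW, hW1, hW2, hW3, hW4⟩ := step2 U V' ∅
  refine ⟨W, D ∪ E.image (fun e => c * e), ?_, ?_, ?_, ?_⟩
  · rw [hW, hU, hV', hV]
  · rw [Finset.card_union_of_disjoint, hD,
      Finset.card_image_of_injective _ (mul_right_injective₀ hc.ne'), hE]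
    rw [Finset.disjoint_left]
    intro d hd hd'
    rw [Finset.mem_image] at hd'
    obtain ⟨e, he, rfl⟩ := hd'
    have e1 : c * e ∈ distances U := by
      rw [mem_distances]
      have := h1 _ hd
      omega
    have e2 : e ∈ distances V := by
      rw [mem_distances]
      have := h3 _ he
      omega
    exact lt_irrefl _ (hcd _ e1 _ e2)
  · intro d hd
    rw [Finset.mem_union, Finset.mem_image] at hd
    have h6 := hW2 d
    rcases hd with hd | ⟨e, he, rfl⟩
    · have := h1 d hd
      omega
    · have h7 := h3 e he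
      rw [hPV'] at h6
      omega
  · intro d hd
    rw [Finset.mem_union, not_or, Finset.mem_image] at hd
    obtain ⟨hd1, hd2⟩ := hd
    have e1 : P U d ≤ 2 * s := h2 d hd1
    have e2 : P V' d ≤ 2 * s := by
      rw [hP']
      apply h4
      intro he
      exact hd2 ⟨d / c, he, mul_div_cancel₀ _ hc.ne'⟩
    by_cases hz : P U d + P V' d = 0
    · have := hW4 d
      omega
    · have h5 := hW3 d hz
      by_cases hz1 : P U d = 0
      · omega
      · by_cases hz2 : P V' d = 0
        · omega
        · exfalso
          have e3 : d ∈ distances U := mem_distances.mpr hz1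
          have e4 : d / c ∈ distances V := by
            rw [mem_distances, ← hP']
            exact hz2
          have := hcd _ e3 _ e4
          rw [mul_div_cancel₀ _ hc.ne'] at this
          exact lt_irrefl _ this

private theorem C5_pad {n r T s : ℕ} (hT : 1 ≤ T) (hs : 1 ≤ s) (h : C5_G n r T s) {N : ℕ}
    (hN : n ≤ N) : C5_G N r T s := by
  induction N, hN using Nat.le_induction with
  | base => exact h
  | succ N _ ih => exact C5_add hT hs ih (C5_single T s)

private theorem C5_nsmul {n r T s : ℕ} (hT : 1 ≤ T) (hs : 1 ≤ s) (h : C5_G n r T s) (k : ℕ) :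
    C5_G (k * n) (k * r) T s := by
  induction k with
  | zero => simpa using C5_zero T s
  | succ k ih =>
    rw [add_mul, add_mul, one_mul, one_mul]
    exact C5_add hT hs ih h

private theorem C5_le_M {n r T s : ℕ} (h : C5_G n r T s) (hr : 1 ≤ r) (hT : 1 ≤ T) :
    T - s ≤ M r n := by
  obtain ⟨U, D, hU, hD, h1, h2⟩ := h
  have e1 : T ≤ fr U r := by
    apply fr_ge U r T hr hT D hD
    intro d hd
    have := h1 d hd
    rw [P_even] at this
    omega
  have e2 : fr U (r + 1) ≤ s := by
    apply fr_le U r s D hD.le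
    intro d hd
    have := h2 d hd
    rw [P_even] at this
    omega
  have := le_M (r := r) U hU
  omega

theorem thm_C5 : St_C5 := by
  classical
  intro r n N hr hN
  by_cases hM : M 1 n ≤ 1
  · omega
  obtain ⟨A, hA, hMA⟩ := exists_M 1 n
  rw [hMA] at hM ⊢
  have hT : 1 ≤ fr A 1 := by omega
  have hs : 1 ≤ max (fr A (1 + 1)) 1 := le_max_right _ _
  have h1 := (le_fr_iff A le_rfl hT).mp le_rfl
  rw [Nat.one_le_iff_ne_zero, Finset.card_ne_zero] at h1
  obtain ⟨e, he⟩ := h1
  have hG : C5_G n 1 (fr A 1) (max (fr A (1 + 1)) 1) := by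
    refine ⟨A, {e}, hA, Finset.card_singleton e, ?_, ?_⟩
    · intro d hd
      rw [Finset.mem_singleton] at hd
      subst hd
      rw [P_even]
      exact Nat.mul_le_mul_left _ (Finset.mem_filter.mp he).2
    · intro d hd
      rw [Finset.mem_singleton] at hd
      rw [P_even]
      apply Nat.mul_le_mul_left
      refine le_trans ?_ (le_max_left _ _)
      by_contra hcon
      push Not at hcon
      have h2 : fr A (1 + 1) + 1 ≤ fr A (1 + 1) := by
        rw [le_fr_iff A (by omega) (by omega)]
        have hsub : ({e, d} : Finset ℝ) ⊆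
            (distances A).filter (fun t => fr A (1 + 1) + 1 ≤ f A t) := by
          intro t ht
          rw [Finset.mem_insert, Finset.mem_singleton] at ht
          rw [Finset.mem_filter, mem_distances, P_even]
          rcases ht with rfl | rfl
          · have h3 := (Finset.mem_filter.mp he).2
            omega
          · omega
        refine le_trans (le_of_eq ?_) (Finset.card_le_card hsub)
        rw [Finset.card_pair (fun h => hd h.symm)]
      omega
  have h5 := C5_nsmul hT hs hG r
  rw [mul_one] at h5
  have h6 := C5_le_M (C5_pad hT hs h5 hN) hr hT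
  have h7 : max (fr A (1 + 1)) 1 ≤ fr A (1 + 1) + 1 := max_le (by omega) (by omega)
  omega

end Pool.Agent.UDT
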