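import Pool.Agent.UDT.StC

set_option autoImplicit false

/-!
# UDT / C6b: conclusion for all ranks up to `n / N`
-/

namespace Pool.Agent.UDT

open Pool.Agent.Helper53.Generic Pool.Agent.Helper60.Gap Filter

private theorem C6b_small (R : ℕ) : ∀ᶠ n : ℕ in atTop,
    (R : ℝ) ≤ (n : ℝ) ^ (1 / (300 * Real.log (Real.log n))) := by
  have h : Tendsto (fun x : ℝ => x / (300 * Real.log x)) atTop atTop := by
    have h1 := Real.tendsto_exp_div_pow_atTop 1
    have h2 : Tendsto (fun x : ℝ => x / Real.log x) atTop atTop := by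
      have h3 := h1.comp Real.tendsto_log_atTop
      refine h3.congr' ?_
      filter_upwards [eventually_gt_atTop (0 : ℝ)] with x hx
      simp [Real.exp_log hx]
    have h4 := h2.atTop_div_const (show (0 : ℝ) < 300 by norm_num)
    refine h4.congr' ?_
    filter_upwards with x
    rw [div_div, mul_comm]
  have hlog : Tendsto (fun n : ℕ => Real.log n) atTop atTop :=
    Real.tendsto_log_atTop.comp tendsto_natCast_atTop_atTop
  have h5 := (Real.tendsto_exp_atTop.comp (h.comp hlog)).eventually_ge_atTop (R : ℝ)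
  filter_upwards [h5, eventually_gt_atTop 0] with n hn hn0
  have hpos : (0 : ℝ) < n := by exact_mod_cast hn0
  refine hn.trans (le_of_eq ?_)
  simp only [Function.comp]
  rw [Real.rpow_def_of_pos hpos]
  congr 1
  ring

theorem thm_C6b (h5 : St_C5) : (∃ (R : ℕ) (δ : ℝ), 1 ≤ R ∧ 0 < δ ∧ ∃ n₀ : ℕ, ∀ n : ℕ, n₀ ≤ n →
    (n : ℝ) ^ (1 + δ) ≤ Mstar R n) →
    ∃ δ : ℝ, 0 < δ ∧ ∃ N : ℕ, ∀ n r : ℕ, 1 ≤ r → N * r ≤ n →
    ((n : ℝ) / r) ^ (1 + δ) ≤ M r n := by
  rintro ⟨R, δ, hR, hδ, n₁, hn₁⟩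
  obtain ⟨n₂, hn₂⟩ := fixed_rank
  obtain ⟨n₃, hn₃⟩ := eventually_atTop.mp (C6b_small R)
  -- the constant
  set K : ℝ := 3 * (R : ℝ) ^ 4 with hK
  have hR1 : (1 : ℝ) ≤ R := by exact_mod_cast hR
  have hK1 : 3 ≤ K := by
    have : (1 : ℝ) ≤ (R : ℝ) ^ 4 := one_le_pow₀ hR1
    rw [hK]; linarith
  have hKpos : 0 < K := by linarith
  -- the lower bound of `M 1`
  have hM1 : ∀ n : ℕ, max n₁ (max n₂ n₃) ≤ n → (n : ℝ) ^ (1 + δ) ≤ K * M 1 n := by
    intro n hn
    have ha : n₁ ≤ n := (le_max_left _ _).trans hn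
    have hb : n₂ ≤ n := (le_max_left _ _).trans ((le_max_right _ _).trans hn)
    have hc : n₃ ≤ n := (le_max_right _ _).trans ((le_max_right _ _).trans hn)
    exact (hn₁ n ha).trans (hn₂ n hb R hR (hn₃ n hc)).2.2
  set N := max n₁ (max n₂ n₃) with hN
  -- growth
  have hev : ∀ᶠ t : ℝ in atTop, K * 2 ^ (1 + δ) * 2 ≤ t ^ (δ / 2) :=
    (tendsto_rpow_atTop (by positivity : 0 < δ / 2)).eventually_ge_atTop _
  obtain ⟨t₀, ht₀⟩ := eventually_atTop.mp hev
  obtain ⟨n₄, hn₄⟩ := exists_nat_ge (max (max t₀ 2) (2 * N + 2 : ℝ))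
  refine ⟨δ / 2, by positivity, n₄, ?_⟩
  intro n r hr hrn
  have hr1 : (1 : ℝ) ≤ r := by exact_mod_cast hr
  have hrpos : (0 : ℝ) < r := by linarith
  set t : ℝ := (n : ℝ) / r with ht
  have htn : (n₄ : ℝ) ≤ t := by
    rw [ht, le_div_iff₀ hrpos]
    exact_mod_cast hrn
  have ht0 : t₀ ≤ t := ((le_max_left _ _).trans ((le_max_left _ _).trans hn₄)).trans htn
  have ht2 : 2 ≤ t := ((le_max_right _ _).trans ((le_max_left _ _).trans hn₄)).trans htn
  have htN : 2 * N + 2 ≤ t := ((le_max_right _ _).trans hn₄).trans htn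
  set q := n / r with hq
  have hqt : t < q + 1 := by
    have := Nat.lt_floor_add_one ((n : ℝ) / r)
    rwa [Nat.floor_div_natCast, Nat.floor_natCast] at this
  have hqN : N ≤ q := by
    have : (N : ℝ) < q + 1 := by
      have : (0 : ℝ) ≤ N := Nat.cast_nonneg _
      linarith
    have h7 : N < q + 1 := by exact_mod_cast this
    omega
  have hq2 : t / 2 ≤ q := by linarith
  have hrq : r * q ≤ n := Nat.mul_div_le n r
  have h6 := h5 r q n hr hrq
  have h6r : (M 1 q : ℝ) ≤ M r n + 1 := by exact_mod_cast h6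
  have h7 := hM1 q hqN
  have h8 : (t / 2) ^ (1 + δ) ≤ (q : ℝ) ^ (1 + δ) :=
    Real.rpow_le_rpow (by linarith) hq2 (by linarith)
  have htpos : 0 < t := by linarith
  have h9 : (t / 2) ^ (1 + δ) = t ^ (1 + δ / 2) * t ^ (δ / 2) / 2 ^ (1 + δ) := by
    rw [Real.div_rpow htpos.le (by norm_num), ← Real.rpow_add htpos]
    congr 2
    ring
  have h10 := ht₀ t ht0
  have h11 : 1 ≤ t ^ (1 + δ / 2) := Real.one_le_rpow (by linarith) (by linarith)
  set y := t ^ (1 + δ / 2) with hy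
  have h2pos : (0 : ℝ) < 2 ^ (1 + δ) := by positivity
  have h12 : K * (2 * y) ≤ (t / 2) ^ (1 + δ) := by
    rw [h9, le_div_iff₀ h2pos]
    calc K * (2 * y) * 2 ^ (1 + δ) = y * (K * 2 ^ (1 + δ) * 2) := by ring
      _ ≤ y * t ^ (δ / 2) := mul_le_mul_of_nonneg_left h10 (by linarith)
  have h13 : K * (2 * y) ≤ K * (M r n + 1) :=
    (h12.trans h8).trans (h7.trans (mul_le_mul_of_nonneg_left h6r hKpos.le))
  have h14 : 2 * y ≤ M r n + 1 := le_of_mul_le_mul_left h13 hKpos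
  linarith

end Pool.Agent.UDT
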