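import Pool.Agent.UDT.StG

set_option autoImplicit false

/-!
# UDT / G2: injectivity of inflation (helper55)
-/

namespace Pool.Agent.UDT

theorem thm_G2 : St_G2 := by
  intro G X _ _ φ z _ hz2 hzc h90 c hc hb
  obtain ⟨b, hcb⟩ := hb
  have hc1 : ∀ τ, c z τ = c 1 τ := fun τ => by
    have := (hc 1 τ).1
    rwa [mul_one] at this
  have hc2 : ∀ σ, c σ z = c σ 1 := fun σ => by
    have := (hc σ 1).2.1
    rwa [mul_one] at this
  have hb1 : c 1 1 = b 1 := by
    rw [hcb]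
    unfold cob
    rw [map_one, mul_one]
    change b 1 * b 1 * (b 1)⁻¹ = b 1
    group
  have hzb1 : φ z (b 1) = b 1 := by
    rw [← hb1]
    exact (hc 1 1).2.2
  have hzz : b z * φ z (b z) = b 1 * b 1 := by
    have h1 : c z z = b 1 := by rw [hc1, hc2, hb1]
    have h2 : c z z = b z * φ z (b z) * (b 1)⁻¹ := by
      rw [hcb]
      unfold cob
      rw [hz2]
    rw [h1] at h2
    exact (eq_mul_inv_iff_mul_eq.1 h2).symm
  obtain ⟨y, hy⟩ := h90 (b z * (b 1)⁻¹) (by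
    rw [map_mul, map_inv, hzb1]
    calc b z * (b 1)⁻¹ * (φ z (b z) * (b 1)⁻¹) = b z * φ z (b z) * ((b 1)⁻¹ * (b 1)⁻¹) := by
          rw [mul_mul_mul_comm]
      _ = 1 := by rw [hzz]; group)
  obtain ⟨b', hb'⟩ : ∃ b' : G → X, ∀ σ, b' σ = b σ * (y * (φ σ y)⁻¹) := ⟨_, fun _ => rfl⟩
  have hcob : c = cob φ b' := by
    rw [hcb]
    funext σ τ
    unfold cob
    rw [hb', hb', hb', map_mul, map_mul, map_inv, map_mul φ σ τ]
    change b σ * φ σ (b τ) * (b (σ * τ))⁻¹ = b σ * (y * (φ σ y)⁻¹) *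
      (φ σ (b τ) * (φ σ y * (φ σ (φ τ y))⁻¹)) * (b (σ * τ) * (y * (φ σ (φ τ y))⁻¹))⁻¹
    have key : ∀ p q s u v w : X, p * q * s⁻¹ = p * (u * v⁻¹) * (q * (v * w⁻¹)) *
        (s * (u * w⁻¹))⁻¹ := by
      intro p q s u v w
      rw [mul_inv_rev s, mul_inv_rev u, inv_inv]
      calc p * q * s⁻¹ = p * q * s⁻¹ * (u * u⁻¹) * (v⁻¹ * v) * (w⁻¹ * w) := by group
        _ = _ := by
          simp only [mul_assoc, mul_comm, mul_left_comm]
    exact key _ _ _ _ _ _
  have h1' : b' 1 = b 1 := by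
    rw [hb', map_one]
    change b 1 * (y * y⁻¹) = b 1
    rw [mul_inv_cancel, mul_one]
  have hz' : b' z = b 1 := by
    rw [hb']
    have h3 : b z = φ z y * y⁻¹ * b 1 := by rw [← hy, inv_mul_cancel_right]
    rw [h3]
    calc φ z y * y⁻¹ * b 1 * (y * (φ z y)⁻¹) = b 1 * (φ z y * (φ z y)⁻¹) * (y⁻¹ * y) := by
          simp only [mul_assoc, mul_comm, mul_left_comm]
      _ = b 1 := by group
  have hσz : ∀ σ, b' (σ * z) = b' σ := by
    intro σ
    have h3 := hc2 σ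
    rw [hcob] at h3
    unfold cob at h3
    rw [mul_one, hz', h1'] at h3
    have h4 := mul_left_cancel h3
    exact inv_injective h4
  refine ⟨b', hcob, fun σ => ?_⟩
  have h5 : b' (z * σ) = b' σ := by rw [hzc, hσz]
  refine ⟨h5, ?_⟩
  have h3 := hc1 σ
  rw [hcob] at h3
  unfold cob at h3
  rw [one_mul, h5, hz', h1', map_one] at h3
  have h4 := mul_left_cancel (mul_right_cancel h3)
  exact h4

end Pool.Agent.UDT
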