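import Pool.Agent.UDT.StG

set_option autoImplicit false

/-!
# UDT / GS: Golod-Shafarevich, assembly (helper89)
-/

namespace Pool.Agent.UDT

private theorem GS_fin (G : Type) [Group G] [Finite G] : Finite (GA G) :=
  Module.finite_of_finite (ZMod 2)

/-- the module of relations -/
private def GS_K {G : Type} [Group G] {d : ℕ} (x : Fin d → GA G) :
    Submodule (GA G) (Fin d → GA G) where
  carrier := {a | ∑ i, a i * x i = 0}
  add_mem' := by
    intro a b ha hb
    change ∑ i, (a i + b i) * x i = 0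
    have ha' : ∑ i, a i * x i = 0 := ha
    have hb' : ∑ i, b i * x i = 0 := hb
    simp only [add_mul, Finset.sum_add_distrib, ha', hb', add_zero]
  zero_mem' := by
    change ∑ i, (0 : GA G) * x i = 0
    simp
  smul_mem' := by
    intro c a ha
    change ∑ i, (c * a i) * x i = 0
    have ha' : ∑ i, a i * x i = 0 := ha
    simp only [mul_assoc, ← Finset.mul_sum, ha', mul_zero]

theorem thm_GS : St_S1 → St_S2 → St_S3 → St_S4 → St_S5 → St_S6 → St_GS := by
  intro h1 h2 h3 h4 h5 h6 G _ _ m hm
  have hfin := GS_fin G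
  obtain ⟨N, hN⟩ := h1 G m hm
  obtain ⟨d, x, hx, hd⟩ := h2 (GA G) (aug G) N hN (RingHom.ker (aug G) : Ideal (GA G))
  have hchar : Nat.card (G →* ℤˣ) = 2 ^ d := by rw [← h3 G, hd]
  obtain ⟨x', hx'⟩ : ∃ x' : Fin d → GA G, x' = fun i => (x i : GA G) := ⟨_, rfl⟩
  -- the augmentation ideal is generated by the `x' i`
  have hker : ∀ y : GA G, y ∈ (RingHom.ker (aug G) : Ideal (GA G)) ↔
      ∃ a : Fin d → GA G, y = ∑ i, a i * x' i := by
    intro y
    constructor
    · intro hy
      have h7 : (⟨y, hy⟩ : (RingHom.ker (aug G) : Ideal (GA G))) ∈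
          Submodule.span (GA G) (Set.range x) := by rw [hx]; exact Submodule.mem_top
      obtain ⟨a, ha⟩ := (Submodule.mem_span_range_iff_exists_fun (GA G)).1 h7
      refine ⟨a, ?_⟩
      have h8 := congrArg Subtype.val ha
      rw [Submodule.coe_sum] at h8
      rw [hx']
      exact h8.symm
    · rintro ⟨a, rfl⟩
      refine Ideal.sum_mem _ fun i _ => Ideal.mul_mem_left _ _ ?_
      rw [hx']
      exact (x i).2
  have hspan : (Submodule.span (GA G) (Set.range x') : Ideal (GA G)) = RingHom.ker (aug G) := by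
    ext y
    rw [hker y]
    constructor
    · intro hy
      obtain ⟨a, ha⟩ := (Submodule.mem_span_range_iff_exists_fun (GA G)).1 hy
      exact ⟨a, ha.symm⟩
    · rintro ⟨a, rfl⟩
      exact (Submodule.mem_span_range_iff_exists_fun (GA G)).2 ⟨a, rfl⟩
  -- `K` is contained in `J ^ d`
  obtain ⟨ev, hev⟩ : ∃ ev : DH (aug G) (RingHom.ker (aug G) : Ideal (GA G)) → (Fin d → ZMod 2),
    ev = fun f i => f.1 (x i) := ⟨_, rfl⟩
  have hevi : Function.Injective ev := by
    intro f g hfg
    apply Subtype.ext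
    ext y
    have h7 : y ∈ Submodule.span (GA G) (Set.range x) := by rw [hx]; exact Submodule.mem_top
    obtain ⟨a, ha⟩ := (Submodule.mem_span_range_iff_exists_fun (GA G)).1 h7
    rw [← ha, map_sum, map_sum]
    refine Finset.sum_congr rfl fun i _ => ?_
    rw [f.2, g.2]
    have h8 := congrFun hfg i
    rw [hev] at h8
    change f.1 (x i) = g.1 (x i) at h8
    rw [h8]
  have hevs : Function.Surjective ev := by
    have h7 : Nat.card (Fin d → ZMod 2) = 2 ^ d := by
      rw [Nat.card_eq_fintype_card, Fintype.card_fun, ZMod.card, Fintype.card_fin]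
    have h8 : Nat.card (DH (aug G) (RingHom.ker (aug G) : Ideal (GA G))) =
        Nat.card (Fin d → ZMod 2) := by rw [hd, h7]
    have h9 : Finite (DH (aug G) (RingHom.ker (aug G) : Ideal (GA G))) :=
      Nat.finite_of_card_ne_zero (by rw [hd]; positivity)
    exact ((Nat.bijective_iff_injective_and_card ev).2 ⟨hevi, h8⟩).2
  have hJ : ∀ a : Fin d → GA G, ∑ i, a i * x' i = 0 → ∀ i, aug G (a i) = 0 := by
    intro a ha i
    obtain ⟨f, hf⟩ := hevs (Pi.single i 1)
    have h7 : ∑ j, a j • x j = 0 := by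
      apply Subtype.ext
      rw [Submodule.coe_sum]
      rw [hx'] at ha
      exact ha
    have h8 : f.1 (∑ j, a j • x j) = 0 := by rw [h7, map_zero]
    rw [map_sum] at h8
    have h9 : ∀ j, f.1 (a j • x j) = aug G (a j) * (Pi.single i 1 : Fin d → ZMod 2) j := by
      intro j
      rw [f.2, ← hf, hev]
    simp only [h9, Pi.single_apply, mul_ite, mul_one, mul_zero, Finset.sum_ite_eq',
      Finset.mem_univ, if_true] at h8
    exact h8
  -- the relations
  have hKm : ∀ a, a ∈ GS_K x' ↔ ∑ i, a i * x' i = 0 := fun a => Iff.rfl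
  obtain ⟨r, ρ, hρ, hr⟩ := h2 (GA G) (aug G) N hN (GS_K x')
  obtain ⟨Φ, hΦ, hΦi⟩ := h4 G d x' hspan (GS_K x') hKm (fun a ha => hJ a ((hKm a).1 ha))
  have hfinK : Finite (DH (aug G) (GS_K x')) :=
    Nat.finite_of_card_ne_zero (by rw [hr]; positivity)
  obtain ⟨e⟩ : Nonempty (DH (aug G) (GS_K x') ≃ Fin (2 ^ r)) := ⟨Finite.equivFinOfCardEq hr⟩
  refine ⟨d, r, fun i => Φ (e.symm i), hchar, fun i => hΦ _, fun i j hij => ?_, fun hd2 => ?_⟩
  · exact e.symm.injective (hΦi _ _ hij)
  · have hrel : ∀ a : Fin d → GA G, ∑ i, a i * x' i = 0 ↔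
        ∃ b : Fin r → GA G, a = fun i => ∑ j, b j * (ρ j : Fin d → GA G) i := by
      intro a
      constructor
      · intro ha
        have h7 : (⟨a, ha⟩ : GS_K x') ∈ Submodule.span (GA G) (Set.range ρ) := by
          rw [hρ]
          exact Submodule.mem_top
        obtain ⟨b, hb⟩ := (Submodule.mem_span_range_iff_exists_fun (GA G)).1 h7
        refine ⟨b, ?_⟩
        have h8 := congrArg Subtype.val hb
        rw [Submodule.coe_sum] at h8
        change _ = a at h8
        rw [← h8]
        funext i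
        rw [Finset.sum_apply]
        rfl
      · rintro ⟨b, rfl⟩
        have h7 : ∑ j, b j • ρ j ∈ (⊤ : Submodule (GA G) (GS_K x')) := Submodule.mem_top
        have h8 := (∑ j, b j • ρ j : GS_K x').2
        rw [hKm, Submodule.coe_sum] at h8
        rw [← h8]
        refine Finset.sum_congr rfl fun i _ => ?_
        rw [Finset.sum_apply]
        rfl
    have hJm : ∀ y, y ∈ augJ (aug G) ↔ ∃ a : Fin d → GA G, y = ∑ i, a i * x' i := by
      intro y
      rw [← hker y, RingHom.mem_ker]
      unfold augJ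
      rw [LinearMap.mem_ker]
      rfl
    obtain ⟨c, hc0, hc1, hcB, hc⟩ := h5 (GA G) (aug G) d r x' (fun j => (ρ j : Fin d → GA G)) hJm
      hrel hJ
    exact h6 d r c hd2 hc0 hc1 hcB hc

end Pool.Agent.UDT
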