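import Pool.Agent.UDT.StM

set_option autoImplicit false
set_option linter.unusedSectionVars false

/-!
# UDT / M1: `K = L(i)`, embeddings and discriminant (helper13)
-/

namespace Pool.Agent.UDT

open IsDedekindDomain NumberField HP7 Pool.Agent.QCF
open scoped WithZero

section

variable {L K : Type} [Field L] [Field K] [Algebra L K]

private theorem m1_sq (q : QE L K (-1 : L)) : q.ω ^ 2 = -1 := by
  rw [q.sq, map_neg, map_one]

private theorem m1_indep (q : QE L K (-1 : L)) {x y : L}
    (h : algebraMap L K x + algebraMap L K y * q.ω = 0) : x = 0 ∧ y = 0 := by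
  have hinj := FaithfulSMul.algebraMap_injective L K
  have hy : y = 0 := by
    by_contra hy
    apply q.nsq
    have h1 : algebraMap L K y ≠ 0 := by
      rw [Ne, map_eq_zero]
      exact hy
    have h2 : q.ω = algebraMap L K (-x / y) := by
      rw [map_div₀, map_neg, eq_div_iff h1]
      linear_combination h
    refine ⟨-x / y, hinj ?_⟩
    rw [← q.sq, map_mul, ← h2, sq]
  subst hy
  rw [map_zero, zero_mul, add_zero, map_eq_zero] at h
  exact ⟨h, rfl⟩

private theorem m1_finrank (q : QE L K (-1 : L)) : Module.finrank L K = 2 := by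
  let f : (L × L) →ₗ[L] K :=
    { toFun := fun p => algebraMap L K p.1 + algebraMap L K p.2 * q.ω
      map_add' := fun p p' => by
        simp only [Prod.fst_add, Prod.snd_add, map_add]
        ring
      map_smul' := fun c p => by
        change algebraMap L K (c * p.1) + algebraMap L K (c * p.2) * q.ω =
          c • (algebraMap L K p.1 + algebraMap L K p.2 * q.ω)
        rw [map_mul, map_mul, Algebra.smul_def]
        ring }
  have hf : Function.Bijective f := by
    constructor
    · rw [injective_iff_map_eq_zero]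
      intro p hp
      obtain ⟨h1, h2⟩ := m1_indep q (x := p.1) (y := p.2) hp
      exact Prod.ext h1 h2
    · intro z
      obtain ⟨x, y, h⟩ := q.repr z
      exact ⟨(x, y), h.symm⟩
  have h1 := (LinearEquiv.ofBijective f hf).finrank_eq
  rw [← h1, Module.finrank_prod, Module.finrank_self]

private theorem m1_conj (q : QE L K (-1 : L)) (x y : L) :
    q.σ (algebraMap L K x + algebraMap L K y * q.ω) =
      algebraMap L K x - algebraMap L K y * q.ω := by
  rw [map_add, map_mul, AlgEquiv.commutes, AlgEquiv.commutes, q.hσ]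
  ring

private theorem m1_omega (q : QE L K (-1 : L)) (φ : K →+* ℂ) :
    starRingEnd ℂ (φ q.ω) = -φ q.ω := by
  have h1 : φ q.ω ^ 2 = -1 := by
    rw [← map_pow, m1_sq, map_neg, map_one]
  have h2 : (φ q.ω - Complex.I) * (φ q.ω + Complex.I) = 0 := by
    linear_combination h1 - Complex.I_sq
  rcases mul_eq_zero.mp h2 with h3 | h3
  · rw [sub_eq_zero.mp h3, Complex.conj_I]
  · rw [eq_neg_of_add_eq_zero_left h3, map_neg, Complex.conj_I]

private theorem m1_real (hL : ∀ w : InfinitePlace L, w.IsReal) (φ : K →+* ℂ) :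
    ∃ τ : L →+* ℝ, ∀ x : L, φ (algebraMap L K x) = (τ x : ℂ) := by
  have h1 : ComplexEmbedding.IsReal (φ.comp (algebraMap L K)) := by
    by_contra h2
    exact (InfinitePlace.not_isReal_iff_isComplex.mpr
      (InfinitePlace.isComplex_mk_iff.mpr h2)) (hL _)
  refine ⟨h1.embedding, fun x => ?_⟩
  rw [ComplexEmbedding.IsReal.coe_embedding_apply h1]
  rfl

private theorem m1_conj_embed (hL : ∀ w : InfinitePlace L, w.IsReal) (q : QE L K (-1 : L))
    (φ : K →+* ℂ) (z : K) : φ (q.σ z) = starRingEnd ℂ (φ z) := by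
  obtain ⟨τ, hτ⟩ := m1_real hL φ
  obtain ⟨x, y, rfl⟩ := q.repr z
  rw [m1_conj, map_sub, map_add, map_mul, hτ, hτ, map_add, map_mul, m1_omega,
    Complex.conj_ofReal, Complex.conj_ofReal]
  ring

end

section

variable {L K : Type} [Field L] [NumberField L] [Field K] [NumberField K] [Algebra L K]

private theorem m1_ext (q : QE L K (-1 : L)) (τ : L →+* ℝ) :
    ∃ φ : K →+* ℂ, ∀ x : L, φ (algebraMap L K x) = (τ x : ℂ) := by
  have : FiniteDimensional L K := FiniteDimensional.of_finrank_pos (by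
    rw [m1_finrank q]
    norm_num)
  let _ : Algebra L ℂ := (Complex.ofRealHom.comp τ).toAlgebra
  let ψ : K →ₐ[L] ℂ := IsAlgClosed.lift
  exact ⟨ψ.toRingHom, fun x => ψ.commutes x⟩

private theorem m1_complex (q : QE L K (-1 : L)) (w : InfinitePlace K) : w.IsComplex := by
  rw [← InfinitePlace.not_isReal_iff_isComplex]
  intro h
  have h1 := InfinitePlace.isReal_iff.mp h
  have h2 : starRingEnd ℂ (w.embedding q.ω) = w.embedding q.ω := by
    have := RingHom.congr_fun h1 q.ω
    exact this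
  rw [m1_omega] at h2
  have h3 : w.embedding q.ω = 0 := by
    linear_combination -(1 / 2 : ℂ) * h2
  have h4 : w.embedding q.ω ^ 2 = -1 := by
    rw [← map_pow, m1_sq, map_neg, map_one]
  rw [h3] at h4
  norm_num at h4

private theorem m1_int (q : QE L K (-1 : L)) :
    ∃ o : 𝓞 K, algebraMap (𝓞 K) K o = q.ω ∧ o ^ 2 = -1 := by
  have h1 : IsIntegral ℤ q.ω := by
    refine IsIntegral.of_pow (n := 2) (by norm_num) ?_
    rw [m1_sq]
    exact isIntegral_one.neg
  obtain ⟨o, ho⟩ : ∃ o : 𝓞 K, algebraMap (𝓞 K) K o = q.ω := ⟨⟨q.ω, h1⟩, rfl⟩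
  refine ⟨o, ho, ?_⟩
  apply FaithfulSMul.algebraMap_injective (𝓞 K) K
  rw [map_pow, ho, m1_sq, map_neg, map_one]

private theorem m1_adjoin (q : QE L K (-1 : L)) : Algebra.adjoin L {q.ω} = ⊤ := by
  rw [eq_top_iff]
  rintro z -
  obtain ⟨x, y, rfl⟩ := q.repr z
  exact add_mem (Subalgebra.algebraMap_mem _ x)
    (mul_mem (Subalgebra.algebraMap_mem _ y) (Algebra.subset_adjoin rfl))

private theorem m1_minpoly (q : QE L K (-1 : L)) (o : 𝓞 K)
    (ho : algebraMap (𝓞 K) K o = q.ω)
    (ho2 : o ^ 2 = -1) : minpoly (𝓞 L) o = Polynomial.X ^ 2 + 1 := by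
  symm
  have hdeg : (Polynomial.X ^ 2 + 1 : Polynomial (𝓞 L)).degree = 2 := by
    have := Polynomial.degree_X_pow_add_C (R := 𝓞 L) (n := 2) (by norm_num) 1
    rwa [map_one] at this
  refine minpoly.unique' _ _ ?_ ?_ ?_
  · have := Polynomial.monic_X_pow_add_C (R := 𝓞 L) (n := 2) 1 (by norm_num)
    rwa [map_one] at this
  · rw [map_add, map_pow, Polynomial.aeval_X, map_one, ho2]
    ring
  · intro p hp
    by_contra h
    push Not at h
    obtain ⟨h1, h2⟩ := h
    apply h1
    rw [hdeg] at hp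
    have h3 : p.degree ≤ 1 := Order.le_of_lt_succ hp
    rw [Polynomial.eq_X_add_C_of_degree_le_one h3] at h2 ⊢
    rw [map_add, map_mul, Polynomial.aeval_C, Polynomial.aeval_X, Polynomial.aeval_C] at h2
    have h4 := congrArg (algebraMap (𝓞 K) K) h2
    rw [map_add, map_mul, map_zero, ← IsScalarTower.algebraMap_apply,
      ← IsScalarTower.algebraMap_apply, IsScalarTower.algebraMap_apply (𝓞 L) L K,
      IsScalarTower.algebraMap_apply (𝓞 L) L K, ho, add_comm] at h4
    obtain ⟨h5, h6⟩ := m1_indep q h4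
    rw [FaithfulSMul.algebraMap_eq_zero_iff] at h5 h6
    rw [h5, h6]
    simp

private theorem m1_discr (q : QE L K (-1 : L)) :
    (discr K).natAbs ≤ 4 ^ Module.finrank ℚ L * (discr L).natAbs ^ 2 := by
  have : FiniteDimensional L K := FiniteDimensional.of_finrank_pos (by
    rw [m1_finrank q]
    norm_num)
  obtain ⟨o, ho, ho2⟩ := m1_int q
  have h1 : Polynomial.aeval o (Polynomial.derivative (minpoly (𝓞 L) o)) ∈
      differentIdeal (𝓞 L) (𝓞 K) :=
    aeval_derivative_mem_differentIdeal (𝓞 L) L K o (by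
      rw [ho]
      exact m1_adjoin q)
  rw [m1_minpoly q o ho ho2] at h1
  have h2 : Polynomial.aeval o (Polynomial.derivative
      (Polynomial.X ^ 2 + 1 : Polynomial (𝓞 L))) = 2 * o := by
    simp
    left
    norm_num
  rw [h2] at h1
  have h3 : Ideal.span {2 * o} ≤ differentIdeal (𝓞 L) (𝓞 K) := by
    rw [Ideal.span_singleton_le_iff_mem]
    exact h1
  have h4 := Ideal.absNorm_dvd_absNorm_of_le h3
  have h5 : IsUnit o := by
    refine IsUnit.of_mul_eq_one (-o) ?_
    linear_combination -ho2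
  have h6 : Module.finrank ℚ K = 2 * Module.finrank ℚ L := by
    rw [← Module.finrank_mul_finrank ℚ L K, m1_finrank q, mul_comm]
  have h7 : Ideal.absNorm (Ideal.span {2 * o}) = 4 ^ Module.finrank ℚ L := by
    rw [Ideal.absNorm_span_singleton, map_mul, Int.natAbs_mul,
      Int.isUnit_iff_natAbs_eq.mp (h5.map (Algebra.norm ℤ)), mul_one]
    have h8 : Algebra.norm ℤ (2 : 𝓞 K) = 2 ^ Module.finrank ℤ (𝓞 K) := by
      have := Algebra.norm_algebraMap_of_basis (Module.Free.chooseBasis ℤ (𝓞 K)) (2 : ℤ)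
      rw [map_ofNat, ← Module.finrank_eq_card_basis (Module.Free.chooseBasis ℤ (𝓞 K))] at this
      exact this
    rw [h8, RingOfIntegers.rank, h6, Int.natAbs_pow, pow_mul]
    norm_num
  rw [h7] at h4
  have h9 := natAbs_discr_eq_absNorm_differentIdeal_mul_natAbs_discr_pow L (𝓞 L) K (𝓞 K)
  rw [m1_finrank q] at h9
  rw [h9]
  exact Nat.mul_le_mul_right _ (Nat.le_of_dvd (by positivity) h4)

end

theorem thm_M1 : St_M1 := by
  intro L K _ _ _ _ _ q hL
  refine ⟨m1_finrank q, m1_complex q, m1_discr q, m1_conj_embed hL q, m1_real hL, m1_ext q, ?_⟩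
  intro z
  obtain ⟨x, y, rfl⟩ := q.repr z
  refine ⟨x ^ 2 + y ^ 2, ?_⟩
  rw [m1_conj, map_add, map_pow, map_pow]
  linear_combination (algebraMap L K y) ^ 2 * m1_sq q

end Pool.Agent.UDT
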