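import Pool.Agent.UDT.StM

set_option autoImplicit false

/-!
# UDT / M2: the primes of norm `l` split in `K = L(i)` (helper43)
-/

namespace Pool.Agent.UDT

open IsDedekindDomain NumberField HP7 Pool.Agent.QCF
open scoped WithZero

section

variable {L K : Type} [Field L] [NumberField L] [Field K] [NumberField K] [Algebra L K]

omit [NumberField L] [NumberField K] in
private theorem M2_rank (q : QE L K (-1 : L)) : Module.finrank L K ≤ 2 := by
  have h1 : Submodule.span L (Set.range ![(1 : K), q.ω]) = ⊤ := by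
    rw [eq_top_iff]
    intro z _
    obtain ⟨x, y, rfl⟩ := q.repr z
    refine Submodule.add_mem _ ?_ ?_
    · rw [Algebra.algebraMap_eq_smul_one]
      exact Submodule.smul_mem _ _ (Submodule.subset_span ⟨0, rfl⟩)
    · rw [← Algebra.smul_def]
      exact Submodule.smul_mem _ _ (Submodule.subset_span ⟨1, rfl⟩)
  have h2 := finrank_range_le_card (R := L) ![(1 : K), q.ω]
  rw [Set.finrank, h1, finrank_top, Fintype.card_fin] at h2
  exact h2

omit [NumberField L] in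
private theorem M2_norm (q : QE L K (-1 : L)) (x : 𝓞 K) : ∃ β : 𝓞 L,
    algebraMap (𝓞 L) (𝓞 K) β = x * RingOfIntegers.mapRingEquiv (q.σ : K ≃+* K) x := by
  obtain ⟨a, b, hab⟩ := q.repr (x : K)
  have h0 : algebraMap L K (a ^ 2 + b ^ 2) = (x : K) * q.σ (x : K) := by
    have h1 := q.sq
    rw [map_neg, map_one] at h1
    have h2 : q.σ (algebraMap L K a + algebraMap L K b * q.ω) =
        algebraMap L K a - algebraMap L K b * q.ω := by
      rw [map_add, map_mul, AlgEquiv.commutes, AlgEquiv.commutes, q.hσ]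
      ring
    rw [hab, h2, map_add, map_pow, map_pow]
    linear_combination (algebraMap L K b) ^ 2 * h1
  have h1 : IsIntegral ℤ (algebraMap L K (a ^ 2 + b ^ 2)) := by
    rw [h0]
    exact x.2.mul (RingOfIntegers.mapRingEquiv (q.σ : K ≃+* K) x).2
  have h2 : IsIntegral ℤ (a ^ 2 + b ^ 2) :=
    (isIntegral_algebraMap_iff (algebraMap L K).injective).1 h1
  exact ⟨⟨a ^ 2 + b ^ 2, h2⟩, RingOfIntegers.ext h0⟩

private theorem M2_lsq (w : HeightOneSpectrum (𝓞 L)) (l : ℕ) (hl : l.Prime) (h4 : l % 4 = 1)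
    (hN : Ideal.absNorm w.asIdeal = l) : LSq (Sum.inl w) (((-1 : Lˣ) : Lˣ) : L) := by
  have hlw : ((l : ℕ) : 𝓞 L) ∈ w.asIdeal := by
    rw [← hN]
    exact Ideal.absNorm_mem _
  have hfact : Fact l.Prime := ⟨hl⟩
  obtain ⟨r, hr⟩ := ZMod.exists_sq_eq_neg_one_iff.2 (show l % 4 ≠ 3 by omega)
  obtain ⟨x, rfl⟩ := ZMod.intCast_surjective r
  have h1 : (l : ℤ) ∣ x ^ 2 + 1 := by
    rw [← ZMod.intCast_zmod_eq_zero_iff_dvd]
    push_cast
    linear_combination -hr
  obtain ⟨c, hc⟩ := h1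
  have h2 : (x : 𝓞 L) ^ 2 + 1 ∈ w.asIdeal := by
    have h3 := congrArg (fun z : ℤ => (z : 𝓞 L)) hc
    push_cast at h3
    rw [h3]
    exact Ideal.mul_mem_right _ _ hlw
  have h5 : (4 : 𝓞 L) * (-1) ∉ w.asIdeal := by
    intro h6
    apply w.isPrime.ne_top
    rw [Ideal.eq_top_iff_one]
    have h7 : ((l : ℕ) : 𝓞 L) + ((l / 4 : ℕ) : 𝓞 L) * ((4 : 𝓞 L) * (-1)) ∈ w.asIdeal :=
      Ideal.add_mem _ hlw (Ideal.mul_mem_left _ _ h6)
    have h8 : l = 4 * (l / 4) + 1 := by omega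
    have h9 : ((l : ℕ) : 𝓞 L) = 4 * ((l / 4 : ℕ) : 𝓞 L) + 1 := by
      have := congrArg (fun z : ℕ => (z : 𝓞 L)) h8
      push_cast at this
      exact this
    have h10 : ((l : ℕ) : 𝓞 L) + ((l / 4 : ℕ) : 𝓞 L) * ((4 : 𝓞 L) * (-1)) = 1 := by
      rw [h9]
      ring
    rw [h10] at h7
    exact h7
  refine (st_L12 L w (-1)).1.2 ⟨(x : L), ?_⟩
  have h11 : (((-1 : Lˣ) : Lˣ) : L) - (x : L) ^ 2 =
      algebraMap (𝓞 L) L (-((x : 𝓞 L) ^ 2 + 1)) := by
    rw [map_neg, map_add, map_pow, map_one, map_intCast, Units.val_neg, Units.val_one]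
    ring
  have h12 : (4 : L) * (((-1 : Lˣ) : Lˣ) : L) = algebraMap (𝓞 L) L ((4 : 𝓞 L) * (-1)) := by
    rw [map_mul, map_neg, map_one, map_ofNat, Units.val_neg, Units.val_one]
  rw [h11, h12]
  have h13 : w.valuation L (algebraMap (𝓞 L) L (-((x : 𝓞 L) ^ 2 + 1))) < 1 := by
    rw [HeightOneSpectrum.valuation_lt_one_iff_mem]
    exact neg_mem h2
  have h14 : ¬ w.valuation L (algebraMap (𝓞 L) L ((4 : 𝓞 L) * (-1))) < 1 := by
    rw [HeightOneSpectrum.valuation_lt_one_iff_mem]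
    exact h5
  exact lt_of_lt_of_le h13 (not_lt.1 h14)

end

theorem thm_M2 : St_T0 → St_M2 := by
  intro hT0 L K _ _ _ _ _ q w l hl h4 hN
  obtain ⟨-, -, -, hund, -, -⟩ := hT0 L K
  have hcard := (st_N6 L K (-1) q w).1 (M2_lsq w l hl h4 hN)
  obtain ⟨P, P', hne, hset⟩ := Set.ncard_eq_two.1 hcard
  have hP : P.under (𝓞 L) = w := by
    have : P ∈ ({P, P'} : Set (HeightOneSpectrum (𝓞 K))) := Or.inl rfl
    rw [← hset] at this
    exact this
  have hP' : P'.under (𝓞 L) = w := by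
    have : P' ∈ ({P, P'} : Set (HeightOneSpectrum (𝓞 K))) := Or.inr rfl
    rw [← hset] at this
    exact this
  have hmv : mv q.σ P = P' := by
    have h1 : mv q.σ P ∈ ({P, P'} : Set (HeightOneSpectrum (𝓞 K))) := by
      rw [← hset]
      show (mv q.σ P).under (𝓞 L) = w
      rw [hund, hP]
    rcases h1 with h1 | h1
    · exfalso
      have h2 : ¬ P'.asIdeal ≤ P.asIdeal := by
        intro h3
        apply hne
        apply HeightOneSpectrum.ext
        exact (P'.isMaximal.eq_of_le P.isPrime.ne_top h3).symm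
      obtain ⟨x, hx', hx⟩ := Set.not_subset.1 h2
      obtain ⟨β, hβ⟩ := M2_norm q x
      have h3 : algebraMap (𝓞 L) (𝓞 K) β ∈ P'.asIdeal := by
        rw [hβ]
        exact Ideal.mul_mem_right _ _ hx'
      have h4 : β ∈ w.asIdeal := by
        rw [← hP']
        exact h3
      have h5 : algebraMap (𝓞 L) (𝓞 K) β ∈ P.asIdeal := by
        rw [← hP] at h4
        exact h4
      rw [hβ] at h5
      rcases P.isPrime.mem_or_mem h5 with h6 | h6
      · exact hx h6
      · have h7 : x ∈ (mv q.σ P).asIdeal := h6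
        rw [h1] at h7
        exact hx h7
    · exact h1
  have hmvne : mv q.σ P ≠ P := fun h => hne (by rw [← hmv, h])
  have hle : ∀ Q : HeightOneSpectrum (𝓞 K), Q.under (𝓞 L) = w →
      Ideal.map (algebraMap (𝓞 L) (𝓞 K)) w.asIdeal ≤ Q.asIdeal := by
    intro Q hQ
    rw [Ideal.map_le_iff_le_comap]
    intro x hx
    rw [← hQ] at hx
    exact hx
  have hcop : IsCoprime P.asIdeal P'.asIdeal := by
    have := P.isMaximal
    have := P'.isMaximal
    exact Ideal.isCoprime_of_isMaximal fun h => hne (HeightOneSpectrum.ext h)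
  obtain ⟨J, hJ⟩ : P.asIdeal * P'.asIdeal ∣ Ideal.map (algebraMap (𝓞 L) (𝓞 K)) w.asIdeal :=
    hcop.mul_dvd (Ideal.dvd_iff_le.2 (hle P hP)) (Ideal.dvd_iff_le.2 (hle P' hP'))
  have hnorm : Ideal.absNorm (Ideal.map (algebraMap (𝓞 L) (𝓞 K)) w.asIdeal) =
      l ^ Module.finrank (𝓞 L) (𝓞 K) := by
    rw [Ideal.absNorm_algebraMap, hN]
  have hfr : Module.finrank (𝓞 L) (𝓞 K) ≤ 2 := by
    rw [← IsFractionRing.finrank_eq (𝓞 L) L (𝓞 K) K]
    exact M2_rank q
  rw [hJ, map_mul, map_mul] at hnorm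
  have hge : ∀ Q : HeightOneSpectrum (𝓞 K), Ideal.absNorm Q.asIdeal ∣
      l ^ Module.finrank (𝓞 L) (𝓞 K) → l ≤ Ideal.absNorm Q.asIdeal := by
    intro Q hQ
    obtain ⟨j, -, hj⟩ := (Nat.dvd_prime_pow hl).1 hQ
    rcases Nat.eq_zero_or_pos j with h | h
    · exfalso
      rw [h, pow_zero] at hj
      exact Q.isPrime.ne_top (Ideal.absNorm_eq_one_iff.1 hj)
    · rw [hj]
      exact Nat.le_self_pow h.ne' l
  have h1 : l ≤ Ideal.absNorm P.asIdeal := hge P ⟨_, by rw [← hnorm, mul_assoc]⟩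
  have h2 : l ≤ Ideal.absNorm P'.asIdeal :=
    hge P' ⟨Ideal.absNorm P.asIdeal * Ideal.absNorm J, by rw [← hnorm]; ring⟩
  have h3 : Ideal.absNorm P.asIdeal * Ideal.absNorm P'.asIdeal * Ideal.absNorm J ≤ l * l := by
    rw [hnorm, ← pow_two]
    exact Nat.pow_le_pow_right hl.pos hfr
  have h4 : 1 ≤ Ideal.absNorm J := by
    rw [Nat.one_le_iff_ne_zero]
    intro h
    rw [h, mul_zero] at hnorm
    exact (pow_pos hl.pos _).ne hnorm
  have h5 : l * l ≤ Ideal.absNorm P.asIdeal * Ideal.absNorm P'.asIdeal := Nat.mul_le_mul h1 h2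
  have h6 : Ideal.absNorm P.asIdeal * Ideal.absNorm P'.asIdeal ≤ l * l :=
    (Nat.le_mul_of_pos_right _ h4).trans h3
  have h7 : Ideal.absNorm P.asIdeal = l := by
    refine le_antisymm ?_ h1
    by_contra h
    rw [not_le] at h
    have := Nat.mul_lt_mul_of_lt_of_le h h2 (hl.pos.trans_le h2)
    omega
  have h8 : Ideal.absNorm P'.asIdeal = l := by
    rw [h7] at h6
    exact le_antisymm (Nat.le_of_mul_le_mul_left h6 hl.pos) h2
  have h9 : Ideal.absNorm J = 1 := by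
    rw [h7, h8] at h3
    refine le_antisymm ?_ h4
    exact Nat.le_of_mul_le_mul_left (by rw [mul_one]; exact h3) (Nat.mul_pos hl.pos hl.pos)
  refine ⟨P, hP, h7, hmvne, ?_, ?_⟩
  · rw [hmv, h8]
  · rw [hmv, hJ, Ideal.absNorm_eq_one_iff.1 h9, Ideal.mul_top]

end Pool.Agent.UDT
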