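import Pool.Agent.UDT.StM

set_option autoImplicit false

/-!
UDT [M3]: Minkowski's theorem for an ideal of a totally complex field (helper8).
-/

namespace Pool.Agent.UDT

open NumberField NumberField.mixedEmbedding MeasureTheory Module IsDedekindDomain
open scoped NNReal ENNReal nonZeroDivisors

private theorem M3_nrR {K : Type} [Field K] [NumberField K] (h : ∀ w : InfinitePlace K, w.IsComplex) :
    InfinitePlace.nrRealPlaces K = 0 := by
  classical
  rw [InfinitePlace.nrRealPlaces]
  have : IsEmpty {w : InfinitePlace K // w.IsReal} :=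
    ⟨fun w => (InfinitePlace.not_isReal_iff_isComplex.2 (h w.1)) w.2⟩
  exact Fintype.card_of_isEmpty

private theorem M3_nrC {K : Type} [Field K] [NumberField K] (h : ∀ w : InfinitePlace K, w.IsComplex) {D : ℕ}
    (hD : finrank ℚ K = 2 * D) : InfinitePlace.nrComplexPlaces K = D := by
  have h1 := InfinitePlace.card_add_two_mul_card_eq_rank K
  rw [M3_nrR h, hD] at h1
  omega

open scoped Classical in
/-- [M3] Minkowski's theorem for an ideal of a totally complex field -/
theorem thm_M3 : St_M3 := by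
  intro K _ _ D I r hc hD hI hr hlt
  have hcard : Fintype.card (InfinitePlace K) = D := by
    have h1 := InfinitePlace.card_eq_nrRealPlaces_add_nrComplexPlaces K
    rw [M3_nrR hc, M3_nrC hc hD, zero_add] at h1
    exact h1
  obtain ⟨u, hu⟩ : ∃ u : (FractionalIdeal (𝓞 K)⁰ K)ˣ, (u : FractionalIdeal (𝓞 K)⁰ K) = I :=
    ⟨Units.mk0 (I : FractionalIdeal (𝓞 K)⁰ K) (by simpa using hI), rfl⟩
  set f : InfinitePlace K → ℝ≥0 := fun _ => ⟨√r, Real.sqrt_nonneg r⟩ with hf
  have hvol : volume (convexBodyLT K f) = ENNReal.ofReal (Real.pi ^ D * r ^ D) := by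
    rw [convexBodyLT_volume]
    have h1 : (∏ w : InfinitePlace K, f w ^ w.mult : ℝ≥0) = ⟨r ^ D, by positivity⟩ := by
      have h2 : ∀ w : InfinitePlace K, f w ^ w.mult = ⟨r, hr.le⟩ := by
        intro w
        rw [InfinitePlace.mult, if_neg (InfinitePlace.not_isReal_iff_isComplex.2 (hc w))]
        apply NNReal.eq
        simp only [hf, NNReal.coe_pow]
        exact Real.sq_sqrt hr.le
      rw [Finset.prod_congr rfl fun w _ => h2 w, Finset.prod_const, Finset.card_univ, hcard]
      apply NNReal.eq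
      rw [NNReal.coe_pow]
      rfl
    rw [h1, convexBodyLTFactor, M3_nrR hc, M3_nrC hc hD, pow_zero, one_mul,
      ENNReal.ofReal_mul (by positivity), ENNReal.ofReal_pow Real.pi_pos.le]
    congr 1
    · rw [ENNReal.coe_pow]
      congr 1
      rw [ENNReal.ofReal, Real.toNNReal_of_nonneg Real.pi_pos.le]
      rfl
    · rw [ENNReal.ofReal, Real.toNNReal_of_nonneg (by positivity : 0 ≤ r ^ D)]
      rfl
  have hmin : minkowskiBound K u =
      ENNReal.ofReal ((Ideal.absNorm I : ℝ) * 2 ^ D * √((discr K).natAbs : ℝ)) := by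
    rw [minkowskiBound, volume_fundamentalDomain_fractionalIdealLatticeBasis,
      volume_fundamentalDomain_latticeBasis, mixedEmbedding.finrank, hD, M3_nrC hc hD, hu,
      FractionalIdeal.coeIdeal_absNorm]
    have h2 : ((NNReal.sqrt ‖discr K‖₊ : ℝ≥0) : ℝ≥0∞) =
        ENNReal.ofReal √((discr K).natAbs : ℝ) := by
      rw [ENNReal.ofReal]
      congr 1
      apply NNReal.eq
      rw [Real.coe_toNNReal _ (Real.sqrt_nonneg _), Real.coe_sqrt, coe_nnnorm,
        Int.norm_eq_abs, Nat.cast_natAbs]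
      norm_cast
    have h3 : ENNReal.ofReal ((Ideal.absNorm I : ℚ) : ℝ) = ENNReal.ofReal (Ideal.absNorm I : ℝ) := by
      norm_num
    have h4 : (2 : ℝ≥0∞)⁻¹ ^ D * 2 ^ (2 * D) = 2 ^ D := by
      rw [two_mul, pow_add, ← mul_assoc, ← mul_pow, ENNReal.inv_mul_cancel (by norm_num) (by norm_num),
        one_pow, one_mul]
    have h5 : (2 : ℝ≥0∞) ^ D = ENNReal.ofReal (2 ^ D) := by
      rw [ENNReal.ofReal_pow (by norm_num)]
      norm_num
    rw [h2, h3, ENNReal.ofReal_mul (by positivity), ENNReal.ofReal_mul (by positivity), ← h5, ← h4]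
    ring
  have hlt' : minkowskiBound K u < volume (convexBodyLT K f) := by
    rw [hvol, hmin, ENNReal.ofReal_lt_ofReal_iff (by positivity)]
    exact hlt
  obtain ⟨a, ha, ha0, hw⟩ := exists_ne_zero_mem_ideal_lt K u hlt'
  rw [hu] at ha
  obtain ⟨z, hz, rfl⟩ := (FractionalIdeal.mem_coeIdeal _).1 ha
  refine ⟨z, hz, ?_, ?_⟩
  · rintro rfl
    exact ha0 (by simp)
  · intro φ
    have h1 := hw (InfinitePlace.mk φ)
    have h2 : ‖φ (z : K)‖ < √r := by
      exact h1
    calc ‖φ (z : K)‖ ^ 2 < √r ^ 2 := by gcongr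
      _ = r := Real.sq_sqrt hr.le

end Pool.Agent.UDT
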