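import Pool.Agent.UDT.StM

set_option autoImplicit false

/-!
# UDT, module M4: bounded integers are few
-/

namespace Pool.Agent.UDT

open NumberField Module
open scoped Classical

private noncomputable def M4_cell {K : Type} [Field K] [NumberField K] (ρ : ℝ) (x : 𝓞 K)
    (φ : K →+* ℂ) : ℤ × ℤ :=
  (⌊2 * (φ (x : K)).re / ρ⌋, ⌊2 * (φ (x : K)).im / ρ⌋)

private theorem M4_floor_mem (ρ : ℝ) (hρ : 0 < ρ) (a : ℕ) (t : ℝ) (h : |t| ≤ a * ρ / 2) :
    ⌊2 * t / ρ⌋ ∈ Finset.Icc (-(a : ℤ)) a := by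
  have h1 := (abs_le.mp h).1
  have h2 := (abs_le.mp h).2
  rw [Finset.mem_Icc]
  constructor
  · rw [Int.le_floor, le_div_iff₀ hρ]
    push_cast
    linarith
  · have : 2 * t / ρ ≤ a := by
      rw [div_le_iff₀ hρ]
      linarith
    have h3 := Int.floor_mono this
    rw [Int.floor_natCast] at h3
    exact h3

private theorem M4_floor_diff (ρ : ℝ) (hρ : 0 < ρ) (s t : ℝ) (h : ⌊2 * s / ρ⌋ = ⌊2 * t / ρ⌋) :
    |s - t| < ρ / 2 := by
  have h1 := Int.abs_sub_lt_one_of_floor_eq_floor h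
  have h2 : 2 * s / ρ - 2 * t / ρ = 2 * (s - t) / ρ := by ring
  rw [h2, abs_div, abs_mul, abs_of_pos hρ, div_lt_one hρ] at h1
  rw [abs_of_pos (by norm_num : (0 : ℝ) < 2)] at h1
  linarith

private theorem M4_cell_mem {K : Type} [Field K] [NumberField K] (ρ : ℝ) (hρ : 0 < ρ) (a : ℕ)
    (x : 𝓞 K) (h : ∀ φ : K →+* ℂ, ‖φ (x : K)‖ ≤ a * ρ / 2) :
    M4_cell ρ x ∈ Fintype.piFinset (fun _ : K →+* ℂ =>
      Finset.Icc (-(a : ℤ)) a ×ˢ Finset.Icc (-(a : ℤ)) a) := by
  rw [Fintype.mem_piFinset]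
  intro φ
  rw [Finset.mem_product]
  exact ⟨M4_floor_mem ρ hρ a _ ((Complex.abs_re_le_norm _).trans (h φ)),
    M4_floor_mem ρ hρ a _ ((Complex.abs_im_le_norm _).trans (h φ))⟩

private theorem M4_card_cells (K : Type) [Field K] [NumberField K] (a : ℕ) :
    (Fintype.piFinset (fun _ : K →+* ℂ =>
      Finset.Icc (-(a : ℤ)) a ×ˢ Finset.Icc (-(a : ℤ)) a)).card =
      ((2 * a + 1) * (2 * a + 1)) ^ finrank ℚ K := by
  rw [Fintype.card_piFinset, Finset.prod_const, Finset.card_univ, Embeddings.card,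
    Finset.card_product, Int.card_Icc]
  congr 2 <;> omega

private theorem M4_cell_diff {K : Type} [Field K] [NumberField K] (ρ : ℝ) (hρ : 0 < ρ)
    (x y : 𝓞 K) (h : M4_cell ρ x = M4_cell ρ y) (φ : K →+* ℂ) :
    ‖φ ((x - y : 𝓞 K) : K)‖ < ρ := by
  have h1 := congrFun h φ
  have h2 := M4_floor_diff ρ hρ _ _ (congrArg Prod.fst h1)
  have h3 := M4_floor_diff ρ hρ _ _ (congrArg Prod.snd h1)
  have h4 : φ ((x - y : 𝓞 K) : K) = φ (x : K) - φ (y : K) := by
    rw [← map_sub]
    rfl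
  rw [h4]
  calc ‖φ (x : K) - φ (y : K)‖
      ≤ |(φ (x : K) - φ (y : K)).re| + |(φ (x : K) - φ (y : K)).im| :=
        Complex.norm_le_abs_re_add_abs_im _
    _ < ρ := by
        rw [Complex.sub_re, Complex.sub_im]
        linarith

private theorem M4_eq_zero {K : Type} [Field K] [NumberField K] (x : 𝓞 K)
    (h : ∀ w : InfinitePlace K, w (x : K) < 1) : x = 0 := by
  by_contra h0
  obtain ⟨w⟩ : Nonempty (InfinitePlace K) := inferInstance
  have := InfinitePlace.one_le_of_lt_one (w := w) h0 (fun z _ => h z)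
  exact absurd (h w) (not_lt.mpr this)

private theorem M4_one (K : Type) [Field K] [NumberField K] (B : ℕ) (X : Finset (𝓞 K))
    (hX : ∀ x ∈ X, ∀ φ : K →+* ℂ, ‖φ (x : K)‖ ≤ B) :
    X.card ≤ (4 * B + 1) ^ (2 * finrank ℚ K) := by
  have h1 : X.card ≤ (Fintype.piFinset (fun _ : K →+* ℂ =>
      Finset.Icc (-((2 * B : ℕ) : ℤ)) (2 * B : ℕ) ×ˢ
        Finset.Icc (-((2 * B : ℕ) : ℤ)) (2 * B : ℕ))).card := by
    apply Finset.card_le_card_of_injOn (M4_cell 1)
    · intro x hx
      apply M4_cell_mem 1 one_pos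
      intro φ
      have := hX x hx φ
      push_cast
      linarith
    · intro x _ y _ hxy
      have h2 := M4_cell_diff 1 one_pos x y hxy
      have h3 : x - y = 0 := by
        apply M4_eq_zero
        intro w
        rw [← InfinitePlace.norm_embedding_eq]
        exact h2 _
      exact sub_eq_zero.mp h3
  refine h1.trans (le_of_eq ?_)
  rw [M4_card_cells, pow_mul]
  congr 1
  ring

private theorem M4_two (L : Type) [Field L] [NumberField L] (B : ℕ) (X : Finset (𝓞 L))
    (hL : ∀ w : InfinitePlace L, w.IsReal)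
    (hX : ∀ x ∈ X, ∀ τ : L →+* ℝ, 0 ≤ τ (x : L) ∧ τ (x : L) ≤ B) :
    X.card ≤ (2 * B + 1) ^ finrank ℚ L := by
  classical
  have h1 : X.card ≤ (Fintype.piFinset (fun _ : L →+* ℝ =>
      Finset.Icc (0 : ℤ) (2 * B : ℕ))).card := by
    apply Finset.card_le_card_of_injOn (fun x τ => ⌊2 * τ (x : L) / 1⌋)
    · intro x hx
      have : (fun τ : L →+* ℝ => ⌊2 * τ (x : L) / 1⌋) ∈ Fintype.piFinset (fun _ : L →+* ℝ =>
          Finset.Icc (0 : ℤ) (2 * B : ℕ)) := by
        rw [Fintype.mem_piFinset]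
        intro τ
        obtain ⟨h2, h3⟩ := hX x hx τ
        rw [Finset.mem_Icc]
        constructor
        · rw [Int.le_floor]
          push_cast
          linarith
        · have h4 : 2 * τ (x : L) / 1 ≤ ((2 * B : ℕ) : ℝ) := by
            push_cast
            linarith
          have h5 := Int.floor_mono h4
          rw [Int.floor_natCast] at h5
          exact h5
      exact this
    · intro x _ y _ hxy
      have h2 : ∀ τ : L →+* ℝ, |τ (x : L) - τ (y : L)| < 1 / 2 := fun τ =>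
        M4_floor_diff 1 one_pos _ _ (congrFun hxy τ)
      have h3 : x - y = 0 := by
        apply M4_eq_zero
        intro w
        have h4 := InfinitePlace.norm_embedding_of_isReal (hL w) ((x - y : 𝓞 L) : L)
        rw [← h4, Real.norm_eq_abs]
        have h5 : InfinitePlace.embedding_of_isReal (hL w) ((x - y : 𝓞 L) : L) =
            InfinitePlace.embedding_of_isReal (hL w) (x : L) -
              InfinitePlace.embedding_of_isReal (hL w) (y : L) := by
          rw [← map_sub]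
          rfl
        rw [h5]
        have := h2 (InfinitePlace.embedding_of_isReal (hL w))
        linarith
      exact sub_eq_zero.mp h3
  refine h1.trans ?_
  rw [Fintype.card_piFinset, Finset.prod_const, Finset.card_univ, Int.card_Icc]
  have h6 : (((2 * B : ℕ) : ℤ) + 1 - 0).toNat = 2 * B + 1 := by omega
  rw [h6]
  apply Nat.pow_le_pow_right (by omega)
  rw [← Embeddings.card L ℂ]
  apply Fintype.card_le_of_injective (fun τ : L →+* ℝ => Complex.ofRealHom.comp τ)
  intro τ τ' h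
  ext z
  have := congrArg (fun f : L →+* ℂ => f z) h
  exact Complex.ofReal_injective this

private theorem M4_finite (K : Type) [Field K] [NumberField K] (ρ : ℝ) :
    {x : 𝓞 K | ∀ φ : K →+* ℂ, ‖φ (x : K)‖ ≤ ρ}.Finite := by
  have h := Embeddings.finite_of_norm_le K ℂ ρ
  apply Set.Finite.of_finite_image (f := fun x : 𝓞 K => (x : K))
  · apply h.subset
    rintro _ ⟨x, hx, rfl⟩
    exact ⟨RingOfIntegers.isIntegral_coe x, hx⟩
  · intro x _ y _ hxy
    exact RingOfIntegers.coe_injective hxy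

private theorem M4_three (K : Type) [Field K] [NumberField K] (ρ : ℝ) (hρ : 0 < ρ) :
    ∃ X Y : Finset (𝓞 K), (∀ x, x ∈ X ↔ ∀ φ : K →+* ℂ, ‖φ (x : K)‖ ≤ ρ) ∧
      (∀ x, x ∈ Y ↔ ∀ φ : K →+* ℂ, ‖φ (x : K)‖ ≤ 2 * ρ) ∧
      Y.card ≤ 81 ^ finrank ℚ K * X.card := by
  classical
  refine ⟨(M4_finite K ρ).toFinset, (M4_finite K (2 * ρ)).toFinset,
    fun x => (M4_finite K ρ).mem_toFinset, fun x => (M4_finite K (2 * ρ)).mem_toFinset, ?_⟩
  · set X := (M4_finite K ρ).toFinset
    set Y := (M4_finite K (2 * ρ)).toFinset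
    have hY : ∀ x : 𝓞 K, x ∈ Y → ∀ φ : K →+* ℂ, ‖φ (x : K)‖ ≤ 2 * ρ := by
      intro x hx
      rw [Set.Finite.mem_toFinset] at hx
      exact hx
    have hXm : ∀ x : 𝓞 K, (∀ φ : K →+* ℂ, ‖φ (x : K)‖ ≤ ρ) → x ∈ X := by
      intro x hx
      rw [Set.Finite.mem_toFinset]
      exact hx
    have h1 : Y.card ≤ X.card * (Y.image (M4_cell ρ)).card := by
      apply Finset.card_le_mul_card_image
      intro c hc
      obtain ⟨y, hy, rfl⟩ := Finset.mem_image.mp hc
      apply Finset.card_le_card_of_injOn (fun x => x - y)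
      · intro x hx
        have hx' := (Finset.mem_filter.mp hx).2
        exact hXm _ (fun φ => (M4_cell_diff ρ hρ x y hx' φ).le)
      · intro x _ x' _ h
        exact sub_left_injective h
    have h2 : (Y.image (M4_cell ρ)).card ≤ 81 ^ finrank ℚ K := by
      have h3 : Y.image (M4_cell ρ) ⊆ Fintype.piFinset (fun _ : K →+* ℂ =>
          Finset.Icc (-((4 : ℕ) : ℤ)) (4 : ℕ) ×ˢ Finset.Icc (-((4 : ℕ) : ℤ)) (4 : ℕ)) := by
        intro c hc
        obtain ⟨y, hy, rfl⟩ := Finset.mem_image.mp hc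
        apply M4_cell_mem ρ hρ
        intro φ
        have := hY y hy φ
        push_cast
        linarith
      have h4 := Finset.card_le_card h3
      rw [M4_card_cells] at h4
      exact h4
    calc Y.card ≤ X.card * (Y.image (M4_cell ρ)).card := h1
      _ ≤ X.card * 81 ^ finrank ℚ K := Nat.mul_le_mul_left _ h2
      _ = 81 ^ finrank ℚ K * X.card := Nat.mul_comm _ _

theorem thm_M4 : St_M4 :=
  ⟨fun K _ _ B X hX => M4_one K B X hX,
    fun L _ _ B X hL hX => M4_two L B X hL hX,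
    fun K _ _ ρ hρ => M4_three K ρ hρ⟩

end Pool.Agent.UDT
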