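import Pool.Agent.UDT.StM

set_option autoImplicit false

/-!
# UDT / M5: products of primes and their short elements (helper21)
-/

namespace Pool.Agent.UDT

open IsDedekindDomain NumberField HP7 Pool.Agent.QCF
open scoped WithZero

theorem M5_ne (K : Type) [Field K] [NumberField K] : Nonempty (HeightOneSpectrum (𝓞 K)) := by
  obtain ⟨M, hM⟩ := Ideal.exists_maximal (𝓞 K)
  exact ⟨⟨M, hM.isPrime,
    Ring.ne_bot_of_isMaximal_of_not_isField hM (RingOfIntegers.not_isField K)⟩⟩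

theorem M5_num (D : ℕ) (hD : 1 ≤ D) (Q P dK : ℝ) (hQ : 0 < Q) (hP : 1 ≤ P)
    (hd : dK ≤ 4 ^ D * (P ^ D) ^ 2) :
    Q ^ D * 2 ^ D * √dK < Real.pi ^ D * (2 * Q * P) ^ D := by
  have hP0 : 0 < P := by linarith
  have h1 : √dK ≤ 2 ^ D * P ^ D := by
    rw [Real.sqrt_le_iff]
    refine ⟨by positivity, hd.trans (le_of_eq ?_)⟩
    have h5 : (4 : ℝ) ^ D = (2 ^ D) ^ 2 := by
      rw [← pow_mul, mul_comm D 2, pow_mul]
      norm_num
    rw [mul_pow, h5]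
  have h2 : (4 * (Q * P)) ^ D < (Real.pi * (2 * Q * P)) ^ D := by
    refine pow_lt_pow_left₀ ?_ (by positivity) (by omega)
    have h3 := Real.pi_gt_three
    have h4 : 0 < Q * P := by positivity
    nlinarith
  calc Q ^ D * 2 ^ D * √dK ≤ Q ^ D * 2 ^ D * (2 ^ D * P ^ D) :=
        mul_le_mul_of_nonneg_left h1 (by positivity)
    _ = (4 * (Q * P)) ^ D := by
        rw [mul_pow, mul_pow, show (4 : ℝ) = 2 * 2 by norm_num, mul_pow]
        ring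
    _ < (Real.pi * (2 * Q * P)) ^ D := h2
    _ = _ := mul_pow _ _ _

theorem M5_prod {ι : Type} (Z : Finset ι) (N : ι → ℕ) (T : Finset ℕ) (D : ℕ)
    (h : ∀ w ∈ Z, N w ∈ T) (hc : ∀ l ∈ T, (Z.filter (fun w => N w = l)).card = D) :
    ∏ w ∈ Z, N w = (∏ l ∈ T, l) ^ D := by
  rw [← Finset.prod_fiberwise_of_maps_to h, ← Finset.prod_pow]
  refine Finset.prod_congr rfl fun l hl => ?_
  have e2 : ∏ w ∈ Z.filter (fun w => N w = l), N w = ∏ _w ∈ Z.filter (fun w => N w = l), l :=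
    Finset.prod_congr rfl fun w hw => (Finset.mem_filter.1 hw).2
  rw [e2, Finset.prod_const, hc l hl]

theorem thm_M5 : St_M1 → St_M2 → St_M3 → St_M5 := by
  intro h1 h2 h3 L K _ _ _ _ _ q P m T Z hreal hP hdeg hdisc hT hZ hcard
  classical
  obtain ⟨a1, a2, a3, -⟩ := h1 L K q hreal
  have hne : Nonempty (HeightOneSpectrum (𝓞 K)) := M5_ne K
  have hw : ∀ w ∈ Z, ∃ 𝔓 : HeightOneSpectrum (𝓞 K), 𝔓.under (𝓞 L) = w ∧
      Ideal.absNorm 𝔓.asIdeal = Ideal.absNorm w.asIdeal ∧ mv q.σ 𝔓 ≠ 𝔓 ∧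
      Ideal.absNorm (mv q.σ 𝔓).asIdeal = Ideal.absNorm w.asIdeal ∧
      Ideal.map (algebraMap (𝓞 L) (𝓞 K)) w.asIdeal = 𝔓.asIdeal * (mv q.σ 𝔓).asIdeal :=
    fun w hw => h2 L K q w _ (hT _ ((hZ w).1 hw)).1 (hT _ ((hZ w).1 hw)).2 rfl
  choose! 𝔓 b1 b2 b3 b4 b5 using hw
  let 𝔞 : Finset (HeightOneSpectrum (𝓞 L)) → Ideal (𝓞 K) := fun E =>
    ∏ w ∈ Z, if w ∈ E then (𝔓 w).asIdeal else (mv q.σ (𝔓 w)).asIdeal
  have hnorm : ∀ E, Ideal.absNorm (𝔞 E) = (∏ l ∈ T, l) ^ 2 ^ (m + 1) := by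
    intro E
    change Ideal.absNorm (∏ w ∈ Z, if w ∈ E then (𝔓 w).asIdeal else (mv q.σ (𝔓 w)).asIdeal) = _
    rw [map_prod]
    have e1 : ∏ w ∈ Z, Ideal.absNorm (if w ∈ E then (𝔓 w).asIdeal else
        (mv q.σ (𝔓 w)).asIdeal) = ∏ w ∈ Z, Ideal.absNorm w.asIdeal := by
      refine Finset.prod_congr rfl fun w hw => ?_
      by_cases hE : w ∈ E
      · rw [if_pos hE, b2 w hw]
      · rw [if_neg hE, b4 w hw]
    rw [e1]
    refine M5_prod Z (fun w => Ideal.absNorm w.asIdeal) T _ (fun w hw => (hZ w).1 hw)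
      fun l hl => ?_
    rw [← hcard l hl, ← Set.ncard_coe_finset]
    congr 1
    ext w
    rw [Finset.mem_coe, Finset.mem_filter]
    constructor
    · exact fun h => h.2
    · intro h
      have h' : Ideal.absNorm w.asIdeal = l := h
      exact ⟨(hZ w).2 (by rw [h']; exact hl), h'⟩
  have hQ : 0 < ∏ l ∈ T, l := Finset.prod_pos fun l hl => (hT l hl).1.pos
  have hQr : (0 : ℝ) < ((∏ l ∈ T, l : ℕ) : ℝ) := by exact_mod_cast hQ
  have hPr : (1 : ℝ) ≤ P := by exact_mod_cast hP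
  have hdegK : Module.finrank ℚ K = 2 * 2 ^ (m + 1) := by
    rw [← Module.finrank_mul_finrank ℚ L K, a1, hdeg, mul_comm]
  have hdK : ((discr K).natAbs : ℝ) ≤ 4 ^ 2 ^ (m + 1) * ((P : ℝ) ^ 2 ^ (m + 1)) ^ 2 := by
    have e1 : (discr L).natAbs ≤ P ^ 2 ^ (m + 1) := by
      refine (Nat.le_of_dvd (pow_pos hP _) hdisc).trans (Nat.pow_le_pow_right hP ?_)
      exact Nat.pow_le_pow_right (by norm_num) (Nat.le_succ m)
    have e2 : (discr K).natAbs ≤ 4 ^ 2 ^ (m + 1) * (P ^ 2 ^ (m + 1)) ^ 2 := by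
      rw [← hdeg] at e1 ⊢
      exact a3.trans (Nat.mul_le_mul_left _ (Nat.pow_le_pow_left e1 2))
    exact_mod_cast e2
  have hz : ∀ E : Finset (HeightOneSpectrum (𝓞 L)), ∃ z : 𝓞 K, z ∈ 𝔞 E ∧ z ≠ 0 ∧
      ∀ φ : K →+* ℂ, ‖φ (z : K)‖ ^ 2 < 2 * ((∏ l ∈ T, l : ℕ) : ℝ) * P := by
    intro E
    refine h3 K (2 ^ (m + 1)) (𝔞 E) _ a2 hdegK ?_ (by positivity) ?_
    · intro h0
      have e1 := hnorm E
      rw [h0, Ideal.absNorm_bot] at e1
      exact (pow_pos hQ _).ne e1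
    · rw [hnorm E]
      push_cast
      have := M5_num (2 ^ (m + 1)) Nat.one_le_two_pow ((∏ l ∈ T, l : ℕ) : ℝ) P _ hQr hPr hdK
      push_cast at this
      exact this
  choose z c1 c2 c3 using hz
  refine ⟨𝔓, z, fun w hw => ⟨b1 w hw, b3 w hw, b5 w hw⟩, fun E hE => ⟨c2 E, fun φ => ?_, ?_, ?_⟩⟩
  · have := (c3 E φ).le
    push_cast at this ⊢
    exact this
  · intro w hw
    have e1 : (𝔓 w).asIdeal ∣ 𝔞 E := by
      have := Finset.dvd_prod_of_mem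
        (fun w => if w ∈ E then (𝔓 w).asIdeal else (mv q.σ (𝔓 w)).asIdeal) (hE hw)
      simpa only [if_pos hw] using this
    exact Ideal.le_of_dvd e1 (c1 E)
  · intro w hw hwE
    have e1 : (mv q.σ (𝔓 w)).asIdeal ∣ 𝔞 E := by
      have := Finset.dvd_prod_of_mem
        (fun w => if w ∈ E then (𝔓 w).asIdeal else (mv q.σ (𝔓 w)).asIdeal) hw
      simpa only [if_neg hwE] using this
    exact Ideal.le_of_dvd e1 (c1 E)

end Pool.Agent.UDT
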