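import Pool.Agent.UDT.StM

set_option autoImplicit false

/-!
# UDT / M6: many elements with the same norm to `L` (helper43)
-/

namespace Pool.Agent.UDT

open IsDedekindDomain NumberField HP7 Pool.Agent.QCF
open scoped WithZero

section

variable {L K : Type} [Field L] [NumberField L] [Field K] [NumberField K] [Algebra L K]

omit [NumberField L] in
private theorem M6_ss (q : QE L K (-1 : L)) (z : K) : q.σ (q.σ z) = z := by
  obtain ⟨x, y, rfl⟩ := q.repr z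
  simp only [map_add, map_mul, AlgEquiv.commutes, q.hσ, map_neg, neg_neg]

omit [NumberField L] [NumberField K] in
private theorem M6_mem (σ : K ≃ₐ[L] K) (w : HeightOneSpectrum (𝓞 K)) (x : 𝓞 K) :
    x ∈ (mv σ w).asIdeal ↔ RingOfIntegers.mapRingEquiv (σ : K ≃+* K) x ∈ w.asIdeal := Iff.rfl

omit [NumberField L] [NumberField K] in
private theorem M6_coe (σ : K ≃ₐ[L] K) (x : 𝓞 K) :
    ((RingOfIntegers.mapRingEquiv (σ : K ≃+* K) x : 𝓞 K) : K) = σ (x : K) := rfl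

private theorem M6_sq (w : HeightOneSpectrum (𝓞 L)) (v : HeightOneSpectrum (𝓞 K))
    (hv : v.under (𝓞 L) = w) (hle : Ideal.map (algebraMap (𝓞 L) (𝓞 K)) w.asIdeal ≤ v.asIdeal)
    (β : 𝓞 L) (hβ : algebraMap (𝓞 L) (𝓞 K) β ∈
      Ideal.map (algebraMap (𝓞 L) (𝓞 K)) w.asIdeal * Ideal.map (algebraMap (𝓞 L) (𝓞 K)) w.asIdeal) :
    β ∈ w.asIdeal ^ 2 := by
  have hund : ∀ x : 𝓞 L, algebraMap (𝓞 L) (𝓞 K) x ∈ v.asIdeal → x ∈ w.asIdeal := by
    intro x hx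
    rw [← hv]
    exact hx
  have h0 : Ideal.map (algebraMap (𝓞 L) (𝓞 K)) w.asIdeal ≠ ⊥ := by
    rw [Ne, Ideal.map_eq_bot_iff_of_injective]
    · exact w.ne_bot
    · exact FaithfulSMul.algebraMap_injective (𝓞 L) (𝓞 K)
  have h1 : β ∈ w.asIdeal := hund β (hle (Ideal.mul_le_right hβ))
  obtain ⟨I, hI⟩ := Ideal.dvd_iff_le.2 ((Ideal.span_singleton_le_iff_mem _).2 h1)
  have h2 : Ideal.map (algebraMap (𝓞 L) (𝓞 K)) w.asIdeal *
      Ideal.map (algebraMap (𝓞 L) (𝓞 K)) w.asIdeal ∣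
      Ideal.map (algebraMap (𝓞 L) (𝓞 K)) w.asIdeal * Ideal.map (algebraMap (𝓞 L) (𝓞 K)) I := by
    rw [← Ideal.map_mul, ← Ideal.map_mul, ← hI, Ideal.map_span, Set.image_singleton,
      Ideal.map_mul]
    exact Ideal.dvd_iff_le.2 ((Ideal.span_singleton_le_iff_mem _).2 hβ)
  have h3 := Ideal.dvd_iff_le.1 ((mul_dvd_mul_iff_left h0).1 h2)
  have h4 : I ≤ w.asIdeal := fun x hx =>
    hund x (hle (h3 (Ideal.mem_map_of_mem (algebraMap (𝓞 L) (𝓞 K)) hx)))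
  have h5 : Ideal.span {β} ≤ w.asIdeal ^ 2 := by
    rw [hI, pow_two]
    exact Ideal.mul_mono_right h4
  exact (Ideal.span_singleton_le_iff_mem _).1 h5

end

theorem thm_M6 : St_M1 → St_M4 → St_M5 → St_M6a → St_M6b → St_M6 := by
  intro hM1 hM4 hM5 hM6a hM6b L K _ _ _ _ _ q P m T hreal hP hfin hdisc hT hcount
  classical
  obtain ⟨-, -, -, hconj, hdown, hup, hnorm⟩ := hM1 L K q hreal
  have hTp : ∀ l ∈ T, l.Prime := fun l hl => (hT l hl).1
  have hcount' : ∀ l ∈ T, {w : HeightOneSpectrum (𝓞 L) | Ideal.absNorm w.asIdeal = l}.ncard =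
      Module.finrank ℚ L := fun l hl => (hcount l hl).trans hfin.symm
  -- the set `Z`
  have hfinl : ∀ l ∈ T, {w : HeightOneSpectrum (𝓞 L) | Ideal.absNorm w.asIdeal = l}.Finite := by
    intro l hl
    refine Set.finite_of_ncard_ne_zero ?_
    rw [hcount l hl]
    positivity
  have hZfin : {w : HeightOneSpectrum (𝓞 L) | Ideal.absNorm w.asIdeal ∈ T}.Finite := by
    refine (T.finite_toSet.biUnion hfinl).subset fun w hw => ?_
    exact Set.mem_biUnion (show Ideal.absNorm w.asIdeal ∈ (T : Set ℕ) from hw) rfl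
  obtain ⟨Z, hZ⟩ : ∃ Z : Finset (HeightOneSpectrum (𝓞 L)), ∀ w, w ∈ Z ↔
      Ideal.absNorm w.asIdeal ∈ T := ⟨hZfin.toFinset, fun w => by simp⟩
  have hfib : ∀ l ∈ T, (Z.filter fun w => Ideal.absNorm w.asIdeal = l).card = 2 ^ (m + 1) := by
    intro l hl
    rw [← hcount l hl, ← Set.ncard_coe_finset]
    have h1 : ((Z.filter fun w => Ideal.absNorm w.asIdeal = l : Finset _) :
        Set (HeightOneSpectrum (𝓞 L))) = {w | Ideal.absNorm w.asIdeal = l} := by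
      ext w
      rw [Finset.coe_filter]
      refine ⟨fun h => h.2, fun h => ⟨(hZ w).2 ?_, h⟩⟩
      rw [show Ideal.absNorm w.asIdeal = l from h]
      exact hl
    rw [h1]
  have hmaps : ∀ w ∈ Z, Ideal.absNorm w.asIdeal ∈ T := fun w hw => (hZ w).1 hw
  have hZcard : Z.card = T.card * 2 ^ (m + 1) := by
    have h1 : Z.card = ∑ l ∈ T, (Z.filter fun w => Ideal.absNorm w.asIdeal = l).card :=
      Finset.card_eq_sum_card_fiberwise hmaps
    rw [h1, Finset.sum_congr rfl hfib, Finset.sum_const, smul_eq_mul]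
  obtain ⟨𝔓, z, h𝔓, hz⟩ := hM5 L K q P m T Z hreal hP hfin hdisc hT hZ hcount
  set Q : ℕ := ∏ l ∈ T, l with hQ
  have hQpos : 0 < Q := Finset.prod_pos fun l hl => (hTp l hl).pos
  have hQr : (0 : ℝ) < Q := by exact_mod_cast hQpos
  set sg : 𝓞 K → 𝓞 K := fun x => RingOfIntegers.mapRingEquiv (q.σ : K ≃+* K) x with hsg
  have hsgsg : ∀ x, sg (sg x) = x := by
    intro x
    apply RingOfIntegers.ext
    show q.σ (q.σ (x : K)) = x
    exact M6_ss q _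
  have hcoe : ∀ y : 𝓞 L, ((algebraMap (𝓞 L) (𝓞 K) y : 𝓞 K) : K) = algebraMap L K (y : L) :=
    fun y => rfl
  -- the norms
  have hβ : ∀ x : 𝓞 K, ∃ β : 𝓞 L, algebraMap (𝓞 L) (𝓞 K) β = x * sg x := by
    intro x
    obtain ⟨β, hβ⟩ := hnorm (x : K)
    have h1 : IsIntegral ℤ (algebraMap L K β) := by
      rw [hβ]
      exact x.2.mul (sg x).2
    have h2 : IsIntegral ℤ β :=
      (isIntegral_algebraMap_iff (algebraMap L K).injective).1 h1
    exact ⟨⟨β, h2⟩, RingOfIntegers.ext hβ⟩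
  choose β hβ using hβ
  have hβK : ∀ x : 𝓞 K, algebraMap L K (β x : L) = (x : K) * q.σ (x : K) := by
    intro x
    have h1 := congrArg (fun y : 𝓞 K => (y : K)) (hβ x)
    rw [← hcoe]
    exact h1
  -- values at the real embeddings
  have hval : ∀ (x : 𝓞 K) (τ : L →+* ℝ), ∃ φ : K →+* ℂ, τ (β x : L) = ‖φ (x : K)‖ ^ 2 := by
    intro x τ
    obtain ⟨φ, hφ⟩ := hup τ
    refine ⟨φ, ?_⟩
    have h1 := hφ (β x : L)
    rw [hβK, map_mul, hconj, Complex.mul_conj, Complex.normSq_eq_norm_sq] at h1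
    exact_mod_cast h1.symm
  have hmem : ∀ (x : 𝓞 K) (w : HeightOneSpectrum (𝓞 L)), w ∈ Z →
      (x ∈ (𝔓 w).asIdeal ∨ x ∈ (mv q.σ (𝔓 w)).asIdeal) → β x ∈ w.asIdeal := by
    intro x w hw h
    have h1 : algebraMap (𝓞 L) (𝓞 K) (β x) ∈ (𝔓 w).asIdeal := by
      rw [hβ]
      rcases h with h | h
      · exact Ideal.mul_mem_right _ _ h
      · exact Ideal.mul_mem_left _ _ ((M6_mem q.σ (𝔓 w) x).1 h)
    rw [← (h𝔓 w hw).1]
    exact h1
  have hmem2 : ∀ (x : 𝓞 K) (w : HeightOneSpectrum (𝓞 L)), w ∈ Z →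
      x ∈ (𝔓 w).asIdeal → x ∈ (mv q.σ (𝔓 w)).asIdeal → β x ∈ w.asIdeal ^ 2 := by
    intro x w hw h1 h2
    obtain ⟨h3, h4, h5⟩ := h𝔓 w hw
    have hne : (𝔓 w).asIdeal ≠ (mv q.σ (𝔓 w)).asIdeal := fun h =>
      h4 (HeightOneSpectrum.ext h.symm)
    have hcop : IsCoprime (𝔓 w).asIdeal (mv q.σ (𝔓 w)).asIdeal := by
      have := (𝔓 w).isMaximal
      have := (mv q.σ (𝔓 w)).isMaximal
      exact Ideal.isCoprime_of_isMaximal hne
    have h6 : ∀ y : 𝓞 K, y ∈ (𝔓 w).asIdeal → y ∈ (mv q.σ (𝔓 w)).asIdeal →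
        y ∈ Ideal.map (algebraMap (𝓞 L) (𝓞 K)) w.asIdeal := by
      intro y hy hy'
      rw [h5, Ideal.mul_eq_inf_of_coprime (Ideal.isCoprime_iff_sup_eq.1 hcop)]
      exact ⟨hy, hy'⟩
    have h7 : sg x ∈ (𝔓 w).asIdeal := (M6_mem q.σ (𝔓 w) x).1 h2
    have h8 : sg x ∈ (mv q.σ (𝔓 w)).asIdeal := by
      refine (M6_mem q.σ (𝔓 w) (sg x)).2 ?_
      have h9 : RingOfIntegers.mapRingEquiv (q.σ : K ≃+* K) (sg x) = x := hsgsg x
      rw [h9]
      exact h1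
    refine M6_sq w (𝔓 w) h3 ?_ (β x) ?_
    · rw [h5]
      exact Ideal.mul_le_left
    · rw [hβ]
      exact Ideal.mul_mem_mul (h6 x h1 h2) (h6 (sg x) h7 h8)
  -- the quotients
  have hin : ∀ E ⊆ Z, ∀ w ∈ Z, z E ∈ (𝔓 w).asIdeal ∨ z E ∈ (mv q.σ (𝔓 w)).asIdeal := by
    intro E hE w hw
    obtain ⟨-, -, h1, h2⟩ := hz E hE
    by_cases h3 : w ∈ E
    · exact Or.inl (h1 w h3)
    · exact Or.inr (h2 w hw h3)
  have hγ : ∀ E, ∃ γ : 𝓞 L, E ⊆ Z → β (z E) = (Q : 𝓞 L) * γ ∧ ∀ w : HeightOneSpectrum (𝓞 L),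
      Ideal.absNorm w.asIdeal ∈ T → β (z E) ∈ w.asIdeal ^ 2 → γ ∈ w.asIdeal := by
    intro E
    by_cases hE : E ⊆ Z
    · obtain ⟨γ, h1, h2⟩ := hM6a L T hTp hcount' (β (z E)) fun w hw =>
        hmem (z E) w ((hZ w).2 hw) (hin E hE w ((hZ w).2 hw))
      exact ⟨γ, fun _ => ⟨h1, h2⟩⟩
    · exact ⟨0, fun h => absurd h hE⟩
  choose γ hγ using hγ
  have hγτ : ∀ E ⊆ Z, ∀ τ : L →+* ℝ, 0 < τ (γ E : L) ∧ τ (γ E : L) ≤ 2 * P := by
    intro E hE τ
    obtain ⟨h0, h1, -⟩ := hz E hE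
    obtain ⟨φ, hφ⟩ := hval (z E) τ
    have h2 : τ (β (z E) : L) = Q * τ (γ E : L) := by
      have h3 := congrArg (fun y : 𝓞 L => τ (y : L)) (hγ E hE).1
      simp only [map_mul, map_natCast] at h3
      exact h3
    have h3 : (0 : ℝ) < ‖φ (z E : K)‖ ^ 2 := by
      refine pow_pos (norm_pos_iff.2 ?_) 2
      rw [Ne, map_eq_zero]
      exact fun h => h0 (RingOfIntegers.ext h)
    have h4 := h1 φ
    rw [← hφ, h2] at h3 h4
    refine ⟨by
      by_contra h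
      nlinarith [not_lt.1 h], ?_⟩
    have h5 : (Q : ℝ) * τ (γ E : L) ≤ Q * (2 * P) := by
      refine h4.trans (le_of_eq ?_)
      rw [hQ]
      push_cast
      ring
    exact le_of_mul_le_mul_left h5 hQr
  -- pigeonhole
  set D : ℕ := 2 ^ (m + 1) with hD
  have hΓ : (Z.powerset.image γ).card ≤ (5 * P) ^ D := by
    have h1 := hM4.2.1 L (2 * P) (Z.powerset.image γ) hreal (by
      intro x hx τ
      obtain ⟨E, hE, rfl⟩ := Finset.mem_image.1 hx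
      obtain ⟨h2, h3⟩ := hγτ E (Finset.mem_powerset.1 hE) τ
      refine ⟨h2.le, h3.trans (le_of_eq ?_)⟩
      push_cast
      ring)
    rw [hfin] at h1
    exact h1.trans (Nat.pow_le_pow_left (by omega) _)
  have hne : (Z.powerset.image γ).Nonempty :=
    ⟨γ ∅, Finset.mem_image_of_mem γ (Finset.empty_mem_powerset Z)⟩
  obtain ⟨γ0, hγ0, hmax⟩ := Finset.exists_max_image (Z.powerset.image γ)
    (fun b => (Z.powerset.filter fun E => γ E = b).card) hne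
  set 𝒬 := Z.powerset.filter fun E => γ E = γ0 with h𝒬
  have h𝒬Z : ∀ E ∈ 𝒬, E ⊆ Z ∧ γ E = γ0 := by
    intro E hE
    rw [h𝒬, Finset.mem_filter, Finset.mem_powerset] at hE
    exact hE
  have hc1 : 2 ^ (T.card * D) ≤ (5 * P) ^ D * 𝒬.card := by
    rw [← hZcard, ← Finset.card_powerset]
    calc Z.powerset.card = ∑ b ∈ Z.powerset.image γ, (Z.powerset.filter fun E => γ E = b).card :=
          Finset.card_eq_sum_card_image γ Z.powerset
      _ ≤ (Z.powerset.image γ).card * 𝒬.card := by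
          rw [← smul_eq_mul]
          exact Finset.sum_le_card_nsmul _ _ _ hmax
      _ ≤ (5 * P) ^ D * 𝒬.card := Nat.mul_le_mul_right _ hΓ
  obtain ⟨E0, hE0, hE0γ⟩ := Finset.mem_image.1 hγ0
  have hγ0τ : ∀ τ : L →+* ℝ, 0 < τ (γ0 : L) ∧ τ (γ0 : L) ≤ 2 * P := by
    rw [← hE0γ]
    exact hγτ E0 (Finset.mem_powerset.1 hE0)
  have hc2 : 𝒬.card ≤ (2 * P) ^ D * (𝒬.image z).card := by
    refine Finset.card_le_mul_card_image 𝒬 _ fun x hx => ?_
    obtain ⟨E1, hE1, rfl⟩ := Finset.mem_image.1 hx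
    obtain ⟨hE1Z, hE1γ⟩ := h𝒬Z E1 hE1
    set J := Z.filter fun w => z E1 ∈ (𝔓 w).asIdeal ∧ z E1 ∈ (mv q.σ (𝔓 w)).asIdeal with hJ
    have hJ2 : 2 ^ J.card ≤ (2 * P) ^ D := by
      have h1 := hM6b L P γ0 J hreal hγ0τ (by
        intro w hw
        rw [hJ, Finset.mem_filter] at hw
        have h2 := (hγ E1 hE1Z).2 w ((hZ w).1 hw.1) (hmem2 (z E1) w hw.1 hw.2.1 hw.2.2)
        rwa [hE1γ] at h2)
      rwa [hfin] at h1
    refine le_trans ?_ hJ2
    rw [← Finset.card_powerset]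
    refine Finset.card_le_card_of_injOn (fun E => E ∩ J) (fun E _ => by
      rw [Finset.mem_coe, Finset.mem_powerset]
      exact Finset.inter_subset_right) ?_
    intro E hE E' hE' hEE'
    rw [Finset.mem_coe, Finset.mem_filter] at hE hE'
    have hEZ := (h𝒬Z E hE.1).1
    have hEZ' := (h𝒬Z E' hE'.1).1
    have key : ∀ F ⊆ Z, z F = z E1 → ∀ w ∈ Z, w ∉ J → (w ∈ F ↔ z E1 ∈ (𝔓 w).asIdeal) := by
      intro F hF hzF w hw hwJ
      obtain ⟨-, -, h1, h2⟩ := hz F hF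
      rw [hzF] at h1 h2
      refine ⟨fun h => h1 w h, fun h => ?_⟩
      by_contra h3
      exact hwJ (by
        rw [hJ, Finset.mem_filter]
        exact ⟨hw, h, h2 w hw h3⟩)
    ext w
    by_cases hw : w ∈ J
    · have h1 : w ∈ E ∩ J ↔ w ∈ E' ∩ J := by
        have h2 : E ∩ J = E' ∩ J := hEE'
        rw [h2]
      simpa [hw] using h1
    · by_cases hwZ : w ∈ Z
      · rw [key E hEZ hE.2 w hwZ hw, key E' hEZ' hE'.2 w hwZ hw]
      · exact ⟨fun h => absurd (hEZ h) hwZ, fun h => absurd (hEZ' h) hwZ⟩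
  refine ⟨𝒬.image z, (Q : 𝓞 L) * γ0, ?_, ?_⟩
  · intro x hx
    obtain ⟨E, hE, rfl⟩ := Finset.mem_image.1 hx
    obtain ⟨hEZ, hEγ⟩ := h𝒬Z E hE
    obtain ⟨h0, h1, -⟩ := hz E hEZ
    refine ⟨h0, ?_, h1⟩
    rw [← hEγ, ← (hγ E hEZ).1]
    exact hβK (z E)
  · calc 2 ^ (T.card * D) ≤ (5 * P) ^ D * 𝒬.card := hc1
      _ ≤ (5 * P) ^ D * ((2 * P) ^ D * (𝒬.image z).card) := Nat.mul_le_mul_left _ hc2
      _ = (10 * P ^ 2) ^ D * (𝒬.image z).card := by
          rw [← mul_assoc, ← mul_pow]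
          congr 2
          ring

end Pool.Agent.UDT
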