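import Pool.Agent.UDT.StM

set_option autoImplicit false

/-!
UDT [M6a] (helper8).
-/

namespace Pool.Agent.UDT

open NumberField IsDedekindDomain
open scoped NNReal ENNReal nonZeroDivisors

private theorem M6a_inj {L : Type} [Field L] [NumberField L] (J : Finset (HeightOneSpectrum (𝓞 L)))
    {I : Ideal (𝓞 L)} (h : ∀ w ∈ J, w.asIdeal ∣ I) : ∏ w ∈ J, w.asIdeal ∣ I := by
  classical
  have h1 : ∏ w ∈ J, w.asIdeal = ∏ p ∈ J.image HeightOneSpectrum.asIdeal, p := by
    rw [Finset.prod_image]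
    exact fun a _ b _ hab => HeightOneSpectrum.asIdeal_injective hab
  rw [h1]
  apply Finset.prod_primes_dvd
  · intro a ha
    obtain ⟨w, _, rfl⟩ := Finset.mem_image.1 ha
    exact w.prime
  · intro a ha
    obtain ⟨w, hw, rfl⟩ := Finset.mem_image.1 ha
    exact h w hw

private theorem M6a_span {L : Type} [Field L] [NumberField L] {l : ℕ} (hl : l.Prime)
    (h : {w : HeightOneSpectrum (𝓞 L) | Ideal.absNorm w.asIdeal = l}.ncard = Module.finrank ℚ L) :
    ∃ S : Finset (HeightOneSpectrum (𝓞 L)), (∀ w, w ∈ S ↔ Ideal.absNorm w.asIdeal = l) ∧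
      ∏ w ∈ S, w.asIdeal = Ideal.span {(l : 𝓞 L)} := by
  have hpos : 0 < Module.finrank ℚ L := Module.finrank_pos
  have hfin : {w : HeightOneSpectrum (𝓞 L) | Ideal.absNorm w.asIdeal = l}.Finite :=
    Set.finite_of_ncard_pos (by rw [h]; exact hpos)
  refine ⟨hfin.toFinset, fun w => by simp, ?_⟩
  have hcard : hfin.toFinset.card = Module.finrank ℚ L := by
    rw [← h, Set.ncard_eq_toFinset_card _ hfin]
  have hmem : ∀ w ∈ hfin.toFinset, Ideal.absNorm w.asIdeal = l := by
    intro w hw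
    simpa using hw
  obtain ⟨K, hK⟩ : ∏ w ∈ hfin.toFinset, w.asIdeal ∣ Ideal.span {(l : 𝓞 L)} := by
    apply M6a_inj
    intro w hw
    rw [Ideal.dvd_span_singleton, ← hmem w hw]
    exact Ideal.absNorm_mem _
  have h1 : Ideal.absNorm (Ideal.span {(l : 𝓞 L)}) = l ^ Module.finrank ℚ L := by
    rw [Ideal.absNorm_span_natCast, RingOfIntegers.rank]
  have h2 : Ideal.absNorm (∏ w ∈ hfin.toFinset, w.asIdeal) = l ^ Module.finrank ℚ L := by
    rw [map_prod, Finset.prod_congr rfl hmem, Finset.prod_const, hcard]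
  have h3 : Ideal.absNorm K = 1 := by
    have h4 := congrArg Ideal.absNorm hK
    rw [map_mul, h1, h2] at h4
    have h5 : 0 < l ^ Module.finrank ℚ L := pow_pos hl.pos _
    exact (Nat.eq_of_mul_eq_mul_left h5 (by rw [mul_one]; exact h4)).symm
  rw [hK, Ideal.absNorm_eq_one_iff.1 h3, Ideal.mul_top]

/-- [M6a] -/
theorem thm_M6a : St_M6a := by
  classical
  intro L _ _ T hT hc β hβ
  obtain ⟨Z, hZ, hZp⟩ : ∃ Z : Finset (HeightOneSpectrum (𝓞 L)),
      (∀ w, w ∈ Z ↔ Ideal.absNorm w.asIdeal ∈ T) ∧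
      ∏ w ∈ Z, w.asIdeal = Ideal.span {((∏ l ∈ T, l : ℕ) : 𝓞 L)} := by
    clear hβ
    induction T using Finset.induction_on with
    | empty =>
      refine ⟨∅, fun w => by simp, ?_⟩
      simp
    | insert l T hl ih =>
      obtain ⟨Z, hZ, hZp⟩ := ih (fun a ha => hT a (Finset.mem_insert_of_mem ha))
        (fun a ha => hc a (Finset.mem_insert_of_mem ha))
      obtain ⟨S, hS, hSp⟩ := M6a_span (hT l (Finset.mem_insert_self _ _))
        (hc l (Finset.mem_insert_self _ _))
      refine ⟨S ∪ Z, ?_, ?_⟩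
      · intro w
        rw [Finset.mem_union, hS, hZ, Finset.mem_insert]
      · have hd : Disjoint S Z := by
          rw [Finset.disjoint_left]
          intro w hw hw'
          rw [hS] at hw
          rw [hZ, hw] at hw'
          exact hl hw'
        rw [Finset.prod_union hd, hSp, hZp, Ideal.span_singleton_mul_span_singleton,
          Finset.prod_insert hl]
        push_cast
        rfl
  obtain ⟨γ, hγ⟩ : ((∏ l ∈ T, l : ℕ) : 𝓞 L) ∣ β := by
    rw [← Ideal.mem_span_singleton, ← hZp, ← Ideal.dvd_span_singleton]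
    exact M6a_inj Z fun w hw => Ideal.dvd_span_singleton.2 (hβ w ((hZ w).1 hw))
  refine ⟨γ, hγ, ?_⟩
  intro w hw h2
  have hwZ : w ∈ Z := (hZ w).2 hw
  have h3 : w.asIdeal ^ 2 ∣ w.asIdeal * ((∏ v ∈ Z.erase w, v.asIdeal) * Ideal.span {γ}) := by
    rw [← mul_assoc, Finset.mul_prod_erase Z (fun v => v.asIdeal) hwZ, hZp,
      Ideal.span_singleton_mul_span_singleton, ← hγ, Ideal.dvd_span_singleton]
    exact h2
  rw [pow_two] at h3
  have h4 := (mul_dvd_mul_iff_left w.ne_bot).1 h3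
  rcases w.prime.dvd_or_dvd h4 with h5 | h5
  · exfalso
    obtain ⟨v, hv, hv'⟩ := w.prime.exists_mem_finset_dvd h5
    rw [Finset.mem_erase] at hv
    have h6 : v.asIdeal ≤ w.asIdeal := Ideal.dvd_iff_le.1 hv'
    have h7 : v.asIdeal = w.asIdeal := v.isMaximal.eq_of_le w.isPrime.ne_top h6
    exact hv.1 (HeightOneSpectrum.asIdeal_injective h7)
  · exact Ideal.dvd_span_singleton.1 h5

end Pool.Agent.UDT
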