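import Pool.Agent.UDT.StM

set_option autoImplicit false

/-!
UDT [M6b] (helper8).
-/

namespace Pool.Agent.UDT

open NumberField IsDedekindDomain
open scoped NNReal ENNReal nonZeroDivisors

private theorem M6b_inj {L : Type} [Field L] [NumberField L] (J : Finset (HeightOneSpectrum (𝓞 L)))
    {I : Ideal (𝓞 L)} (h : ∀ w ∈ J, w.asIdeal ∣ I) : ∏ w ∈ J, w.asIdeal ∣ I := by
  classical
  have h1 : ∏ w ∈ J, w.asIdeal = ∏ p ∈ J.image HeightOneSpectrum.asIdeal, p := by
    rw [Finset.prod_image]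
    exact fun a _ b _ hab => HeightOneSpectrum.asIdeal_injective hab
  rw [h1]
  apply Finset.prod_primes_dvd
  · intro a ha
    obtain ⟨w, _, rfl⟩ := Finset.mem_image.1 ha
    exact w.prime
  · intro a ha
    obtain ⟨w, hw, rfl⟩ := Finset.mem_image.1 ha
    exact h w hw

/-- [M6b] -/
theorem thm_M6b : St_M6b := by
  intro L _ _ P γ J hr hτ hJ
  have hγ0 : (γ : L) ≠ 0 := by
    obtain ⟨w⟩ : Nonempty (InfinitePlace L) := inferInstance
    intro h0
    have h1 := (hτ (InfinitePlace.embedding_of_isReal (hr w))).1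
    rw [h0, map_zero] at h1
    exact lt_irrefl _ h1
  have hcard : Fintype.card (InfinitePlace L) = Module.finrank ℚ L := by
    have h1 := InfinitePlace.sum_mult_eq (K := L)
    rw [← h1, Finset.sum_congr rfl fun w _ => ?_, Finset.sum_const, smul_eq_mul, mul_one,
      Finset.card_univ]
    rw [InfinitePlace.mult, if_pos (hr w)]
  have hdvd : ∏ w ∈ J, w.asIdeal ∣ Ideal.span {γ} :=
    M6b_inj J fun w hw => Ideal.dvd_span_singleton.2 (hJ w hw)
  have h2 : Ideal.absNorm (∏ w ∈ J, w.asIdeal) ∣ Ideal.absNorm (Ideal.span {γ}) :=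
    map_dvd Ideal.absNorm hdvd
  have h3 : 2 ^ J.card ≤ Ideal.absNorm (∏ w ∈ J, w.asIdeal) := by
    rw [map_prod, ← Finset.prod_const]
    apply Finset.prod_le_prod'
    intro w _
    have h4 : Ideal.absNorm w.asIdeal ≠ 1 := fun h => w.isPrime.ne_top (Ideal.absNorm_eq_one_iff.1 h)
    have h5 : Ideal.absNorm w.asIdeal ≠ 0 := fun h => w.ne_bot (Ideal.absNorm_eq_zero_iff.1 h)
    omega
  have hne : Ideal.absNorm (Ideal.span {γ}) ≠ 0 := by
    rw [Ne, Ideal.absNorm_eq_zero_iff, Ideal.span_singleton_eq_bot]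
    intro h
    exact hγ0 (by rw [h]; simp)
  have h6 : (Ideal.absNorm (Ideal.span {γ}) : ℝ) ≤ (2 * P) ^ Module.finrank ℚ L := by
    have h7 : (Ideal.absNorm (Ideal.span {γ}) : ℝ) = |((Algebra.norm ℚ (γ : L) : ℚ) : ℝ)| := by
      rw [Ideal.absNorm_span_singleton, ← Algebra.coe_norm_int, Nat.cast_natAbs]
      push_cast
      rfl
    rw [h7, ← Rat.cast_abs, ← InfinitePlace.prod_eq_abs_norm, ← hcard, ← Finset.card_univ,
      ← Finset.prod_const]
    apply Finset.prod_le_prod
    · intro w _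
      positivity
    · intro w _
      rw [InfinitePlace.mult, if_pos (hr w), pow_one,
        ← InfinitePlace.norm_embedding_of_isReal (hr w), Real.norm_eq_abs,
        abs_of_pos (hτ _).1]
      exact (hτ _).2
  have h8 : (2 : ℝ) ^ J.card ≤ (2 * P) ^ Module.finrank ℚ L := by
    calc (2 : ℝ) ^ J.card = ((2 ^ J.card : ℕ) : ℝ) := by push_cast; ring
      _ ≤ (Ideal.absNorm (Ideal.span {γ}) : ℝ) := by
        exact_mod_cast h3.trans (Nat.le_of_dvd (Nat.pos_of_ne_zero hne) h2)
      _ ≤ _ := h6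
  exact_mod_cast h8

end Pool.Agent.UDT
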