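import Pool.Agent.UDT.StM

/-!
# UDT [M7]: the planar configurations
-/

set_option autoImplicit false

namespace Pool.Agent.UDT

open IsDedekindDomain NumberField HP7 Pool.Agent.QCF
open scoped WithZero

private theorem M7_norm {L K : Type} [Field L] [NumberField L] [Field K] [NumberField K]
    [Algebra L K] (s : K → K) (φ : K →+* ℂ) (τ : L →+* ℝ)
    (hs : ∀ z : K, φ (s z) = starRingEnd ℂ (φ z))
    (hτ : ∀ x : L, φ (algebraMap L K x) = (τ x : ℂ)) (z : K) (b : L)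
    (hb : algebraMap L K b = z * s z) : τ b = ‖φ z‖ ^ 2 := by
  have h1 : ((τ b : ℝ) : ℂ) = φ z * starRingEnd ℂ (φ z) := by
    rw [← hτ, hb, map_mul, hs]
  rw [Complex.mul_conj, Complex.normSq_eq_norm_sq] at h1
  exact_mod_cast h1

private theorem M7_num (P Q : ℕ) (hP : 1 ≤ P) (hQ : 1 ≤ Q) :
    32 * (Q * P) ≤ (16 * (Q * P) + 1) ^ 4 := by
  have h1 : 1 ≤ Q * P := Nat.mul_pos hQ hP
  set n := Q * P
  have h2 : 32 * n ≤ (16 * n + 1) ^ 2 := by nlinarith
  have h3 : (16 * n + 1) ^ 2 ≤ (16 * n + 1) ^ 4 := Nat.pow_le_pow_right (by omega) (by norm_num)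
  exact h2.trans h3

theorem thm_M7 : St_M1 → St_M4 → St_M6 → St_M7 := by
  intro hM1 hM4 hM6 P T hP hT
  have hQ1 : 1 ≤ ∏ l ∈ T, l := Finset.prod_pos (fun l hl => (hT l hl).1.pos)
  obtain ⟨Q, hQ⟩ : ∃ Q : ℕ, Q = ∏ l ∈ T, l := ⟨_, rfl⟩
  rw [← hQ] at hQ1
  have hQP : 1 ≤ Q * P := Nat.mul_pos hQ1 hP
  refine ⟨(16 * (Q * P) + 1) ^ 4, ?_, ?_⟩
  · have := M7_num P Q hP hQ1
    omega
  intro m L _ _ hdeg hreal hdisc hspl σ
  have hns : ¬ IsSquare ((-1 : Lˣ) : L) := by
    rintro ⟨r, hr⟩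
    have h1 : σ ((-1 : Lˣ) : L) = σ r * σ r := by rw [hr, map_mul]
    rw [Units.val_neg, Units.val_one, map_neg, map_one] at h1
    nlinarith [mul_self_nonneg (σ r)]
  obtain ⟨K, _, _, _, ⟨q'⟩⟩ := st_N5 L (-1) hns
  obtain ⟨q⟩ : Nonempty (QE L K (-1 : L)) := ⟨q'⟩
  obtain ⟨hfin, -, -, hconj, -, hext, hnorm⟩ := hM1 L K q hreal
  obtain ⟨φ, hφ⟩ := hext σ
  obtain ⟨hM4i, -, hM4iii⟩ := hM4
  obtain ⟨U, β, hU, hcard⟩ := hM6 L K q P m T hreal hP hdeg hdisc hT hspl
  rw [← hQ] at hU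
  have hKdeg : Module.finrank ℚ K = 2 * 2 ^ (m + 1) := by
    rw [← Module.finrank_mul_finrank ℚ L K, hfin, hdeg, mul_comm]
  obtain ⟨ρ, hρ⟩ : ∃ ρ : ℝ, ρ = √(2 * Q * P) := ⟨_, rfl⟩
  have hQPr : (1 : ℝ) ≤ (Q : ℝ) * P := by exact_mod_cast hQP
  have hρ2 : ρ ^ 2 = 2 * Q * P := by
    rw [hρ]
    exact Real.sq_sqrt (by positivity)
  have hρ1 : 1 ≤ ρ := by
    rw [hρ]
    exact Real.one_le_sqrt.mpr (by nlinarith)
  have hρ0 : 0 < ρ := by linarith
  obtain ⟨X, Y, hX, hY, hXY⟩ := hM4iii K ρ hρ0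
  have hUne : U.Nonempty := by
    rw [← Finset.card_pos]
    rcases Nat.eq_zero_or_pos U.card with h | h
    · rw [h, mul_zero] at hcard
      exact absurd hcard (not_le.mpr (by positivity))
    · exact h
  have hUρ : ∀ u ∈ U, ∀ φ' : K →+* ℂ, ‖φ' (u : K)‖ ≤ ρ := by
    intro u hu φ'
    have h1 := (hU u hu).2.2 φ'
    rw [← hρ2] at h1
    exact (pow_le_pow_iff_left₀ (norm_nonneg _) hρ0.le (by norm_num)).mp h1
  have hinj : Function.Injective (fun x : 𝓞 K => φ (x : K)) := by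
    intro x y hxy
    exact RingOfIntegers.ext (φ.injective hxy)
  have hd : ∀ u ∈ U, σ (β : L) = ‖φ (u : K)‖ ^ 2 := fun u hu =>
    M7_norm q.σ φ σ (hconj φ) hφ u β (hU u hu).2.1
  have hφne : ∀ u : 𝓞 K, u ≠ 0 → 0 < ‖φ (u : K)‖ := by
    intro u hu
    rw [norm_pos_iff]
    intro h
    refine hu (hinj ?_)
    simpa using h
  have hσβ : 0 < σ (β : L) := by
    obtain ⟨u, hu⟩ := hUne
    rw [hd u hu]
    have := hφne u (hU u hu).1
    positivity
  have hdist : ∀ u ∈ U, ‖φ (u : K)‖ = √(σ (β : L)) := by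
    intro u hu
    rw [hd u hu, Real.sqrt_sq (norm_nonneg _)]
  have hYX : ∀ x ∈ X, x ∈ Y := by
    intro x hx
    rw [hY]
    intro φ'
    have := (hX x).mp hx φ'
    linarith
  have hYU : ∀ x ∈ X, ∀ u ∈ U, x + u ∈ Y := by
    intro x hx u hu
    rw [hY]
    intro φ'
    have h1 := (hX x).mp hx φ'
    have h2 := hUρ u hu φ'
    have h3 : φ' ((x + u : 𝓞 K) : K) = φ' (x : K) + φ' (u : K) := by
      rw [← map_add]
      rfl
    rw [h3]
    have h4 := norm_add_le (φ' (x : K)) (φ' (u : K))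
    linarith
  have hAcard : (Y.image (fun x : 𝓞 K => φ (x : K))).card = Y.card :=
    Finset.card_image_of_injective _ hinj
  refine ⟨Y.image (fun x : 𝓞 K => φ (x : K)), √(σ (β : L)), ?_, ?_, Real.sqrt_pos.mpr hσβ,
    ?_, ?_⟩
  · rw [hAcard]
    have h0 : (0 : 𝓞 K) ∈ Y := by
      rw [hY]
      intro φ'
      have h3 : φ' ((0 : 𝓞 K) : K) = 0 := by
        rw [← map_zero φ']
        rfl
      rw [h3, norm_zero]
      positivity
    have h1 : (1 : 𝓞 K) ∈ Y := by
      rw [hY]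
      intro φ'
      have h3 : φ' ((1 : 𝓞 K) : K) = 1 := by
        rw [← map_one φ']
        rfl
      rw [h3, norm_one]
      linarith
    have h2 : 1 < Y.card := Finset.one_lt_card.mpr ⟨0, h0, 1, h1, zero_ne_one⟩
    exact h2
  · rw [hAcard]
    have h1 : ∀ x ∈ Y, ∀ φ' : K →+* ℂ, ‖φ' (x : K)‖ ≤ ((4 * (Q * P) : ℕ) : ℝ) := by
      intro x hx φ'
      have h2 := (hY x).mp hx φ'
      have h3 : 2 * ρ ≤ 4 * (Q * P) := by
        have : (2 * ρ) ^ 2 ≤ (4 * ((Q : ℝ) * P)) ^ 2 := by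
          rw [mul_pow, hρ2]
          nlinarith
        exact (pow_le_pow_iff_left₀ (by positivity) (by positivity) (by norm_num)).mp this
      push_cast
      linarith
    have h2 := hM4i K (4 * (Q * P)) Y h1
    rw [hKdeg] at h2
    refine h2.trans (le_of_eq ?_)
    rw [← pow_mul]
    congr 1
    · ring
    · ring
  · rw [hAcard]
    have hPC : X.card * U.card ≤ PC (Y.image (fun x : 𝓞 K => φ (x : K))) (√(σ (β : L))) := by
      rw [← Finset.card_product, PC]
      refine Finset.card_le_card_of_injOn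
        (fun p : 𝓞 K × 𝓞 K => (φ ((p.1 + p.2 : 𝓞 K) : K), φ (p.1 : K))) ?_ ?_
      · rintro ⟨x, u⟩ hxu
        obtain ⟨hx, hu⟩ := Finset.mem_product.mp (Finset.mem_coe.mp hxu)
        simp only at hx hu
        have h3 : φ ((x + u : 𝓞 K) : K) = φ (x : K) + φ (u : K) := by
          rw [← map_add]
          rfl
        have hne : φ ((x + u : 𝓞 K) : K) ≠ φ (x : K) := by
          rw [h3]
          intro h
          have h4 : φ (u : K) = 0 := by simpa using h
          have h5 := hφne u (hU u hu).1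
          rw [h4, norm_zero] at h5
          exact lt_irrefl _ h5
        rw [Finset.mem_coe, Finset.mem_filter, Finset.mem_offDiag]
        refine ⟨⟨Finset.mem_image_of_mem _ (hYU x hx u hu), Finset.mem_image_of_mem _ (hYX x hx),
          hne⟩, ?_⟩
        simp only
        rw [dist_eq_norm, h3, add_sub_cancel_left]
        exact hdist u hu
      · rintro ⟨x, u⟩ - ⟨x', u'⟩ - h
        simp only [Prod.mk.injEq] at h
        obtain ⟨h1, h2⟩ := h
        have h3 := hinj h2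
        have h4 := hinj h1
        subst h3
        have h5 := add_left_cancel h4
        rw [h5]
    rw [hKdeg] at hXY
    calc 2 ^ (T.card * 2 ^ (m + 1)) * Y.card
        ≤ ((10 * P ^ 2) ^ 2 ^ (m + 1) * U.card) * (81 ^ (2 * 2 ^ (m + 1)) * X.card) :=
          Nat.mul_le_mul hcard hXY
      _ = ((10 * P ^ 2) * 81 ^ 2) ^ 2 ^ (m + 1) * (X.card * U.card) := by
          rw [mul_pow (10 * P ^ 2) (81 ^ 2), ← pow_mul 81 2]
          ring
      _ ≤ (100000 * P ^ 2) ^ 2 ^ (m + 1) *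
          PC (Y.image (fun x : 𝓞 K => φ (x : K))) (√(σ (β : L))) := by
          refine Nat.mul_le_mul (Nat.pow_le_pow_left ?_ _) hPC
          have : 10 * P ^ 2 * 81 ^ 2 = 65610 * P ^ 2 := by ring
          rw [this]
          exact Nat.mul_le_mul_right _ (by norm_num)
  · intro x hx y hy hxy
    obtain ⟨a, ha, rfl⟩ := Finset.mem_image.mp hx
    obtain ⟨b, hb, rfl⟩ := Finset.mem_image.mp hy
    have hz : a - b ≠ 0 := by
      intro h
      exact hxy (by rw [sub_eq_zero.mp h])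
    obtain ⟨γ, hγ⟩ := hnorm ((a - b : 𝓞 K) : K)
    have hγint : IsIntegral ℤ γ := by
      have h1 : IsIntegral ℤ (algebraMap L K γ) := by
        rw [hγ]
        refine IsIntegral.mul (RingOfIntegers.isIntegral_coe _) ?_
        exact (RingOfIntegers.isIntegral_coe (a - b)).map (q.σ.restrictScalars ℤ)
      exact (isIntegral_algebraMap_iff (algebraMap L K).injective).mp h1
    refine ⟨⟨γ, hγint⟩, ?_, ?_⟩
    · have h1 := M7_norm q.σ φ σ (hconj φ) hφ ((a - b : 𝓞 K) : K) γ hγ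
      have h3 : φ ((a - b : 𝓞 K) : K) = φ (a : K) - φ (b : K) := by
        rw [← map_sub]
        rfl
      change dist (φ (a : K)) (φ (b : K)) ^ 2 = σ γ
      rw [dist_eq_norm, ← h3]
      exact h1.symm
    · intro τ
      obtain ⟨φ', hφ'⟩ := hext τ
      have h1 := M7_norm q.σ φ' τ (hconj φ') hφ' ((a - b : 𝓞 K) : K) γ hγ
      have h3 : φ' ((a - b : 𝓞 K) : K) = φ' (a : K) - φ' (b : K) := by
        rw [← map_sub]
        rfl
      have hpos : 0 < ‖φ' ((a - b : 𝓞 K) : K)‖ := by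
        rw [norm_pos_iff]
        intro h
        refine hz (RingOfIntegers.ext (φ'.injective ?_))
        rw [h]
        exact (map_zero φ').symm
      have hle : ‖φ' ((a - b : 𝓞 K) : K)‖ ≤ 4 * ρ := by
        rw [h3]
        have h4 := norm_sub_le (φ' (a : K)) (φ' (b : K))
        have h5 := (hY a).mp ha φ'
        have h6 := (hY b).mp hb φ'
        linarith
      change 0 < τ γ ∧ τ γ ≤ _
      rw [h1]
      refine ⟨by positivity, ?_⟩
      have h7 : ‖φ' ((a - b : 𝓞 K) : K)‖ ^ 2 ≤ (4 * ρ) ^ 2 :=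
        pow_le_pow_left₀ (norm_nonneg _) hle 2
      have h8 : (4 * ρ) ^ 2 = ((32 * (Q * P) : ℕ) : ℝ) := by
        rw [mul_pow, hρ2]
        push_cast
        ring
      rw [h8] at h7
      refine h7.trans ?_
      exact_mod_cast M7_num P Q hP hQ1

end Pool.Agent.UDT
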