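import Pool.Agent.UDT.StG

set_option autoImplicit false

/-!
# UDT / S1: the augmentation ideal of a finite 2-group is nilpotent
-/

namespace Pool.Agent.UDT

theorem S1_aug_single {G : Type} [Group G] (g : G) (a : ZMod 2) :
    aug G (MonoidAlgebra.single g a) = a := by
  unfold aug
  rw [MonoidAlgebra.lift_single]
  simp

theorem S1_mem {A : Type} [Ring A] [Algebra (ZMod 2) A] {ε : A →ₐ[ZMod 2] ZMod 2} {x : A} :
    x ∈ augJ ε ↔ ε x = 0 := by
  unfold augJ
  rw [LinearMap.mem_ker]
  rfl

/-- the powers of an involution -/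
theorem S1_pow {G : Type} [Group G] {z x : G} (hz : z * z = 1) (hx : x ∈ Subgroup.zpowers z) :
    x = 1 ∨ x = z := by
  obtain ⟨k, rfl⟩ := hx
  have h2 : z ^ (2 : ℤ) = 1 := by
    rw [zpow_two]
    exact hz
  rcases Int.even_or_odd' k with ⟨j, h | h⟩
  · left
    show z ^ k = 1
    rw [h, zpow_mul, h2, one_zpow]
  · right
    show z ^ k = z
    rw [h, zpow_add, zpow_mul, h2, one_zpow, one_mul, zpow_one]

/-- an element of the group algebra modulo `z - 1` -/
theorem S1_ker {G : Type} [Group G] (z : G) (hz : z * z = 1) (hc : ∀ g, z * g = g * z)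
    [hN : (Subgroup.zpowers z).Normal] (f : GA G) :
    ∃ h : GA G, f = (MonoidAlgebra.single z 1 - 1) * h +
      MonoidAlgebra.mapDomain (Quotient.out : G ⧸ Subgroup.zpowers z → G)
        (MonoidAlgebra.mapDomain (QuotientGroup.mk' (Subgroup.zpowers z)) f) := by
  induction f using MonoidAlgebra.induction_linear with
  | zero => exact ⟨0, by simp⟩
  | add x y hx hy =>
    obtain ⟨h1, e1⟩ := hx
    obtain ⟨h2, e2⟩ := hy
    refine ⟨h1 + h2, ?_⟩
    rw [MonoidAlgebra.mapDomain_add, MonoidAlgebra.mapDomain_add, mul_add]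
    nth_rewrite 1 [e1, e2]
    abel
  | single g a =>
    rw [MonoidAlgebra.mapDomain_single, MonoidAlgebra.mapDomain_single]
    obtain ⟨r, hr⟩ : ∃ r : G, r = Quotient.out (QuotientGroup.mk' (Subgroup.zpowers z) g) :=
      ⟨_, rfl⟩
    have h1 : r⁻¹ * g ∈ Subgroup.zpowers z := by
      rw [← QuotientGroup.eq, hr]
      exact Quotient.out_eq _
    rw [← hr]
    rcases S1_pow hz h1 with h2 | h2
    · refine ⟨0, ?_⟩
      have h3 : g = r := by
        rw [inv_mul_eq_one] at h2
        exact h2.symm
      rw [mul_zero, zero_add, h3]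
    · refine ⟨MonoidAlgebra.single r a, ?_⟩
      have h3 : g = z * r := by
        rw [hc, ← h2, mul_inv_cancel_left]
      rw [sub_mul, one_mul, MonoidAlgebra.single_mul_single, one_mul, h3]
      abel

theorem S1_central {G : Type} [Group G] [Finite G] {m : ℕ} (hG : Nat.card G = 2 ^ (m + 1)) :
    ∃ z : G, orderOf z = 2 ∧ ∀ g, z * g = g * z := by
  haveI : Fact (Nat.Prime 2) := ⟨Nat.prime_two⟩
  have hp : IsPGroup 2 G := IsPGroup.of_card hG
  haveI : Nontrivial G := by
    rw [← Finite.one_lt_card_iff_nontrivial, hG]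
    exact Nat.one_lt_two_pow (by omega)
  haveI := hp.center_nontrivial
  have hp2 : IsPGroup 2 (Subgroup.center G) := hp.to_subgroup _
  have h1 : 2 ∣ Nat.card (Subgroup.center G) := by
    rcases hp2.card_eq_or_dvd with h | h
    · have := Finite.one_lt_card (α := Subgroup.center G)
      omega
    · exact h
  obtain ⟨x, hx⟩ := exists_prime_orderOf_dvd_card' 2 h1
  refine ⟨x.1, ?_, fun g => ?_⟩
  · rw [Subgroup.orderOf_coe]
    exact hx
  · exact (Subgroup.mem_center_iff.1 x.2 g).symm

theorem S1_all : ∀ (m : ℕ) (G : Type) [Group G] [Finite G], Nat.card G = 2 ^ m →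
    ∃ N : ℕ, augJ (aug G) ^ N = ⊥
  | 0, G, _, _, hG => by
    refine ⟨1, ?_⟩
    rw [pow_one, eq_bot_iff]
    intro f hf
    rw [S1_mem] at hf
    rw [pow_zero, Nat.card_eq_one_iff_unique] at hG
    haveI := hG.1
    have h1 : ∀ f : GA G, f = MonoidAlgebra.single 1 (aug G f) := by
      intro f
      induction f using MonoidAlgebra.induction_linear with
      | zero => simp
      | add x y hx hy =>
        rw [map_add, MonoidAlgebra.single_add, ← hx, ← hy]
      | single g a =>
        rw [S1_aug_single, Subsingleton.elim g 1]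
    rw [Submodule.mem_bot, h1 f, hf, MonoidAlgebra.single_zero]
  | m + 1, G, _, _, hG => by
    obtain ⟨z, hz, hc⟩ := S1_central hG
    have hzz : z * z = 1 := by
      rw [← pow_two, ← hz]
      exact pow_orderOf_eq_one z
    haveI hN : (Subgroup.zpowers z).Normal := by
      refine ⟨fun x hx g => ?_⟩
      have h1 : g * x * g⁻¹ = x := by
        rcases S1_pow hzz hx with h | h
        · rw [h, mul_one, mul_inv_cancel]
        · rw [h, ← hc, mul_inv_cancel_right]
      rw [h1]
      exact hx
    have hQ : Nat.card (G ⧸ Subgroup.zpowers z) = 2 ^ m := by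
      have h1 := Subgroup.card_eq_card_quotient_mul_card_subgroup (Subgroup.zpowers z)
      rw [Nat.card_zpowers, hz, hG, pow_succ] at h1
      omega
    obtain ⟨N, hNN⟩ := S1_all m (G ⧸ Subgroup.zpowers z) hQ
    obtain ⟨φ, hφ⟩ : ∃ φ : GA G →ₐ[ZMod 2] GA (G ⧸ Subgroup.zpowers z),
        φ = MonoidAlgebra.mapDomainAlgHom (ZMod 2) (ZMod 2)
          (QuotientGroup.mk' (Subgroup.zpowers z)) := ⟨_, rfl⟩
    have hφ1 : ∀ f, φ f = MonoidAlgebra.mapDomain (QuotientGroup.mk' (Subgroup.zpowers z)) f := by
      intro f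
      rw [hφ]
      rfl
    have haug : ∀ f, aug (G ⧸ Subgroup.zpowers z) (φ f) = aug G f := by
      intro f
      induction f using MonoidAlgebra.induction_linear with
      | zero => simp
      | add x y hx hy => rw [map_add, map_add, map_add, hx, hy]
      | single g a => rw [hφ1, MonoidAlgebra.mapDomain_single, S1_aug_single, S1_aug_single]
    have hle : Submodule.map φ.toLinearMap (augJ (aug G)) ≤
        augJ (aug (G ⧸ Subgroup.zpowers z)) := by
      rintro _ ⟨f, hf, rfl⟩
      rw [S1_mem]
      show aug (G ⧸ Subgroup.zpowers z) (φ f) = 0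
      rw [haug]
      exact S1_mem.1 hf
    have hpow : Submodule.map φ.toLinearMap (augJ (aug G) ^ N) ≤ ⊥ := by
      rw [Submodule.map_pow, ← hNN]
      exact pow_le_pow_left' hle N
    have hker : ∀ f ∈ augJ (aug G) ^ N, ∃ h : GA G, f = (MonoidAlgebra.single z 1 - 1) * h := by
      intro f hf
      have h1 : φ f = 0 := by
        have h2 : φ.toLinearMap f ∈ Submodule.map φ.toLinearMap (augJ (aug G) ^ N) :=
          Submodule.mem_map_of_mem hf
        exact (Submodule.mem_bot _).1 (hpow h2)
      obtain ⟨h, hh⟩ := S1_ker z hzz hc f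
      rw [hφ1] at h1
      rw [h1, MonoidAlgebra.mapDomain_zero, add_zero] at hh
      exact ⟨h, hh⟩
    have hcc : ∀ h : GA G, h * (MonoidAlgebra.single z 1 - 1) =
        (MonoidAlgebra.single z 1 - 1) * h := by
      intro h
      have h1 : Commute (MonoidAlgebra.single z (1 : ZMod 2)) h :=
        MonoidAlgebra.single_commute (fun g => hc g) (fun a => Commute.all _ _) h
      rw [mul_sub, sub_mul, h1.eq, mul_one, one_mul]
    have hsq : (MonoidAlgebra.single z 1 - 1 : GA G) * (MonoidAlgebra.single z 1 - 1) = 0 := by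
      rw [sub_mul, mul_sub, MonoidAlgebra.single_mul_single, hzz, mul_one, mul_one, one_mul,
        ← MonoidAlgebra.one_def]
      have h2 : (1 : GA G) + 1 = 0 := by
        rw [MonoidAlgebra.one_def, ← MonoidAlgebra.single_add]
        have : (1 : ZMod 2) + 1 = 0 := by decide
        rw [this, MonoidAlgebra.single_zero]
      have h3 : (MonoidAlgebra.single z 1 : GA G) + MonoidAlgebra.single z 1 = 0 := by
        rw [← MonoidAlgebra.single_add]
        have : (1 : ZMod 2) + 1 = 0 := by decide
        rw [this, MonoidAlgebra.single_zero]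
      calc (1 : GA G) - MonoidAlgebra.single z 1 - (MonoidAlgebra.single z 1 - 1) =
          (1 + 1) - (MonoidAlgebra.single z 1 + MonoidAlgebra.single z 1) := by abel
        _ = 0 := by rw [h2, h3, sub_zero]
    refine ⟨N + N, ?_⟩
    rw [pow_add, eq_bot_iff, Submodule.mul_le]
    intro a ha b hb
    obtain ⟨h, rfl⟩ := hker a ha
    obtain ⟨h', rfl⟩ := hker b hb
    rw [Submodule.mem_bot]
    calc (MonoidAlgebra.single z 1 - 1) * h * ((MonoidAlgebra.single z 1 - 1) * h') =
        (MonoidAlgebra.single z 1 - 1) * (h * (MonoidAlgebra.single z 1 - 1)) * h' := by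
          simp only [mul_assoc]
      _ = ((MonoidAlgebra.single z 1 - 1) * (MonoidAlgebra.single z 1 - 1)) * h * h' := by
          rw [hcc h]
          simp only [mul_assoc]
      _ = 0 := by rw [hsq, zero_mul, zero_mul]

theorem thm_S1 : St_S1 := by
  intro G _ _ m hG
  exact S1_all m G hG

end Pool.Agent.UDT
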