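import Pool.Agent.UDT.StG

set_option autoImplicit false

/-!
# UDT / S2: Nakayama over a ring with nilpotent augmentation ideal
-/

namespace Pool.Agent.UDT

section S2

variable {A : Type} [Ring A] [Algebra (ZMod 2) A] (ε : A →ₐ[ZMod 2] ZMod 2)
variable (M : Type) [AddCommGroup M] [Module A M]

/-- the submodule `J M` -/
private def S2_P : Submodule A M :=
  Submodule.span A {y | ∃ (a : A) (m : M), ε a = 0 ∧ y = a • m}

variable {M}

private theorem S2_smul_mem {a : A} (ha : ε a = 0) (m : M) : a • m ∈ S2_P ε M :=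
  Submodule.subset_span ⟨a, m, ha, rfl⟩

/-- one Nakayama step -/
private theorem S2_step (M' : Submodule A M) (h : M' ⊔ S2_P ε M = ⊤) (n : ℕ)
    (hn : ∀ a ∈ augJ ε ^ (n + 1), ∀ m : M, a • m ∈ M') :
    ∀ a ∈ augJ ε ^ n, ∀ m : M, a • m ∈ M' := by
  intro a ha m
  have hm : m ∈ M' ⊔ S2_P ε M := by rw [h]; exact Submodule.mem_top
  rw [Submodule.mem_sup] at hm
  obtain ⟨y, hy, z, hz, rfl⟩ := hm
  rw [smul_add]
  refine M'.add_mem (M'.smul_mem a hy) ?_
  unfold S2_P at hz
  -- closure induction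
  have key : ∀ w ∈ Submodule.span A {y | ∃ (a : A) (m : M), ε a = 0 ∧ y = a • m},
      ∀ b ∈ augJ ε ^ n, b • w ∈ M' := by
    intro w hw
    refine Submodule.closure_induction (R := A) (p := fun w _ => ∀ b ∈ augJ ε ^ n, b • w ∈ M')
      ?_ ?_ ?_ hw
    · intro b _
      rw [smul_zero]
      exact M'.zero_mem
    · intro x y _ _ hx hy b hb
      rw [smul_add]
      exact M'.add_mem (hx b hb) (hy b hb)
    · intro r x hx b hb
      obtain ⟨c, m, hc, rfl⟩ := hx
      rw [← mul_smul, ← mul_smul, mul_assoc]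
      refine hn _ ?_ m
      rw [pow_succ]
      refine Submodule.mul_mem_mul hb ?_
      change ε (r * c) = 0
      rw [map_mul, hc, mul_zero]
  exact key z hz a ha

private theorem S2_naka (M' : Submodule A M) (h : M' ⊔ S2_P ε M = ⊤) (N : ℕ)
    (hN : augJ ε ^ N = ⊥) : M' = ⊤ := by
  have h0 : ∀ a ∈ augJ ε ^ N, ∀ m : M, a • m ∈ M' := by
    intro a ha m
    rw [hN, Submodule.mem_bot] at ha
    rw [ha, zero_smul]
    exact M'.zero_mem
  have h1 : ∀ k : ℕ, (∀ a ∈ augJ ε ^ k, ∀ m : M, a • m ∈ M') →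
      ∀ a ∈ augJ ε ^ 0, ∀ m : M, a • m ∈ M' := by
    intro k
    induction k with
    | zero => exact fun h => h
    | succ k ih => exact fun hk => ih (S2_step ε M' h k hk)
  have h2 := h1 N h0
  rw [eq_top_iff]
  intro m _
  have := h2 1 (by rw [pow_zero]; exact Submodule.one_le.mp le_rfl) m
  rwa [one_smul] at this

end S2

theorem thm_S2 : St_S2 := by
  intro A _ _ ε N hN M _ _ _
  letI : Module (ZMod 2) M := Module.compHom M (algebraMap (ZMod 2) A)
  haveI : IsScalarTower (ZMod 2) A M := ⟨fun c a m => by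
    change (c • a) • m = algebraMap (ZMod 2) A c • (a • m)
    rw [← mul_smul, Algebra.smul_def]⟩
  haveI : Module.Finite (ZMod 2) (M ⧸ S2_P ε M) := by
    haveI : Finite (M ⧸ S2_P ε M) := Quotient.finite _
    exact Module.Finite.of_finite
  let b := Module.finBasis (ZMod 2) (M ⧸ S2_P ε M)
  have hu : ∀ i, ∃ m : M, (S2_P ε M).mkQ m = b i := fun i => (S2_P ε M).mkQ_surjective (b i)
  choose u hu using hu
  have hsc : ∀ (a : A) (m : M), (S2_P ε M).mkQ (a • m) = ε a • (S2_P ε M).mkQ m := by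
    intro a m
    have h1 : ε a • (S2_P ε M).mkQ m = (S2_P ε M).mkQ (ε a • m) := rfl
    rw [h1, ← sub_eq_zero, ← map_sub]
    have h2 : a • m - ε a • m = (a - algebraMap (ZMod 2) A (ε a)) • m := by
      rw [sub_smul]
      rfl
    rw [h2]
    refine (Submodule.Quotient.mk_eq_zero _).mpr (S2_smul_mem ε ?_ m)
    rw [map_sub, AlgHom.commutes]
    simp
  have hsup : Submodule.span A (Set.range u) ⊔ S2_P ε M = ⊤ := by
    rw [eq_top_iff]
    intro m _
    have h1 := b.sum_repr ((S2_P ε M).mkQ m)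
    have h2 : (S2_P ε M).mkQ (m - ∑ i, (b.repr ((S2_P ε M).mkQ m) i) • u i) = 0 := by
      rw [map_sub, map_sum, sub_eq_zero, ← h1]
      refine Finset.sum_congr rfl fun i _ => ?_
      rw [h1]
      change _ = (b.repr ((S2_P ε M).mkQ m) i) • (S2_P ε M).mkQ (u i)
      rw [hu]
    have h3 : m - ∑ i, (b.repr ((S2_P ε M).mkQ m) i) • u i ∈ S2_P ε M :=
      (Submodule.Quotient.mk_eq_zero _).mp h2
    rw [Submodule.mem_sup]
    refine ⟨∑ i, (b.repr ((S2_P ε M).mkQ m) i) • u i, ?_, _, h3, by abel⟩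
    refine Submodule.sum_mem _ fun i _ => ?_
    exact Submodule.smul_mem _ (algebraMap (ZMod 2) A _) (Submodule.subset_span ⟨i, rfl⟩)
  have htop := S2_naka ε _ hsup N hN
  refine ⟨Module.finrank (ZMod 2) (M ⧸ S2_P ε M), u, htop, ?_⟩
  have hcard : Nat.card (DH ε M) =
      Nat.card (Fin (Module.finrank (ZMod 2) (M ⧸ S2_P ε M)) → ZMod 2) := by
    refine Nat.card_congr (Equiv.ofBijective (fun f i => f.1 (u i)) ⟨?_, ?_⟩)
    · intro f g hfg
      apply Subtype.ext
      ext m
      have hm : m ∈ Submodule.span A (Set.range u) := by rw [htop]; exact Submodule.mem_top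
      induction hm using Submodule.span_induction with
      | mem x hx =>
        obtain ⟨i, rfl⟩ := hx
        exact congrFun hfg i
      | zero => rw [map_zero, map_zero]
      | add x y _ _ hx hy => rw [map_add, map_add, hx, hy]
      | smul a x _ hx => rw [f.2, g.2, hx]
    · intro v
      refine ⟨⟨((b.constr (ZMod 2) v).comp ((S2_P ε M).mkQ.restrictScalars (ZMod 2))).toAddMonoidHom,
        ?_⟩, ?_⟩
      · intro a m
        change (b.constr (ZMod 2) v) ((S2_P ε M).mkQ (a • m)) =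
          ε a * (b.constr (ZMod 2) v) ((S2_P ε M).mkQ m)
        rw [hsc, map_smul, smul_eq_mul]
      · funext i
        change (b.constr (ZMod 2) v) ((S2_P ε M).mkQ (u i)) = v i
        rw [hu, Module.Basis.constr_basis]
  rw [hcard]
  simp

end Pool.Agent.UDT
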