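import Pool.Agent.UDT.StG

/-!
# UDT [S3]: characters of `G` and the augmentation ideal (helper35)
-/

set_option autoImplicit false

namespace Pool.Agent.UDT

private def S3s (x : ZMod 2) : ℤˣ := if x = 0 then 1 else -1

private def S3t (u : ℤˣ) : ZMod 2 := if u = 1 then 0 else 1

private theorem S3s_add : ∀ x y : ZMod 2, S3s (x + y) = S3s x * S3s y := by decide

private theorem S3s_inj : ∀ x y : ZMod 2, S3s x = S3s y → x = y := by decide

private theorem S3s_t : ∀ u : ℤˣ, S3s (S3t u) = u := by decide

private theorem S3t_mul : ∀ u v : ℤˣ, S3t (u * v) = S3t u + S3t v := by decide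

private theorem S3t_one : S3t 1 = 0 := by decide

section

variable {G : Type} [Group G]

private theorem S3_aug_of (g : G) : aug G (MonoidAlgebra.of (ZMod 2) G g) = 1 := by
  unfold aug
  rw [MonoidAlgebra.lift_of]
  rfl

/-- the element `g - 1` of the augmentation ideal -/
private noncomputable def S3d (g : G) : (RingHom.ker (aug G) : Ideal (GA G)) :=
  ⟨MonoidAlgebra.of (ZMod 2) G g - 1, by
    rw [RingHom.mem_ker, map_sub, map_one, S3_aug_of, sub_self]⟩

private theorem S3d_mul (g h : G) :
    S3d (g * h) = S3d g + MonoidAlgebra.of (ZMod 2) G g • S3d h := by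
  apply Subtype.ext
  show MonoidAlgebra.of (ZMod 2) G (g * h) - 1 = (MonoidAlgebra.of (ZMod 2) G g - 1) +
    MonoidAlgebra.of (ZMod 2) G g * (MonoidAlgebra.of (ZMod 2) G h - 1)
  rw [map_mul]
  noncomm_ring

private theorem S3_val_mul (f : DH (aug G) (RingHom.ker (aug G) : Ideal (GA G))) (g h : G) :
    f.1 (S3d (g * h)) = f.1 (S3d g) + f.1 (S3d h) := by
  rw [S3d_mul, map_add, f.2, S3_aug_of, one_mul]

/-- the character of a functional -/
private noncomputable def S3chi (f : DH (aug G) (RingHom.ker (aug G) : Ideal (GA G))) :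
    G →* ℤˣ where
  toFun g := S3s (f.1 (S3d g))
  map_one' := by
    have h := S3_val_mul f 1 1
    rw [mul_one] at h
    have h0 : f.1 (S3d (1 : G)) = 0 := by
      have h2 := congrArg (fun x => x - f.1 (S3d (1 : G))) h
      simpa using h2.symm
    rw [h0]
    rfl
  map_mul' g h := by
    rw [S3_val_mul, S3s_add]

/-- the projection to the augmentation ideal -/
private noncomputable def S3p (a : GA G) : (RingHom.ker (aug G) : Ideal (GA G)) :=
  ⟨a - algebraMap (ZMod 2) (GA G) (aug G a), by
    rw [RingHom.mem_ker, map_sub, AlgHom.commutes]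
    exact sub_self _⟩

private theorem S3p_of (g : G) : S3p (MonoidAlgebra.of (ZMod 2) G g) = S3d g := by
  apply Subtype.ext
  show MonoidAlgebra.of (ZMod 2) G g -
    algebraMap (ZMod 2) (GA G) (aug G (MonoidAlgebra.of (ZMod 2) G g)) = _
  rw [S3_aug_of, map_one]
  rfl

private theorem S3p_add (a b : GA G) : S3p (a + b) = S3p a + S3p b := by
  apply Subtype.ext
  show (a + b) - algebraMap (ZMod 2) (GA G) (aug G (a + b)) =
    (a - algebraMap (ZMod 2) (GA G) (aug G a)) + (b - algebraMap (ZMod 2) (GA G) (aug G b))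
  rw [map_add, map_add]
  abel

private theorem S3p_zero : S3p (0 : GA G) = 0 := by
  apply Subtype.ext
  show (0 : GA G) - algebraMap (ZMod 2) (GA G) (aug G 0) = 0
  rw [map_zero, map_zero, sub_self]

private theorem S3p_ker (m : (RingHom.ker (aug G) : Ideal (GA G))) : S3p (m : GA G) = m := by
  apply Subtype.ext
  show (m : GA G) - algebraMap (ZMod 2) (GA G) (aug G (m : GA G)) = m
  have h : aug G (m : GA G) = 0 := m.2
  rw [h, map_zero, sub_zero]

private theorem S3_zmod (r : ZMod 2) : r = 0 ∨ r = 1 := by
  revert r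
  decide

private theorem S3_inj : Function.Injective (S3chi (G := G)) := by
  intro f f' h
  have h1 : ∀ g : G, f.1 (S3d g) = f'.1 (S3d g) := fun g => S3s_inj _ _ (DFunLike.congr_fun h g)
  have h2 : ∀ a : GA G, f.1 (S3p a) = f'.1 (S3p a) := by
    intro a
    induction a using MonoidAlgebra.induction_on with
    | of g => rw [S3p_of]; exact h1 g
    | add a b ha hb => rw [S3p_add, map_add, map_add, ha, hb]
    | smul r a ha =>
      rcases S3_zmod r with hr | hr
      · rw [hr, zero_smul, S3p_zero, map_zero, map_zero]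
      · rw [hr, one_smul]
        exact ha
  apply Subtype.ext
  apply AddMonoidHom.ext
  intro m
  have h3 := h2 (m : GA G)
  rwa [S3p_ker] at h3

/-- the derivation of a character -/
private noncomputable def S3F (χ : G →* ℤˣ) : GA G →+ ZMod 2 :=
  MonoidAlgebra.liftNC (AddMonoidHom.id (ZMod 2)) (fun g => S3t (χ g))

private theorem S3F_of (χ : G →* ℤˣ) (g : G) :
    S3F χ (MonoidAlgebra.of (ZMod 2) G g) = S3t (χ g) := by
  unfold S3F
  rw [MonoidAlgebra.of_apply, MonoidAlgebra.liftNC_single]
  simp

private theorem S3F_der (χ : G →* ℤˣ) (a b : GA G) :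
    S3F χ (a * b) = S3F χ a * aug G b + aug G a * S3F χ b := by
  induction a using MonoidAlgebra.induction_on with
  | of g =>
    induction b using MonoidAlgebra.induction_on with
    | of h =>
      rw [← map_mul, S3F_of, S3F_of, S3F_of, S3_aug_of, S3_aug_of, mul_one, one_mul, map_mul,
        S3t_mul]
    | add a b ha hb => rw [mul_add, map_add, ha, hb, map_add, map_add]; ring
    | smul r a ha =>
      rcases S3_zmod r with hr | hr
      · rw [hr, zero_smul, mul_zero, map_zero, map_zero, mul_zero, mul_zero, add_zero]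
      · rw [hr, one_smul]
        exact ha
  | add a a' ha hb => rw [add_mul, map_add, ha, hb, map_add, map_add]; ring
  | smul r a ha =>
    rcases S3_zmod r with hr | hr
    · rw [hr, zero_smul, zero_mul, map_zero, map_zero, zero_mul, zero_mul, add_zero]
    · rw [hr, one_smul]
      exact ha

private theorem S3_surj : Function.Surjective (S3chi (G := G)) := by
  intro χ
  refine ⟨⟨(S3F χ).comp ((RingHom.ker (aug G) : Ideal (GA G)).subtype.toAddMonoidHom), ?_⟩, ?_⟩
  · intro a m
    show S3F χ (a * (m : GA G)) = aug G a * S3F χ (m : GA G)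
    have h : aug G (m : GA G) = 0 := m.2
    rw [S3F_der, h, mul_zero, zero_add]
  · apply MonoidHom.ext
    intro g
    show S3s (S3F χ (MonoidAlgebra.of (ZMod 2) G g - 1)) = χ g
    have h1 : S3F χ (1 : GA G) = 0 := by
      rw [← map_one (MonoidAlgebra.of (ZMod 2) G), S3F_of, map_one, S3t_one]
    rw [map_sub, h1, sub_zero, S3F_of, S3s_t]

end

/-- [S3] -/
theorem thm_S3 : St_S3 := by
  intro G _ _
  exact Nat.card_eq_of_bijective S3chi ⟨S3_inj, S3_surj⟩

end Pool.Agent.UDT
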