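import Pool.Agent.UDT.StG

set_option autoImplicit false

/-!
# UDT / S4: relations of the augmentation ideal give cocycles (helper21)
-/

namespace Pool.Agent.UDT

section S4

variable {G : Type} [Group G]

/-- group elements in the group algebra -/
noncomputable def S4_o (σ : G) : GA G := MonoidAlgebra.of (ZMod 2) G σ

theorem S4_o_mul (σ τ : G) : S4_o (σ * τ) = S4_o σ * S4_o τ := map_mul _ _ _

theorem S4_aug_o (σ : G) : aug G (S4_o σ) = 1 := by
  unfold aug S4_o
  rw [MonoidAlgebra.lift_of]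
  rfl

/-- linear extension of a function on the group -/
noncomputable def S4_ext {V : Type} [AddCommGroup V] [Module (ZMod 2) V] (t : G → V) :
    GA G →ₗ[ZMod 2] V :=
  (Finsupp.linearCombination (ZMod 2) t).comp
    (MonoidAlgebra.coeffLinearEquiv (ZMod 2)).toLinearMap

theorem S4_ext_o {V : Type} [AddCommGroup V] [Module (ZMod 2) V] (t : G → V) (σ : G) :
    S4_ext t (S4_o σ) = t σ := by
  unfold S4_ext S4_o
  simp [MonoidAlgebra.of_apply]

theorem S4_zmod (r : ZMod 2) : r = 0 ∨ r = 1 := by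
  revert r
  decide

/-- induction over the group algebra -/
theorem S4_ind {p : GA G → Prop} (y : GA G) (h0 : p 0) (ho : ∀ σ, p (S4_o σ))
    (ha : ∀ a b, p a → p b → p (a + b)) : p y := by
  induction y using MonoidAlgebra.induction_on with
  | of m => exact ho m
  | add a b iha ihb => exact ha a b iha ihb
  | smul r a iha =>
    rcases S4_zmod r with rfl | rfl
    · rw [zero_smul]; exact h0
    · rw [one_smul]; exact iha

variable {d : ℕ}

/-- the map with kernel the relations -/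
noncomputable def S4_pi (x : Fin d → GA G) : (Fin d → GA G) →ₗ[GA G] GA G where
  toFun u := ∑ i, u i * x i
  map_add' u v := by
    rw [← Finset.sum_add_distrib]
    exact Finset.sum_congr rfl fun i _ => add_mul _ _ _
  map_smul' a u := by
    rw [RingHom.id_apply, smul_eq_mul, Finset.mul_sum]
    exact Finset.sum_congr rfl fun i _ => mul_assoc _ _ _

theorem S4_pi_ext {x : Fin d → GA G} {s : G → Fin d → GA G}
    (hs : ∀ σ, S4_pi x (s σ) = S4_o σ - 1) (y : GA G) :
    S4_pi x (S4_ext s y) = y - algebraMap (ZMod 2) (GA G) (aug G y) := by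
  refine S4_ind (p := fun y => S4_pi x (S4_ext s y) =
    y - algebraMap (ZMod 2) (GA G) (aug G y)) y ?_ ?_ ?_
  · rw [map_zero, map_zero, map_zero, map_zero, sub_zero]
  · intro σ
    rw [S4_ext_o, hs, S4_aug_o, map_one]
  · intro a b ha hb
    rw [map_add, map_add, map_add, map_add, ha, hb]
    abel

/-- the heart of the proof: a functional on the relations which is a coboundary on the cocycle of
relations vanishes -/
theorem S4_main (x : Fin d → GA G) (hx : ∀ i, aug G (x i) = 0)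
    (K : Submodule (GA G) (Fin d → GA G)) (hK : ∀ a, a ∈ K ↔ S4_pi x a = 0)
    (hKJ : ∀ a ∈ K, ∀ i, aug G (a i) = 0) (s : G → Fin d → GA G)
    (hs : ∀ σ, S4_pi x (s σ) = S4_o σ - 1) (f : K →+ ZMod 2)
    (hf : ∀ (a : GA G) (m : K), f (a • m) = aug G a * f m) (h : G → ZMod 2)
    (hh : ∀ σ τ (hm : s (σ * τ) - s σ - S4_o σ • s τ ∈ K),
      f ⟨_, hm⟩ = h σ + h τ + h (σ * τ)) (k : K) : f k = 0 := by
  have h2 : ∀ r : ZMod 2, r + r = 0 := by decide
  -- the cocycle, extended linearly in the second variable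
  have hkm : ∀ (τ : G) (y : GA G), S4_ext s (S4_o τ * y) -
      algebraMap (ZMod 2) (GA G) (aug G y) • s τ - S4_o τ • S4_ext s y ∈ K := by
    intro τ y
    rw [hK, map_sub, map_sub, map_smul, map_smul, S4_pi_ext hs, S4_pi_ext hs, hs, map_mul,
      S4_aug_o, one_mul, smul_eq_mul, smul_eq_mul, mul_sub, mul_sub, mul_one,
      Algebra.commutes (aug G y) (S4_o τ)]
    abel
  have hkv : ∀ (τ : G) (y : GA G), f ⟨_, hkm τ y⟩ =
      aug G y * h τ + S4_ext h y + S4_ext h (S4_o τ * y) := by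
    intro τ y
    refine S4_ind (p := fun y => f ⟨_, hkm τ y⟩ =
      aug G y * h τ + S4_ext h y + S4_ext h (S4_o τ * y)) y ?_ ?_ ?_
    · have e1 : (⟨_, hkm τ 0⟩ : K) = 0 := by
        apply Subtype.ext
        change S4_ext s (S4_o τ * 0) - algebraMap (ZMod 2) (GA G) (aug G 0) • s τ -
          S4_o τ • S4_ext s 0 = 0
        rw [mul_zero, map_zero, map_zero, map_zero, zero_smul, smul_zero, sub_zero, sub_zero]
      rw [e1, mul_zero, map_zero, map_zero, map_zero]
      ring
    · intro σ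
      have hm : s (τ * σ) - s τ - S4_o τ • s σ ∈ K := by
        have := hkm τ (S4_o σ)
        rwa [← S4_o_mul, S4_ext_o, S4_ext_o, S4_aug_o, map_one, one_smul] at this
      have e1 : (⟨_, hkm τ (S4_o σ)⟩ : K) = ⟨_, hm⟩ := by
        apply Subtype.ext
        change S4_ext s (S4_o τ * S4_o σ) - algebraMap (ZMod 2) (GA G) (aug G (S4_o σ)) • s τ -
          S4_o τ • S4_ext s (S4_o σ) = _
        rw [← S4_o_mul, S4_ext_o, S4_ext_o, S4_aug_o, map_one, one_smul]
      rw [e1, hh τ σ hm, ← S4_o_mul, S4_ext_o, S4_ext_o, S4_aug_o, one_mul]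
    · intro a b ha hb
      have e1 : (⟨_, hkm τ (a + b)⟩ : K) = ⟨_, hkm τ a⟩ + ⟨_, hkm τ b⟩ := by
        apply Subtype.ext
        change S4_ext s (S4_o τ * (a + b)) - algebraMap (ZMod 2) (GA G) (aug G (a + b)) • s τ -
          S4_o τ • S4_ext s (a + b) = (S4_ext s (S4_o τ * a) -
          algebraMap (ZMod 2) (GA G) (aug G a) • s τ - S4_o τ • S4_ext s a) +
          (S4_ext s (S4_o τ * b) -
          algebraMap (ZMod 2) (GA G) (aug G b) • s τ - S4_o τ • S4_ext s b)
        rw [mul_add, map_add, map_add, map_add, map_add, smul_add, add_smul]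
        abel
      rw [e1, map_add, ha, hb, mul_add, map_add, map_add, map_add]
      ring
  -- the projection to the relations
  have haug : ∀ u : Fin d → GA G, aug G (S4_pi x u) = 0 := by
    intro u
    change aug G (∑ i, u i * x i) = 0
    rw [map_sum]
    refine Finset.sum_eq_zero fun i _ => ?_
    rw [map_mul, hx, mul_zero]
  have hq : ∀ u : Fin d → GA G, u - S4_ext s (S4_pi x u) ∈ K := by
    intro u
    rw [hK, map_sub, S4_pi_ext hs, haug, map_zero, sub_zero, sub_self]
  let F : (Fin d → GA G) → ZMod 2 := fun u => f ⟨_, hq u⟩ + S4_ext h (S4_pi x u)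
  have F_add : ∀ u v, F (u + v) = F u + F v := by
    intro u v
    have e1 : (⟨_, hq (u + v)⟩ : K) = ⟨_, hq u⟩ + ⟨_, hq v⟩ := by
      apply Subtype.ext
      change (u + v) - S4_ext s (S4_pi x (u + v)) = (u - S4_ext s (S4_pi x u)) +
        (v - S4_ext s (S4_pi x v))
      rw [map_add, map_add]
      abel
    change f ⟨_, hq (u + v)⟩ + S4_ext h (S4_pi x (u + v)) = (f ⟨_, hq u⟩ + S4_ext h (S4_pi x u)) +
      (f ⟨_, hq v⟩ + S4_ext h (S4_pi x v))
    rw [e1, map_add, map_add, map_add]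
    abel
  have F_o : ∀ (τ : G) u, F (S4_o τ • u) = F u := by
    intro τ u
    have e1 : (⟨_, hq (S4_o τ • u)⟩ : K) = S4_o τ • ⟨_, hq u⟩ - ⟨_, hkm τ (S4_pi x u)⟩ := by
      apply Subtype.ext
      change S4_o τ • u - S4_ext s (S4_pi x (S4_o τ • u)) =
        S4_o τ • (u - S4_ext s (S4_pi x u)) - (S4_ext s (S4_o τ * S4_pi x u) -
          algebraMap (ZMod 2) (GA G) (aug G (S4_pi x u)) • s τ -
          S4_o τ • S4_ext s (S4_pi x u))
      rw [map_smul, smul_eq_mul, haug, map_zero, zero_smul, smul_sub]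
      abel
    change f ⟨_, hq (S4_o τ • u)⟩ + S4_ext h (S4_pi x (S4_o τ • u)) =
      f ⟨_, hq u⟩ + S4_ext h (S4_pi x u)
    rw [e1, map_sub, hf, S4_aug_o, one_mul, hkv, haug, zero_mul, zero_add, map_smul, smul_eq_mul]
    have h3 := h2 (S4_ext h (S4_pi x u))
    linear_combination -h3
  have F_zero : F 0 = 0 := by
    have h3 := F_add 0 0
    rw [add_zero] at h3
    have h4 := h2 (F 0)
    rw [← h3] at h4
    exact h4
  have F_smul : ∀ (a : GA G) u, F (a • u) = aug G a * F u := by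
    intro a u
    refine S4_ind (p := fun a => F (a • u) = aug G a * F u) a ?_ ?_ ?_
    · rw [zero_smul, map_zero, zero_mul, F_zero]
    · intro σ
      rw [F_o, S4_aug_o, one_mul]
    · intro a b ha hb
      rw [add_smul, F_add, ha, hb, map_add, add_mul]
  have F_K : ∀ k : K, F k.1 = f k := by
    intro k
    have h3 : S4_pi x k.1 = 0 := (hK k.1).1 k.2
    have e1 : (⟨_, hq k.1⟩ : K) = k := by
      apply Subtype.ext
      change k.1 - S4_ext s (S4_pi x k.1) = k.1
      rw [h3, map_zero, sub_zero]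
    change f ⟨_, hq k.1⟩ + S4_ext h (S4_pi x k.1) = f k
    rw [e1, h3, map_zero, add_zero]
  rw [← F_K k]
  have h3 : k.1 = ∑ i, k.1 i • (Pi.single i (1 : GA G) : Fin d → GA G) := by
    rw [← Finset.univ_sum_single k.1]
    refine Finset.sum_congr rfl fun i _ => ?_
    rw [Finset.univ_sum_single]
    ext j
    by_cases hj : j = i
    · subst hj
      simp
    · simp [Pi.single_eq_of_ne hj]
  have h4 : F k.1 = ∑ i, F (k.1 i • (Pi.single i (1 : GA G) : Fin d → GA G)) := by
    have h5 := map_sum (AddMonoidHom.mk' F F_add)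
      (fun i => k.1 i • (Pi.single i (1 : GA G) : Fin d → GA G)) Finset.univ
    rw [← h3] at h5
    exact h5
  rw [h4]
  refine Finset.sum_eq_zero fun i _ => ?_
  rw [F_smul, hKJ k.1 k.2 i, zero_mul]

/-- the isomorphism of the field of two elements and the signs -/
def S4_e (n : ZMod 2) : ℤˣ := if n = 0 then 1 else -1

theorem S4_e_add : ∀ a b : ZMod 2, S4_e (a + b) = S4_e a * S4_e b := by decide

theorem S4_e_inj : ∀ a b : ZMod 2, S4_e a = S4_e b → a = b := by decide

theorem S4_e_surj (u : ℤˣ) : ∃ n, S4_e n = u := by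
  rcases Int.units_eq_one_or u with rfl | rfl
  · exact ⟨0, rfl⟩
  · exact ⟨1, rfl⟩

end S4

theorem thm_S4 : St_S4 := by
  intro G _ _ d x hspan K hK hKJ
  have hxm : ∀ i, x i ∈ RingHom.ker (aug G) := by
    intro i
    rw [← hspan]
    exact Submodule.subset_span ⟨i, rfl⟩
  have hx : ∀ i, aug G (x i) = 0 := fun i => hxm i
  have hex : ∀ σ : G, ∃ c : Fin d → GA G, S4_pi x c = S4_o σ - 1 := by
    intro σ
    have h1 : S4_o σ - 1 ∈ (Submodule.span (GA G) (Set.range x) : Ideal (GA G)) := by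
      rw [hspan]
      change aug G (S4_o σ - 1) = 0
      rw [map_sub, S4_aug_o, map_one, sub_self]
    obtain ⟨c, hc⟩ := (Submodule.mem_span_range_iff_exists_fun (GA G)).1 h1
    exact ⟨c, hc⟩
  choose s hs using hex
  have hKm : ∀ σ τ : G, s (σ * τ) - s σ - S4_o σ • s τ ∈ K := by
    intro σ τ
    rw [hK]
    change S4_pi x (s (σ * τ) - s σ - S4_o σ • s τ) = 0
    rw [map_sub, map_sub, map_smul, hs, hs, hs, smul_eq_mul, mul_sub, mul_one, S4_o_mul]
    abel
  refine ⟨fun f σ τ => S4_e (f.1 ⟨_, hKm σ τ⟩), ?_, ?_⟩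
  · intro f σ τ ρ
    change S4_e (f.1 ⟨_, hKm τ ρ⟩) * S4_e (f.1 ⟨_, hKm σ (τ * ρ)⟩) =
      S4_e (f.1 ⟨_, hKm (σ * τ) ρ⟩) * S4_e (f.1 ⟨_, hKm σ τ⟩)
    rw [← S4_e_add, ← S4_e_add]
    congr 1
    have h1 : f.1 (S4_o σ • ⟨_, hKm τ ρ⟩) = f.1 ⟨_, hKm τ ρ⟩ := by
      rw [f.2, S4_aug_o, one_mul]
    rw [← h1, ← map_add, ← map_add]
    congr 1
    apply Subtype.ext
    change S4_o σ • (s (τ * ρ) - s τ - S4_o τ • s ρ) +
        (s (σ * (τ * ρ)) - s σ - S4_o σ • s (τ * ρ)) =
      (s (σ * τ * ρ) - s (σ * τ) - S4_o (σ * τ) • s ρ) + (s (σ * τ) - s σ - S4_o σ • s τ)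
    rw [smul_sub, smul_sub, S4_o_mul, mul_smul, mul_assoc]
    abel
  · rintro f g ⟨a, ha⟩
    choose h hh using fun σ => S4_e_surj (a σ)
    have hz : ∀ k : K, (f.1 + g.1) k = 0 := by
      refine S4_main x hx K hK hKJ s hs (f.1 + g.1) ?_ h ?_
      · intro b m
        rw [AddMonoidHom.add_apply, AddMonoidHom.add_apply, f.2, g.2, mul_add]
      · intro σ τ hm
        apply S4_e_inj
        rw [AddMonoidHom.add_apply, S4_e_add, S4_e_add, S4_e_add, hh, hh, hh]
        exact ha σ τ
    apply Subtype.ext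
    apply AddMonoidHom.ext
    intro k
    have h1 := hz k
    rw [AddMonoidHom.add_apply] at h1
    have h2 : ∀ r t : ZMod 2, r + t = 0 → r = t := by decide
    exact h2 _ _ h1

end Pool.Agent.UDT
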