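import Pool.Agent.UDT.StG

set_option autoImplicit false

/-!
# UDT / S5: the Golod-Shafarevich dimension count
-/

namespace Pool.Agent.UDT

section S5

private theorem S5_rn {X Y : Type} [AddCommGroup X] [AddCommGroup Y] [Module (ZMod 2) X]
    [Module (ZMod 2) Y] [Module.Finite (ZMod 2) X] (g : X →ₗ[ZMod 2] Y)
    (W : Submodule (ZMod 2) X) :
    Module.finrank (ZMod 2) (W.map g) +
      Module.finrank (ZMod 2) (W ⊓ LinearMap.ker g : Submodule (ZMod 2) X) =
    Module.finrank (ZMod 2) W := by
  have h := LinearMap.finrank_range_add_finrank_ker (g.domRestrict W)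
  rw [LinearMap.range_domRestrict] at h
  rw [← h]
  congr 1
  have h2 : LinearMap.ker (g.domRestrict W) = (LinearMap.ker g).comap W.subtype := rfl
  rw [h2, ← Submodule.map_comap_subtype, Submodule.finrank_map_subtype_eq]

/-- the submodule of vectors with entries in `F` -/
private def S5_W {A : Type} [Ring A] [Algebra (ZMod 2) A] (d : ℕ) (F : Submodule (ZMod 2) A) :
    Submodule (ZMod 2) (Fin d → A) :=
  Submodule.pi Set.univ (fun _ => F)

private theorem S5_mem_W {A : Type} [Ring A] [Algebra (ZMod 2) A] (d : ℕ)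
    (F : Submodule (ZMod 2) A) (a : Fin d → A) : a ∈ S5_W d F ↔ ∀ i, a i ∈ F := by
  unfold S5_W
  rw [Submodule.mem_pi]
  exact ⟨fun h i => h i (Set.mem_univ i), fun h i _ => h i⟩

private theorem S5_finrank_W {A : Type} [Ring A] [Algebra (ZMod 2) A] [Module.Finite (ZMod 2) A]
    (d : ℕ) (F : Submodule (ZMod 2) A) :
    Module.finrank (ZMod 2) (S5_W d F) = d * Module.finrank (ZMod 2) F := by
  have e : S5_W d F ≃ₗ[ZMod 2] (Fin d → F) :=
    { toFun := fun a i => ⟨a.1 i, (S5_mem_W d F a.1).mp a.2 i⟩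
      invFun := fun b => ⟨fun i => (b i).1, (S5_mem_W d F _).mpr fun i => (b i).2⟩
      map_add' := fun a b => rfl
      map_smul' := fun c a => rfl
      left_inv := fun a => rfl
      right_inv := fun b => rfl }
  rw [LinearEquiv.finrank_eq e, Module.finrank_pi_fintype]
  simp

variable {A : Type} [Ring A] [Algebra (ZMod 2) A] (ε : A →ₐ[ZMod 2] ZMod 2)

/-- the filtration -/
private noncomputable def S5_F (n : ℕ) : Submodule (ZMod 2) A := ⊤ * augJ ε ^ n

private theorem S5_F_zero : S5_F ε 0 = ⊤ := by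
  unfold S5_F
  rw [pow_zero, mul_one]

private theorem S5_F_succ (n : ℕ) : S5_F ε (n + 1) = S5_F ε n * augJ ε := by
  unfold S5_F
  rw [pow_succ, mul_assoc]

private theorem S5_mem_J (y : A) : y ∈ augJ ε ↔ ε y = 0 := Iff.rfl

private theorem S5_J_mul {y : A} (hy : y ∈ augJ ε) (a : A) : y * a ∈ augJ ε := by
  rw [S5_mem_J] at hy ⊢
  rw [map_mul, hy, zero_mul]

private theorem S5_mul_J {y : A} (hy : y ∈ augJ ε) (a : A) : a * y ∈ augJ ε := by
  rw [S5_mem_J] at hy ⊢
  rw [map_mul, hy, mul_zero]

private theorem S5_F_mul (n : ℕ) : ∀ f ∈ S5_F ε n, ∀ a : A, f * a ∈ S5_F ε n := by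
  cases n with
  | zero =>
    intro f _ a
    rw [S5_F_zero]
    exact Submodule.mem_top
  | succ n =>
    rw [S5_F_succ]
    intro f hf a
    induction hf using Submodule.mul_induction_on' with
    | mem_mul_mem m hm y hy =>
      rw [mul_assoc]
      exact Submodule.mul_mem_mul hm (S5_J_mul ε hy a)
    | add x _ y _ hx hy =>
      rw [add_mul]
      exact Submodule.add_mem _ hx hy

private theorem S5_F_one : S5_F ε 1 = augJ ε := by
  rw [S5_F_succ, S5_F_zero]
  apply le_antisymm
  · rw [Submodule.mul_le]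
    intro a _ y hy
    exact S5_mul_J ε hy a
  · intro y hy
    have := Submodule.mul_mem_mul (Submodule.mem_top : (1 : A) ∈ (⊤ : Submodule (ZMod 2) A)) hy
    rwa [one_mul] at this

end S5

theorem thm_S5 : St_S5 := by
  intro A _ _ _ ε d r x ρ h1 h2 h3
  -- abbreviations
  obtain ⟨D, hD⟩ : ∃ D, D = Module.finrank (ZMod 2) A := ⟨_, rfl⟩
  have hle : ∀ F : Submodule (ZMod 2) A, Module.finrank (ZMod 2) F ≤ D := by
    intro F
    rw [hD]
    exact Submodule.finrank_le F
  have hJ : Module.finrank (ZMod 2) (augJ ε) + 1 = D := by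
    have h := LinearMap.finrank_range_add_finrank_ker ε.toLinearMap
    have hr : LinearMap.range ε.toLinearMap = ⊤ := by
      rw [LinearMap.range_eq_top]
      intro c
      refine ⟨algebraMap (ZMod 2) A c, ?_⟩
      change ε (algebraMap (ZMod 2) A c) = c
      rw [AlgHom.commutes]
      rfl
    rw [hr, finrank_top, Module.finrank_self] at h
    rw [hD, ← h, add_comm]
    rfl
  let φ : (Fin d → A) →ₗ[ZMod 2] A :=
    { toFun := fun a => ∑ i, a i * x i
      map_add' := fun a b => by
        simp only [Pi.add_apply, add_mul, Finset.sum_add_distrib]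
      map_smul' := fun c a => by
        simp only [Pi.smul_apply, smul_mul_assoc, Finset.smul_sum, RingHom.id_apply] }
  have hφ : ∀ a, φ a = ∑ i, a i * x i := fun a => rfl
  let ψ : (Fin r → A) →ₗ[ZMod 2] (Fin d → A) :=
    { toFun := fun b => fun i => ∑ j, b j * ρ j i
      map_add' := fun a b => by
        funext i
        simp only [Pi.add_apply, add_mul, Finset.sum_add_distrib]
      map_smul' := fun c a => by
        funext i
        simp only [Pi.smul_apply, smul_mul_assoc, Finset.smul_sum, RingHom.id_apply] }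
  have hψ : ∀ b i, ψ b i = ∑ j, b j * ρ j i := fun b i => rfl
  have hker : LinearMap.ker φ = LinearMap.range ψ := by
    ext a
    rw [LinearMap.mem_ker, hφ, h2 a, LinearMap.mem_range]
    constructor
    · rintro ⟨b, hb⟩
      exact ⟨b, hb.symm⟩
    · rintro ⟨b, hb⟩
      exact ⟨b, hb.symm⟩
  have hran : LinearMap.range φ = augJ ε := by
    ext y
    rw [LinearMap.mem_range, h1 y]
    constructor
    · rintro ⟨b, hb⟩
      exact ⟨b, hb.symm⟩
    · rintro ⟨b, hb⟩
      exact ⟨b, hb.symm⟩
  -- ρ j i in J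
  have hρ : ∀ j i, ρ j i ∈ augJ ε := by
    intro j
    have hz : ∑ i, ρ j i * x i = 0 := by
      rw [h2 (ρ j)]
      refine ⟨Pi.single j 1, ?_⟩
      funext i
      rw [Finset.sum_eq_single j]
      · rw [Pi.single_eq_same, one_mul]
      · intro k _ hk
        rw [Pi.single_eq_of_ne hk, zero_mul]
      · intro h
        exact absurd (Finset.mem_univ j) h
    intro i
    exact h3 (ρ j) hz i
  -- rank nullity for φ and ψ
  have e1 : Module.finrank (ZMod 2) (augJ ε) + Module.finrank (ZMod 2) (LinearMap.ker φ) =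
      d * D := by
    have h := LinearMap.finrank_range_add_finrank_ker φ
    rw [hran, Module.finrank_pi_fintype, ← hD] at h
    simpa using h
  have e2 : Module.finrank (ZMod 2) (LinearMap.ker φ) +
      Module.finrank (ZMod 2) (LinearMap.ker ψ) = r * D := by
    have h := LinearMap.finrank_range_add_finrank_ker ψ
    rw [← hker, Module.finrank_pi_fintype, ← hD] at h
    simpa using h
  refine ⟨fun n => D - Module.finrank (ZMod 2) (S5_F ε n), ?_, ?_, ⟨D, fun n => Nat.sub_le _ _⟩, ?_⟩
  · change D - Module.finrank (ZMod 2) (S5_F ε 0) = 0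
    rw [S5_F_zero, finrank_top, ← hD, Nat.sub_self]
  · change D - Module.finrank (ZMod 2) (S5_F ε 1) = 1
    rw [S5_F_one]
    omega
  · intro n
    change 1 + d * (D - Module.finrank (ZMod 2) (S5_F ε (n + 1))) ≤
      (D - Module.finrank (ZMod 2) (S5_F ε (n + 2))) +
        r * (D - Module.finrank (ZMod 2) (S5_F ε n))
    -- W = F(n+1)^d
    have e3 := S5_rn φ (S5_W d (S5_F ε (n + 1)))
    rw [S5_finrank_W] at e3
    have e4 := S5_rn ψ (S5_W r (S5_F ε n))
    rw [S5_finrank_W] at e4
    have i1 : Module.finrank (ZMod 2) (S5_F ε (n + 2)) ≤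
        Module.finrank (ZMod 2) ((S5_W d (S5_F ε (n + 1))).map φ) := by
      apply Submodule.finrank_mono
      rw [S5_F_succ, Submodule.mul_le]
      intro f hf y hy
      obtain ⟨a, ha⟩ := (h1 y).mp hy
      refine ⟨fun i => f * a i, ?_, ?_⟩
      · change (fun i => f * a i) ∈ S5_W d (S5_F ε (n + 1))
        rw [S5_mem_W]
        exact fun i => S5_F_mul ε (n + 1) f hf (a i)
      · rw [hφ, ha, Finset.mul_sum]
        exact Finset.sum_congr rfl fun i _ => mul_assoc _ _ _
    have i2 : Module.finrank (ZMod 2) ((S5_W r (S5_F ε n)).map ψ) ≤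
        Module.finrank (ZMod 2)
          (S5_W d (S5_F ε (n + 1)) ⊓ LinearMap.ker φ : Submodule (ZMod 2) (Fin d → A)) := by
      apply Submodule.finrank_mono
      rintro _ ⟨b, hb, rfl⟩
      refine ⟨?_, ?_⟩
      · change ψ b ∈ S5_W d (S5_F ε (n + 1))
        rw [S5_mem_W]
        intro i
        rw [hψ]
        refine Submodule.sum_mem _ fun j _ => ?_
        rw [S5_F_succ]
        exact Submodule.mul_mem_mul ((S5_mem_W r _ b).mp hb j) (hρ j i)
      · change ψ b ∈ LinearMap.ker φ
        rw [hker]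
        exact LinearMap.mem_range_self ψ b
    have i3 : Module.finrank (ZMod 2)
        (S5_W r (S5_F ε n) ⊓ LinearMap.ker ψ : Submodule (ZMod 2) (Fin r → A)) ≤
        Module.finrank (ZMod 2) (LinearMap.ker ψ) :=
      Submodule.finrank_mono inf_le_right
    have l1 := hle (S5_F ε (n + 1))
    have l2 := hle (S5_F ε (n + 2))
    have l3 := hle (S5_F ε n)
    rw [Nat.mul_sub, Nat.mul_sub]
    have m1 : d * Module.finrank (ZMod 2) (S5_F ε (n + 1)) ≤ d * D := Nat.mul_le_mul_left d l1
    have m2 : r * Module.finrank (ZMod 2) (S5_F ε n) ≤ r * D := Nat.mul_le_mul_left r l3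
    omega

end Pool.Agent.UDT
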