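import Pool.Agent.UDT.StG

set_option autoImplicit false

/-!
# UDT / S6: the numerical part of the Golod-Shafarevich inequality (helper56)

Elementary proof without power series: if `4 r ≤ d ^ 2` then `c (n + 1) - (d / 2) c n ≥ n + 1`.
-/

namespace Pool.Agent.UDT

theorem thm_S6 : St_S6 := by
  intro d r c hd h0 h1 hB h
  obtain ⟨B, hB⟩ := hB
  by_contra hcon
  have hr : 4 * r ≤ d ^ 2 := not_lt.1 hcon
  have hr' : (r : ℝ) ≤ ((d : ℝ) / 2) ^ 2 := by
    have : (4 * r : ℝ) ≤ (d : ℝ) ^ 2 := by exact_mod_cast hr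
    nlinarith
  have hd' : (1 : ℝ) ≤ (d : ℝ) / 2 := by
    have : (3 : ℝ) ≤ d := by exact_mod_cast hd
    linarith
  have key : ∀ n : ℕ, ((n : ℝ) + 1) ≤ (c (n + 1) : ℝ) - (d : ℝ) / 2 * c n := by
    intro n
    induction n with
    | zero =>
      rw [h0, h1]
      norm_num
    | succ n ih =>
      have e1 : (1 : ℝ) + d * c (n + 1) ≤ c (n + 2) + r * c n := by exact_mod_cast h n
      have e2 : (r : ℝ) * c n ≤ ((d : ℝ) / 2) ^ 2 * c n :=
        mul_le_mul_of_nonneg_right hr' (Nat.cast_nonneg _)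
      have e3 : (d : ℝ) / 2 * ((n : ℝ) + 1) ≤
          (d : ℝ) / 2 * ((c (n + 1) : ℝ) - (d : ℝ) / 2 * c n) :=
        mul_le_mul_of_nonneg_left ih (by linarith)
      have e4 : (1 : ℝ) * ((n : ℝ) + 1) ≤ (d : ℝ) / 2 * ((n : ℝ) + 1) :=
        mul_le_mul_of_nonneg_right hd' (by positivity)
      push_cast
      nlinarith
  have e5 := key B
  have e6 : (c (B + 1) : ℝ) ≤ B := by exact_mod_cast hB (B + 1)
  have e7 : (0 : ℝ) ≤ (d : ℝ) / 2 * c B := mul_nonneg (by linarith) (Nat.cast_nonneg _)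
  linarith

end Pool.Agent.UDT
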