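import Pool.Agent.UDT.StT

set_option autoImplicit false
set_option linter.unusedSectionVars false

/-!
# UDT / T0: the Galois action on primes (helper89)
-/

namespace Pool.Agent.UDT

open IsDedekindDomain NumberField HP7 Pool.Agent.QCF
open scoped WithZero

section

variable {k L : Type} [Field k] [NumberField k] [Field L] [NumberField L] [Algebra k L]

private theorem T0_pow (σ : L ≃ₐ[k] L) (w : HeightOneSpectrum (𝓞 L)) (n : ℕ) (a : 𝓞 L) :
    a ∈ (mv σ w).asIdeal ^ n ↔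
      RingOfIntegers.mapRingEquiv (σ : L ≃+* L) a ∈ w.asIdeal ^ n := by
  obtain ⟨e, he⟩ : ∃ e : 𝓞 L ≃+* 𝓞 L, e = RingOfIntegers.mapRingEquiv (σ : L ≃+* L) := ⟨_, rfl⟩
  have h1 : (mv σ w).asIdeal = Ideal.map e.symm w.asIdeal := by
    rw [Ideal.map_symm, he]
    rfl
  rw [h1, ← Ideal.map_pow, Ideal.map_symm, Ideal.mem_comap, he]

private theorem T0_int (σ : L ≃ₐ[k] L) (w : HeightOneSpectrum (𝓞 L)) (a : 𝓞 L) :
    (mv σ w).intValuation a =
      w.intValuation (RingOfIntegers.mapRingEquiv (σ : L ≃+* L) a) := by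
  obtain ⟨e, he⟩ : ∃ e : 𝓞 L ≃+* 𝓞 L, e = RingOfIntegers.mapRingEquiv (σ : L ≃+* L) := ⟨_, rfl⟩
  rw [← he]
  by_cases ha : a = 0
  · rw [ha, map_zero, map_zero, map_zero]
  · have hea : e a ≠ 0 := by
      intro h
      exact ha (e.injective (by rw [h, map_zero]))
    apply le_antisymm
    · rw [w.intValuation_eq_exp_neg_multiplicity hea,
        HeightOneSpectrum.intValuation_le_pow_iff_mem, T0_pow, ← he,
        ← HeightOneSpectrum.intValuation_le_pow_iff_mem,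
        w.intValuation_eq_exp_neg_multiplicity hea]
    · rw [(mv σ w).intValuation_eq_exp_neg_multiplicity ha,
        HeightOneSpectrum.intValuation_le_pow_iff_mem, he, ← T0_pow,
        ← HeightOneSpectrum.intValuation_le_pow_iff_mem,
        (mv σ w).intValuation_eq_exp_neg_multiplicity ha]

private theorem T0_val (σ : L ≃ₐ[k] L) (w : HeightOneSpectrum (𝓞 L)) (x : L) :
    (mv σ w).valuation L x = w.valuation L (σ x) := by
  obtain ⟨a, b, hb, rfl⟩ := IsFractionRing.div_surjective (A := 𝓞 L) x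
  have h1 : ∀ c : 𝓞 L, (mv σ w).valuation L (algebraMap (𝓞 L) L c) =
      w.valuation L (σ (algebraMap (𝓞 L) L c)) := by
    intro c
    have h2 : σ (algebraMap (𝓞 L) L c) =
        algebraMap (𝓞 L) L (RingOfIntegers.mapRingEquiv (σ : L ≃+* L) c) := rfl
    rw [h2, HeightOneSpectrum.valuation_of_algebraMap, HeightOneSpectrum.valuation_of_algebraMap,
      T0_int]
  rw [map_div₀, map_div₀, map_div₀, h1, h1]

private theorem T0_under (σ : L ≃ₐ[k] L) (w : HeightOneSpectrum (𝓞 L)) :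
    (mv σ w).under (𝓞 k) = w.under (𝓞 k) := by
  apply HeightOneSpectrum.ext
  ext x
  change RingOfIntegers.mapRingEquiv (σ : L ≃+* L) (algebraMap (𝓞 k) (𝓞 L) x) ∈ w.asIdeal ↔
    algebraMap (𝓞 k) (𝓞 L) x ∈ w.asIdeal
  have h1 : RingOfIntegers.mapRingEquiv (σ : L ≃+* L) (algebraMap (𝓞 k) (𝓞 L) x) =
      algebraMap (𝓞 k) (𝓞 L) x := by
    apply RingOfIntegers.ext
    exact σ.commutes (x : k)
  rw [h1]

private theorem T0_trans [IsGalois k L] (w w' : HeightOneSpectrum (𝓞 L))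
    (h : w.under (𝓞 k) = w'.under (𝓞 k)) : ∃ σ : L ≃ₐ[k] L, mv σ w = w' := by
  obtain ⟨p, hp⟩ : ∃ p : Ideal (𝓞 k), p = (w.under (𝓞 k)).asIdeal := ⟨_, rfl⟩
  have h1 : w.asIdeal ∈ p.primesOver (𝓞 L) := ⟨w.isPrime, ⟨hp⟩⟩
  have h2 : w'.asIdeal ∈ p.primesOver (𝓞 L) := ⟨w'.isPrime, ⟨by rw [hp, h]; rfl⟩⟩
  obtain ⟨σ, hσ⟩ := Ideal.exists_comap_galRestrict_eq (𝓞 k) k L (𝓞 L) h1 h2
  refine ⟨σ, ?_⟩
  apply HeightOneSpectrum.ext
  rw [← hσ]
  ext x
  change RingOfIntegers.mapRingEquiv (σ : L ≃+* L) x ∈ w.asIdeal ↔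
    galRestrict (𝓞 k) k L (𝓞 L) σ x ∈ w.asIdeal
  have h3 : RingOfIntegers.mapRingEquiv (σ : L ≃+* L) x = galRestrict (𝓞 k) k L (𝓞 L) σ x := by
    apply RingOfIntegers.ext
    have h4 := algebraMap_galRestrict_apply (𝓞 k) σ x
    exact h4.symm
  rw [h3]

private theorem T0_lsq (σ : L ≃ₐ[k] L) (w : HeightOneSpectrum (𝓞 L)) (x : L) :
    LSq (Sum.inl (mv σ w)) x ↔ LSq (Sum.inl w) (σ x) := by
  by_cases hx : x = 0
  · subst hx
    rw [map_zero]
    exact ⟨fun _ => lsq_of_isSquare _ ⟨0, by simp⟩, fun _ => lsq_of_isSquare _ ⟨0, by simp⟩⟩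
  · have hx' : σ x ≠ 0 := by
      intro h
      exact hx (σ.injective (by rw [h, map_zero]))
    have h1 := (st_L12 L (mv σ w) (Units.mk0 x hx)).1
    have h2 := (st_L12 L w (Units.mk0 (σ x) hx')).1
    rw [Units.val_mk0] at h1 h2
    rw [h1, h2]
    constructor
    · rintro ⟨y, hy⟩
      refine ⟨σ y, ?_⟩
      rw [T0_val, T0_val] at hy
      rw [map_sub, map_pow, map_mul, map_ofNat] at hy
      exact hy
    · rintro ⟨y, hy⟩
      refine ⟨σ.symm y, ?_⟩
      rw [T0_val, T0_val]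
      rw [map_sub, map_pow, map_mul, map_ofNat, σ.apply_symm_apply]
      exact hy

end

theorem thm_T0 : St_T0 := by
  intro k L _ _ _ _ _
  exact ⟨T0_val, mv_one, mv_mul, T0_under, fun _ w w' h => T0_trans w w' h, T0_lsq⟩

end Pool.Agent.UDT
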