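import Pool.Agent.UDT.StT

set_option autoImplicit false
set_option linter.deprecated false
set_option linter.unusedSectionVars false

/-!
# UDT / T1: unramified and totally split extensions in towers (helper89)
-/

namespace Pool.Agent.UDT

open IsDedekindDomain NumberField HP7 Pool.Agent.QCF
open scoped WithZero

section two

variable (k L : Type) [Field k] [NumberField k] [Field L] [NumberField L] [Algebra k L]

private theorem T1_val (w : HeightOneSpectrum (𝓞 L)) : ∃ e : ℕ, ∀ x : k,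
    (w.under (𝓞 k)).valuation k x ^ e = w.valuation L (algebraMap k L x) := by
  have : w.asIdeal.LiesOver (w.under (𝓞 k)).asIdeal := ⟨rfl⟩
  exact ⟨_, fun x => HeightOneSpectrum.valuation_liesOver L (w.under (𝓞 k)) w x⟩

private theorem T1_exp {n : ℕ} (h : (WithZero.exp (-1 : ℤ)) ^ n = WithZero.exp (-1 : ℤ)) :
    n = 1 := by
  rw [← WithZero.exp_nsmul, WithZero.exp_inj] at h
  simp only [nsmul_eq_mul] at h
  omega

private theorem T1_above (v : HeightOneSpectrum (𝓞 k)) :
    ∃ w : HeightOneSpectrum (𝓞 L), w.under (𝓞 k) = v := by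
  obtain ⟨P, hP, hPl⟩ := Ideal.exists_maximal_ideal_liesOver_of_isIntegral (S := 𝓞 L) v.asIdeal
  refine ⟨⟨P, hP.isPrime, Ideal.ne_bot_of_liesOver_of_ne_bot v.ne_bot P⟩, ?_⟩
  apply HeightOneSpectrum.ext
  exact hPl.over.symm

private theorem T1_le (v : HeightOneSpectrum (𝓞 k)) :
    {w : HeightOneSpectrum (𝓞 L) | w.under (𝓞 k) = v}.Finite ∧
    {w : HeightOneSpectrum (𝓞 L) | w.under (𝓞 k) = v}.ncard ≤ Module.finrank k L := by
  have hmax : v.asIdeal.IsMaximal := v.isMaximal
  have h1 : Set.MapsTo (fun w : HeightOneSpectrum (𝓞 L) => w.asIdeal)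
      {w : HeightOneSpectrum (𝓞 L) | w.under (𝓞 k) = v}
      (IsDedekindDomain.primesOverFinset v.asIdeal (𝓞 L) : Set (Ideal (𝓞 L))) := by
    intro w hw
    have hw' : w.under (𝓞 k) = v := hw
    rw [Finset.mem_coe, IsDedekindDomain.mem_primesOverFinset_iff v.ne_bot]
    exact ⟨w.isPrime, ⟨by rw [← hw']; rfl⟩⟩
  have h2 : Set.InjOn (fun w : HeightOneSpectrum (𝓞 L) => w.asIdeal)
      {w : HeightOneSpectrum (𝓞 L) | w.under (𝓞 k) = v} := fun w _ w' _ h =>
    HeightOneSpectrum.ext h
  refine ⟨Set.Finite.of_injOn h1 h2 (Finset.finite_toSet _), ?_⟩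
  refine (Set.ncard_le_ncard_of_injOn _ h1 h2 (Finset.finite_toSet _)).trans ?_
  rw [Set.ncard_coe_finset]
  have : NoZeroSMulDivisors (𝓞 k) (𝓞 L) := ⟨fun {c x} h => by
    rw [Algebra.smul_def, mul_eq_zero] at h
    rcases h with h | h
    · left
      exact FaithfulSMul.algebraMap_injective (𝓞 k) (𝓞 L) (by rw [h, map_zero])
    · exact Or.inr h⟩
  exact Ideal.card_primesOverFinset_le_finrank (𝓞 L) k L v.ne_bot

end two

section tower

variable (k M L : Type) [Field k] [NumberField k] [Field M] [NumberField M] [Field L]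
  [NumberField L] [Algebra k M] [Algebra M L] [Algebra k L] [IsScalarTower k M L]

private theorem T1_under (w : HeightOneSpectrum (𝓞 L)) :
    (w.under (𝓞 M)).under (𝓞 k) = w.under (𝓞 k) := by
  apply HeightOneSpectrum.ext
  ext x
  change algebraMap (𝓞 M) (𝓞 L) (algebraMap (𝓞 k) (𝓞 M) x) ∈ w.asIdeal ↔
    algebraMap (𝓞 k) (𝓞 L) x ∈ w.asIdeal
  have h1 : algebraMap (𝓞 M) (𝓞 L) (algebraMap (𝓞 k) (𝓞 M) x) = algebraMap (𝓞 k) (𝓞 L) x := by
    apply RingOfIntegers.ext
    exact (IsScalarTower.algebraMap_apply k M L (x : k)).symm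
  rw [h1]

private theorem T1_unr : Unr k L ↔ Unr k M ∧ Unr M L := by
  constructor
  · intro h
    have key : ∀ w : HeightOneSpectrum (𝓞 L),
        (∀ x : k, (w.under (𝓞 M)).valuation M (algebraMap k M x) =
          (w.under (𝓞 k)).valuation k x) ∧
        ∀ y : M, w.valuation L (algebraMap M L y) = (w.under (𝓞 M)).valuation M y := by
      intro w
      obtain ⟨a, ha⟩ := T1_val k M (w.under (𝓞 M))
      obtain ⟨b, hb⟩ := T1_val M L w
      rw [T1_under k M L w] at ha
      obtain ⟨π, hπ⟩ := (w.under (𝓞 k)).valuation_exists_uniformizer k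
      have h1 := h w π
      rw [IsScalarTower.algebraMap_apply k M L, ← hb, ← ha, ← pow_mul, hπ] at h1
      have h2 := T1_exp h1
      have h3 := Nat.eq_one_of_mul_eq_one_right h2
      have h4 := Nat.eq_one_of_mul_eq_one_left h2
      refine ⟨fun x => ?_, fun y => ?_⟩
      · rw [← ha, h3, pow_one]
      · rw [← hb, h4, pow_one]
    refine ⟨fun u x => ?_, fun w y => (key w).2 y⟩
    obtain ⟨w, hw⟩ := T1_above M L u
    have h1 := (key w).1 x
    rw [← T1_under k M L w, hw] at h1
    exact h1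
  · rintro ⟨h1, h2⟩ w x
    rw [IsScalarTower.algebraMap_apply k M L, h2, h1, T1_under]

private theorem T1_sum (v : HeightOneSpectrum (𝓞 k)) :
    {w : HeightOneSpectrum (𝓞 L) | w.under (𝓞 k) = v}.ncard =
      ∑ u ∈ (T1_le k M v).1.toFinset,
        {w : HeightOneSpectrum (𝓞 L) | w.under (𝓞 M) = u}.ncard := by
  classical
  rw [Set.ncard_eq_toFinset_card _ (T1_le k L v).1]
  rw [Finset.card_eq_sum_card_fiberwise (f := fun w : HeightOneSpectrum (𝓞 L) => w.under (𝓞 M))
    (t := (T1_le k M v).1.toFinset) ?_]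
  · refine Finset.sum_congr rfl fun u hu => ?_
    rw [Set.Finite.mem_toFinset] at hu
    have hu' : u.under (𝓞 k) = v := hu
    rw [Set.ncard_eq_toFinset_card _ (T1_le M L u).1]
    congr 1
    ext w
    rw [Finset.mem_filter, Set.Finite.mem_toFinset, Set.Finite.mem_toFinset]
    change w.under (𝓞 k) = v ∧ w.under (𝓞 M) = u ↔ w.under (𝓞 M) = u
    constructor
    · exact fun h => h.2
    · intro h
      refine ⟨?_, h⟩
      rw [← T1_under k M L w, h, hu']
  · intro w hw
    rw [Finset.mem_coe, Set.Finite.mem_toFinset] at hw ⊢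
    have hw' : w.under (𝓞 k) = v := hw
    change (w.under (𝓞 M)).under (𝓞 k) = v
    rw [T1_under k M L w, hw']

private theorem T1_spl (v : HeightOneSpectrum (𝓞 k)) : SpC L v ↔ SpC M v ∧
    ∀ u : HeightOneSpectrum (𝓞 M), u.under (𝓞 k) = v → SpC L u := by
  have hfr : Module.finrank k M * Module.finrank M L = Module.finrank k L :=
    Module.finrank_mul_finrank k M L
  have hsum := T1_sum k M L v
  have hle : ∀ u ∈ (T1_le k M v).1.toFinset,
      {w : HeightOneSpectrum (𝓞 L) | w.under (𝓞 M) = u}.ncard ≤ Module.finrank M L :=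
    fun u _ => (T1_le M L u).2
  have hML : 0 < Module.finrank M L := Module.finrank_pos
  have hcard : (T1_le k M v).1.toFinset.card =
      {u : HeightOneSpectrum (𝓞 M) | u.under (𝓞 k) = v}.ncard :=
    (Set.ncard_eq_toFinset_card _ (T1_le k M v).1).symm
  have hMle := (T1_le k M v).2
  have hmem : ∀ u : HeightOneSpectrum (𝓞 M), u ∈ (T1_le k M v).1.toFinset ↔
      u.under (𝓞 k) = v := fun u => Set.Finite.mem_toFinset _
  unfold SpC
  constructor
  · intro h
    rw [hsum] at h
    have h1 := Finset.sum_le_sum hle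
    rw [Finset.sum_const, smul_eq_mul, hcard] at h1
    rw [h, ← hfr] at h1
    have h2 : Module.finrank k M ≤ {u : HeightOneSpectrum (𝓞 M) | u.under (𝓞 k) = v}.ncard :=
      Nat.le_of_mul_le_mul_right h1 hML
    have h3 : {u : HeightOneSpectrum (𝓞 M) | u.under (𝓞 k) = v}.ncard = Module.finrank k M :=
      le_antisymm hMle h2
    refine ⟨h3, fun u hu => ?_⟩
    have h4 : ∑ u ∈ (T1_le k M v).1.toFinset,
        {w : HeightOneSpectrum (𝓞 L) | w.under (𝓞 M) = u}.ncard =
        ∑ u ∈ (T1_le k M v).1.toFinset, Module.finrank M L := by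
      rw [h, Finset.sum_const, smul_eq_mul, hcard, h3, hfr]
    exact (Finset.sum_eq_sum_iff_of_le hle).1 h4 u ((hmem u).2 hu)
  · rintro ⟨h1, h2⟩
    rw [hsum, Finset.sum_congr rfl fun u hu => h2 u ((hmem u).1 hu), Finset.sum_const, smul_eq_mul,
      hcard, h1, hfr]

end tower

theorem thm_T1 : St_T1 := by
  intro k M L _ _ _ _ _ _ _ _ _ _
  exact ⟨T1_unr k M L, fun v => T1_spl k M L v⟩

end Pool.Agent.UDT
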