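import Pool.Agent.UDT.StT

set_option autoImplicit false

/-!
UDT [T10]: characters (helper8).
-/

namespace Pool.Agent.UDT

open IsDedekindDomain NumberField HP7 Pool.Agent.QCF
open scoped WithZero

section

variable {k L : Type} [Field k] [NumberField k] [Field L] [NumberField L] [Algebra k L]

omit [NumberField k] [NumberField L] in
private theorem T10_pm {α r : L} (h : α = r * r) {σ : L ≃ₐ[k] L} (hσ : σ α = α) :
    σ r = r ∨ σ r = -r := by
  have h1 : σ r * σ r = r * r := by
    rw [← map_mul, ← h, hσ]
  rcases mul_self_eq_mul_self_iff.1 h1 with h2 | h2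
  · exact Or.inl h2
  · exact Or.inr h2

open Classical in
/-- the character of a square root -/
private noncomputable def T10_chi (α r : L) (h : α = r * r) (h0 : r ≠ 0)
    (hα : ∀ σ : L ≃ₐ[k] L, σ α = α) : (L ≃ₐ[k] L) →* ℤˣ where
  toFun σ := if σ r = r then 1 else -1
  map_one' := by simp
  map_mul' σ τ := by
    have hr : r ≠ -r := by
      intro h1
      exact h0 (self_eq_neg.1 h1)
    have hστ : (σ * τ) r = σ (τ r) := rfl
    rw [hστ]
    rcases T10_pm h (hα σ) with h1 | h1 <;> rcases T10_pm h (hα τ) with h2 | h2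
    · rw [h2, h1]
      simp
    · rw [h2, map_neg, h1]
      simp [Ne.symm hr]
    · rw [h2, h1]
      simp [Ne.symm hr]
    · rw [h2, map_neg, h1, neg_neg]
      simp [Ne.symm hr]

end

/-- [T10] characters -/
theorem thm_T10 : St_T10 := by
  classical
  intro k L _ _ _ _ _ S m hG hsq n μ he hf hi hinj
  have := hG.gal
  -- the images are squares
  have h1 : ∀ i, ∃ r : L, algebraMap k L (μ i : k) = r * r := by
    intro i
    have h2 := hsq (Units.map (algebraMap k L : k →* L) (μ i)) ?_
    · obtain ⟨r, hr⟩ := h2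
      exact ⟨r, hr⟩
    · refine ⟨?_, ?_, ?_, ?_⟩
      · intro σ
        refine ⟨1, ?_⟩
        have h3 : σ (algebraMap k L (μ i : k)) = algebraMap k L (μ i : k) := σ.commutes _
        have h4 : algebraMap k L (μ i : k) ≠ 0 := by
          simp
        change σ (algebraMap k L (μ i : k)) / algebraMap k L (μ i : k) = 1 * 1
        rw [h3, div_self h4, one_mul]
      · intro w
        obtain ⟨e, he'⟩ := he i (w.under (𝓞 k))
        refine ⟨e, ?_⟩
        change w.valuation L (algebraMap k L (μ i : k)) = _
        rw [hG.unr w, he']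
      · intro w hw
        exact st_L21 k L (Sum.inl w) (μ i) (hf i _ hw)
      · intro w
        exact st_L21 k L (Sum.inr w) (μ i) (hi i _)
  choose r hr using h1
  have hr0 : ∀ i, r i ≠ 0 := by
    intro i h0
    have h2 := hr i
    rw [h0, mul_zero] at h2
    simp at h2
  have hfix : ∀ i, ∀ σ : L ≃ₐ[k] L, σ (algebraMap k L (μ i : k)) = algebraMap k L (μ i : k) :=
    fun i σ => σ.commutes _
  have : Finite ((L ≃ₐ[k] L) →* ℤˣ) :=
    Finite.of_injective (fun f : (L ≃ₐ[k] L) →* ℤˣ => (f : (L ≃ₐ[k] L) → ℤˣ)) DFunLike.coe_injective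
  have hle := Nat.card_le_card_of_injective
    (fun i : Fin n => T10_chi (k := k) (algebraMap k L (μ i : k)) (r i) (hr i) (hr0 i) (hfix i)) ?_
  · rwa [Nat.card_eq_fintype_card, Fintype.card_fin] at hle
  · intro i j hij
    apply hinj
    have h2 : ∀ σ : L ≃ₐ[k] L, σ (r i * r j) = r i * r j := by
      intro σ
      have h3 := DFunLike.congr_fun hij σ
      have h4 : (if σ (r i) = r i then (1 : ℤˣ) else -1) = if σ (r j) = r j then (1 : ℤˣ) else -1 := h3
      rw [map_mul]
      rcases T10_pm (hr i) (hfix i σ) with h5 | h5 <;> rcases T10_pm (hr j) (hfix j σ) with h6 | h6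
      · rw [h5, h6]
      · exfalso
        have h7 : σ (r j) ≠ r j := by
          rw [h6]
          intro h8
          exact hr0 j (neg_eq_self.1 h8)
        rw [if_pos h5, if_neg h7] at h4
        exact absurd h4 (by decide)
      · exfalso
        have h7 : σ (r i) ≠ r i := by
          rw [h5]
          intro h8
          exact hr0 i (neg_eq_self.1 h8)
        rw [if_neg h7, if_pos h6] at h4
        exact absurd h4 (by decide)
      · rw [h5, h6, neg_mul_neg]
    obtain ⟨y, hy⟩ := (IsGalois.mem_range_algebraMap_iff_fixed (F := k) (r i * r j)).2 h2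
    refine ⟨y, ?_⟩
    apply FaithfulSMul.algebraMap_injective k L
    rw [map_mul, map_mul, hy, hr i, hr j]
    ring

end Pool.Agent.UDT
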