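import Pool.Agent.UDT.StT

set_option autoImplicit false

/-!
# UDT / T11: one step of the tower (helper92)
-/

namespace Pool.Agent.UDT

open IsDedekindDomain NumberField HP7 Pool.Agent.QCF
open scoped WithZero

theorem thm_T11 (hGS : St_GS) (h6 : St_T6) (h7 : St_T7) (h8 : St_T8) (h9 : St_T9)
    (h10 : St_T10) : St_T11 := by
  intro k L _ _ _ _ _ W m s R b μ hG hDy hb hev hfin hinf hind hbound hs hR
  by_cases hsq : ∀ α : Lˣ, Adj (W : Set (HeightOneSpectrum (𝓞 k))) α → IsSquare (α : L)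
  · exfalso
    have hgal : IsGalois k L := hG.gal
    have hcard : Nat.card (L ≃ₐ[k] L) = 2 ^ m := by
      rw [IsGalois.card_aut_eq_finrank, hG.deg]
    obtain ⟨d, r, Φ, hd, hZ, hB, hineq⟩ := hGS (L ≃ₐ[k] L) m hcard
    have h1 : 2 ^ s ≤ 2 ^ d := by
      rw [← hd]
      exact h10 k L _ m hG hsq (2 ^ s) μ hev (fun i v hv => hfin i v hv) hinf hind
    choose a α ha hα using fun i => h6 k L _ m hG hDy (Φ i) (hZ i)
    have h2 : 2 ^ r ≤ 2 ^ R := by
      refine (h8 k L W m hG hsq b hb (2 ^ r) α ?_ ?_).trans hbound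
      · intro i σ
        have h4 : σ (α i : L) = (α i : L) * (a i σ : L) ^ 2 := by
          change ((uact k L σ (α i) : Lˣ) : L) = _
          rw [hα i σ, Units.val_mul, Units.val_pow_eq_pow_val]
        rw [h4, mul_div_cancel_left₀ _ (α i).ne_zero]
        exact ⟨(a i σ : L), sq _⟩
      · rintro i j ⟨x, β, h⟩
        exact hB i j (h7 k L (Φ i) (Φ j) (a i) (a j) (α i) (α j) β x (ha i) (ha j) (hα i)
          (hα j) h)
    have h3 : s ≤ d := (Nat.pow_le_pow_iff_right (by norm_num)).1 h1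
    have h4 : r ≤ R := (Nat.pow_le_pow_iff_right (by norm_num)).1 h2
    have h5 := hineq (by omega)
    have h6 : s ^ 2 ≤ d ^ 2 := Nat.pow_le_pow_left h3 2
    omega
  · push Not at hsq
    obtain ⟨α, h1, h2⟩ := hsq
    exact h9 k L _ m hG hDy α h1 h2

end Pool.Agent.UDT
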