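import Pool.Agent.UDT.StT

set_option autoImplicit false

/-!
# UDT / T12a: the real quadratic field of P
-/

namespace Pool.Agent.UDT

open IsDedekindDomain NumberField HP7 Pool.Agent.QCF
open scoped WithZero

private theorem T12a_trace (a : ℚ) (z : QuadraticAlgebra ℚ a 0) :
    Algebra.trace ℚ (QuadraticAlgebra ℚ a 0) z = 2 * z.re := by
  rw [Algebra.trace_eq_matrix_trace (QuadraticAlgebra.basis a 0), Matrix.trace_fin_two,
    Algebra.leftMulMatrix_eq_repr_mul, Algebra.leftMulMatrix_eq_repr_mul]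
  have h0 : (QuadraticAlgebra.basis a (0 : ℚ)) 0 = ⟨1, 0⟩ := by
    apply (QuadraticAlgebra.basis a (0 : ℚ)).repr.injective
    apply DFunLike.coe_injective
    rw [Module.Basis.repr_self, QuadraticAlgebra.basis_repr_apply]
    funext i
    fin_cases i <;> simp
  have h1 : (QuadraticAlgebra.basis a (0 : ℚ)) 1 = ⟨0, 1⟩ := by
    apply (QuadraticAlgebra.basis a (0 : ℚ)).repr.injective
    apply DFunLike.coe_injective
    rw [Module.Basis.repr_self, QuadraticAlgebra.basis_repr_apply]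
    funext i
    fin_cases i <;> simp
  rw [h0, h1, QuadraticAlgebra.basis_repr_apply, QuadraticAlgebra.basis_repr_apply]
  simp
  ring

theorem thm_T12a : St_T12a := by
  intro P hP hsq
  have ha : ¬IsSquare (P : ℚ) := by rwa [Rat.isSquare_natCast_iff]
  have hP0 : (P : ℚ) ≠ 0 := by
    intro h
    exact ha ⟨0, by rw [h]; ring⟩
  have hfact : Fact (∀ r : ℚ, r ^ 2 ≠ (P : ℚ) + 0 * r) := by
    refine ⟨fun r hr => ha ⟨r, ?_⟩⟩
    rw [← sq, hr, zero_mul, add_zero]
  have hchar : CharZero (QuadraticAlgebra ℚ (P : ℚ) 0) :=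
    charZero_of_injective_algebraMap
      (algebraMap ℚ (QuadraticAlgebra ℚ (P : ℚ) 0)).injective
  have hnf : NumberField (QuadraticAlgebra ℚ (P : ℚ) 0) :=
    NumberField.of_module_finite ℚ (QuadraticAlgebra ℚ (P : ℚ) 0)
  have hω : (⟨0, 1⟩ : QuadraticAlgebra ℚ (P : ℚ) 0) ^ 2 = (P : QuadraticAlgebra ℚ (P : ℚ) 0) := by
    rw [sq]
    ext <;> simp
  refine ⟨QuadraticAlgebra ℚ (P : ℚ) 0, inferInstance, hnf, ⟨0, 1⟩, ⟨?_⟩, hω,
    QuadraticAlgebra.finrank_eq_two _ _, ?_, ?_⟩
  · refine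
      { ω := ⟨0, 1⟩
        sq := ?_
        nsq := ha
        repr := ?_
        σ := ?_
        hσ := ?_ }
    · rw [sq]
      ext <;> simp
    · intro z
      refine ⟨z.re, z.im, ?_⟩
      ext <;> simp
    · refine AlgEquiv.ofAlgHom
        { toFun := star
          map_one' := star_one _
          map_mul' := fun x y => by rw [star_mul, mul_comm]
          map_zero' := star_zero _
          map_add' := fun x y => star_add x y
          commutes' := fun r => by ext <;> simp }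
        { toFun := star
          map_one' := star_one _
          map_mul' := fun x y => by rw [star_mul, mul_comm]
          map_zero' := star_zero _
          map_add' := fun x y => star_add x y
          commutes' := fun r => by ext <;> simp } ?_ ?_
      · exact AlgHom.ext fun x => star_star x
      · exact AlgHom.ext fun x => star_star x
    · ext <;> simp
  · intro w
    rw [InfinitePlace.isReal_iff, ComplexEmbedding.isReal_iff]
    set φ := w.embedding with hφ
    have h1 : (φ ⟨0, 1⟩) ^ 2 = (P : ℂ) := by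
      rw [← map_pow, hω, map_natCast]
    have h2 : (φ ⟨0, 1⟩).im = 0 := by
      have h3 := congrArg Complex.im h1
      have h4 := congrArg Complex.re h1
      rw [sq, Complex.mul_im, Complex.natCast_im] at h3
      rw [sq, Complex.mul_re, Complex.natCast_re] at h4
      by_contra hc
      have h5 : (φ ⟨0, 1⟩).re = 0 := by
        have : 2 * (φ ⟨0, 1⟩).re * (φ ⟨0, 1⟩).im = 0 := by linarith
        rcases mul_eq_zero.1 this with h6 | h6
        · linarith
        · exact absurd h6 hc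
      rw [h5] at h4
      have h7 : (0 : ℝ) < (φ ⟨0, 1⟩).im * (φ ⟨0, 1⟩).im := mul_self_pos.2 hc
      have h8 : (0 : ℝ) ≤ (P : ℝ) := Nat.cast_nonneg P
      linarith
    ext z
    have hz : z = algebraMap ℚ (QuadraticAlgebra ℚ (P : ℚ) 0) z.re +
        algebraMap ℚ (QuadraticAlgebra ℚ (P : ℚ) 0) z.im * ⟨0, 1⟩ := by
      ext <;> simp
    have hq : ∀ q : ℚ, φ (algebraMap ℚ (QuadraticAlgebra ℚ (P : ℚ) 0) q) = (q : ℂ) := by
      intro q
      rw [eq_ratCast, map_ratCast]
    rw [ComplexEmbedding.conjugate_coe_eq, hz, map_add, map_mul, hq, hq, map_add, map_mul]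
    have h9 : (starRingEnd ℂ) (φ ⟨0, 1⟩) = φ ⟨0, 1⟩ := Complex.conj_eq_iff_im.2 h2
    have h10 : ∀ q : ℚ, (starRingEnd ℂ) (q : ℂ) = q := by
      intro q
      exact map_ratCast (starRingEnd ℂ) q
    rw [h9, h10, h10]
  · -- discriminant
    obtain ⟨m, hm⟩ : ∃ m : ℤ, (P : ℤ) = 1 + 4 * m := ⟨((P : ℤ) - 1) / 4, by omega⟩
    have hPq : (P : ℚ) = 1 + 4 * m := by exact_mod_cast hm
    let θ : QuadraticAlgebra ℚ (P : ℚ) 0 := ⟨1 / 2, 1 / 2⟩
    have hθ2 : θ * θ = θ + (m : QuadraticAlgebra ℚ (P : ℚ) 0) := by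
      ext
      · simp [θ]; rw [hPq]; ring
      · simp [θ]; norm_num
    have hθi : IsIntegral ℤ θ := by
      refine ⟨Polynomial.X ^ 2 - Polynomial.X - Polynomial.C m, ?_, ?_⟩
      · have : (Polynomial.X ^ 2 - Polynomial.X - Polynomial.C m : Polynomial ℤ) =
            Polynomial.X ^ 2 - (Polynomial.X + Polynomial.C m) := by ring
        rw [this]
        refine Polynomial.monic_X_pow_sub ?_
        rw [Polynomial.degree_X_add_C]
        norm_num
      · have e : Polynomial.eval₂ (algebraMap ℤ (QuadraticAlgebra ℚ (P : ℚ) 0)) θ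
            (Polynomial.X ^ 2 - Polynomial.X - Polynomial.C m) =
            θ * θ - θ - (m : QuadraticAlgebra ℚ (P : ℚ) 0) := by
          rw [Polynomial.eval₂_sub, Polynomial.eval₂_sub, Polynomial.eval₂_X_pow,
            Polynomial.eval₂_X, Polynomial.eval₂_C, sq, eq_intCast]
        rw [e, hθ2]
        ring
    let T : 𝓞 (QuadraticAlgebra ℚ (P : ℚ) 0) := ⟨θ, hθi⟩
    have e1 : Module.finrank ℤ (𝓞 (QuadraticAlgebra ℚ (P : ℚ) 0)) = 2 := by
      rw [RingOfIntegers.rank, QuadraticAlgebra.finrank_eq_two]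
    let B : Module.Basis (Fin 2) ℤ (𝓞 (QuadraticAlgebra ℚ (P : ℚ) 0)) :=
      Module.finBasisOfFinrankEq ℤ _ e1
    let v : Fin 2 → 𝓞 (QuadraticAlgebra ℚ (P : ℚ) 0) := ![1, T]
    have h1 : Algebra.discr ℤ v = (B.toMatrix v).det ^ 2 * Algebra.discr ℤ B := by
      rw [← Algebra.discr_of_matrix_vecMul]
      congr 1
      exact (B.toMatrix_map_vecMul v).symm
    have tr : ∀ x : 𝓞 (QuadraticAlgebra ℚ (P : ℚ) 0),
        ((Algebra.trace ℤ (𝓞 (QuadraticAlgebra ℚ (P : ℚ) 0)) x : ℤ) : ℚ) =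
          2 * (x : QuadraticAlgebra ℚ (P : ℚ) 0).re := by
      intro x
      exact (Algebra.coe_trace_int _).trans (T12a_trace _ _)
    have t1 : Algebra.trace ℤ (𝓞 (QuadraticAlgebra ℚ (P : ℚ) 0)) 1 = 2 := by
      have := tr 1
      have h : ((1 : 𝓞 (QuadraticAlgebra ℚ (P : ℚ) 0)) : QuadraticAlgebra ℚ (P : ℚ) 0).re = 1 :=
        rfl
      rw [h] at this
      have h2 : ((Algebra.trace ℤ (𝓞 (QuadraticAlgebra ℚ (P : ℚ) 0)) 1 : ℤ) : ℚ) = ((2 : ℤ) : ℚ) := by
        rw [this]; norm_num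
      exact_mod_cast h2
    have t2 : Algebra.trace ℤ (𝓞 (QuadraticAlgebra ℚ (P : ℚ) 0)) T = 1 := by
      have := tr T
      have h : (T : QuadraticAlgebra ℚ (P : ℚ) 0).re = 1 / 2 := rfl
      rw [h] at this
      have h2 : ((Algebra.trace ℤ (𝓞 (QuadraticAlgebra ℚ (P : ℚ) 0)) T : ℤ) : ℚ) = ((1 : ℤ) : ℚ) := by
        rw [this]; norm_num
      exact_mod_cast h2
    have t3 : Algebra.trace ℤ (𝓞 (QuadraticAlgebra ℚ (P : ℚ) 0)) (T * T) = 1 + 2 * m := by
      have := tr (T * T)
      have h : ((T * T : 𝓞 (QuadraticAlgebra ℚ (P : ℚ) 0)) : QuadraticAlgebra ℚ (P : ℚ) 0).re =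
          1 / 2 + m := by
        have e : ((T * T : 𝓞 (QuadraticAlgebra ℚ (P : ℚ) 0)) : QuadraticAlgebra ℚ (P : ℚ) 0) =
            θ + (m : QuadraticAlgebra ℚ (P : ℚ) 0) := by
          rw [← hθ2]; rfl
        rw [e]
        simp [θ]
      rw [h] at this
      have h2 : ((Algebra.trace ℤ (𝓞 (QuadraticAlgebra ℚ (P : ℚ) 0)) (T * T) : ℤ) : ℚ) =
          ((1 + 2 * m : ℤ) : ℚ) := by
        rw [this]; push_cast; ring
      exact_mod_cast h2
    have h2 : Algebra.discr ℤ v = P := by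
      rw [Algebra.discr_def, Matrix.det_fin_two]
      simp only [Algebra.traceMatrix_apply, Algebra.traceForm_apply, v, Matrix.cons_val_zero,
        Matrix.cons_val_one, one_mul, mul_one]
      rw [t1, t2, t3, hm]; ring
    have h3 : Algebra.discr ℤ B = discr (QuadraticAlgebra ℚ (P : ℚ) 0) := discr_eq_discr _ B
    rw [h2, h3] at h1
    have h4 : (discr (QuadraticAlgebra ℚ (P : ℚ) 0)) ∣ (P : ℤ) := Dvd.intro_left _ h1.symm
    exact Int.natCast_dvd_natCast.1 (by rwa [Int.natCast_natAbs, abs_dvd])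

end Pool.Agent.UDT
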