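import Pool.Agent.UDT.StT

set_option autoImplicit false

/-!
# UDT / T12b: splitting of primes in a quadratic field
-/

namespace Pool.Agent.UDT

open IsDedekindDomain NumberField HP7 Pool.Agent.QCF
open scoped WithZero

/-- the prime of the integers of the rational field above `l` -/
private theorem T12b_rat (l : ℕ) (hl : l.Prime) : ∃ v : HeightOneSpectrum (𝓞 ℚ),
    ∀ n : ℤ, (v.valuation ℚ (n : ℚ) < 1 ↔ (l : ℤ) ∣ n) := by
  have hl' : Prime (l : ℤ) := Nat.prime_iff_prime_int.mp hl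
  have hP : ((Ideal.span {(l : ℤ)}).comap (Rat.ringOfIntegersEquiv : 𝓞 ℚ →+* ℤ)).IsPrime := by
    have : (Ideal.span {(l : ℤ)}).IsPrime := (Ideal.span_singleton_prime hl'.ne_zero).mpr hl'
    exact Ideal.comap_isPrime _ _
  have hmem : ∀ n : ℤ, (n : 𝓞 ℚ) ∈
      (Ideal.span {(l : ℤ)}).comap (Rat.ringOfIntegersEquiv : 𝓞 ℚ →+* ℤ) ↔ (l : ℤ) ∣ n := by
    intro n
    rw [Ideal.mem_comap, map_intCast, Ideal.mem_span_singleton]
    simp
  have hne : (Ideal.span {(l : ℤ)}).comap (Rat.ringOfIntegersEquiv : 𝓞 ℚ →+* ℤ) ≠ ⊥ := by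
    intro h
    have h1 := (hmem l).mpr (dvd_refl _)
    rw [h, Ideal.mem_bot] at h1
    have h2 : (l : 𝓞 ℚ) = 0 := by exact_mod_cast h1
    exact hl.ne_zero (by exact_mod_cast h2)
  refine ⟨⟨_, hP, hne⟩, fun n => ?_⟩
  have h : (⟨_, hP, hne⟩ : HeightOneSpectrum (𝓞 ℚ)).valuation ℚ
      (algebraMap (𝓞 ℚ) ℚ (n : 𝓞 ℚ)) < 1 ↔ _ :=
    HeightOneSpectrum.valuation_lt_one_iff_mem (K := ℚ)
      (⟨_, hP, hne⟩ : HeightOneSpectrum (𝓞 ℚ)) (n : 𝓞 ℚ)
  rw [map_intCast (algebraMap (𝓞 ℚ) ℚ)] at h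
  exact h.trans (hmem n)

/-- the local square condition -/
private theorem T12b_sq (P l : ℕ) (hP0 : (P : ℚ) ≠ 0) (hl : l.Prime)
    (h : l = 2 ∧ P % 8 = 1 ∨ l ≠ 2 ∧ ¬ l ∣ P ∧ ∃ x : ℕ, (P : ℤ) ≡ (x : ℤ) ^ 2 [ZMOD l])
    (v : HeightOneSpectrum (𝓞 ℚ)) (hv : ∀ n : ℤ, (v.valuation ℚ (n : ℚ) < 1 ↔ (l : ℤ) ∣ n)) :
    LSq (Sum.inl v) (Units.mk0 (P : ℚ) hP0 : ℚˣ) := by
  have hle : ∀ n : ℤ, v.valuation ℚ (n : ℚ) ≤ 1 := by
    intro n
    have h : v.valuation ℚ (algebraMap (𝓞 ℚ) ℚ (n : 𝓞 ℚ)) ≤ 1 :=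
      HeightOneSpectrum.valuation_le_one (K := ℚ) v (n : 𝓞 ℚ)
    rwa [map_intCast (algebraMap (𝓞 ℚ) ℚ)] at h
  have heq : ∀ n : ℤ, ¬ (l : ℤ) ∣ n → v.valuation ℚ (n : ℚ) = 1 := by
    intro n hn
    exact le_antisymm (hle n) (not_lt.mp (fun h => hn ((hv n).mp h)))
  rw [(st_L12 ℚ v (Units.mk0 (P : ℚ) hP0)).1]
  rcases h with ⟨h2, h8⟩ | ⟨h2, hlP, x, hx⟩
  · subst h2
    refine ⟨1, ?_⟩
    obtain ⟨m, hm⟩ : ∃ m : ℕ, P = 8 * m + 1 := ⟨P / 8, by omega⟩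
    have e1 : ((Units.mk0 (P : ℚ) hP0 : ℚˣ) : ℚ) - 1 ^ 2 = 4 * ((2 * m : ℤ) : ℚ) := by
      rw [Units.val_mk0, hm]
      push_cast
      ring
    rw [e1, map_mul, map_mul]
    have e2 : v.valuation ℚ ((Units.mk0 (P : ℚ) hP0 : ℚˣ) : ℚ) = 1 := by
      have := heq (P : ℤ) (by omega)
      rw [Units.val_mk0]
      exact_mod_cast this
    have e3 : v.valuation ℚ ((2 * m : ℤ) : ℚ) < 1 := (hv (2 * m)).mpr (by push_cast; exact dvd_mul_right 2 _)
    rw [e2]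
    have e4 : v.valuation ℚ (4 : ℚ) ≠ 0 := by
      rw [Valuation.ne_zero_iff]
      norm_num
    exact mul_lt_mul_of_pos_left e3 (zero_lt_iff.mpr e4)
  · refine ⟨x, ?_⟩
    have e1 : ((Units.mk0 (P : ℚ) hP0 : ℚˣ) : ℚ) - (x : ℚ) ^ 2 = (((P : ℤ) - (x : ℤ) ^ 2 : ℤ) : ℚ) := by
      rw [Units.val_mk0]
      push_cast
      ring
    have e2 : (4 : ℚ) * ((Units.mk0 (P : ℚ) hP0 : ℚˣ) : ℚ) = ((4 * (P : ℤ) : ℤ) : ℚ) := by
      rw [Units.val_mk0]
      push_cast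
      ring
    rw [e1, e2]
    have hl' : Prime (l : ℤ) := Nat.prime_iff_prime_int.mp hl
    have e3 : ¬ (l : ℤ) ∣ 4 * (P : ℤ) := by
      intro hd
      rcases hl'.dvd_or_dvd hd with hd | hd
      · have h4 : (l : ℤ) ∣ 2 ^ 2 := by norm_num; exact hd
        have h5 : (l : ℤ) ∣ 2 := hl'.dvd_of_dvd_pow h4
        have h6 : l ∣ 2 := by exact_mod_cast h5
        exact h2 ((Nat.prime_dvd_prime_iff_eq hl Nat.prime_two).mp h6)
      · exact hlP (by exact_mod_cast hd)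
    rw [heq _ e3, hv]
    exact hx.symm.dvd

/-- the factorisation of `l` from two primes above it -/
private theorem T12b_fac (k : Type) [Field k] [NumberField k] (l : ℕ) (hl : l.Prime)
    (hfr : Module.finrank ℚ k ≤ 2) (w₁ w₂ : HeightOneSpectrum (𝓞 k)) (hne : w₁ ≠ w₂)
    (h1 : (l : 𝓞 k) ∈ w₁.asIdeal) (h2 : (l : 𝓞 k) ∈ w₂.asIdeal) :
    Ideal.span {(l : 𝓞 k)} = w₁.asIdeal * w₂.asIdeal ∧ Ideal.absNorm w₁.asIdeal = l ∧
      Ideal.absNorm w₂.asIdeal = l := by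
  have hdv : ∀ w w' : HeightOneSpectrum (𝓞 k), w.asIdeal ∣ w'.asIdeal → w' = w := by
    intro w w' hd
    have hle : w'.asIdeal ≤ w.asIdeal := Ideal.le_of_dvd hd
    exact HeightOneSpectrum.ext ((w'.isMaximal).eq_of_le w.isPrime.ne_top hle)
  obtain ⟨J, hJ⟩ := Ideal.dvd_span_singleton.mpr h1
  have h3 : w₂.asIdeal ∣ w₁.asIdeal * J := hJ ▸ Ideal.dvd_span_singleton.mpr h2
  obtain ⟨J', hJ'⟩ : w₂.asIdeal ∣ J := by
    rcases w₂.prime.dvd_or_dvd h3 with h | h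
    · exact absurd (hdv _ _ h) hne
    · exact h
  have hJJ : Ideal.span {(l : 𝓞 k)} = w₁.asIdeal * w₂.asIdeal * J' := by
    rw [hJ, hJ', mul_assoc]
  have hn := congrArg Ideal.absNorm hJJ
  rw [Ideal.absNorm_span_natCast, map_mul, map_mul, RingOfIntegers.rank] at hn
  have hpow : ∀ w : HeightOneSpectrum (𝓞 k), Ideal.absNorm w.asIdeal ∣
      l ^ Module.finrank ℚ k → ∃ a, 1 ≤ a ∧ Ideal.absNorm w.asIdeal = l ^ a := by
    intro w hw
    obtain ⟨a, -, ha⟩ := (Nat.dvd_prime_pow hl).mp hw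
    refine ⟨a, ?_, ha⟩
    rcases Nat.eq_zero_or_pos a with h0 | h0
    · rw [h0, pow_zero] at ha
      exact absurd (Ideal.absNorm_eq_one_iff.mp ha) w.isPrime.ne_top
    · exact h0
  obtain ⟨a, ha1, ha⟩ := hpow w₁ (by rw [hn, mul_assoc]; exact dvd_mul_right _ _)
  obtain ⟨b, hb1, hb⟩ := hpow w₂ (by rw [hn]; exact Dvd.dvd.mul_right (dvd_mul_left _ _) _)
  have hJ0 : 1 ≤ Ideal.absNorm J' := by
    rcases Nat.eq_zero_or_pos (Ideal.absNorm J') with h0 | h0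
    · rw [h0, mul_zero] at hn
      exact absurd hn (pow_ne_zero _ hl.ne_zero)
    · exact h0
  rw [ha, hb, ← pow_add] at hn
  have hab : l ^ (a + b) ≤ l ^ 2 := by
    calc l ^ (a + b) ≤ l ^ (a + b) * Ideal.absNorm J' := Nat.le_mul_of_pos_right _ hJ0
      _ = l ^ Module.finrank ℚ k := hn.symm
      _ ≤ l ^ 2 := Nat.pow_le_pow_right hl.pos hfr
  have hab2 : a + b ≤ 2 := (Nat.pow_le_pow_iff_right hl.one_lt).mp hab
  have ea : a = 1 := by omega
  have eb : b = 1 := by omega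
  have hab3 : l ^ 2 * Ideal.absNorm J' ≤ l ^ 2 := by
    calc l ^ 2 * Ideal.absNorm J' = l ^ (a + b) * Ideal.absNorm J' := by rw [ea, eb]
      _ = l ^ Module.finrank ℚ k := hn.symm
      _ ≤ l ^ 2 := Nat.pow_le_pow_right hl.pos hfr
  have hJ1 : Ideal.absNorm J' = 1 := by
    have hl2 : 0 < l ^ 2 := pow_pos hl.pos 2
    have : Ideal.absNorm J' ≤ 1 := by
      by_contra hcon
      have : l ^ 2 * 2 ≤ l ^ 2 * Ideal.absNorm J' := Nat.mul_le_mul_left _ (by omega)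
      omega
    omega
  rw [Ideal.absNorm_eq_one_iff] at hJ1
  refine ⟨?_, by rw [ha, ea, pow_one], by rw [hb, eb, pow_one]⟩
  rw [hJJ, hJ1, Ideal.mul_top]

private theorem T12b_val (k : Type) [Field k] [NumberField k] (l : ℕ) (hl : l.Prime)
    (w₁ w₂ : HeightOneSpectrum (𝓞 k)) (hne : w₁ ≠ w₂)
    (h : Ideal.span {(l : 𝓞 k)} = w₁.asIdeal * w₂.asIdeal) :
    w₁.valuation k (l : k) = WithZero.exp (-1 : ℤ) := by
  have hdv : ∀ w w' : HeightOneSpectrum (𝓞 k), w.asIdeal ∣ w'.asIdeal → w' = w := by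
    intro w w' hd
    have hle : w'.asIdeal ≤ w.asIdeal := Ideal.le_of_dvd hd
    exact HeightOneSpectrum.ext ((w'.isMaximal).eq_of_le w.isPrime.ne_top hle)
  have h1 : w₁.intValuation (l : 𝓞 k) ≤ WithZero.exp (-((1 : ℕ) : ℤ)) := by
    rw [HeightOneSpectrum.intValuation_le_pow_iff_dvd, pow_one, h]
    exact dvd_mul_right _ _
  have h2 : ¬ w₁.intValuation (l : 𝓞 k) ≤ WithZero.exp (-((2 : ℕ) : ℤ)) := by
    rw [HeightOneSpectrum.intValuation_le_pow_iff_dvd, pow_two, h]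
    intro hd
    have hd2 : w₁.asIdeal ∣ w₂.asIdeal := (mul_dvd_mul_iff_left w₁.ne_bot).mp hd
    exact hne (hdv _ _ hd2).symm
  have h0 : (l : 𝓞 k) ≠ 0 := by exact_mod_cast hl.ne_zero
  have h3 := w₁.intValuation_ne_zero _ h0
  have h4 : w₁.valuation k (l : k) = w₁.intValuation (l : 𝓞 k) := by
    have h5 : w₁.valuation k (algebraMap (𝓞 k) k (l : 𝓞 k)) = w₁.intValuation (l : 𝓞 k) :=
      w₁.valuation_of_algebraMap (K := k) (l : 𝓞 k)
    rwa [map_natCast (algebraMap (𝓞 k) k)] at h5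
  rw [h4]
  obtain ⟨m, hm⟩ : ∃ m : ℤ, w₁.intValuation (l : 𝓞 k) = WithZero.exp m :=
    ⟨WithZero.log (w₁.intValuation (l : 𝓞 k)), (WithZero.exp_log h3).symm⟩
  rw [hm, WithZero.exp_le_exp] at h1 h2
  rw [hm]
  congr 1
  push_cast at h1 h2
  omega

theorem thm_T12b : St_T12b := by
  intro k _ _ P l hQ hl h
  obtain ⟨q⟩ := hQ
  classical
  have hP0 : (P : ℚ) ≠ 0 := by
    intro h0
    exact q.nsq ⟨0, by rw [h0, mul_zero]⟩
  have hfr : Module.finrank ℚ k ≤ 2 := by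
    have hs : Submodule.span ℚ (Set.range (![1, q.ω] : Fin 2 → k)) = ⊤ := by
      rw [eq_top_iff]
      intro z _
      obtain ⟨x, y, rfl⟩ := q.repr z
      refine Submodule.add_mem _ ?_ ?_
      · have : algebraMap ℚ k x = x • (![1, q.ω] : Fin 2 → k) 0 := by
          rw [Algebra.smul_def]; simp
        rw [this]
        exact Submodule.smul_mem _ _ (Submodule.subset_span ⟨0, rfl⟩)
      · have : algebraMap ℚ k y * q.ω = y • (![1, q.ω] : Fin 2 → k) 1 := by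
          rw [Algebra.smul_def]; simp
        rw [this]
        exact Submodule.smul_mem _ _ (Submodule.subset_span ⟨1, rfl⟩)
    have := finrank_le_of_span_eq_top hs
    simpa using this
  obtain ⟨v, hv⟩ := T12b_rat l hl
  have hsq := T12b_sq P l hP0 hl h v hv
  have hnc := (st_N6 ℚ k (Units.mk0 (P : ℚ) hP0) q v).1 hsq
  obtain ⟨w₁, w₂, hne, hset⟩ := Set.ncard_eq_two.mp hnc
  have hmem : ∀ w : HeightOneSpectrum (𝓞 k), w.under (𝓞 ℚ) = v → (l : 𝓞 k) ∈ w.asIdeal := by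
    intro w hw
    have h1 : (l : 𝓞 ℚ) ∈ v.asIdeal := by
      rw [← HeightOneSpectrum.valuation_lt_one_iff_mem (K := ℚ)]
      have h3 := (hv l).mpr (dvd_refl _)
      change v.valuation ℚ (algebraMap (𝓞 ℚ) ℚ (l : 𝓞 ℚ)) < 1
      rw [map_natCast (algebraMap (𝓞 ℚ) ℚ)]
      exact_mod_cast h3
    rw [← hw] at h1
    have h2 : algebraMap (𝓞 ℚ) (𝓞 k) (l : 𝓞 ℚ) ∈ w.asIdeal := h1
    rwa [map_natCast] at h2
  have hw1 : w₁.under (𝓞 ℚ) = v := by
    have : w₁ ∈ {w : HeightOneSpectrum (𝓞 k) | w.under (𝓞 ℚ) = v} := by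
      rw [hset]; exact Set.mem_insert _ _
    exact this
  have hw2 : w₂.under (𝓞 ℚ) = v := by
    have : w₂ ∈ {w : HeightOneSpectrum (𝓞 k) | w.under (𝓞 ℚ) = v} := by
      rw [hset]; exact Set.mem_insert_of_mem _ rfl
    exact this
  obtain ⟨hf, hn1, hn2⟩ := T12b_fac k l hl hfr w₁ w₂ hne (hmem _ hw1) (hmem _ hw2)
  have hv1 := T12b_val k l hl w₁ w₂ hne hf
  have hv2 := T12b_val k l hl w₂ w₁ hne.symm (by rw [hf, mul_comm])
  refine ⟨{w₁, w₂}, Finset.card_pair hne, fun u => ?_, fun u hu => ?_⟩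
  · constructor
    · intro hu
      have hne1 : WithZero.exp (-1 : ℤ) ≠ (1 : ℤᵐ⁰) := by
        rw [← WithZero.exp_zero]
        intro h
        have := WithZero.exp_injective h
        omega
      rcases Finset.mem_insert.mp hu with rfl | hu
      · rw [hv1]; exact hne1
      · rw [Finset.mem_singleton.mp hu, hv2]; exact hne1
    · intro hu
      have hle : u.valuation k (l : k) ≤ 1 := by
        have h3 : u.valuation k (algebraMap (𝓞 k) k (l : 𝓞 k)) ≤ 1 :=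
          u.valuation_le_one (K := k) (l : 𝓞 k)
        rwa [map_natCast (algebraMap (𝓞 k) k)] at h3
      have hlt : u.valuation k (algebraMap (𝓞 k) k (l : 𝓞 k)) < 1 := by
        rw [map_natCast]
        exact lt_of_le_of_ne hle hu
      rw [HeightOneSpectrum.valuation_lt_one_iff_dvd, hf] at hlt
      have hdv : ∀ w w' : HeightOneSpectrum (𝓞 k), w.asIdeal ∣ w'.asIdeal → w' = w := by
        intro w w' hd
        have hle : w'.asIdeal ≤ w.asIdeal := Ideal.le_of_dvd hd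
        exact HeightOneSpectrum.ext ((w'.isMaximal).eq_of_le w.isPrime.ne_top hle)
      rcases u.prime.dvd_or_dvd hlt with h | h
      · rw [hdv _ _ h]; exact Finset.mem_insert_self _ _
      · rw [hdv _ _ h]; exact Finset.mem_insert_of_mem (Finset.mem_singleton_self _)
  · rcases Finset.mem_insert.mp hu with rfl | hu
    · exact ⟨hn1, hv1⟩
    · rw [Finset.mem_singleton.mp hu]
      exact ⟨hn2, hv2⟩

end Pool.Agent.UDT
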