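import Pool.Agent.UDT.StT

/-!
# UDT [T12c]: the square classes
-/

set_option autoImplicit false

namespace Pool.Agent.UDT

open IsDedekindDomain NumberField HP7 Pool.Agent.QCF
open scoped WithZero

section

variable {k : Type} [Field k] [NumberField k]

private theorem T12c_le (v : HeightOneSpectrum (𝓞 k)) (n : ℤ) : v.valuation k (n : k) ≤ 1 := by
  have h := HeightOneSpectrum.valuation_le_one (K := k) v (n : 𝓞 k)
  have e : algebraMap (𝓞 k) k (n : 𝓞 k) = (n : k) := map_intCast _ n
  rw [← e]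
  exact h

private theorem T12c_dvd (v : HeightOneSpectrum (𝓞 k)) {a b : ℤ} (h : a ∣ b) :
    v.valuation k (b : k) ≤ v.valuation k (a : k) := by
  obtain ⟨c, rfl⟩ := h
  push_cast
  rw [map_mul]
  exact mul_le_of_le_one_right' (T12c_le v c)

private theorem T12c_cop (v : HeightOneSpectrum (𝓞 k)) {a b : ℤ} (h : IsCoprime a b)
    (ha : v.valuation k (a : k) ≠ 1) : v.valuation k (b : k) = 1 := by
  by_contra hb
  have ha' : v.valuation k (a : k) < 1 := lt_of_le_of_ne (T12c_le v a) ha
  have hb' : v.valuation k (b : k) < 1 := lt_of_le_of_ne (T12c_le v b) hb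
  obtain ⟨x, y, hxy⟩ := h
  have h1 : ((x : k) * a + y * b) = 1 := by exact_mod_cast congrArg (Int.cast : ℤ → k) hxy
  have h2 : v.valuation k ((x : k) * a + y * b) < 1 := by
    refine Valuation.map_add_lt _ ?_ ?_
    · rw [map_mul]
      exact mul_lt_of_le_one_of_lt (T12c_le v x) ha'
    · rw [map_mul]
      exact mul_lt_of_le_one_of_lt (T12c_le v y) hb'
  rw [h1, map_one] at h2
  exact lt_irrefl _ h2

private theorem T12c_ev_mul {v : HeightOneSpectrum (𝓞 k)} {a b : k} (ha : EvenAt v a)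
    (hb : EvenAt v b) : EvenAt v (a * b) := by
  obtain ⟨m, hm⟩ := ha
  obtain ⟨n, hn⟩ := hb
  refine ⟨m + n, ?_⟩
  rw [map_mul, hm, hn, ← WithZero.exp_add]
  congr 1
  ring

private theorem T12c_ev_one (v : HeightOneSpectrum (𝓞 k)) : EvenAt v (1 : k) :=
  ⟨0, by rw [map_one, mul_zero, WithZero.exp_zero]⟩

private theorem T12c_ev_prime {s : ℕ} (p : Fin s → ℕ) (ω : k) (hω : ω ^ 2 = ((∏ i, p i : ℕ) : k))
    (hinj : Function.Injective p) (hp : ∀ i, (p i).Prime) (v : HeightOneSpectrum (𝓞 k))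
    (i : Fin s) : EvenAt v ((p i : ℕ) : k) := by
  by_cases h1 : v.valuation k ((p i : ℕ) : k) = 1
  · exact ⟨0, by rw [h1, mul_zero, WithZero.exp_zero]⟩
  have h2 : ∀ j, j ≠ i → v.valuation k ((p j : ℕ) : k) = 1 := by
    intro j hj
    have h3 : IsCoprime ((p i : ℕ) : ℤ) ((p j : ℕ) : ℤ) := by
      rw [Nat.isCoprime_iff_coprime]
      exact (Nat.coprime_primes (hp i) (hp j)).2 fun h => hj (hinj h).symm
    have h4 := T12c_cop (k := k) v h3 (by simpa using h1)
    simpa using h4
  have h3 : v.valuation k ω ^ 2 = v.valuation k ((p i : ℕ) : k) := by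
    rw [← map_pow, hω]
    push_cast
    rw [map_prod, Finset.prod_eq_single i (fun j _ hj => h2 j hj) (by simp)]
  have h4 : v.valuation k ω ≠ 0 := by
    intro h
    rw [h] at h3
    have h5 : v.valuation k ((p i : ℕ) : k) = 0 := by rw [← h3]; simp
    rw [Valuation.zero_iff] at h5
    exact (hp i).ne_zero (by exact_mod_cast h5)
  refine ⟨WithZero.log (v.valuation k ω), ?_⟩
  rw [← h3, two_mul, WithZero.exp_add, WithZero.exp_log h4, sq]

/-- the product with exponents -/
private def T12c_M {s : ℕ} (p e : Fin s → ℕ) : ℕ := ∏ i, p i ^ e i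

private theorem T12c_M0 {s : ℕ} (p e : Fin s → ℕ) (hp : ∀ i, (p i).Prime) : T12c_M p e ≠ 0 := by
  unfold T12c_M
  exact Finset.prod_ne_zero_iff.2 fun i _ => pow_ne_zero _ (hp i).ne_zero

private theorem T12c_ev {s : ℕ} (p e : Fin s → ℕ) (ω : k) (hω : ω ^ 2 = ((∏ i, p i : ℕ) : k))
    (hinj : Function.Injective p) (hp : ∀ i, (p i).Prime) (v : HeightOneSpectrum (𝓞 k)) :
    EvenAt v ((T12c_M p e : ℕ) : k) := by
  unfold T12c_M
  push_cast
  refine Finset.prod_induction _ (fun x => EvenAt v x) (fun a b => T12c_ev_mul)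
    (T12c_ev_one v) fun i _ => ?_
  have h := T12c_ev_prime p ω hω hinj hp v i
  induction e i with
  | zero => rw [pow_zero]; exact T12c_ev_one v
  | succ n ih => rw [pow_succ]; exact T12c_ev_mul ih h

private theorem T12c_mod {s : ℕ} (p e : Fin s → ℕ) (c : ℕ) (hp : ∀ i, p i % 8 = c)
    (hc : c % 2 = 1) (hc8 : c < 8) (he : Even (∑ i, e i)) : T12c_M p e % 8 = 1 := by
  have h1 : ((T12c_M p e : ℕ) : ZMod 8) = ((1 : ℕ) : ZMod 8) := by
    unfold T12c_M
    push_cast
    have h2 : ∀ i, ((p i : ℕ) : ZMod 8) = ((c : ℕ) : ZMod 8) := by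
      intro i
      rw [ZMod.natCast_eq_natCast_iff']
      rw [hp i]
      omega
    simp only [h2]
    rw [Finset.prod_pow_eq_pow_sum]
    obtain ⟨t, ht⟩ := he
    rw [ht, ← two_mul, pow_mul]
    have h3 : ((c : ℕ) : ZMod 8) ^ 2 = 1 := by
      interval_cases c <;> first | omega | decide
    rw [h3, one_pow]
  rw [ZMod.natCast_eq_natCast_iff'] at h1
  exact h1

private theorem T12c_pad {s : ℕ} (p e : Fin s → ℕ) (hinj : Function.Injective p)
    (hp : ∀ i, (p i).Prime) (i : Fin s) : padicValRat (p i) ((T12c_M p e : ℕ) : ℚ) = e i := by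
  have : Fact (p i).Prime := ⟨hp i⟩
  have h1 : ∀ S : Finset (Fin s), padicValRat (p i) ((∏ j ∈ S, p j ^ e j : ℕ) : ℚ) =
      if i ∈ S then (e i : ℤ) else 0 := by
    intro S
    induction S using Finset.induction_on with
    | empty => simp
    | insert a S ha ih =>
      rw [Finset.prod_insert ha]
      push_cast
      have h2 : ((p a : ℕ) : ℚ) ^ e a ≠ 0 := pow_ne_zero _ (by exact_mod_cast (hp a).ne_zero)
      have h3 : (∏ j ∈ S, ((p j : ℕ) : ℚ) ^ e j) ≠ 0 :=
        Finset.prod_ne_zero_iff.2 fun j _ => pow_ne_zero _ (by exact_mod_cast (hp j).ne_zero)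
      push_cast at ih
      rw [padicValRat.mul h2 h3, ih, padicValRat.pow]
      by_cases hai : i = a
      · subst hai
        rw [padicValRat.self (hp i).one_lt, if_neg ha, if_pos (Finset.mem_insert_self _ _)]
        simp
      · have h4 : padicValRat (p i) ((p a : ℕ) : ℚ) = 0 := by
          rw [padicValRat.of_nat]
          have h5 : ¬ p i ∣ p a := by
            intro h
            exact hai (hinj ((Nat.prime_dvd_prime_iff_eq (hp i) (hp a)).1 h))
          exact_mod_cast padicValNat.eq_zero_of_not_dvd h5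
        rw [h4]
        simp [Finset.mem_insert, hai]
  have h2 := h1 Finset.univ
  rw [if_pos (Finset.mem_univ i)] at h2
  exact h2

private theorem T12c_sq {s : ℕ} (p e e' : Fin s → ℕ) (hinj : Function.Injective p)
    (hp : ∀ i, (p i).Prime) (qe : QE ℚ k ((∏ i, p i : ℕ) : ℚ))
    (h : IsSquare (((T12c_M p e : ℕ) : k) * ((T12c_M p e' : ℕ) : k))) :
    (∀ i, Even ((e i : ℤ) + e' i)) ∨ ∀ i, ¬ Even ((e i : ℤ) + e' i) := by
  obtain ⟨P, hP⟩ : ∃ P : ℚ, P = ((∏ i, p i : ℕ) : ℚ) := ⟨_, rfl⟩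
  rw [← hP] at qe
  obtain ⟨z, hz⟩ := h
  obtain ⟨x, y, rfl⟩ := qe.repr z
  set m : ℚ := ((T12c_M p e : ℕ) : ℚ) * ((T12c_M p e' : ℕ) : ℚ) with hm
  have hm1 : ((T12c_M p e : ℕ) : k) * ((T12c_M p e' : ℕ) : k) = algebraMap ℚ k m := by
    rw [hm, map_mul, map_natCast, map_natCast]
  have hM : ((T12c_M p e : ℕ) : ℚ) ≠ 0 := by exact_mod_cast T12c_M0 p e hp
  have hM' : ((T12c_M p e' : ℕ) : ℚ) ≠ 0 := by exact_mod_cast T12c_M0 p e' hp
  have hm0 : m ≠ 0 := mul_ne_zero hM hM'
  rw [hm1] at hz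
  have h1 : algebraMap ℚ k (m - (x ^ 2 + y ^ 2 * P)) = algebraMap ℚ k (2 * x * y) * qe.ω := by
    have h2 := qe.sq
    simp only [map_sub, map_add, map_mul, map_pow, map_ofNat] at *
    linear_combination hz + (algebraMap ℚ k y) ^ 2 * h2
  have hxy : 2 * x * y = 0 := by
    by_contra hne
    have h2 : qe.ω = algebraMap ℚ k ((m - (x ^ 2 + y ^ 2 * P)) / (2 * x * y)) := by
      rw [map_div₀, h1]
      rw [mul_div_cancel_left₀]
      intro h3
      apply hne
      exact (algebraMap ℚ k).injective (by rw [h3, map_zero])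
    apply qe.nsq
    have h3 := qe.sq
    rw [h2, ← map_pow] at h3
    have h4 := (algebraMap ℚ k).injective h3
    exact ⟨_, by rw [← h4, sq]⟩
  rw [hxy, map_zero, zero_mul] at h1
  have h2 : m = x ^ 2 + y ^ 2 * P := by
    have := (algebraMap ℚ k).injective (h1.trans (map_zero _).symm)
    linarith
  have hval : ∀ i, padicValRat (p i) m = (e i : ℤ) + e' i := by
    intro i
    have : Fact (p i).Prime := ⟨hp i⟩
    rw [hm, padicValRat.mul hM hM', T12c_pad p e hinj hp i, T12c_pad p e' hinj hp i]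
  have h3 : x = 0 ∨ y = 0 := by
    rcases mul_eq_zero.1 hxy with h | h
    · left
      linarith
    · exact Or.inr h
  rcases h3 with rfl | rfl
  · right
    intro i hi
    have : Fact (p i).Prime := ⟨hp i⟩
    have h4 : m = y ^ 2 * P := by rw [h2]; ring
    have hy : y ≠ 0 := by
      rintro rfl
      apply hm0
      rw [h4]
      ring
    have hP1 : P = ((T12c_M p (fun _ => 1) : ℕ) : ℚ) := by
      rw [hP]
      unfold T12c_M
      simp
    have hP0 : P ≠ 0 := by
      rw [hP1]
      exact_mod_cast T12c_M0 p _ hp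
    have h5 : padicValRat (p i) m = 2 * padicValRat (p i) y + 1 := by
      rw [h4, padicValRat.mul (pow_ne_zero 2 hy) hP0, padicValRat.pow, hP1,
        T12c_pad p (fun _ => 1) hinj hp i]
      simp
    rw [← hval i, h5] at hi
    rw [Int.even_iff] at hi
    omega
  · left
    intro i
    have : Fact (p i).Prime := ⟨hp i⟩
    have h4 : m = x ^ 2 := by rw [h2]; ring
    have hx : x ≠ 0 := by
      rintro rfl
      apply hm0
      rw [h4]
      ring
    rw [← hval i, h4, padicValRat.pow]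
    exact ⟨padicValRat (p i) x, by push_cast; ring⟩

/-- the exponents -/
private def T12c_E {r : ℕ} (J : Finset (Fin r)) (i : Fin (r + 2)) : ℕ :=
  if h : i.1 < r then (if (⟨i.1, h⟩ : Fin r) ∈ J then 1 else 0)
  else if i.1 = r then J.card % 2 else 0

private theorem T12c_Esum {r : ℕ} (J : Finset (Fin r)) : Even (∑ i, T12c_E J i) := by
  rw [Fin.sum_univ_castSucc, Fin.sum_univ_castSucc]
  have h1 : ∑ i : Fin r, T12c_E J i.castSucc.castSucc = J.card := by
    have h2 : ∀ i : Fin r, T12c_E J i.castSucc.castSucc = if i ∈ J then 1 else 0 := by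
      intro i
      unfold T12c_E
      simp
    simp only [h2]
    rw [Finset.sum_ite_mem, Finset.univ_inter, Finset.sum_const, smul_eq_mul, mul_one]
  have h2 : T12c_E J (Fin.last r).castSucc = J.card % 2 := by
    unfold T12c_E
    simp
  have h3 : T12c_E J (Fin.last (r + 1)) = 0 := by
    unfold T12c_E
    simp
  rw [h1, h2, h3, Nat.even_iff]
  omega

end

theorem thm_T12c : St_T12c := by
  intro k _ _ s c p T ω hqe hω hs hev hinj hp hc hT
  obtain ⟨qe⟩ := hqe
  obtain ⟨r, rfl⟩ : ∃ r, s = r + 2 := ⟨s - 2, by omega⟩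
  have hpp : ∀ i, (p i).Prime := fun i => (hp i).1
  have hp8 : ∀ i, p i % 8 = c := fun i => (hp i).2
  have hc8 : c < 8 := by
    have := hp8 0
    omega
  have eq : Fin (2 ^ (r + 2 - 2)) ≃ Finset (Fin r) :=
    (Fintype.equivFinOfCardEq (by simp)).symm
  have hM0 : ∀ J : Finset (Fin r), ((T12c_M p (T12c_E J) : ℕ) : k) ≠ 0 := fun J => by
    exact_mod_cast T12c_M0 p _ hpp
  have hmod : ∀ J : Finset (Fin r), T12c_M p (T12c_E J) % 8 = 1 := fun J =>
    T12c_mod p _ c hp8 hc hc8 (T12c_Esum J)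
  refine ⟨fun i => Units.mk0 ((T12c_M p (T12c_E (eq i)) : ℕ) : k) (hM0 _), ?_, ?_, ?_, ?_⟩
  · intro i v
    exact T12c_ev p _ ω hω hinj hpp v
  · intro i v hv
    rw [(st_L12 k v _).1, Units.val_mk0]
    set n := T12c_M p (T12c_E (eq i)) with hn
    have hn8 : n % 8 = 1 := hmod (eq i)
    rcases hv with hv | ⟨q, hq, hv⟩
    · refine ⟨1, ?_⟩
      have h2 : v.valuation k ((2 : ℤ) : k) < 1 :=
        lt_of_le_of_ne (T12c_le v 2) (by simpa using hv)
      have h20 : v.valuation k ((2 : ℤ) : k) ≠ 0 := by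
        rw [Ne, Valuation.zero_iff]
        push_cast
        exact two_ne_zero
      have hn1 : v.valuation k ((n : ℤ) : k) = 1 := by
        refine T12c_cop (k := k) v (a := 2) (b := (n : ℤ)) ?_ (by simpa using hv)
        rw [show (2 : ℤ) = ((2 : ℕ) : ℤ) from rfl, Nat.isCoprime_iff_coprime,
          Nat.coprime_two_left, Nat.odd_iff]
        omega
      have h3 : (((n : ℕ) : k) - 1 ^ 2) = (((n : ℤ) - 1 : ℤ) : k) := by
        push_cast
        ring
      have h4 : (8 : ℤ) ∣ (n : ℤ) - 1 := by omega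
      have h5 : v.valuation k ((8 : ℤ) : k) = v.valuation k ((2 : ℤ) : k) ^ 3 := by
        rw [← map_pow]
        congr 1
        norm_num
      have h6 : v.valuation k (4 * ((n : ℕ) : k)) = v.valuation k ((2 : ℤ) : k) ^ 2 := by
        rw [map_mul, show (((n : ℕ) : k)) = (((n : ℤ)) : k) by push_cast; rfl, hn1, mul_one,
          ← map_pow]
        congr 1
        norm_num
      rw [h3, h6]
      refine (T12c_dvd v h4).trans_lt ?_
      rw [h5, pow_succ]
      exact mul_lt_of_lt_one_right (pow_pos (zero_lt_iff.2 h20) 2) h2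
    · obtain ⟨hqp, hq2, hq3⟩ := hT q hq
      have hqv : v.valuation k ((q : ℤ) : k) < 1 :=
        lt_of_le_of_ne (T12c_le v q) (by simpa using hv)
      have hcop : ∀ b : ℕ, ¬ q ∣ b → v.valuation k ((b : ℤ) : k) = 1 := by
        intro b hb
        refine T12c_cop (k := k) v (a := (q : ℤ)) (b := (b : ℤ)) ?_ hqv.ne
        rw [Nat.isCoprime_iff_coprime]
        exact (Nat.Prime.coprime_iff_not_dvd hqp).2 hb
      have h2 : v.valuation k ((2 : ℕ) : k) = 1 := by
        have := hcop 2 (fun h => hq2 ((Nat.prime_dvd_prime_iff_eq hqp Nat.prime_two).1 h))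
        simpa using this
      have hnq : ¬ q ∣ n := by
        rw [hn]
        unfold T12c_M
        rw [hqp.prime.dvd_finsetProd_iff]
        rintro ⟨j, -, hj⟩
        exact (hq3 j).1 (hqp.dvd_of_dvd_pow hj)
      have hn1 : v.valuation k ((n : ℕ) : k) = 1 := by
        have := hcop n hnq
        simpa using this
      choose hq4 x hx using hq3
      refine ⟨((∏ j, x j ^ T12c_E (eq i) j : ℕ) : k), ?_⟩
      have h4 : (q : ℤ) ∣ (n : ℤ) - ((∏ j, x j ^ T12c_E (eq i) j : ℕ) : ℤ) ^ 2 := by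
        rw [← Int.modEq_iff_dvd]
        refine Int.ModEq.symm ?_
        rw [hn]
        unfold T12c_M
        push_cast
        rw [← Finset.prod_pow]
        refine Int.ModEq.prod fun j _ => ?_
        rw [← pow_mul, mul_comm, pow_mul]
        exact (hx j).pow _
      have h5 : (((n : ℕ) : k) - ((∏ j, x j ^ T12c_E (eq i) j : ℕ) : k) ^ 2) =
          (((n : ℤ) - ((∏ j, x j ^ T12c_E (eq i) j : ℕ) : ℤ) ^ 2 : ℤ) : k) := by
        push_cast
        rfl
      have h6 : v.valuation k (4 * ((n : ℕ) : k)) = 1 := by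
        rw [map_mul, hn1, mul_one, show (4 : k) = ((2 : ℕ) : k) ^ 2 by norm_num, map_pow, h2,
          one_pow]
      rw [h5, h6]
      exact (T12c_dvd v h4).trans_lt hqv
  · intro i v
    rw [Units.val_mk0]
    set n := T12c_M p (T12c_E (eq i)) with hn
    have h1 := st_L13 k v (Units.mk0 ((n : ℕ) : k) (hM0 _))
    rcases v.isReal_or_isComplex with hv | hv
    · have h2 := (h1.2.1 hv).2
      rw [Units.val_mk0] at h2
      apply h2
      rw [map_natCast, Complex.natCast_re]
      have : n ≠ 0 := T12c_M0 p _ hpp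
      exact_mod_cast Nat.pos_of_ne_zero this
    · have h2 := h1.1 hv
      rwa [Units.val_mk0] at h2
  · intro i j hij
    rw [Units.val_mk0, Units.val_mk0] at hij
    have h1 := T12c_sq p _ _ hinj hpp qe hij
    have h3 : ∀ J : Finset (Fin r), T12c_E J (Fin.last (r + 1)) = 0 := by
      intro J
      unfold T12c_E
      simp
    have h2 : ∀ l, Even ((T12c_E (eq i) l : ℤ) + T12c_E (eq j) l) := by
      rcases h1 with h1 | h1
      · exact h1
      · exfalso
        apply h1 (Fin.last (r + 1))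
        rw [h3, h3]
        simp
    apply eq.injective
    ext l
    have h4 := h2 l.castSucc.castSucc
    have h5 : ∀ J : Finset (Fin r), T12c_E J l.castSucc.castSucc = if l ∈ J then 1 else 0 := by
      intro J
      unfold T12c_E
      simp
    rw [h5, h5] at h4
    by_cases h6 : l ∈ eq i <;> by_cases h7 : l ∈ eq j <;> simp [h6, h7] at h4 ⊢

end Pool.Agent.UDT
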