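import Pool.Agent.UDT.StT

set_option autoImplicit false

/-!
# UDT / T12d: the class number of a quadratic field
-/

namespace Pool.Agent.UDT

open IsDedekindDomain NumberField HP7 Pool.Agent.QCF
open scoped WithZero nonZeroDivisors

private theorem T12d_norm (k : Type) [Field k] [NumberField k] (P : ℕ)
    (h2 : Module.finrank ℚ k = 2) (hP : 1 ≤ P) (hd : (discr k).natAbs ≤ P)
    (C : ClassGroup (𝓞 k)) : ∃ I : (Ideal (𝓞 k))⁰, ClassGroup.mk0 I = C ∧
      Ideal.absNorm (I : Ideal (𝓞 k)) ≤ P := by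
  obtain ⟨I, hI, hn⟩ := NumberField.exists_ideal_in_class_of_norm_le C
  refine ⟨I, hI, ?_⟩
  have hr : InfinitePlace.nrComplexPlaces k ≤ 1 := by
    have := InfinitePlace.card_add_two_mul_card_eq_rank k
    omega
  have hpi : (3 : ℝ) < Real.pi := Real.pi_gt_three
  have hpi4 : Real.pi ≤ 4 := Real.pi_le_four
  have hpi0 : (0 : ℝ) < Real.pi := Real.pi_pos
  have h1 : (1 : ℝ) ≤ 4 / Real.pi := by rw [le_div_iff₀ hpi0]; linarith
  have h3 : (4 / Real.pi : ℝ) ≤ 4 / 3 := div_le_div_of_nonneg_left (by norm_num) (by norm_num) hpi.le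
  have h4 : (4 / Real.pi : ℝ) ^ InfinitePlace.nrComplexPlaces k ≤ 4 / 3 := by
    calc (4 / Real.pi : ℝ) ^ InfinitePlace.nrComplexPlaces k ≤ (4 / Real.pi) ^ 1 :=
          pow_le_pow_right₀ h1 hr
      _ ≤ 4 / 3 := by rw [pow_one]; exact h3
  have hP' : (1 : ℝ) ≤ P := by exact_mod_cast hP
  have h5 : Real.sqrt |(discr k : ℝ)| ≤ P := by
    have h6 : |(discr k : ℝ)| ≤ P := by
      rw [← Int.cast_abs, Int.abs_eq_natAbs]
      exact_mod_cast hd
    calc Real.sqrt |(discr k : ℝ)| ≤ Real.sqrt P := Real.sqrt_le_sqrt h6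
      _ ≤ P := by
        rw [Real.sqrt_le_left (by linarith)]
        nlinarith
  have h7 : (Ideal.absNorm (I : Ideal (𝓞 k)) : ℝ) ≤ P := by
    refine hn.trans ?_
    rw [h2]
    have h8 : ((2 : ℕ).factorial : ℝ) / ((2 : ℕ) : ℝ) ^ 2 * Real.sqrt |(discr k : ℝ)| ≤ P / 2 := by
      norm_num [Nat.factorial]
      linarith
    have h9 : (0 : ℝ) ≤ ((2 : ℕ).factorial : ℝ) / ((2 : ℕ) : ℝ) ^ 2 *
        Real.sqrt |(discr k : ℝ)| := by positivity
    calc _ ≤ (4 / 3 : ℝ) * (P / 2) := mul_le_mul h4 h8 h9 (by norm_num)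
      _ ≤ P := by linarith
  exact_mod_cast h7

theorem thm_T12d : St_T12d := by
  intro k _ _ P h2 hP hd
  classical
  have hι : Fintype.card (Module.Free.ChooseBasisIndex ℤ (𝓞 k)) = 2 := by
    rw [← Module.finrank_eq_card_chooseBasisIndex, RingOfIntegers.rank, h2]
  let b : Module.Basis (Module.Free.ChooseBasisIndex ℤ (𝓞 k)) ℤ (𝓞 k) := RingOfIntegers.basis k
  choose I hI hn using T12d_norm k P h2 hP hd
  have hne : ∀ C, (I C : Ideal (𝓞 k)) ≠ ⊥ := fun C => nonZeroDivisors.coe_ne_zero (I C)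
  have hpos : ∀ C, 0 < Ideal.absNorm (I C : Ideal (𝓞 k)) := by
    intro C
    refine Nat.pos_of_ne_zero (fun h => hne C ?_)
    exact Ideal.absNorm_eq_zero_iff.mp h
  let e : ∀ C, Module.Basis (Module.Free.ChooseBasisIndex ℤ (𝓞 k)) ℤ (I C : Ideal (𝓞 k)) :=
    fun C => Ideal.selfBasis b _ (hne C)
  let r : ∀ _ : ClassGroup (𝓞 k), Module.Free.ChooseBasisIndex ℤ (𝓞 k) →
      Module.Free.ChooseBasisIndex ℤ (𝓞 k) → ℕ := fun C i j =>
    (b.repr ((e C i : (I C : Ideal (𝓞 k))) : 𝓞 k) j %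
      (Ideal.absNorm (I C : Ideal (𝓞 k)) : ℤ)).toNat
  have hr0 : ∀ C i j, ((r C i j : ℕ) : ℤ) = b.repr ((e C i : (I C : Ideal (𝓞 k))) : 𝓞 k) j %
      (Ideal.absNorm (I C : Ideal (𝓞 k)) : ℤ) := by
    intro C i j
    have h0 : ((Ideal.absNorm (I C : Ideal (𝓞 k)) : ℕ) : ℤ) ≠ 0 := by
      exact_mod_cast (hpos C).ne'
    exact Int.toNat_of_nonneg (Int.emod_nonneg _ h0)
  have hr : ∀ C i j, r C i j < P := by
    intro C i j
    have h0 : (0 : ℤ) < ((Ideal.absNorm (I C : Ideal (𝓞 k)) : ℕ) : ℤ) := by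
      exact_mod_cast (hpos C)
    have h1 := Int.emod_lt_of_pos (b.repr ((e C i : (I C : Ideal (𝓞 k))) : 𝓞 k) j) h0
    rw [← hr0] at h1
    have h2 : r C i j < Ideal.absNorm (I C : Ideal (𝓞 k)) := by exact_mod_cast h1
    exact lt_of_lt_of_le h2 (hn C)
  let F : ClassGroup (𝓞 k) → Fin P × (Module.Free.ChooseBasisIndex ℤ (𝓞 k) →
      Module.Free.ChooseBasisIndex ℤ (𝓞 k) → Fin P) := fun C =>
    (⟨Ideal.absNorm (I C : Ideal (𝓞 k)) - 1, by have := hn C; have := hpos C; omega⟩,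
      fun i j => ⟨r C i j, hr C i j⟩)
  have key : ∀ C C', F C = F C' → (I C : Ideal (𝓞 k)) ≤ (I C' : Ideal (𝓞 k)) := by
    intro C C' h
    have hnn : Ideal.absNorm (I C : Ideal (𝓞 k)) = Ideal.absNorm (I C' : Ideal (𝓞 k)) := by
      have h1 : Ideal.absNorm (I C : Ideal (𝓞 k)) - 1 = Ideal.absNorm (I C' : Ideal (𝓞 k)) - 1 :=
        congrArg Fin.val (congrArg Prod.fst h)
      have := hpos C
      have := hpos C'
      omega
    have hrr : ∀ i j, r C i j = r C' i j := fun i j =>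
      congrArg Fin.val (congrFun (congrFun (congrArg Prod.snd h) i) j)
    have hmem : ∀ i, ((e C i : (I C : Ideal (𝓞 k))) : 𝓞 k) ∈ (I C' : Ideal (𝓞 k)) := by
      intro i
      have hdvd : ∀ j, ((Ideal.absNorm (I C' : Ideal (𝓞 k)) : ℕ) : ℤ) ∣
          b.repr ((e C i : (I C : Ideal (𝓞 k))) : 𝓞 k) j -
          b.repr ((e C' i : (I C' : Ideal (𝓞 k))) : 𝓞 k) j := by
        intro j
        apply Int.dvd_of_emod_eq_zero
        have h1 := hr0 C i j
        have h2 := hr0 C' i j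
        rw [hrr, h2, hnn] at h1
        exact Int.emod_emod_of_dvd _ (dvd_refl _) ▸ (Int.emod_eq_emod_iff_emod_sub_eq_zero.mp h1.symm)
      choose q hq using hdvd
      have h3 : ((e C i : (I C : Ideal (𝓞 k))) : 𝓞 k) = ((e C' i : (I C' : Ideal (𝓞 k))) : 𝓞 k) +
          ((Ideal.absNorm (I C' : Ideal (𝓞 k)) : ℕ) : 𝓞 k) * ∑ j, (q j) • b j := by
        have h4 := b.sum_repr ((e C i : (I C : Ideal (𝓞 k))) : 𝓞 k)
        have h5 := b.sum_repr ((e C' i : (I C' : Ideal (𝓞 k))) : 𝓞 k)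
        have h6 : ((Ideal.absNorm (I C' : Ideal (𝓞 k)) : ℕ) : 𝓞 k) * ∑ j, (q j) • b j =
            ∑ j, (b.repr ((e C i : (I C : Ideal (𝓞 k))) : 𝓞 k) j -
              b.repr ((e C' i : (I C' : Ideal (𝓞 k))) : 𝓞 k) j) • b j := by
          rw [Finset.mul_sum]
          refine Finset.sum_congr rfl (fun j _ => ?_)
          rw [hq j, mul_smul, ← nsmul_eq_mul, natCast_zsmul]
        rw [h6]
        simp only [sub_smul]
        rw [Finset.sum_sub_distrib, h4, h5]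
        ring
      rw [h3]
      exact Ideal.add_mem _ (e C' i).2 (Ideal.mul_mem_right _ _ (Ideal.absNorm_mem _))
    intro x hx
    have h7 := congrArg (fun y : (I C : Ideal (𝓞 k)) => (y : 𝓞 k)) ((e C).sum_repr ⟨x, hx⟩)
    have h8 : x = ∑ i, ((e C).repr ⟨x, hx⟩ i) • ((e C i : (I C : Ideal (𝓞 k))) : 𝓞 k) := by
      refine h7.symm.trans ?_
      change (I C : Ideal (𝓞 k)).subtype (∑ i, ((e C).repr ⟨x, hx⟩ i) • (e C) i) = _
      rw [map_sum]
      exact Finset.sum_congr rfl (fun i _ => map_zsmul _ _ _)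
    rw [h8]
    exact Submodule.sum_mem _ (fun i _ => zsmul_mem (hmem i) _)
  have hF : Function.Injective F := fun C C' h => by
    have h1 : I C = I C' := Subtype.ext (le_antisymm (key C C' h) (key C' C h.symm))
    rw [← hI C, ← hI C', h1]
  calc Fintype.card (ClassGroup (𝓞 k)) ≤ Fintype.card (Fin P ×
        (Module.Free.ChooseBasisIndex ℤ (𝓞 k) → Module.Free.ChooseBasisIndex ℤ (𝓞 k) → Fin P)) :=
        Fintype.card_le_of_injective F hF
    _ = P ^ 5 := by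
      rw [Fintype.card_prod, Fintype.card_fun, Fintype.card_fun, hι, Fintype.card_fin]
      ring

end Pool.Agent.UDT
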