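import Pool.Agent.UDT.StT

set_option autoImplicit false

/-!
# UDT / T13: the tower over `ℚ` (helper17)
-/

namespace Pool.Agent.UDT

open IsDedekindDomain NumberField HP7 Pool.Agent.QCF
open scoped WithZero

/-- the product is `1` mod `8` -/
theorem T13_mod8 (s c : ℕ) (p : Fin s → ℕ) (hs : Even s) (h : ∀ i, p i % 8 = c)
    (hc : c % 2 = 1) (h0 : 0 < s) : (∏ i, p i) % 8 = 1 := by
  have hc8 : c < 8 := by
    rw [← h ⟨0, h0⟩]
    exact Nat.mod_lt _ (by norm_num)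
  rw [Finset.prod_nat_mod, Finset.prod_congr rfl fun i _ => h i, Finset.prod_const,
    Finset.card_univ, Fintype.card_fin]
  obtain ⟨r, rfl⟩ := hs
  rw [pow_add, ← mul_pow, Nat.pow_mod]
  have h1 : c * c % 8 = 1 := by
    interval_cases c <;> simp_all
  simp [h1]

/-- the product is not a square -/
theorem T13_nsq (s : ℕ) (p : Fin s → ℕ) (h : ∀ i, (p i).Prime) (hp : Function.Injective p)
    (h0 : 0 < s) : ¬ IsSquare (∏ i, p i) := by
  rintro ⟨x, hx⟩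
  have hP := h ⟨0, h0⟩
  have h1 : p ⟨0, h0⟩ ∣ ∏ i, p i := Finset.dvd_prod_of_mem p (Finset.mem_univ _)
  have h2 : p ⟨0, h0⟩ ∣ x := by
    rw [hx] at h1
    exact (hP.dvd_mul.1 h1).elim id id
  have h3 : p ⟨0, h0⟩ * p ⟨0, h0⟩ ∣ p ⟨0, h0⟩ * ∏ i ∈ Finset.univ.erase ⟨0, h0⟩, p i := by
    rw [Finset.mul_prod_erase Finset.univ p (Finset.mem_univ _), hx]
    exact mul_dvd_mul h2 h2
  have h4 := Nat.dvd_of_mul_dvd_mul_left hP.pos h3
  obtain ⟨j, hj, hj'⟩ := (hP.prime.dvd_finsetProd_iff _).1 h4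
  have h5 := (Nat.prime_dvd_prime_iff_eq hP (h j)).1 hj'
  exact (Finset.mem_erase.1 hj).1 (hp h5.symm)

/-- quadratic reciprocity -/
theorem T13_qr (P p q : ℕ) (hP : 1 ≤ P) (hp : p.Prime) (hp4 : p % 4 = 1) (hpP : p ∣ P)
    (hq : q.Prime) (hq1 : q % (4 * P) = 1) :
    q ≠ 2 ∧ q % 4 = 1 ∧ ¬ q ∣ p ∧ ∃ x : ℕ, (p : ℤ) ≡ (x : ℤ) ^ 2 [ZMOD q] := by
  have h1 : q ≡ 1 [MOD 4 * P] := by
    unfold Nat.ModEq
    rw [hq1, Nat.mod_eq_of_lt]
    omega
  have h4 : q % 4 = 1 := h1.of_mul_right P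
  have hq2 : q ≠ 2 := by
    rintro rfl
    omega
  have h5 : q ≡ 1 [MOD p] := by
    obtain ⟨r, rfl⟩ := hpP
    have h6 : q ≡ 1 [MOD (4 * r) * p] := by
      have : (4 * r) * p = 4 * (p * r) := by ring
      rw [this]
      exact h1
    exact Nat.ModEq.of_mul_left _ h6
  have hne : ¬ q ∣ p := by
    intro hd
    have h6 := (Nat.prime_dvd_prime_iff_eq hq hp).1 hd
    rw [h6] at h5
    have h7 : p ∣ 1 := (Nat.modEq_zero_iff_dvd.1 (h5.symm.trans (Nat.modEq_zero_iff_dvd.2 dvd_rfl)))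
    exact hp.one_lt.ne' (Nat.dvd_one.1 h7)
  have : Fact p.Prime := ⟨hp⟩
  have : Fact q.Prime := ⟨hq⟩
  have h8 : IsSquare (q : ZMod p) := by
    have h9 : (q : ZMod p) = ((1 : ℕ) : ZMod p) := (ZMod.natCast_eq_natCast_iff _ _ _).2 h5
    rw [h9, Nat.cast_one]
    exact ⟨1, by simp⟩
  obtain ⟨y, hy⟩ := (ZMod.exists_sq_eq_prime_iff_of_mod_four_eq_one hp4 hq2).1 h8
  refine ⟨hq2, h4, hne, y.val, ?_⟩
  rw [← ZMod.intCast_eq_intCast_iff]
  push_cast
  rw [hy, ZMod.natCast_zmod_val, sq]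

/-- squares modulo `q` are multiplicative -/
theorem T13_sqprod (s q : ℕ) (p : Fin s → ℕ)
    (h : ∀ i, ∃ x : ℕ, (p i : ℤ) ≡ (x : ℤ) ^ 2 [ZMOD q]) :
    ∃ x : ℕ, ((∏ i, p i : ℕ) : ℤ) ≡ (x : ℤ) ^ 2 [ZMOD q] := by
  choose x hx using h
  refine ⟨∏ i, x i, ?_⟩
  rw [← ZMod.intCast_eq_intCast_iff]
  push_cast
  rw [← Finset.prod_pow]
  refine Finset.prod_congr rfl fun i _ => ?_
  have := (ZMod.intCast_eq_intCast_iff _ _ q).2 (hx i)
  push_cast at this
  exact this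


/-- the base of the tower -/
theorem T13_base (k : Type) [Field k] [NumberField k] (S : Set (HeightOneSpectrum (𝓞 k)))
    (hr : ∀ w : InfinitePlace k, w.IsReal) : Gd k k S 0 := by
  refine ⟨IsGalois.self k, by rw [Module.finrank_self, pow_zero], hr, fun w x => ?_, fun v _ => ?_⟩
  · refine (congrArg (fun u : HeightOneSpectrum (𝓞 k) => u.valuation k x) ?_).symm
    ext y
    rfl
  · refine (congrArg Set.ncard (?_ : _ = ({v} : Set (HeightOneSpectrum (𝓞 k))))).trans ?_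
    · ext w
      have hu : HeightOneSpectrum.under (𝓞 k) w = v ↔ w = v := by
        constructor
        · rintro rfl
          ext y
          rfl
        · rintro rfl
          ext y
          rfl
      exact hu
    · rw [Set.ncard_singleton, Module.finrank_self]

/-- the number of infinite places -/
theorem T13_places (k : Type) [Field k] [NumberField k] (h2 : Module.finrank ℚ k = 2) :
    Fintype.card (InfinitePlace k) ≤ 2 := by
  rw [← h2, ← InfinitePlace.sum_mult_eq, Fintype.card_eq_sum_ones]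
  exact Finset.sum_le_sum fun w _ => w.mult_pos

theorem thm_T13 : St_T11 → St_T12a → St_T12b → St_T12c → St_T12d → St_T13a → St_T13b →
    St_T13 := by
  intro hT11 hT12a hT12b hT12c hT12d hT13a hT13b
  intro s c R p T hs hse hpi hp hT hb hR m
  classical
  have hp0 : ∀ i, (p i).Prime := fun i => (hp i).1
  have hP1 : 1 ≤ ∏ i, p i := Nat.one_le_iff_ne_zero.2
    (Finset.prod_ne_zero_iff.2 fun i _ => (hp0 i).ne_zero)
  have hs0 : 0 < s := by omega
  have hc2 : c % 2 = 1 := by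
    obtain ⟨-, h4, h8⟩ := hp ⟨0, hs0⟩
    omega
  have hP8 := T13_mod8 s c p hse (fun i => (hp i).2.2) hc2 hs0
  have hPn := T13_nsq s p hp0 hpi hs0
  have hTq : ∀ q ∈ T, ∀ i, q ≠ 2 ∧ q % 4 = 1 ∧ ¬ q ∣ p i ∧
      ∃ x : ℕ, (p i : ℤ) ≡ (x : ℤ) ^ 2 [ZMOD q] := by
    intro q hq i
    exact T13_qr (∏ i, p i) (p i) q hP1 (hp0 i) (hp i).2.1
      (Finset.dvd_prod_of_mem p (Finset.mem_univ i)) (hT q hq).1 (hT q hq).2
  obtain ⟨k, _, _, ω, hq, hω, hdeg, hreal, hdisc⟩ := hT12a (∏ i, p i) hP8 hPn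
  obtain ⟨μ, hμ1, hμ2, hμ3, hμ4⟩ := hT12c k s c p T ω (by exact hq) hω (by omega) hse hpi
    (fun i => ⟨hp0 i, (hp i).2.2⟩) hc2 (fun q hq =>
      ⟨(hT q hq).1, (hTq q hq ⟨0, hs0⟩).1, fun i => (hTq q hq i).2.2⟩)
  obtain ⟨W2, hW2c, hW2, hW2'⟩ := hT12b k (∏ i, p i) 2 hq Nat.prime_two (Or.inl ⟨rfl, hP8⟩)
  have hWq : ∀ q : T, ∃ W : Finset (HeightOneSpectrum (𝓞 k)), W.card = 2 ∧
      (∀ v : HeightOneSpectrum (𝓞 k), v ∈ W ↔ v.valuation k ((q : ℕ) : k) ≠ 1) ∧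
      ∀ v ∈ W, Ideal.absNorm v.asIdeal = q ∧
        v.valuation k ((q : ℕ) : k) = WithZero.exp (-1 : ℤ) := by
    intro q
    refine hT12b k (∏ i, p i) q hq (hT q q.2).1 (Or.inr ⟨(hTq q q.2 ⟨0, hs0⟩).1, fun hd => ?_,
      T13_sqprod s q p fun i => (hTq q q.2 i).2.2.2⟩)
    obtain ⟨i, -, hi⟩ := ((hT q q.2).1.prime.dvd_finsetProd_iff _).1 hd
    exact (hTq q q.2 i).2.2.1 hi
  choose Wq hWc hWv hWn using hWq
  obtain ⟨W, hW⟩ : ∃ W : Finset (HeightOneSpectrum (𝓞 k)),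
      W = W2 ∪ (Finset.univ : Finset T).biUnion Wq := ⟨_, rfl⟩
  have hW2W : W2 ⊆ W := by
    rw [hW]
    exact Finset.subset_union_left
  have hWqW : ∀ q, Wq q ⊆ W := by
    intro q
    rw [hW]
    exact (Finset.subset_biUnion_of_mem Wq (Finset.mem_univ q)).trans Finset.subset_union_right
  have h2v : ∀ v : HeightOneSpectrum (𝓞 k), v ∉ W2 → v.valuation k (2 : k) = 1 := by
    intro v hv
    by_contra h
    exact hv ((hW2 v).2 (by exact_mod_cast h))
  have hDy : Dy (W : Set (HeightOneSpectrum (𝓞 k))) := by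
    intro v hv
    exact h2v v fun h => hv (hW2W h)
  obtain ⟨b, hbd⟩ : ∃ b : HeightOneSpectrum (𝓞 k) → ℕ, ∀ v, b v = if v ∈ W2 then 4 else 2 :=
    ⟨_, fun _ => rfl⟩
  have hbW : ∀ v ∈ W, ∃ e : ℕ, v.valuation k (2 : k) = WithZero.exp (-(e : ℤ)) ∧
      b v = 2 * Ideal.absNorm v.asIdeal ^ e := by
    intro v _
    by_cases h : v ∈ W2
    · refine ⟨1, ?_, ?_⟩
      · have := (hW2' v h).2
        exact_mod_cast this
      · rw [hbd, if_pos h, (hW2' v h).1]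
        norm_num
    · refine ⟨0, ?_, ?_⟩
      · rw [h2v v h]
        simp
      · rw [hbd, if_neg h, pow_zero, mul_one]
  have hprod : ∏ v ∈ W, b v ≤ 2 ^ (2 * T.card + 4) := by
    have h1 : ∏ v ∈ W, b v ≤ (∏ v ∈ W2, b v) * ∏ v ∈ W \ W2, b v := by
      rw [mul_comm, Finset.prod_sdiff hW2W]
    have h2 : ∏ v ∈ W2, b v = 2 ^ 4 := by
      rw [Finset.prod_congr rfl (g := fun _ => 4) (fun v hv => by rw [hbd, if_pos hv]),
        Finset.prod_const, hW2c]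
      norm_num
    have h3 : ∏ v ∈ W \ W2, b v = 2 ^ (W \ W2).card := by
      rw [Finset.prod_congr rfl (g := fun _ => 2)
        (fun v hv => by rw [hbd, if_neg (Finset.mem_sdiff.1 hv).2]), Finset.prod_const]
    have h4 : (W \ W2).card ≤ 2 * T.card := by
      have h5 : W \ W2 ⊆ (Finset.univ : Finset T).biUnion Wq := by
        intro v hv
        rw [Finset.mem_sdiff, hW, Finset.mem_union] at hv
        exact hv.1.elim (fun h => absurd h hv.2) id
      refine (Finset.card_le_card h5).trans (Finset.card_biUnion_le.trans ?_)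
      rw [Finset.sum_congr rfl fun q _ => hWc q, Finset.sum_const, Finset.card_univ,
        Fintype.card_coe, smul_eq_mul, mul_comm]
    rw [h2, h3] at h1
    refine h1.trans ?_
    rw [← pow_add]
    exact Nat.pow_le_pow_right (by norm_num) (by omega)
  have hcl : Fintype.card (ClassGroup (𝓞 k)) ≤ (∏ i, p i) ^ 5 :=
    hT12d k _ hdeg hP1 (Nat.le_of_dvd hP1 hdisc)
  have hmain : Fintype.card (ClassGroup (𝓞 k)) * (∏ v ∈ W, b v) *
      2 ^ Fintype.card (InfinitePlace k) ≤ 2 ^ R := by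
    refine le_trans ?_ hb
    calc Fintype.card (ClassGroup (𝓞 k)) * (∏ v ∈ W, b v) * 2 ^ Fintype.card (InfinitePlace k)
        ≤ (∏ i, p i) ^ 5 * 2 ^ (2 * T.card + 4) * 2 ^ 2 :=
          Nat.mul_le_mul (Nat.mul_le_mul hcl hprod)
            (Nat.pow_le_pow_right (by norm_num) (T13_places k hdeg))
      _ = (∏ i, p i) ^ 5 * 2 ^ (2 * T.card + 6) := by
          rw [mul_assoc, ← pow_add]
  have hμW : ∀ i, ∀ v ∈ W, LSq (Sum.inl v) (μ i : k) := by
    intro i v hv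
    refine hμ2 i v ?_
    rw [hW, Finset.mem_union, Finset.mem_biUnion] at hv
    rcases hv with hv | ⟨q, -, hv⟩
    · left
      have := (hW2 v).1 hv
      exact_mod_cast this
    · exact Or.inr ⟨q, q.2, (hWv q v).1 hv⟩
  have htower : ∀ m : ℕ, ∃ (L : Type) (_ : Field L) (_ : NumberField L) (_ : Algebra k L),
      Gd k L (W : Set (HeightOneSpectrum (𝓞 k))) m := by
    intro m
    induction m with
    | zero => exact ⟨k, _, _, Algebra.id k, T13_base k _ hreal⟩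
    | succ m ih =>
      obtain ⟨L, _, _, _, hL⟩ := ih
      exact hT11 k L W m (s - 2) R b μ hL hDy hbW hμ1 hμW hμ3 hμ4 hmain (by omega) hR
  obtain ⟨L, _, _, _, hL⟩ := htower m
  have hfin : Module.finrank ℚ L = 2 ^ (m + 1) := by
    rw [← Module.finrank_mul_finrank ℚ k L, hdeg, hL.deg, pow_succ, mul_comm]
  have h1 : (discr L).natAbs ∣ (∏ i, p i) ^ 2 ^ m := by
    rw [hT13a k L hL.unr, hL.deg]
    exact pow_dvd_pow_of_dvd hdisc _
  have h2 : ∀ q ∈ T,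
      {w : HeightOneSpectrum (𝓞 L) | Ideal.absNorm w.asIdeal = q}.ncard = 2 ^ (m + 1) := by
    intro q hq'
    rw [hT13b k L q (Wq ⟨q, hq'⟩) (hT q hq').1 (hWv ⟨q, hq'⟩) (fun v hv =>
      ⟨(hWn ⟨q, hq'⟩ v hv).1, hL.spl v (hWqW _ hv)⟩), hWc, hL.deg, pow_succ, mul_comm]
  exact ⟨L, _, _, hfin, hL.real, h1, h2⟩

end Pool.Agent.UDT
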