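import Pool.Agent.UDT.StT

set_option autoImplicit false

/-!
# UDT / T13a: the discriminant of an unramified extension
-/

namespace Pool.Agent.UDT

open IsDedekindDomain NumberField
open scoped WithZero

/-- [T13a] the discriminant of an unramified extension -/
theorem thm_T13a : St_T13a := by
  intro k L _ _ _ _ _ hU
  have key : ∀ w : HeightOneSpectrum (𝓞 L), ¬ w.asIdeal ∣ differentIdeal (𝓞 k) (𝓞 L) := by
    intro w
    have hp := w.isPrime
    have hov : w.asIdeal.LiesOver (w.under (𝓞 k)).asIdeal := ⟨rfl⟩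
    rw [not_dvd_differentIdeal_iff]
    rw [← Ideal.ramificationIdx_eq_one_iff]
    obtain ⟨π, hπ⟩ := (w.under (𝓞 k)).valuation_exists_uniformizer k
    have h1 := HeightOneSpectrum.valuation_liesOver (K := k) L (w.under (𝓞 k)) w π
    rw [hU w π, hπ] at h1
    have h2 : (w.under (𝓞 k)).asIdeal.ramificationIdx' w.asIdeal = 1 := by
      rw [← WithZero.exp_nsmul] at h1
      have h3 := WithZero.exp_injective h1
      simp at h3
      exact h3
    rw [← h2]
    exact (Ideal.ramificationIdx'_eq_ramificationIdx _ _ (w.under (𝓞 k)).ne_bot).symm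
  have htop : differentIdeal (𝓞 k) (𝓞 L) = ⊤ := by
    by_contra hne
    obtain ⟨M, hM, hle⟩ := Ideal.exists_le_maximal _ hne
    have hM0 : M ≠ ⊥ := by
      rintro rfl
      have := differentIdeal_ne_bot (A := 𝓞 k) (B := 𝓞 L)
      exact this (le_bot_iff.1 hle)
    exact key ⟨M, hM.isPrime, hM0⟩ (Ideal.dvd_iff_le.2 hle)
  have h := NumberField.natAbs_discr_eq_absNorm_differentIdeal_mul_natAbs_discr_pow k (𝓞 k) L (𝓞 L)
  rw [h, htop, Ideal.absNorm_top, one_mul]

end Pool.Agent.UDT
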