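import Pool.Agent.UDT.StT
import Pool.Agent.Helper53.MertensFour

set_option autoImplicit false

/-!
# UDT / T14: choice of the primes (helper13)
-/

namespace Pool.Agent.UDT

open IsDedekindDomain NumberField HP7 Pool.Agent.QCF
open scoped WithZero

open Pool.Agent.Helper53

/-- many primes in one class mod 8 -/
private theorem t14_class : ∃ L0 : ℕ, ∀ N : ℕ, L0 ≤ N → ∃ c : ℕ, ∃ A : Finset ℕ,
    N ^ 8 ≤ 2 * A.card ∧ ∀ p ∈ A, p.Prime ∧ p % 4 = 1 ∧ p % 8 = c ∧ p ≤ N ^ 10 := by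
  obtain ⟨L0, hL0⟩ := MertensFour.many_primes
  refine ⟨L0, fun N hN => ?_⟩
  have h1 := hL0 N hN
  have h2 : ∀ p ∈ MertensFour.Pr (N ^ 9) (N ^ 10), p.Prime ∧ p % 4 = 1 ∧ p ≤ N ^ 10 := by
    intro p hp
    unfold MertensFour.Pr at hp
    rw [Finset.mem_filter, Finset.mem_Ioc] at hp
    exact ⟨hp.2.1, hp.2.2, hp.1.2⟩
  have h3 := Finset.card_filter_add_card_filter_not (s := MertensFour.Pr (N ^ 9) (N ^ 10))
    (fun p => p % 8 = 1)
  by_cases h4 : N ^ 8 ≤ 2 * ((MertensFour.Pr (N ^ 9) (N ^ 10)).filter (fun p => p % 8 = 1)).card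
  · refine ⟨1, _, h4, fun p hp => ?_⟩
    rw [Finset.mem_filter] at hp
    obtain ⟨h5, h6, h7⟩ := h2 p hp.1
    exact ⟨h5, h6, hp.2, h7⟩
  · refine ⟨5, (MertensFour.Pr (N ^ 9) (N ^ 10)).filter (fun p => ¬ p % 8 = 1), by omega,
      fun p hp => ?_⟩
    rw [Finset.mem_filter] at hp
    obtain ⟨h5, h6, h7⟩ := h2 p hp.1
    refine ⟨h5, h6, ?_, h7⟩
    omega

/-- two families of primes -/
private theorem t14_two {A : Finset ℕ} {s c B : ℕ} (hA : 2 * s ≤ A.card)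
    (h : ∀ p ∈ A, p.Prime ∧ p % 4 = 1 ∧ p % 8 = c ∧ p ≤ B) :
    ∃ p₁ p₂ : Fin s → ℕ, Function.Injective p₁ ∧ Function.Injective p₂ ∧
      (∀ i, (p₁ i).Prime ∧ p₁ i % 4 = 1 ∧ p₁ i % 8 = c ∧ p₁ i ≤ B) ∧
      (∀ i, (p₂ i).Prime ∧ p₂ i % 4 = 1 ∧ p₂ i % 8 = c ∧ p₂ i ≤ B) ∧
      ∀ i j, p₁ i ≠ p₂ j := by
  obtain ⟨A', hA', hc⟩ := Finset.exists_subset_card_eq hA
  rw [two_mul] at hc
  let e := A'.orderEmbOfFin hc
  have he : ∀ i, e i ∈ A := fun i => hA' (Finset.orderEmbOfFin_mem A' hc i)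
  refine ⟨fun i => e (Fin.castAdd s i), fun i => e (Fin.natAdd s i), ?_, ?_,
    fun i => h _ (he _), fun i => h _ (he _), ?_⟩
  · intro i j hij
    exact Fin.castAdd_injective s s (e.injective hij)
  · intro i j hij
    exact Fin.natAdd_injective s s (e.injective hij)
  · intro i j hij
    have h1 := congrArg Fin.val (e.injective hij)
    rw [Fin.val_castAdd, Fin.val_natAdd] at h1
    omega

private theorem t14_size (n lam s a : ℕ) (hn : lam ≤ n) (ha : a = n + 14) (hs : s = 2 ^ a) :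
    4 * (5 * (10 * a * s) + (2 * (40 * a * s + lam) + 6)) ≤ (s - 2) ^ 2 := by
  have h1 : n + 1 ≤ 2 ^ n := Nat.lt_two_pow_self
  have h2 : s = 16384 * 2 ^ n := by
    rw [hs, ha, pow_add]
    norm_num
    ring
  have h3 : 1041 * a ≤ s := by
    rw [h2, ha]
    nlinarith
  have h4 : 16 * lam + 48 ≤ s := by
    rw [h2]
    nlinarith
  obtain ⟨u, hu⟩ : ∃ u, s = u + 2 := ⟨s - 2, by omega⟩
  have h5 : s - 2 = u := by omega
  rw [h5]
  have h6 : 1 ≤ a := by omega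
  have h7 : s ^ 2 ≤ 2 * u ^ 2 := by
    rw [hu]
    nlinarith
  have h8 : 1041 * a * s ≤ s ^ 2 := by
    rw [sq]
    exact Nat.mul_le_mul_right s h3
  have h9 : s ≤ a * s := Nat.le_mul_of_pos_left s h6
  nlinarith

theorem thm_T14 : St_T13 → St_T14 := by
  intro hT13 lam
  obtain ⟨L0, hL0⟩ := t14_class
  obtain ⟨n, hn⟩ : ∃ n, n = L0 + lam := ⟨_, rfl⟩
  obtain ⟨a, ha⟩ : ∃ a, a = n + 14 := ⟨_, rfl⟩
  obtain ⟨s, hs⟩ : ∃ s, s = 2 ^ a := ⟨_, rfl⟩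
  have haS : a < s := by
    rw [hs]
    exact Nat.lt_two_pow_self
  obtain ⟨c, A, hA, hA2⟩ := hL0 s (by omega)
  have hs8 : 2 * s ≤ A.card := by
    have h1 : s ^ 2 ≤ s ^ 8 := Nat.pow_le_pow_right (by omega) (by norm_num)
    nlinarith
  obtain ⟨p₁, p₂, hi₁, hi₂, h₁, h₂, h12⟩ := t14_two hs8 hA2
  have hbd : ∀ p : Fin s → ℕ, (∀ i, (p i).Prime ∧ p i % 4 = 1 ∧ p i % 8 = c ∧ p i ≤ s ^ 10) →
      1 ≤ ∏ i, p i ∧ ∏ i, p i ≤ 2 ^ (10 * a * s) := by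
    intro p hp
    constructor
    · exact Finset.prod_pos fun i _ => (hp i).1.pos
    · calc ∏ i, p i ≤ ∏ _i : Fin s, s ^ 10 := Finset.prod_le_prod' fun i _ => (hp i).2.2.2
        _ = 2 ^ (10 * a * s) := by
            rw [Finset.prod_const, Finset.card_univ, Fintype.card_fin]
            conv_lhs => rw [hs]
            rw [← pow_mul, ← pow_mul]
            congr 1
            rw [← hs]
            ring
  obtain ⟨hP₁, hP₁'⟩ := hbd p₁ h₁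
  obtain ⟨hP₂, hP₂'⟩ := hbd p₂ h₂
  obtain ⟨P₁, hP₁d⟩ : ∃ P, P = ∏ i, p₁ i := ⟨_, rfl⟩
  obtain ⟨P₂, hP₂d⟩ : ∃ P, P = ∏ i, p₂ i := ⟨_, rfl⟩
  rw [← hP₁d] at hP₁ hP₁'
  rw [← hP₂d] at hP₂ hP₂'
  have hM : 4 * P₁ * P₂ ≠ 0 := by positivity
  obtain ⟨T, hT, hTc⟩ := (Nat.infinite_setOfPred_prime_modEq_one hM).exists_subset_card_eq
    (40 * a * s + lam)
  have hTp : ∀ q ∈ T, q.Prime ∧ q ≡ 1 [MOD 4 * P₁ * P₂] := fun q hq => hT hq
  have hmod : ∀ P : ℕ, 1 ≤ P → 4 * P ∣ 4 * P₁ * P₂ → ∀ q ∈ T, q.Prime ∧ q % (4 * P) = 1 := by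
    intro P hP hd q hq
    refine ⟨(hTp q hq).1, ?_⟩
    have h1 : q ≡ 1 [MOD 4 * P] := (hTp q hq).2.of_dvd hd
    have h2 : q % (4 * P) = 1 % (4 * P) := h1
    rw [h2]
    exact Nat.mod_eq_of_lt (by omega)
  have hlam : lam ≤ 2 ^ lam := Nat.lt_two_pow_self.le
  have hpow : ∀ P : ℕ, P ≤ 2 ^ (10 * a * s) → lam * P ^ 4 ≤ 2 ^ T.card := by
    intro P hP
    rw [hTc]
    calc lam * P ^ 4 ≤ 2 ^ lam * (2 ^ (10 * a * s)) ^ 4 :=
          Nat.mul_le_mul hlam (Nat.pow_le_pow_left hP 4)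
      _ = 2 ^ (40 * a * s + lam) := by
          rw [← pow_mul, ← pow_add]
          congr 1
          ring
  have hR : ∀ P : ℕ, P ≤ 2 ^ (10 * a * s) → P ^ 5 * 2 ^ (2 * T.card + 6) ≤
      2 ^ (5 * (10 * a * s) + (2 * (40 * a * s + lam) + 6)) := by
    intro P hP
    rw [hTc, pow_add 2 (5 * (10 * a * s))]
    refine Nat.mul_le_mul_right _ ?_
    calc P ^ 5 ≤ (2 ^ (10 * a * s)) ^ 5 := Nat.pow_le_pow_left hP 5
      _ = 2 ^ (5 * (10 * a * s)) := by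
          rw [← pow_mul]
          congr 1
          ring
  have h4R := t14_size n lam s a (by omega) ha hs
  have hs6 : 6 ≤ s := by omega
  have hse : Even s := by
    rw [hs]
    exact (even_two).pow_of_ne_zero (by omega)
  have key : ∀ p : Fin s → ℕ, Function.Injective p →
      (∀ i, (p i).Prime ∧ p i % 4 = 1 ∧ p i % 8 = c ∧ p i ≤ s ^ 10) →
      4 * (∏ i, p i) ∣ 4 * P₁ * P₂ →
      ∀ m : ℕ, ∃ (L : Type) (_ : Field L) (_ : NumberField L),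
        Module.finrank ℚ L = 2 ^ (m + 1) ∧ (∀ w : InfinitePlace L, w.IsReal) ∧
        (discr L).natAbs ∣ (∏ i, p i) ^ 2 ^ m ∧
        ∀ q ∈ T, {w : HeightOneSpectrum (𝓞 L) | Ideal.absNorm w.asIdeal = q}.ncard =
          2 ^ (m + 1) := by
    intro p hi hp hd
    obtain ⟨hb1, hb2⟩ := hbd p hp
    exact hT13 s c _ p T hs6 hse hi (fun i => ⟨(hp i).1, (hp i).2.1, (hp i).2.2.1⟩)
      (hmod _ hb1 hd) (hR _ hb2) h4R
  refine ⟨P₁, P₂, T, hP₁, hP₂, ?_, ?_, hpow _ hP₁', hpow _ hP₂', ?_⟩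
  · rw [hP₁d, hP₂d]
    refine Nat.Coprime.prod_left fun i _ => Nat.Coprime.prod_right fun j _ => ?_
    exact (Nat.coprime_primes (h₁ i).1 (h₂ j).1).mpr (h12 i j)
  · intro q hq
    have h1 := hmod 1 le_rfl (by
      rw [mul_one, mul_assoc]
      exact dvd_mul_right _ _) q hq
    exact ⟨h1.1, by simpa using h1.2⟩
  · rintro P (rfl | rfl)
    · rw [hP₁d]
      refine key p₁ hi₁ h₁ ?_
      rw [← hP₁d]
      exact dvd_mul_right _ _
    · rw [hP₂d]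
      refine key p₂ hi₂ h₂ ?_
      rw [← hP₂d, mul_assoc, mul_comm P₁ P, ← mul_assoc]
      exact dvd_mul_right _ _

end Pool.Agent.UDT
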