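import Pool.Agent.UDT.StT

set_option autoImplicit false

/-!
# UDT / T2: a central involution and its fixed field (helper55)
-/

namespace Pool.Agent.UDT

open IsDedekindDomain NumberField HP7 Pool.Agent.QCF
open scoped WithZero

/-- a group of order `2^(m+1)` has a central involution -/
theorem T2_inv {G : Type} [Group G] [Finite G] (m : ℕ) (h : Nat.card G = 2 ^ (m + 1)) :
    ∃ z : G, z ≠ 1 ∧ z * z = 1 ∧ ∀ g, z * g = g * z := by
  have hp : Fact (Nat.Prime 2) := ⟨Nat.prime_two⟩
  have hG : IsPGroup 2 G := IsPGroup.of_card h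
  have hnt : Nontrivial G := by
    rw [← Finite.one_lt_card_iff_nontrivial, h]
    exact Nat.one_lt_two_pow (Nat.succ_ne_zero m)
  have hc : Nontrivial (Subgroup.center G) := hG.center_nontrivial
  have hcp : IsPGroup 2 (Subgroup.center G) := hG.to_subgroup _
  have hd : 2 ∣ Nat.card (Subgroup.center G) := by
    obtain ⟨n, hn⟩ := hcp.exists_card_eq
    rw [hn]
    refine dvd_pow_self 2 ?_
    intro h0
    rw [h0, pow_zero] at hn
    have := (Finite.one_lt_card_iff_nontrivial (α := Subgroup.center G)).2 hc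
    omega
  obtain ⟨z, hz⟩ := exists_prime_orderOf_dvd_card' (G := Subgroup.center G) 2 hd
  refine ⟨z.1, ?_, ?_, ?_⟩
  · intro h1
    have h2 : z = 1 := Subtype.ext h1
    rw [h2, orderOf_one] at hz
    omega
  · have h1 : z ^ 2 = 1 := by rw [← hz]; exact pow_orderOf_eq_one z
    have h2 := congrArg Subtype.val h1
    rw [pow_two] at h2
    exact h2
  · intro g
    exact (Subgroup.mem_center_iff.1 z.2 g).symm

theorem T2_mem {G : Type} [Group G] {z : G} (hz : z * z = 1) {g : G}
    (h : g ∈ Subgroup.zpowers z) : g = 1 ∨ g = z := by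
  obtain ⟨n, rfl⟩ := h
  change z ^ n = 1 ∨ z ^ n = z
  have h2 : z ^ (2 : ℤ) = 1 := by
    rw [zpow_ofNat, pow_two, hz]
  rcases Int.even_or_odd' n with ⟨k, hk | hk⟩
  · left
    rw [hk, zpow_mul, h2, one_zpow]
  · right
    rw [hk, zpow_add, zpow_mul, h2, one_zpow, zpow_one, one_mul]

theorem thm_T2 : St_T1 → St_T2 := by
  intro hT1 k L _ _ _ _ _ S m hG
  have hgal : IsGalois k L := hG.gal
  have hfin : FiniteDimensional k L := Module.Finite.of_restrictScalars_finite ℚ k L
  have hcard : Nat.card (L ≃ₐ[k] L) = 2 ^ (m + 1) := by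
    rw [IsGalois.card_aut_eq_finrank, hG.deg]
  obtain ⟨z, hz1, hz2, hzc⟩ := T2_inv m hcard
  let H : Subgroup (L ≃ₐ[k] L) := Subgroup.zpowers z
  have hHn : H.Normal := by
    constructor
    intro g hg σ
    rcases T2_mem hz2 hg with h | h
    · rw [h, mul_one, mul_inv_cancel]
      exact H.one_mem
    · rw [h, ← hzc σ, mul_assoc, mul_inv_cancel, mul_one]
      exact Subgroup.mem_zpowers z
  have hHc : Nat.card H = 2 := by
    rw [Nat.card_zpowers]
    exact orderOf_eq_prime (by rw [pow_two, hz2]) hz1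
  let M : IntermediateField k L := IntermediateField.fixedField H
  have hML : Module.finrank M L = 2 := by
    rw [IntermediateField.finrank_fixedField_eq_card, hHc]
  have hgM : IsGalois k M := IsGalois.of_fixedField_normal_subgroup H
  have hkM : Module.finrank k M = 2 ^ m := by
    have h1 := Module.finrank_mul_finrank k M L
    rw [hML, hG.deg, pow_succ] at h1
    exact Nat.eq_of_mul_eq_mul_right (by norm_num) h1
  have h1 := (hT1 k M L).1.1 hG.unr
  refine ⟨z, M, inferInstance, inferInstance, inferInstance, inferInstance, inferInstance,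
    hz1, hz2, hzc, ?_, hML, ⟨hgM, hkM, ?_, h1.1, fun v hv => ((hT1 k M L).2 v).1 (hG.spl v hv) |>.1⟩,
    h1.2, fun u hu => (((hT1 k M L).2 _).1 (hG.spl _ hu)).2 u rfl⟩
  · intro x
    constructor
    · intro hx
      refine ⟨⟨x, ?_⟩, rfl⟩
      rw [IntermediateField.mem_fixedField_iff]
      intro f hf
      rcases T2_mem hz2 hf with h | h
      · rw [h]
        rfl
      · rw [h]
        exact hx
    · rintro ⟨y, rfl⟩
      exact (IntermediateField.mem_fixedField_iff H y.1).1 y.2 z (Subgroup.mem_zpowers z)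
  · intro w
    obtain ⟨w', hw'⟩ := InfinitePlace.comap_surjective (k := M) (K := L) w
    rw [← hw']
    exact (hG.real w').comap _

end Pool.Agent.UDT
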