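import Pool.Agent.UDT.StT

set_option autoImplicit false

/-!
# UDT / T3: quadratic extensions in characteristic zero (helper25)
-/

namespace Pool.Agent.UDT

open IsDedekindDomain NumberField HP7 Pool.Agent.QCF

theorem T3_exists_notMem {M L : Type} [Field M] [Field L] [Algebra M L]
    (h : Module.finrank M L = 2) : ∃ θ : L, ∀ x : M, algebraMap M L x ≠ θ := by
  by_contra hcon
  push Not at hcon
  have hb : Function.Bijective (algebraMap M L) := ⟨(algebraMap M L).injective, fun z => hcon z⟩
  have h1 : Module.finrank M L = Module.finrank M M := by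
    have e : M ≃ₗ[M] L := LinearEquiv.ofBijective (Algebra.linearMap M L) hb
    exact e.finrank_eq.symm
  rw [h, Module.finrank_self] at h1
  omega

theorem T3_span {M L : Type} [Field M] [Field L] [Algebra M L]
    (h : Module.finrank M L = 2) (θ : L) (hθ : ∀ x : M, algebraMap M L x ≠ θ) (z : L) :
    ∃ x y : M, z = algebraMap M L x + algebraMap M L y * θ := by
  have hfin : FiniteDimensional M L := Module.finite_of_finrank_eq_succ h
  have hli : LinearIndependent M ![(1 : L), θ] := by
    rw [LinearIndependent.pair_iff]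
    intro s t hst
    rw [Algebra.smul_def, Algebra.smul_def, mul_one] at hst
    have ht : t = 0 := by
      by_contra ht
      have ht' : algebraMap M L t ≠ 0 := by
        rw [Ne, map_eq_zero]
        exact ht
      apply hθ (-s / t)
      rw [map_div₀, map_neg]
      field_simp
      linear_combination -hst
    rw [ht, map_zero, zero_mul, add_zero, map_eq_zero] at hst
    exact ⟨hst, ht⟩
  have hsp := hli.span_eq_top_of_card_eq_finrank' (by rw [h]; rfl)
  have hz : z ∈ Submodule.span M (Set.range ![(1 : L), θ]) := by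
    rw [hsp]
    exact Submodule.mem_top
  rw [Matrix.range_cons, Matrix.range_cons, Matrix.range_empty, Set.union_empty,
    Set.singleton_union, Submodule.mem_span_pair] at hz
  obtain ⟨x, y, hxy⟩ := hz
  refine ⟨x, y, ?_⟩
  rw [← hxy, Algebra.smul_def, Algebra.smul_def, mul_one]

theorem thm_T3 : St_T3 := by
  intro M L _ _ _ _ _ h
  have : Algebra.IsQuadraticExtension M L := ⟨h⟩
  obtain ⟨θ, hθ⟩ := T3_exists_notMem h
  obtain ⟨r, p, hrp⟩ := T3_span h θ hθ (θ ^ 2)
  have h2 : (2 : M) ≠ 0 := two_ne_zero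
  have h2L : (2 : L) ≠ 0 := two_ne_zero
  set ω : L := θ - algebraMap M L (p / 2) with hω
  have hωθ : ∀ x : M, algebraMap M L x ≠ ω := by
    intro x hx
    apply hθ (x + p / 2)
    rw [map_add, hx, hω]
    ring
  set a : M := r + (p / 2) ^ 2 with ha
  have hsq : ω ^ 2 = algebraMap M L a := by
    have e : algebraMap M L p = 2 * algebraMap M L (p / 2) := by
      rw [map_div₀, map_ofNat]
      field_simp
    rw [e] at hrp
    rw [hω, ha, map_add, map_pow]
    linear_combination hrp
  have ha0 : a ≠ 0 := by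
    intro h0
    rw [h0, map_zero] at hsq
    have : ω = 0 := by
      rcases pow_eq_zero_iff (two_ne_zero) |>.1 hsq with h'
      exact h'
    apply hωθ 0
    rw [map_zero, this]
  have hns : ¬ IsSquare a := by
    rintro ⟨x, hx⟩
    rw [hx, map_mul, ← sq] at hsq
    rcases sq_eq_sq_iff_eq_or_eq_neg.1 hsq with h' | h'
    · exact hωθ x h'.symm
    · exact hωθ (-x) (by rw [map_neg, h'])
  have hrepr := T3_span h ω hωθ
  have hcard : Nat.card (L ≃ₐ[M] L) = 2 := by
    rw [IsGalois.card_aut_eq_finrank, h]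
  have hσ : ∃ σ : L ≃ₐ[M] L, σ ≠ 1 := by
    by_contra hcon
    push Not at hcon
    have : Nat.card (L ≃ₐ[M] L) = 1 := by
      rw [Nat.card_eq_one_iff_unique]
      exact ⟨⟨fun a b => by rw [hcon a, hcon b]⟩, ⟨1⟩⟩
    omega
  obtain ⟨σ, hσ⟩ := hσ
  have hσω : σ ω = -ω := by
    have h1 : (σ ω) ^ 2 = ω ^ 2 := by
      rw [← map_pow, hsq, AlgEquiv.commutes]
    rcases sq_eq_sq_iff_eq_or_eq_neg.1 h1 with h' | h'
    · exfalso
      apply hσ
      ext z
      obtain ⟨x, y, rfl⟩ := hrepr z
      rw [map_add, map_mul, AlgEquiv.commutes, AlgEquiv.commutes, h']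
      rfl
    · exact h'
  exact ⟨Units.mk0 a ha0, ⟨⟨ω, hsq, hns, hrepr, σ, hσω⟩⟩⟩

end Pool.Agent.UDT
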