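import Pool.Agent.UDT.StT

set_option autoImplicit false

/-!
# UDT / T4: norms in a good quadratic extension
-/

namespace Pool.Agent.UDT

open IsDedekindDomain NumberField HP7 Pool.Agent.QCF
open scoped WithZero

/-- a quadratic extension `L = M(ω)` does not have degree one -/
private theorem T4_finrank {M L : Type} [Field M] [NumberField M] [Field L] [NumberField L]
    [Algebra M L] {a : M} (q : QE M L a) : Module.finrank M L ≠ 1 := by
  intro h
  have htop : (⊥ : Subalgebra M L) = ⊤ := Subalgebra.bot_eq_top_of_finrank_eq_one h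
  have hmem : q.ω ∈ (⊥ : Subalgebra M L) := by
    rw [htop]
    exact Algebra.mem_top
  obtain ⟨x, hx⟩ := Algebra.mem_bot.1 hmem
  apply q.nsq
  refine ⟨x, (algebraMap M L).injective ?_⟩
  rw [map_mul, hx, ← sq, q.sq]

/-- a real embedding takes squares to nonnegative reals -/
private theorem T4_re_sq {L : Type} [Field L] [NumberField L] (w : InfinitePlace L)
    (hw : w.IsReal) (x : L) (hx : x ≠ 0) : 0 < (w.embedding (x ^ 2)).re := by
  have h1 : w.embedding x = ((InfinitePlace.embedding_of_isReal hw x : ℝ) : ℂ) :=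
    (InfinitePlace.embedding_of_isReal_apply hw x).symm
  have h2 : (InfinitePlace.embedding_of_isReal hw x : ℝ) ≠ 0 := (map_ne_zero _).2 hx
  rw [map_pow, h1, ← Complex.ofReal_pow, Complex.ofReal_re]
  positivity

/-- infinite places: `a` is a square -/
private theorem T4_inf {M L : Type} [Field M] [NumberField M] [Field L] [NumberField L]
    [Algebra M L] (a : Mˣ) (q : QE M L (a : M)) (hreal : ∀ w : InfinitePlace L, w.IsReal)
    (v : InfinitePlace M) : LSq (Sum.inr v) (a : M) := by
  by_contra hns
  have hv : v.IsReal := by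
    rcases v.isReal_or_isComplex with h | h
    · exact h
    · exact absurd ((QCF.st_L13 M v a).1 h) hns
  have hn : {w : InfinitePlace L | w.comap (algebraMap M L) = v}.ncard = 1 :=
    (QCF.st_N7 M L a q v).2 hns
  obtain ⟨w, hw⟩ := Set.ncard_eq_one.1 hn
  have hwv : w.comap (algebraMap M L) = v := by
    have : w ∈ {w : InfinitePlace L | w.comap (algebraMap M L) = v} := by
      rw [hw]
      exact Set.mem_singleton w
    exact this
  have hwr := hreal w
  have hemb : v.embedding = w.embedding.comp (algebraMap M L) := by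
    have h1 : InfinitePlace.mk (w.embedding.comp (algebraMap M L)) = v := by
      rw [← hwv, ← InfinitePlace.comap_mk, InfinitePlace.mk_embedding]
    rw [← h1]
    apply InfinitePlace.embedding_mk_eq_of_isReal
    rw [ComplexEmbedding.isReal_iff]
    have h2 := InfinitePlace.isReal_iff.1 hwr
    rw [ComplexEmbedding.isReal_iff] at h2
    ext x
    have h3 := RingHom.congr_fun h2 (algebraMap M L x)
    simpa using h3
  have hω : q.ω ≠ 0 := by
    intro h
    have h1 := q.sq
    rw [h, zero_pow two_ne_zero] at h1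
    exact a.ne_zero ((map_eq_zero (algebraMap M L)).1 h1.symm)
  have hpos := T4_re_sq w hwr q.ω hω
  rw [q.sq] at hpos
  apply hns
  rw [(QCF.st_L13 M v a).2.1 hv, hemb]
  exact hpos

private theorem T4_exp_log {x : ℤᵐ⁰} (hx : x ≠ 0) : x = WithZero.exp (WithZero.log x) :=
  (WithZero.exp_log hx).symm

/-- finite places where `a` is not a square -/
private theorem T4_fin (hT0 : St_T0) {M L : Type} [Field M] [NumberField M] [Field L]
    [NumberField L] [Algebra M L] (a : Mˣ) (q : QE M L (a : M)) (hU : Unr M L)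
    (hS : ∀ u : HeightOneSpectrum (𝓞 M), u.valuation M (2 : M) ≠ 1 → SpC L u) (b : Mˣ)
    (B : HeightOneSpectrum (𝓞 L) → ℤ)
    (hB : ∀ w : HeightOneSpectrum (𝓞 L),
      vl w (Units.map (algebraMap M L : M →* L) b) = B w + B (mv q.σ w))
    (v : HeightOneSpectrum (𝓞 M)) (hns : ¬ LSq (Sum.inl v) (a : M)) :
    LNm (Sum.inl v) (a : M) (b : M) := by
  have hn : {w : HeightOneSpectrum (𝓞 L) | w.under (𝓞 M) = v}.ncard = 1 :=
    (QCF.st_N6 M L a q v).2 hns
  have hv2 : v.valuation M (2 : M) = 1 := by
    by_contra h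
    have h1 : {w : HeightOneSpectrum (𝓞 L) | w.under (𝓞 M) = v}.ncard = Module.finrank M L :=
      hS v h
    rw [hn] at h1
    exact T4_finrank q h1.symm
  obtain ⟨w, hw⟩ := Set.ncard_eq_one.1 hn
  have hwv : w.under (𝓞 M) = v := by
    have : w ∈ {w : HeightOneSpectrum (𝓞 L) | w.under (𝓞 M) = v} := by
      rw [hw]
      exact Set.mem_singleton w
    exact this
  have hσ : mv q.σ w = w := by
    have h1 : mv q.σ w ∈ {w : HeightOneSpectrum (𝓞 L) | w.under (𝓞 M) = v} := by
      change (mv q.σ w).under (𝓞 M) = v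
      rw [(hT0 M L).2.2.2.1 q.σ w, hwv]
    rw [hw] at h1
    exact Set.mem_singleton_iff.1 h1
  have hval : ∀ x : M, v.valuation M x = w.valuation L (algebraMap M L x) := by
    intro x
    rw [hU w x, hwv]
  have hevb : EvenAt v (b : M) := by
    refine ⟨B w, ?_⟩
    have h1 := hB w
    rw [hσ] at h1
    have h2 : v.valuation M (b : M) ≠ 0 := (Valuation.ne_zero_iff _).2 b.ne_zero
    have h3 : vl w (Units.map (algebraMap M L : M →* L) b) =
        WithZero.log (v.valuation M (b : M)) := by
      rw [hval]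
      rfl
    rw [T4_exp_log h2, ← h3, h1, two_mul]
  have heva : EvenAt v (a : M) := by
    have hω : q.ω ≠ 0 := by
      intro h
      have h1 := q.sq
      rw [h, zero_pow two_ne_zero] at h1
      exact a.ne_zero ((map_eq_zero (algebraMap M L)).1 h1.symm)
    have h2 : w.valuation L q.ω ≠ 0 := (Valuation.ne_zero_iff _).2 hω
    refine ⟨WithZero.log (w.valuation L q.ω), ?_⟩
    rw [hval, ← q.sq, map_pow, two_mul, WithZero.exp_add, ← T4_exp_log h2, sq]
  exact (QCF.st_L18 M v a b hv2 heva hns).2 hevb

theorem thm_T4 : St_T0 → St_T4 := by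
  intro hT0 M L _ _ _ _ _ a q hU hreal hS b hb
  obtain ⟨B, hB⟩ := hb
  have hloc : ∀ w : Pl M, At (NormOf (a : M) (b : M)) w := by
    intro w
    change LNm w (a : M) (b : M)
    cases w with
    | inr v => exact lnm_of_lsq _ a.ne_zero _ (T4_inf a q hreal v)
    | inl v =>
      by_cases h : LSq (Sum.inl v) (a : M)
      · exact lnm_of_lsq _ a.ne_zero _ h
      · exact T4_fin hT0 a q hU hS b B hB v h
  exact QCF.hNT M (a : M) (b : M) a.ne_zero b.ne_zero hloc

end Pool.Agent.UDT
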