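import Pool.Agent.UDT.StT

set_option autoImplicit false

/-!
# UDT / T5: vanishing (helper77)

Statement and proof: see `St_T5` in `Pool/Agent/UDT/StT.lean`.
-/

namespace Pool.Agent.UDT

open IsDedekindDomain NumberField HP7 Pool.Agent.QCF
open scoped WithZero

section Coc

variable {G X : Type} [Group G] [CommGroup X]

theorem T5_one_left {φ : G →* MulAut X} {c : G → G → X} (h : IsC2 φ c) (σ : G) :
    c 1 σ = c 1 1 := by
  have h1 := h 1 1 σ
  rw [map_one, MulAut.one_apply, one_mul, one_mul] at h1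
  exact mul_left_cancel h1

theorem T5_one_right {φ : G →* MulAut X} {c : G → G → X} (h : IsC2 φ c) (σ : G) :
    c σ 1 = φ σ (c 1 1) := by
  have h1 := h σ 1 1
  rw [one_mul, mul_one] at h1
  exact (mul_right_cancel h1).symm

private theorem T5_e1 {Y : Type} [AddCommGroup Y] (x1 x2 x3 x4 x5 x6 : Y) :
    x2 + x3 + -x4 + (x1 + x4 + -x5) = x6 + x3 + -x5 + (x1 + x2 + -x6) := by
  abel

private theorem T5_e1' (x1 x2 x3 x4 x5 x6 : X) :
    x2 * x3 * x4⁻¹ * (x1 * x4 * x5⁻¹) = x6 * x3 * x5⁻¹ * (x1 * x2 * x6⁻¹) :=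
  congrArg Additive.toMul (T5_e1 (Additive.ofMul x1) (Additive.ofMul x2) (Additive.ofMul x3)
    (Additive.ofMul x4) (Additive.ofMul x5) (Additive.ofMul x6))

private theorem T5_e2 {Y : Type} [AddCommGroup Y] (x1 x2 x3 y1 y2 y3 : Y) :
    x1 + x2 + -x3 + -(y1 + y2 + -y3) = x1 + -y1 + (x2 + -y2) + -(x3 + -y3) := by
  abel

private theorem T5_e2' (x1 x2 x3 y1 y2 y3 : X) :
    x1 * x2 * x3⁻¹ * (y1 * y2 * y3⁻¹)⁻¹ = x1 * y1⁻¹ * (x2 * y2⁻¹) * (x3 * y3⁻¹)⁻¹ :=
  congrArg Additive.toMul (T5_e2 (Additive.ofMul x1) (Additive.ofMul x2) (Additive.ofMul x3)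
    (Additive.ofMul y1) (Additive.ofMul y2) (Additive.ofMul y3))

theorem T5_isC2_cob (φ : G →* MulAut X) (a : G → X) : IsC2 φ (cob φ a) := by
  intro σ τ ρ
  unfold cob
  rw [map_mul, map_mul, map_inv, map_mul, MulAut.mul_apply, mul_assoc σ τ ρ]
  exact T5_e1' _ _ _ _ _ _

theorem T5_isC2_mul {φ : G →* MulAut X} {c d : G → G → X} (h : IsC2 φ c) (h' : IsC2 φ d) :
    IsC2 φ (fun σ τ => c σ τ * d σ τ) := by
  intro σ τ ρ
  show φ σ (c τ ρ * d τ ρ) * (c σ (τ * ρ) * d σ (τ * ρ)) =
    c (σ * τ) ρ * d (σ * τ) ρ * (c σ τ * d σ τ)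
  rw [map_mul, mul_mul_mul_comm, h σ τ ρ, h' σ τ ρ, mul_mul_mul_comm]

theorem T5_cob_of_mul {φ : G →* MulAut X} {c : G → G → X} {a0 a : G → X}
    (h : (fun σ τ => c σ τ * cob φ a0 σ τ) = cob φ a) : c = cob φ (fun σ => a σ * (a0 σ)⁻¹) := by
  funext σ τ
  have h1 : c σ τ * cob φ a0 σ τ = cob φ a σ τ := congrFun (congrFun h σ) τ
  have h2 : c σ τ = cob φ a σ τ * (cob φ a0 σ τ)⁻¹ := eq_mul_inv_of_mul_eq h1
  rw [h2]
  unfold cob
  rw [map_mul, map_inv]
  exact T5_e2' _ _ _ _ _ _

end Coc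

section NF

variable {k L : Type} [Field k] [NumberField k] [Field L] [NumberField L] [Algebra k L]

theorem T5_vl_mul (w : HeightOneSpectrum (𝓞 L)) (x y : Lˣ) : vl w (x * y) = vl w x + vl w y := by
  unfold vl
  rw [Units.val_mul, map_mul, WithZero.log_mul]
  · exact (Valuation.ne_zero_iff _).2 x.ne_zero
  · exact (Valuation.ne_zero_iff _).2 y.ne_zero

theorem T5_vl_one (w : HeightOneSpectrum (𝓞 L)) : vl w (1 : Lˣ) = 0 := by
  have h := T5_vl_mul w 1 1
  rw [mul_one] at h
  omega

theorem T5_vl_inv (w : HeightOneSpectrum (𝓞 L)) (x : Lˣ) : vl w x⁻¹ = - vl w x := by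
  have h := T5_vl_mul w x⁻¹ x
  rw [inv_mul_cancel, T5_vl_one] at h
  omega

theorem T5_vl_uact (h0 : St_T0) (σ : L ≃ₐ[k] L) (w : HeightOneSpectrum (𝓞 L)) (x : Lˣ) :
    vl w (uact k L σ x) = vl (mv σ w) x := by
  unfold vl
  rw [(h0 k L).1 σ w x]
  rfl

omit [NumberField k] [NumberField L] in
/-- an automorphism over `M` and one over `k` with the same values move primes in the same way -/
theorem T5_mv_eq {M : Type} [Field M] [NumberField M] [Algebra M L] (σ : L ≃ₐ[k] L)
    (τ : L ≃ₐ[M] L) (h : ∀ x, σ x = τ x) (w : HeightOneSpectrum (𝓞 L)) : mv σ w = mv τ w := by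
  have h1 : (σ : L ≃+* L) = (τ : L ≃+* L) := RingEquiv.ext h
  unfold mv
  congr 1
  ext x
  exact h x

omit [NumberField k] in
theorem T5_quad {M : Type} [Field M] [NumberField M] [Algebra k M] [Algebra M L]
    [IsScalarTower k M L] {z : L ≃ₐ[k] L} (hz1 : z ≠ 1)
    (hzM : ∀ x : L, z x = x ↔ ∃ y : M, algebraMap M L y = x) {a : M} (q : QE M L a) :
    ∀ x y : M, z (algebraMap M L x + algebraMap M L y * q.ω) =
      algebraMap M L x - algebraMap M L y * q.ω := by
  have hM : ∀ y : M, z (algebraMap M L y) = algebraMap M L y := fun y => (hzM _).2 ⟨y, rfl⟩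
  have hω : z q.ω = - q.ω := by
    have h1 : (z q.ω) ^ 2 = q.ω ^ 2 := by
      rw [← map_pow, q.sq, hM]
    rcases sq_eq_sq_iff_eq_or_eq_neg.1 h1 with h2 | h2
    · exfalso
      apply hz1
      ext x
      obtain ⟨u, v, rfl⟩ := q.repr x
      rw [map_add, map_mul, hM, hM, h2]
      rfl
    · exact h2
  intro x y
  rw [map_add, map_mul, hM, hM, hω]
  ring

end NF

theorem thm_T5 : St_G1 → St_G2 → St_T0 → St_T2 → St_T3 → St_T4 → St_T5a → St_T5b → St_T5 := by
  intro hG1 hG2 hT0 hT2 hT3 hT4 hT5a hT5b k L0 ik nk iL0 nL0 aL0 S m0 hgd0 hDy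
  -- generalise
  have main : ∀ (m : ℕ) (L : Type) [Field L] [NumberField L] [Algebra k L], Gd k L S m →
      ∀ (c : (L ≃ₐ[k] L) → (L ≃ₐ[k] L) → Lˣ) (B : (L ≃ₐ[k] L) → HeightOneSpectrum (𝓞 L) → ℤ),
        IsC2 (uact k L) c → VB k L c B → ∃ a, c = cob (uact k L) a := by
    intro m
    induction m with
    | zero =>
      intro L iL nL aL hgd c B hc hB
      have hgal := hgd.gal
      have h1 : Nat.card (L ≃ₐ[k] L) = 1 := by
        rw [IsGalois.card_aut_eq_finrank, hgd.deg, pow_zero]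
      have h2 : Subsingleton (L ≃ₐ[k] L) := (Nat.card_eq_one_iff_unique.1 h1).1
      refine ⟨fun _ => c 1 1, ?_⟩
      funext σ τ
      rw [Subsingleton.elim σ 1, Subsingleton.elim τ 1]
      unfold cob
      rw [map_one, MulAut.one_apply]
      rw [mul_inv_cancel_right]
    | succ m ih =>
      intro L iL nL aL hgd c B hc hB
      obtain ⟨z, M, iM, nM, akM, aML, tow, hz1, hz2, hzc, hzM, hfr, hgdM, hunr, hspl⟩ :=
        hT2 k L S m hgd
      obtain ⟨a, ⟨q⟩⟩ := hT3 M L hfr
      have hq := T5_quad hz1 hzM q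
      have hqz : ∀ x, z x = q.σ x := by
        intro x
        obtain ⟨u, v, rfl⟩ := q.repr x
        rw [hq, map_add, map_mul, AlgEquiv.commutes, AlgEquiv.commutes, q.hσ]
        ring
      have hgal := hgd.gal
      have hgalM := hgdM.gal
      have hT5b' := hT5b k L z hz1 hz2
      -- the element `b`
      have hbz : uact k L z (c z z * c 1 1) = c z z * c 1 1 := by
        have h1 := hc z z z
        rw [hz2, T5_one_right hc z, T5_one_left hc z, ← map_mul] at h1
        rw [h1, mul_comm]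
      have hbz' : z ((c z z * c 1 1 : Lˣ) : L) = ((c z z * c 1 1 : Lˣ) : L) := by
        have h1 := congrArg (Units.val) hbz
        exact h1
      obtain ⟨y0, hy0⟩ := (hzM _).1 hbz'
      have hy0n : y0 ≠ 0 := by
        rintro rfl
        rw [map_zero] at hy0
        exact (c z z * c 1 1).ne_zero hy0.symm
      have hbM : Units.map (algebraMap M L : M →* L) (Units.mk0 y0 hy0n) = c z z * c 1 1 := by
        ext
        exact hy0
      have hdy : ∀ u : HeightOneSpectrum (𝓞 M), u.valuation M (2 : M) ≠ 1 → SpC L u := by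
        intro u hu
        apply hspl
        by_contra hS
        apply hu
        have h1 := hgdM.unr u 2
        rw [hDy _ hS, map_ofNat] at h1
        exact h1
      obtain ⟨x, y, hxy⟩ := hT4 M L a q hunr hgd.real hdy (Units.mk0 y0 hy0n) ⟨B z, by
        intro w
        rw [hbM, T5_vl_mul, hB z z w, hB 1 1 w, hz2, ← T5_mv_eq z q.σ hqz w, mv_one, one_mul]
        ring⟩
      have hu : (algebraMap M L x + algebraMap M L y * q.ω) *
          z (algebraMap M L x + algebraMap M L y * q.ω) = ((c z z * c 1 1 : Lˣ) : L) := by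
        rw [hq, ← hy0]
        have h1 : algebraMap M L y0 = algebraMap M L x ^ 2 -
            algebraMap M L (a : M) * algebraMap M L y ^ 2 := by
          have h2 : y0 = x ^ 2 - (a : M) * y ^ 2 := hxy.symm
          rw [h2, map_sub, map_mul, map_pow, map_pow]
        rw [h1, ← q.sq]
        ring
      have hu0 : algebraMap M L x + algebraMap M L y * q.ω ≠ 0 := by
        intro h1
        rw [h1, zero_mul] at hu
        exact (c z z * c 1 1).ne_zero hu.symm
      -- descent
      obtain ⟨a0, ha0⟩ := hG1 (L ≃ₐ[k] L) Lˣ (uact k L) z hz1 hz2 hzc hT5b'.1 c hc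
        ⟨Units.mk0 _ hu0, by
          ext
          exact hu.symm⟩
      obtain ⟨c1, hc1⟩ : ∃ c1 : (L ≃ₐ[k] L) → (L ≃ₐ[k] L) → Lˣ,
          c1 = fun σ τ => c σ τ * cob (uact k L) a0 σ τ := ⟨_, rfl⟩
      have hc1C : IsC2 (uact k L) c1 := by
        rw [hc1]
        exact T5_isC2_mul hc (T5_isC2_cob _ a0)
      rw [← hc1] at ha0
      have hVB1 : VB k L c1 (fun σ w => B σ w + vl w (a0 σ)) := by
        intro σ τ w
        rw [hc1]
        show vl w (c σ τ * cob (uact k L) a0 σ τ) = _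
        unfold cob
        rw [T5_vl_mul, T5_vl_mul, T5_vl_mul, T5_vl_inv, T5_vl_uact hT0, hB σ τ w]
        ring
      -- the divisors
      obtain ⟨b', hb', hb''⟩ := hG2 (L ≃ₐ[k] L)
        (Multiplicative (HeightOneSpectrum (𝓞 L) → ℤ)) (dact k L) z hz1 hz2 hzc hT5b'.2
        (fun σ τ => Multiplicative.ofAdd (fun w => vl w (c1 σ τ)))
        (by
          intro σ τ
          obtain ⟨e1, e2, e3⟩ := ha0 σ τ
          refine ⟨?_, ?_, ?_⟩
          · show Multiplicative.ofAdd (fun w => vl w (c1 (z * σ) τ)) =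
              Multiplicative.ofAdd (fun w => vl w (c1 σ τ))
            rw [e1]
          · show Multiplicative.ofAdd (fun w => vl w (c1 σ (z * τ))) =
              Multiplicative.ofAdd (fun w => vl w (c1 σ τ))
            rw [e2]
          · show Multiplicative.ofAdd (fun w => vl (mv z w) (c1 σ τ)) =
              Multiplicative.ofAdd (fun w => vl w (c1 σ τ))
            have e4 : (fun w => vl (mv z w) (c1 σ τ)) = fun w => vl w (c1 σ τ) := by
              funext w
              rw [← T5_vl_uact hT0, e3]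
            rw [e4])
        ⟨fun σ => Multiplicative.ofAdd (fun w => B σ w + vl w (a0 σ)), by
          funext σ τ
          apply Multiplicative.toAdd.injective
          funext w
          exact (hVB1 σ τ w).trans (sub_eq_add_neg _ _)⟩
      have hVB2 : VB k L c1 (fun σ w => Multiplicative.toAdd (b' σ) w) := by
        intro σ τ w
        have h1 := congrFun (congrFun hb' σ) τ
        have h2 := congrFun (congrArg Multiplicative.toAdd h1) w
        exact h2.trans (sub_eq_add_neg _ _).symm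
      obtain ⟨c', B', hc', hVB', hcc⟩ := hT5a k M L z hz1 hz2 hzc hzM hfr hgal hgalM hunr c1
        (fun σ w => Multiplicative.toAdd (b' σ) w) hc1C ha0 hVB2 (by
          intro σ w
          obtain ⟨e1, e2⟩ := hb'' σ
          refine ⟨?_, ?_⟩
          · show Multiplicative.toAdd (b' (z * σ)) w = Multiplicative.toAdd (b' σ) w
            rw [e1]
          · have h2 := congrFun (congrArg Multiplicative.toAdd e2) w
            exact h2)
      obtain ⟨a', ha'⟩ := hcc (ih M hgdM c' B' hc' hVB')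
      rw [hc1] at ha'
      exact ⟨_, T5_cob_of_mul ha'⟩
  exact fun c B hc hB => main m0 L0 hgd0 c B hc hB

end Pool.Agent.UDT
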