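import Pool.Agent.UDT.StT

/-!
# UDT [T5a]: passage to the fixed field of a central involution (helper35)
-/

set_option autoImplicit false

namespace Pool.Agent.UDT

open IsDedekindDomain NumberField HP7 Pool.Agent.QCF
open scoped WithZero

section

variable {k M L : Type} [Field k] [NumberField k] [Field M] [NumberField M] [Field L]
  [NumberField L] [Algebra k M] [Algebra M L] [Algebra k L] [IsScalarTower k M L]

private theorem T5a_over (v : HeightOneSpectrum (𝓞 M)) :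
    ∃ w : HeightOneSpectrum (𝓞 L), w.under (𝓞 M) = v := by
  have := v.isMaximal
  obtain ⟨P, hP, hl⟩ := Ideal.exists_maximal_ideal_liesOver_of_isIntegral (S := 𝓞 L) v.asIdeal
  have h0 : P ≠ ⊥ := by
    intro h
    apply v.ne_bot
    rw [hl.over, h]
    exact Ideal.comap_bot_of_injective _ (FaithfulSMul.algebraMap_injective (𝓞 M) (𝓞 L))
  refine ⟨⟨P, hP.isPrime, h0⟩, ?_⟩
  apply HeightOneSpectrum.ext
  exact hl.over.symm

private theorem T5a_mv_under [Normal k M] (σ : L ≃ₐ[k] L) (w : HeightOneSpectrum (𝓞 L)) :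
    (mv σ w).under (𝓞 M) = mv (AlgEquiv.restrictNormalHom M σ) (w.under (𝓞 M)) := by
  ext x
  show (RingOfIntegers.mapRingEquiv (σ : L ≃+* L)) (algebraMap (𝓞 M) (𝓞 L) x) ∈ w.asIdeal ↔
    algebraMap (𝓞 M) (𝓞 L) (RingOfIntegers.mapRingEquiv
      ((AlgEquiv.restrictNormalHom M σ : M ≃ₐ[k] M) : M ≃+* M) x) ∈ w.asIdeal
  have h : (RingOfIntegers.mapRingEquiv (σ : L ≃+* L)) (algebraMap (𝓞 M) (𝓞 L) x) =
    algebraMap (𝓞 M) (𝓞 L) (RingOfIntegers.mapRingEquiv
      ((AlgEquiv.restrictNormalHom M σ : M ≃ₐ[k] M) : M ≃+* M) x) := by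
    apply RingOfIntegers.ext
    exact (AlgEquiv.restrictNormal_commutes σ M (x : M)).symm
  rw [h]

/-- elements over the identity -/
private theorem T5a_ker [IsGalois k L] (z : L ≃ₐ[k] L) (hz1 : z ≠ 1)
    (hfix : ∀ x : M, z (algebraMap M L x) = algebraMap M L x)
    (h2 : Module.finrank M L = 2) (σ : L ≃ₐ[k] L)
    (hσ : ∀ x : M, σ (algebraMap M L x) = algebraMap M L x) : σ = 1 ∨ σ = z := by
  have hg : IsGalois M L := IsGalois.tower_top_of_isGalois k M L
  have hc : Nat.card (L ≃ₐ[M] L) = 2 := by rw [IsGalois.card_aut_eq_finrank, h2]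
  obtain ⟨y, hy, huniq⟩ := (Nat.card_eq_two_iff' (1 : L ≃ₐ[M] L)).mp hc
  let zM : L ≃ₐ[M] L := AlgEquiv.ofRingEquiv (f := (z : L ≃+* L)) hfix
  let sM : L ≃ₐ[M] L := AlgEquiv.ofRingEquiv (f := (σ : L ≃+* L)) hσ
  have hzM : zM ≠ 1 := by
    intro h
    apply hz1
    ext x
    exact DFunLike.congr_fun h x
  have hzy := huniq zM hzM
  by_cases hs : sM = 1
  · left
    ext x
    exact DFunLike.congr_fun hs x
  · right
    have hsy := huniq sM hs
    ext x
    exact DFunLike.congr_fun (hsy.trans hzy.symm) x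

/-- primes above the same prime of `M` -/
private theorem T5a_conj [IsGalois k L] (hT0 : St_T0) (z : L ≃ₐ[k] L) (hz1 : z ≠ 1)
    (hfix : ∀ x : M, z (algebraMap M L x) = algebraMap M L x)
    (h2 : Module.finrank M L = 2) (w w' : HeightOneSpectrum (𝓞 L))
    (h : w.under (𝓞 M) = w'.under (𝓞 M)) : w' = w ∨ w' = mv z w := by
  have hg : IsGalois M L := IsGalois.tower_top_of_isGalois k M L
  obtain ⟨-, -, -, -, htr, -⟩ := hT0 M L
  obtain ⟨σ, hσ⟩ := htr hg w w' h
  have hs : ∀ x : M, (σ.restrictScalars k) (algebraMap M L x) = algebraMap M L x := fun x =>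
    σ.commutes x
  have hm : mv (σ.restrictScalars k) w = w' := by
    rw [← hσ]
    ext x
    rfl
  rcases T5a_ker z hz1 hfix h2 (σ.restrictScalars k) hs with h1 | h1
  · left
    rw [← hm, h1, mv_one]
  · right
    rw [← hm, h1]

end

/-- [T5a] -/
theorem thm_T5a : St_T0 → St_T5a := by
  intro hT0 k M L _ _ _ _ _ _ _ _ _ _ z hz1 hz2 hzc hfix h2 hgL hgM hunr c B hc hi hB hBz
  have hfix' : ∀ x : M, z (algebraMap M L x) = algebraMap M L x := fun x =>
    (hfix _).mpr ⟨x, rfl⟩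
  -- the projection and its section
  have hsurj : Function.Surjective (AlgEquiv.restrictNormalHom M : (L ≃ₐ[k] L) →* (M ≃ₐ[k] M)) :=
    AlgEquiv.restrictNormalHom_surjective L
  let π : (L ≃ₐ[k] L) →* (M ≃ₐ[k] M) := AlgEquiv.restrictNormalHom M
  let s : (M ≃ₐ[k] M) → (L ≃ₐ[k] L) := Function.surjInv hsurj
  have hs : ∀ g, π (s g) = g := Function.surjInv_eq hsurj
  have hcomm : ∀ (σ : L ≃ₐ[k] L) (x : M), algebraMap M L (π σ x) = σ (algebraMap M L x) :=
    fun σ x => AlgEquiv.restrictNormal_commutes σ M x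
  -- two elements with the same image
  have hker : ∀ σ τ : L ≃ₐ[k] L, π σ = π τ → σ = τ ∨ σ = z * τ := by
    intro σ τ h
    have h1 : ∀ x : M, (σ * τ⁻¹) (algebraMap M L x) = algebraMap M L x := by
      intro x
      rw [← hcomm, map_mul, map_inv, h, mul_inv_cancel]
      rfl
    rcases T5a_ker z hz1 hfix' h2 _ h1 with h3 | h3
    · left
      exact mul_inv_eq_one.mp h3
    · right
      exact mul_inv_eq_iff_eq_mul.mp h3
  have hc1 : ∀ σ σ' τ, π σ = π σ' → c σ τ = c σ' τ := by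
    intro σ σ' τ h
    rcases hker σ σ' h with h1 | h1
    · rw [h1]
    · rw [h1, (hi σ' τ).1]
  have hc2 : ∀ σ τ τ', π τ = π τ' → c σ τ = c σ τ' := by
    intro σ τ τ' h
    rcases hker τ τ' h with h1 | h1
    · rw [h1]
    · rw [h1, (hi σ τ').2.1]
  have hB1 : ∀ σ σ', π σ = π σ' → B σ = B σ' := by
    intro σ σ' h
    rcases hker σ σ' h with h1 | h1
    · rw [h1]
    · rw [h1]
      funext w
      exact (hBz σ' w).1
  -- elements of `M`
  let ι : Mˣ →* Lˣ := Units.map (algebraMap M L : M →* L)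
  have hι : Function.Injective ι := Units.map_injective (algebraMap M L).injective
  have hM : ∀ σ τ, ∃ y : Mˣ, ι y = c σ τ := by
    intro σ τ
    have h1 : z (c σ τ : L) = (c σ τ : L) := congrArg Units.val (hi σ τ).2.2
    obtain ⟨y, hy⟩ := (hfix _).mp h1
    have hy0 : y ≠ 0 := by
      intro h
      rw [h, map_zero] at hy
      exact (c σ τ).ne_zero hy.symm
    exact ⟨Units.mk0 y hy0, Units.ext hy⟩
  choose c₀ hc₀ using hM
  have hact : ∀ (σ : L ≃ₐ[k] L) (y : Mˣ), ι (uact k M (π σ) y) = uact k L σ (ι y) := by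
    intro σ y
    apply Units.ext
    exact hcomm σ (y : M)
  have hact' : ∀ (g : M ≃ₐ[k] M) (y : Mˣ), ι (uact k M g y) = uact k L (s g) (ι y) := by
    intro g y
    rw [← hact, hs]
  choose wv hwv using (T5a_over (M := M) (L := L))
  have hBw : ∀ (σ : L ≃ₐ[k] L) (w w' : HeightOneSpectrum (𝓞 L)), w.under (𝓞 M) = w'.under (𝓞 M) →
      B σ w' = B σ w := by
    intro σ w w' h
    rcases T5a_conj (k := k) hT0 z hz1 hfix' h2 w w' h with h1 | h1
    · rw [h1]
    · rw [h1]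
      exact (hBz σ w).2
  refine ⟨fun g h => c₀ (s g) (s h), fun g v => B (s g) (wv v), ?_, ?_, ?_⟩
  · intro g h r
    apply hι
    show ι (uact k M g (c₀ (s h) (s r)) * c₀ (s g) (s (h * r))) =
      ι (c₀ (s (g * h)) (s r) * c₀ (s g) (s h))
    rw [map_mul, map_mul, hact', hc₀, hc₀, hc₀, hc₀,
      hc2 (s g) (s (h * r)) (s h * s r) (by rw [hs, map_mul, hs, hs]),
      hc1 (s (g * h)) (s g * s h) (s r) (by rw [hs, map_mul, hs, hs])]
    exact hc (s g) (s h) (s r)
  · intro g h v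
    have h1 : vl v (c₀ (s g) (s h)) = vl (wv v) (c (s g) (s h)) := by
      unfold vl
      rw [← hc₀]
      have h2 := hunr (wv v) ((c₀ (s g) (s h) : Mˣ) : M)
      rw [hwv] at h2
      rw [← h2]
      rfl
    show vl v (c₀ (s g) (s h)) =
      B (s g) (wv v) + B (s h) (wv (mv g v)) - B (s (g * h)) (wv v)
    rw [h1, hB (s g) (s h) (wv v), hB1 (s (g * h)) (s g * s h) (by rw [hs, map_mul, hs, hs]),
      hBw (s h) (mv (s g) (wv v)) (wv (mv g v))]
    rw [T5a_mv_under, hwv, hwv]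
    show mv (π (s g)) v = mv g v
    rw [hs]
  · rintro ⟨a', ha'⟩
    refine ⟨fun σ => ι (a' (π σ)), ?_⟩
    funext σ τ
    have h1 : c σ τ = ι (c₀ (s (π σ)) (s (π τ))) := by
      rw [hc₀, hc1 σ (s (π σ)) τ (by rw [hs]), hc2 (s (π σ)) τ (s (π τ)) (by rw [hs])]
    have h2 := congrFun (congrFun ha' (π σ)) (π τ)
    have h3 : c₀ (s (π σ)) (s (π τ)) = cob (uact k M) a' (π σ) (π τ) := h2
    rw [h1, h3]
    show ι (a' (π σ) * uact k M (π σ) (a' (π τ)) * (a' (π σ * π τ))⁻¹) =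
      ι (a' (π σ)) * uact k L σ (ι (a' (π τ))) * (ι (a' (π (σ * τ))))⁻¹
    rw [map_mul, map_mul, map_inv, hact, map_mul π]

end Pool.Agent.UDT
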