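import Pool.Agent.UDT.StT

set_option autoImplicit false

/-!
# UDT / T5b: Hilbert 90 for an involution, on units and on divisors
-/

namespace Pool.Agent.UDT

open IsDedekindDomain NumberField HP7 Pool.Agent.QCF
open scoped WithZero

private theorem T5b_units (k L : Type) [Field k] [NumberField k] [Field L] [NumberField L]
    [Algebra k L] (z : L ≃ₐ[k] L) (hz1 : z ≠ 1) (hzz : z * z = 1) (x : Lˣ)
    (hx : x * uact k L z x = 1) : ∃ y : Lˣ, x = uact k L z y * y⁻¹ := by
  have hx' : (x : L) * z (x : L) = 1 := congrArg Units.val hx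
  have hz2 : ∀ t : L, z (z t) = t := fun t => congrArg (fun g : L ≃ₐ[k] L => g t) hzz
  by_cases h : (x : L) = -1
  · obtain ⟨t, ht⟩ : ∃ t, z t ≠ t := by
      by_contra hcon
      push Not at hcon
      exact hz1 (AlgEquiv.ext hcon)
    have hne : t - z t ≠ 0 := sub_ne_zero.mpr (Ne.symm ht)
    refine ⟨Units.mk0 (t - z t) hne, Units.ext ?_⟩
    change (x : L) = z (t - z t) * (t - z t)⁻¹
    rw [h, map_sub, hz2, eq_mul_inv_iff_mul_eq₀ hne]
    ring
  · have hne : 1 + (x : L) ≠ 0 := fun h' => h (by linear_combination h')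
    have hne2 : 1 + z (x : L) ≠ 0 := by
      intro h'
      have h2 := congrArg z h'
      rw [map_add, map_one, hz2, map_zero] at h2
      exact hne h2
    refine ⟨(Units.mk0 (1 + (x : L)) hne)⁻¹, Units.ext ?_⟩
    change (x : L) = z ((1 + (x : L))⁻¹) * (1 + (x : L))
    rw [map_inv₀, map_add, map_one, eq_inv_mul_iff_mul_eq₀ hne2]
    linear_combination hx'

private theorem T5b_div (k L : Type) [Field k] [NumberField k] [Field L] [NumberField L]
    [Algebra k L] (z : L ≃ₐ[k] L) (hzz : z * z = 1)
    (f : Multiplicative (HeightOneSpectrum (𝓞 L) → ℤ)) (hf : f * dact k L z f = 1) :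
    ∃ g : Multiplicative (HeightOneSpectrum (𝓞 L) → ℤ), f = dact k L z g * g⁻¹ := by
  classical
  have hf' : ∀ w, Multiplicative.toAdd f w + Multiplicative.toAdd f (mv z w) = 0 :=
    fun w => congrFun (congrArg Multiplicative.toAdd hf) w
  have hi : ∀ w, mv z (mv z w) = w := fun w => by rw [← mv_mul, hzz, mv_one]
  refine ⟨Multiplicative.ofAdd (fun w => if WellOrderingRel w (mv z w) then 0 else
    Multiplicative.toAdd f (mv z w)), ?_⟩
  apply Multiplicative.toAdd.injective
  funext w
  change Multiplicative.toAdd f w =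
    (if WellOrderingRel (mv z w) (mv z (mv z w)) then 0 else
      Multiplicative.toAdd f (mv z (mv z w))) +
    -(if WellOrderingRel w (mv z w) then 0 else Multiplicative.toAdd f (mv z w))
  have h0 := hf' w
  rw [hi]
  rcases trichotomous_of WellOrderingRel w (mv z w) with h | h | h
  · have h' : ¬ WellOrderingRel (mv z w) w := fun h' => asymm_of WellOrderingRel h h'
    rw [if_pos h, if_neg h']
    ring
  · rw [← h] at h0 ⊢
    split_ifs <;> omega
  · have h' : ¬ WellOrderingRel w (mv z w) := fun h' => asymm_of WellOrderingRel h h'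
    rw [if_pos h, if_neg h']
    omega

theorem thm_T5b : St_T0 → St_T5b := by
  intro _ k L _ _ _ _ _ z hz1 hzz
  exact ⟨T5b_units k L z hz1 hzz, T5b_div k L z hzz⟩

end Pool.Agent.UDT
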