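import Pool.Agent.UDT.StT

set_option autoImplicit false

/-!
# UDT / T7: classes with the same Kummer element (helper55)
-/

namespace Pool.Agent.UDT

open IsDedekindDomain NumberField HP7 Pool.Agent.QCF
open scoped WithZero

theorem T7_key {X : Type} [CommGroup X] (a1 a2 sa1 sa2 b1 b2 s stb t : X) :
    a1 * a2 * s⁻¹ * t * (sa1 * sa2 * stb⁻¹ * s) * (b1 * b2 * stb⁻¹ * t)⁻¹ =
      a1 * sa1 * b1⁻¹ * (a2 * sa2 * b2⁻¹) := by
  apply Additive.ofMul.injective
  simp only [ofMul_mul, ofMul_inv]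
  abel

theorem T7_sg_inj (L : Type) [Field L] [CharZero L] : Function.Injective (sg L) := by
  intro x y h
  have h1 : ((x : ℤ) : L) = ((y : ℤ) : L) := congrArg Units.val h
  exact Units.ext (Int.cast_injective h1)

theorem T7_sg_surj (L : Type) [Field L] (u : Lˣ) (h : u ^ 2 = 1) : ∃ e : ℤˣ, sg L e = u := by
  have h1 : (u : L) ^ 2 = 1 := by rw [← Units.val_pow_eq_pow_val, h, Units.val_one]
  rcases sq_eq_one_iff.1 h1 with h2 | h2
  · exact ⟨1, Units.ext (by rw [map_one, h2, Units.val_one])⟩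
  · refine ⟨-1, Units.ext ?_⟩
    rw [h2]
    change ((((-1 : ℤˣ) : ℤ)) : L) = -1
    rw [Units.val_neg, Units.val_one, Int.cast_neg, Int.cast_one]

theorem T7_act_sg (k L : Type) [Field k] [NumberField k] [Field L] [NumberField L] [Algebra k L]
    (σ : L ≃ₐ[k] L) (x : ℤˣ) : uact k L σ (sg L x) = sg L x := by
  apply Units.ext
  change σ ((x : ℤ) : L) = ((x : ℤ) : L)
  rw [map_intCast]

theorem T7_sg_inv (L : Type) [Field L] (x : ℤˣ) : (sg L x)⁻¹ = sg L x := by
  rw [← map_inv, Int.units_inv_eq_self]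

theorem thm_T7 : St_T7 := by
  intro k L _ _ _ _ _ c₁ c₂ a₁ a₂ α₁ α₂ β x h1 h2 hα1 hα2 hx
  have hfix : ∀ σ : L ≃ₐ[k] L, uact k L σ (Units.map (algebraMap k L : k →* L) x) =
      Units.map (algebraMap k L : k →* L) x := by
    intro σ
    apply Units.ext
    change σ (algebraMap k L x) = algebraMap k L x
    exact σ.commutes _
  have hsq : ∀ σ, (a₁ σ * a₂ σ * (uact k L σ β)⁻¹ * β) ^ 2 = 1 := by
    intro σ
    have h3 : uact k L σ (α₁ * α₂) = α₁ * α₂ * (a₁ σ * a₂ σ) ^ 2 := by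
      rw [map_mul, hα1, hα2]
      apply Additive.ofMul.injective
      simp only [ofMul_mul, ofMul_pow]
      abel
    rw [hx, map_mul, map_pow, hfix, mul_assoc] at h3
    have h4 := mul_left_cancel h3
    have h5 : (a₁ σ * a₂ σ * (uact k L σ β)⁻¹ * β) ^ 2 =
        β ^ 2 * (a₁ σ * a₂ σ) ^ 2 * (uact k L σ β ^ 2)⁻¹ := by
      apply Additive.ofMul.injective
      simp only [ofMul_mul, ofMul_pow, ofMul_inv]
      abel
    rw [h5, ← h4, mul_inv_cancel]
  choose e he using fun σ => T7_sg_surj L _ (hsq σ)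
  have hact : ∀ σ τ : L ≃ₐ[k] L, uact k L (σ * τ) β = uact k L σ (uact k L τ β) := fun σ τ => by
    rw [map_mul]
    rfl
  refine ⟨e, fun σ τ => T7_sg_inj L ?_⟩
  beta_reduce
  rw [map_mul, map_mul, map_mul, ← h1, ← h2]
  have h3 : sg L (e σ) * sg L (e τ) * sg L (e (σ * τ)) =
      sg L (e σ) * uact k L σ (sg L (e τ)) * (sg L (e (σ * τ)))⁻¹ := by
    rw [T7_act_sg, T7_sg_inv]
  rw [h3, he, he, he, map_mul, map_mul, map_mul, map_inv, hact, T7_key]

end Pool.Agent.UDT
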