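import Pool.Agent.UDT.StT

set_option autoImplicit false

/-!
# UDT / T8: counting Kummer elements
-/

namespace Pool.Agent.UDT

open IsDedekindDomain NumberField HP7 Pool.Agent.QCF
open scoped WithZero

private theorem T8_even_mul {L : Type} [Field L] [NumberField L] (w : HeightOneSpectrum (𝓞 L))
    {x y : L} (hx : EvenAt w x) (hy : EvenAt w y) : EvenAt w (x * y) := by
  obtain ⟨a, ha⟩ := hx
  obtain ⟨b, hb⟩ := hy
  exact ⟨a + b, by rw [map_mul, ha, hb, ← WithZero.exp_add]; congr 1; ring⟩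

private theorem T8_gal_mul {L : Type} [Field L] {x y x' y' : L}
    (hx : IsSquare (x' / x)) (hy : IsSquare (y' / y)) : IsSquare (x' * y' / (x * y)) := by
  rw [mul_div_mul_comm]
  exact hx.mul hy

private theorem T8_card {C I : Type} [Fintype C] [Fintype I] {V : Type} (W : Finset V) (b : V → ℕ)
    (n : ℕ) (F : Fin n → C × ((v : W) → Fin (b v)) × (I → Fin 2)) (hF : Function.Injective F) :
    n ≤ Fintype.card C * (∏ v ∈ W, b v) * 2 ^ Fintype.card I := by
  classical
  have h := Fintype.card_le_of_injective F hF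
  rw [Fintype.card_fin, Fintype.card_prod, Fintype.card_prod, Fintype.card_pi, Fintype.card_fun,
    Fintype.card_fin] at h
  simp only [Fintype.card_fin] at h
  rw [Finset.prod_coe_sort W b] at h
  rw [mul_assoc]
  exact h

theorem thm_T8 : St_T0 → St_T8a → St_T8b → St_T8c → St_T8 := by
  intro hT0 hTa hTb hTc k L _ _ _ _ _ W m hG hAdj b hb n α hα hinj
  classical
  obtain ⟨_, _, _, _, htr, hsq⟩ := hT0 k L
  obtain ⟨f, hf⟩ := hTa k L hG.gal hG.unr
  obtain ⟨hTb1, hTb2⟩ := hTb L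
  obtain ⟨hTc1, hTc2⟩ := hTc k L
  have htr' := htr hG.gal
  have hTc2' := hTc2 hG.gal
  -- the chosen places
  have hfin : ∀ v : W, ∃ w : HeightOneSpectrum (𝓞 L), w.under (𝓞 k) = v ∧
      ∃ g : Lˣ → Fin (b v), ∀ x y : Lˣ, EvenAt w (x : L) → EvenAt w (y : L) → g x = g y →
        LSq (Sum.inl w) ((x * y : Lˣ) : L) := by
    intro v
    have hs : SpC L (v : HeightOneSpectrum (𝓞 k)) := hG.spl v v.2
    have hne : {w : HeightOneSpectrum (𝓞 L) | w.under (𝓞 k) = v}.Nonempty := by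
      apply Set.nonempty_of_ncard_ne_zero
      have h1 : {w : HeightOneSpectrum (𝓞 L) | w.under (𝓞 k) = v}.ncard = Module.finrank k L := hs
      rw [h1, hG.deg]
      positivity
    obtain ⟨w, hw⟩ := hne
    have hw' : w.under (𝓞 k) = v := hw
    obtain ⟨e, he, hbv⟩ := hb v v.2
    have he' : w.valuation L (2 : L) = WithZero.exp (-(e : ℤ)) := by
      have h2 := hG.unr w (2 : k)
      rw [map_ofNat, hw', he] at h2
      exact h2
    have hN := hTc1 v w hs hw'
    have hg := hTb1 w e he'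
    rw [hN, ← hbv] at hg
    exact ⟨w, hw', hg⟩
  choose wf hwf gf hgf using hfin
  have hinf : ∀ u : InfinitePlace k, ∃ w : InfinitePlace L, w.comap (algebraMap k L) = u ∧
      ∃ g : Lˣ → Fin 2, ∀ x y : Lˣ, g x = g y → LSq (Sum.inr w) ((x * y : Lˣ) : L) := by
    intro u
    obtain ⟨w, hw⟩ := InfinitePlace.comap_surjective (k := k) (K := L) u
    exact ⟨w, hw, hTb2 w⟩
  choose wi hwi gi hgi using hinf
  -- the elements `β`
  have hrep : ∃ r : Fin n → Fin n, (∀ i, f (α (r i)) = f (α i)) ∧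
      ∀ i j, f (α i) = f (α j) → r i = r j := by
    have hex : ∀ c : ClassGroup (𝓞 k), (∃ i, f (α i) = c) → ∃ i, f (α i) = c := fun c h => h
    refine ⟨fun i => Classical.choose (hex (f (α i)) ⟨i, rfl⟩),
      fun i => Classical.choose_spec (hex (f (α i)) ⟨i, rfl⟩), fun i j hij => ?_⟩
    simp only [hij]
  obtain ⟨r, hr1, hr2⟩ := hrep
  have hx : ∀ i : Fin n, ∃ x : kˣ, ∀ w : HeightOneSpectrum (𝓞 L),
      EvenAt w ((α i : L) * (α (r i) : L) * algebraMap k L x) :=
    fun i => hf (α i) (α (r i)) (hα i) (hα (r i)) (hr1 i).symm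
  choose x hx using hx
  set ι : kˣ →* Lˣ := Units.map (algebraMap k L : k →* L) with hι
  set β : Fin n → Lˣ := fun i => α i * α (r i) * ι (x i) with hβ
  have hβv : ∀ i, (β i : L) = (α i : L) * (α (r i) : L) * algebraMap k L (x i) := fun i => rfl
  have hβe : ∀ i w, EvenAt w (β i : L) := fun i w => by rw [hβv]; exact hx i w
  have hxg : ∀ (y : kˣ) (σ : L ≃ₐ[k] L), IsSquare (σ (algebraMap k L y) / algebraMap k L y) := by
    intro y σ
    rw [AlgEquiv.commutes, div_self (by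
      rw [Ne, FaithfulSMul.algebraMap_eq_zero_iff]; exact y.ne_zero)]
    exact IsSquare.one
  have hβg : ∀ i, ∀ σ : L ≃ₐ[k] L, IsSquare (σ (β i : L) / (β i : L)) := by
    intro i σ
    rw [hβv, map_mul, map_mul]
    exact T8_gal_mul (T8_gal_mul (hα i σ) (hα (r i) σ)) (hxg (x i) σ)
  refine T8_card W b n (fun i => (f (α i), fun v => gf v (β i), fun u => gi u (β i))) ?_
  intro i j hij
  have hij1 : f (α i) = f (α j) := congrArg Prod.fst hij
  have hij2 : ∀ v, gf v (β i) = gf v (β j) := fun v => congrFun (congrArg (fun t => t.2.1) hij) v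
  have hij3 : ∀ u, gi u (β i) = gi u (β j) := fun u => congrFun (congrArg (fun t => t.2.2) hij) u
  have hbg : ∀ σ : L ≃ₐ[k] L, IsSquare (σ ((β i * β j : Lˣ) : L) / ((β i * β j : Lˣ) : L)) := by
    intro σ
    rw [Units.val_mul, map_mul]
    exact T8_gal_mul (hβg i σ) (hβg j σ)
  have hA : Adj (W : Set (HeightOneSpectrum (𝓞 k))) (β i * β j) := by
    refine ⟨hbg, fun w => ?_, fun w hw => ?_, fun w => ?_⟩
    · rw [Units.val_mul]
      exact T8_even_mul w (hβe i w) (hβe j w)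
    · have hw' : w.under (𝓞 k) ∈ W := hw
      set v : W := ⟨w.under (𝓞 k), hw'⟩ with hv
      obtain ⟨σ, hσ⟩ := htr' (wf v) w (hwf v)
      rw [← hσ, hsq σ (wf v)]
      have h1 := hgf v (β i) (β j) (hβe i _) (hβe j _) (hij2 v)
      have h2 := lsq_mul (Sum.inl (wf v)) h1 (lsq_of_isSquare (Sum.inl (wf v)) (hbg σ))
      rwa [mul_div_cancel₀ _ (β i * β j).ne_zero] at h2
    · have h1 := hgi (w.comap (algebraMap k L)) (β i) (β j) (hij3 _)
      exact hTc2' _ w (hwi _) (β i * β j) hbg h1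
  obtain ⟨γ, hγ⟩ := hAdj _ hA
  have hγ0 : γ ≠ 0 := by
    rintro rfl
    rw [mul_zero] at hγ
    exact (β i * β j).ne_zero hγ
  refine hinj i j ⟨(x i * x j)⁻¹, Units.mk0 γ hγ0 * (α (r i))⁻¹, ?_⟩
  have h3 : β i * β j = Units.mk0 γ hγ0 * Units.mk0 γ hγ0 := by
    ext
    rw [hγ]
    rfl
  have h4 : r j = r i := (hr2 i j hij1).symm
  have h5 : β i * β j = α i * α j * α (r i) ^ 2 * ι (x i * x j) := by
    simp only [hβ, h4, map_mul]
    rw [sq]
    ac_rfl
  rw [map_inv, mul_pow, sq (Units.mk0 γ hγ0), ← h3, h5, inv_pow]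
  have h6 : (ι (x i * x j))⁻¹ * (α i * α j * α (r i) ^ 2 * ι (x i * x j) * (α (r i) ^ 2)⁻¹) =
      α i * α j * (α (r i) ^ 2 * (α (r i) ^ 2)⁻¹) * ((ι (x i * x j))⁻¹ * ι (x i * x j)) := by
    ac_rfl
  rw [h6, mul_inv_cancel, inv_mul_cancel, mul_one, mul_one]

end Pool.Agent.UDT
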