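import Pool.Agent.UDT.StT

set_option autoImplicit false

/-!
# UDT / T8a: the class group part (helper25)
-/

namespace Pool.Agent.UDT

open IsDedekindDomain NumberField HP7 Pool.Agent.QCF
open scoped WithZero nonZeroDivisors

section

variable {F : Type} [Field F] [NumberField F]

theorem T8a_log_mul (v : HeightOneSpectrum (𝓞 F)) {x y : F} (hx : x ≠ 0) (hy : y ≠ 0) :
    WithZero.log (v.valuation F (x * y)) =
      WithZero.log (v.valuation F x) + WithZero.log (v.valuation F y) := by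
  rw [map_mul, WithZero.log_mul ((Valuation.ne_zero_iff _).2 hx) ((Valuation.ne_zero_iff _).2 hy)]

theorem T8a_even (v : HeightOneSpectrum (𝓞 F)) {x : F} (hx : x ≠ 0) :
    EvenAt v x ↔ Even (WithZero.log (v.valuation F x)) := by
  have h0 : v.valuation F x ≠ 0 := (Valuation.ne_zero_iff _).2 hx
  constructor
  · rintro ⟨k, hk⟩
    rw [hk, WithZero.log_exp]
    exact even_two_mul k
  · rintro ⟨k, hk⟩
    refine ⟨k, ?_⟩
    rw [← WithZero.exp_log h0, hk, two_mul]

theorem T8a_int (v : HeightOneSpectrum (𝓞 F)) {x : 𝓞 F} (hx : x ≠ 0) :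
    WithZero.log (v.valuation F (x : F)) =
      -FractionalIdeal.count F v ((Ideal.span {x} : Ideal (𝓞 F)) : FractionalIdeal (𝓞 F)⁰ F) := by
  classical
  have hs : (Ideal.span {x} : Ideal (𝓞 F)) ≠ 0 := Submodule.span_singleton_eq_bot.mp.mt hx
  have h1 : v.valuation F (x : F) = v.intValuation x := v.valuation_of_algebraMap x
  rw [h1, v.intValuation_if_neg hx, WithZero.log_exp, FractionalIdeal.count_coe F v hs]

theorem T8a_finite (α : F) (hα : α ≠ 0) :
    {w : HeightOneSpectrum (𝓞 F) | ¬ EvenAt w α}.Finite := by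
  refine ((HeightOneSpectrum.Support.finite (R := 𝓞 F) α).union
    (HeightOneSpectrum.Support.finite (R := 𝓞 F) α⁻¹)).subset ?_
  intro w hw
  by_contra hcon
  apply hw
  rw [Set.mem_union, not_or] at hcon
  have h1 : w.valuation F α ≤ 1 := not_lt.1 hcon.1
  have h2 : w.valuation F α⁻¹ ≤ 1 := not_lt.1 hcon.2
  have h0 : w.valuation F α ≠ 0 := (Valuation.ne_zero_iff _).2 hα
  rw [map_inv₀] at h2
  have h3 : 1 ≤ w.valuation F α := (inv_le_one₀ (zero_lt_iff.2 h0)).1 h2
  refine ⟨0, ?_⟩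
  rw [le_antisymm h1 h3, mul_zero, WithZero.exp_zero]

/-- the product of the primes in a finite set -/
noncomputable def T8a_prod (S : Finset (HeightOneSpectrum (𝓞 F))) : (Ideal (𝓞 F))⁰ :=
  ⟨∏ v ∈ S, v.asIdeal, by
    rw [mem_nonZeroDivisors_iff_ne_zero, Finset.prod_ne_zero_iff]
    exact fun v _ => v.ne_bot⟩

open Classical in
theorem T8a_count (S : Finset (HeightOneSpectrum (𝓞 F))) (v : HeightOneSpectrum (𝓞 F)) :
    FractionalIdeal.count F v (((T8a_prod S : (Ideal (𝓞 F))⁰) : Ideal (𝓞 F)) :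
      FractionalIdeal (𝓞 F)⁰ F) = if v ∈ S then 1 else 0 := by
  have h1 : (((T8a_prod S : (Ideal (𝓞 F))⁰) : Ideal (𝓞 F)) : FractionalIdeal (𝓞 F)⁰ F) =
      ∏ u ∈ S, (u.asIdeal : FractionalIdeal (𝓞 F)⁰ F) :=
    map_prod (FractionalIdeal.coeIdealHom (𝓞 F)⁰ F) _ _
  rw [h1, FractionalIdeal.count_prod]
  · simp only [FractionalIdeal.count_maximal]
    rw [Finset.sum_ite_eq']
  · intro u _
    exact FractionalIdeal.coeIdeal_ne_zero.2 u.ne_bot

end

theorem thm_T8a (hT0 : St_T0) : St_T8a := by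
  classical
  intro k L _ _ _ _ _ hgal hunr
  obtain ⟨hmv, hmv1, hmvm, hund, htr, -⟩ := hT0 k L
  have hfin : ∀ α : Lˣ, {v : HeightOneSpectrum (𝓞 k) | ∃ w : HeightOneSpectrum (𝓞 L),
      w.under (𝓞 k) = v ∧ ¬ EvenAt w (α : L)}.Finite := by
    intro α
    refine ((T8a_finite (α : L) α.ne_zero).image fun w => w.under (𝓞 k)).subset ?_
    rintro v ⟨w, rfl, hw⟩
    exact ⟨w, hw, rfl⟩
  -- the parity only depends on the prime below
  have hpar : ∀ α : Lˣ, (∀ σ : L ≃ₐ[k] L, IsSquare (σ (α : L) / (α : L))) →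
      ∀ w : HeightOneSpectrum (𝓞 L), (w.under (𝓞 k) ∈ (hfin α).toFinset ↔ ¬ EvenAt w (α : L)) := by
    intro α hα w
    rw [Set.Finite.mem_toFinset]
    constructor
    · rintro ⟨w0, hw0, hne⟩
      obtain ⟨σ, hσ⟩ := htr hgal w w0 hw0.symm
      intro hev
      apply hne
      obtain ⟨s, hs⟩ := hα σ
      have hα0 : (α : L) ≠ 0 := α.ne_zero
      have h1 : σ (α : L) = (α : L) * (s * s) := by
        rw [← hs]
        field_simp
      have hs0 : s ≠ 0 := by
        rintro rfl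
        rw [mul_zero, mul_zero] at h1
        exact hα0 ((map_eq_zero σ).1 h1)
      rw [T8a_even w hα0] at hev
      rw [T8a_even w0 hα0, ← hσ, hmv, h1, T8a_log_mul w hα0 (mul_ne_zero hs0 hs0),
        T8a_log_mul w hs0 hs0]
      exact hev.add ⟨_, rfl⟩
    · intro h
      exact ⟨w, rfl, h⟩
  refine ⟨fun α => ClassGroup.mk0 (T8a_prod (hfin α).toFinset), fun α α' hα hα' hf => ?_⟩
  obtain ⟨x, y, hx, hy, hxy⟩ := ClassGroup.mk0_eq_mk0_iff.1 hf
  have hx0 : (x : k) ≠ 0 := by exact_mod_cast hx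
  have hy0 : (y : k) ≠ 0 := by exact_mod_cast hy
  refine ⟨Units.mk0 ((x : k) * (y : k)) (mul_ne_zero hx0 hy0), fun w => ?_⟩
  have hsx : (Ideal.span {x} : Ideal (𝓞 k)) ≠ 0 := Submodule.span_singleton_eq_bot.mp.mt hx
  have hsy : (Ideal.span {y} : Ideal (𝓞 k)) ≠ 0 := Submodule.span_singleton_eq_bot.mp.mt hy
  set v := w.under (𝓞 k) with hv
  -- valuations of the ideals
  have h1 := congrArg (fun I : Ideal (𝓞 k) =>
    FractionalIdeal.count k v (I : FractionalIdeal (𝓞 k)⁰ k)) hxy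
  simp only [FractionalIdeal.coeIdeal_mul] at h1
  have hne : ∀ I : (Ideal (𝓞 k))⁰, ((I : Ideal (𝓞 k)) : FractionalIdeal (𝓞 k)⁰ k) ≠ 0 := by
    intro I
    exact FractionalIdeal.coeIdeal_ne_zero.2 (nonZeroDivisors.coe_ne_zero I)
  rw [FractionalIdeal.count_mul k v (FractionalIdeal.coeIdeal_ne_zero.2 hsx) (hne _),
    FractionalIdeal.count_mul k v (FractionalIdeal.coeIdeal_ne_zero.2 hsy) (hne _),
    T8a_count, T8a_count] at h1
  have h2 := T8a_int v hx
  have h3 := T8a_int v hy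
  have hα0 : (α : L) ≠ 0 := α.ne_zero
  have hα'0 : (α' : L) ≠ 0 := α'.ne_zero
  have hxy0 : algebraMap k L ((x : k) * (y : k)) ≠ 0 := by
    rw [Ne, map_eq_zero]
    exact mul_ne_zero hx0 hy0
  have h4 : WithZero.log (w.valuation L (algebraMap k L ((x : k) * (y : k)))) =
      WithZero.log (v.valuation k (x : k)) + WithZero.log (v.valuation k (y : k)) := by
    rw [hunr w, T8a_log_mul _ hx0 hy0]
  have h5 := hpar α hα w
  have h6 := hpar α' hα' w
  rw [T8a_even w hα0] at h5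
  rw [T8a_even w hα'0] at h6
  rw [Units.val_mk0, T8a_even w (mul_ne_zero (mul_ne_zero hα0 hα'0) hxy0),
    T8a_log_mul w (mul_ne_zero hα0 hα'0) hxy0, T8a_log_mul w hα0 hα'0, h4]
  by_cases ha : v ∈ (hfin α).toFinset
  · have hb := h5.1 ha
    rw [if_pos ha] at h1
    by_cases ha' : v ∈ (hfin α').toFinset
    · have hb' := h6.1 ha'
      rw [if_pos ha'] at h1
      rw [Int.not_even_iff_odd] at hb hb'
      obtain ⟨p, hp⟩ := hb
      obtain ⟨q, hq⟩ := hb'
      rw [hp, hq]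
      refine ⟨p + q + 1 + WithZero.log (v.valuation k (x : k)), ?_⟩
      linarith
    · have hb' := not_not.1 (mt h6.2 ha')
      rw [if_neg ha'] at h1
      rw [Int.not_even_iff_odd] at hb
      obtain ⟨p, hp⟩ := hb
      obtain ⟨q, hq⟩ := hb'
      rw [hp, hq]
      refine ⟨p + q + WithZero.log (v.valuation k (x : k)), ?_⟩
      linarith
  · have hb := not_not.1 (mt h5.2 ha)
    rw [if_neg ha] at h1
    by_cases ha' : v ∈ (hfin α').toFinset
    · have hb' := h6.1 ha'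
      rw [if_pos ha'] at h1
      rw [Int.not_even_iff_odd] at hb'
      obtain ⟨p, hp⟩ := hb
      obtain ⟨q, hq⟩ := hb'
      rw [hp, hq]
      refine ⟨p + q + 1 + WithZero.log (v.valuation k (x : k)), ?_⟩
      linarith
    · have hb' := not_not.1 (mt h6.2 ha')
      rw [if_neg ha'] at h1
      obtain ⟨p, hp⟩ := hb
      obtain ⟨q, hq⟩ := hb'
      rw [hp, hq]
      refine ⟨p + q + WithZero.log (v.valuation k (x : k)), ?_⟩
      linarith

end Pool.Agent.UDT
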