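import Pool.Agent.UDT.StT

set_option autoImplicit false

/-!
# UDT / T8b: the local part of the count of Kummer elements (helper55)
-/

namespace Pool.Agent.UDT

open IsDedekindDomain NumberField HP7 Pool.Agent.QCF
open scoped WithZero

section

variable {L : Type} [Field L] [NumberField L]

theorem T8b_val (w : HeightOneSpectrum (𝓞 L)) (b : Lˣ) :
    ∃ n : ℤ, w.valuation L (b : L) = WithZero.exp n :=
  ⟨WithZero.log (w.valuation L (b : L)),
    (WithZero.exp_log ((w.valuation L).ne_zero_iff.2 b.ne_zero)).symm⟩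

theorem T8b_even {w : HeightOneSpectrum (𝓞 L)} {b : L} {n : ℤ}
    (h : w.valuation L b = WithZero.exp n) : EvenAt w b ↔ Even n := by
  unfold EvenAt
  rw [h]
  constructor
  · rintro ⟨k, hk⟩
    rw [WithZero.exp_inj] at hk
    exact ⟨k, by omega⟩
  · rintro ⟨k, hk⟩
    exact ⟨k, by rw [WithZero.exp_inj]; omega⟩

/-- the elements with even valuation -/
def T8b_E (w : HeightOneSpectrum (𝓞 L)) : Subgroup Lˣ where
  carrier := {a | EvenAt w (a : L)}
  mul_mem' := by
    rintro a b ⟨k, hk⟩ ⟨l, hl⟩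
    refine ⟨k + l, ?_⟩
    rw [Units.val_mul, map_mul, hk, hl, ← WithZero.exp_add]
    congr 1
    ring
  one_mem' := ⟨0, by rw [Units.val_one, map_one, mul_zero, WithZero.exp_zero]⟩
  inv_mem' := by
    rintro a ⟨k, hk⟩
    refine ⟨-k, ?_⟩
    rw [Units.val_inv_eq_inv_val, map_inv₀, hk, ← WithZero.exp_neg]
    congr 1
    ring

theorem T8b_le (w : HeightOneSpectrum (𝓞 L)) : SqG (Sum.inl w : Pl L) ≤ T8b_E w := by
  rintro a ⟨x, hx⟩
  have hx0 : x ≠ 0 := by
    rintro rfl
    rw [zero_pow two_ne_zero] at hx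
    exact a.ne_zero ((map_eq_zero _).1 hx.symm)
  have h1 : (Valued.v : Valuation (w.adicCompletion L) ℤᵐ⁰) x ≠ 0 :=
    (Valuation.ne_zero_iff _).2 hx0
  have h2 : w.valuation L (a : L) = (Valued.v : Valuation (w.adicCompletion L) ℤᵐ⁰) x ^ 2 := by
    rw [← map_pow, hx]
    exact (HeightOneSpectrum.valuedAdicCompletion_eq_valuation' w (a : L)).symm
  refine ⟨WithZero.log ((Valued.v : Valuation (w.adicCompletion L) ℤᵐ⁰) x), ?_⟩
  rw [h2]
  nth_rewrite 1 [← WithZero.exp_log h1]
  rw [← WithZero.exp_nsmul]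
  congr 1

theorem T8b_index (w : HeightOneSpectrum (𝓞 L)) : (T8b_E w).index = 2 := by
  obtain ⟨p, hp⟩ := w.valuation_exists_uniformizer L
  have hp' : w.valuation L p = WithZero.exp (-1 : ℤ) := hp
  have hp0 : p ≠ 0 := by
    rintro rfl
    rw [map_zero] at hp'
    exact absurd hp'.symm WithZero.coe_ne_zero
  rw [Subgroup.index_eq_two_iff]
  refine ⟨Units.mk0 p hp0, fun b => ?_⟩
  obtain ⟨n, hn⟩ := T8b_val w b
  have h1 : w.valuation L ((b * Units.mk0 p hp0 : Lˣ) : L) = WithZero.exp (n + -1) := by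
    rw [Units.val_mul, Units.val_mk0, map_mul, hn, hp', ← WithZero.exp_add]
  have h2 : b * Units.mk0 p hp0 ∈ T8b_E w ↔ Even (n + -1) := T8b_even h1
  have h3 : b ∈ T8b_E w ↔ Even n := T8b_even hn
  rw [h2, h3]
  rcases Int.even_or_odd n with h | h
  · right
    refine ⟨h, fun h' => ?_⟩
    obtain ⟨a, ha⟩ := h
    obtain ⟨b, hb⟩ := h'
    omega
  · left
    obtain ⟨a, ha⟩ := h
    refine ⟨⟨a, by omega⟩, fun h' => ?_⟩
    obtain ⟨b, hb⟩ := h'
    omega

/-- a map to a finite set whose fibres on `E` are the cosets of `H` -/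
theorem T8b_map {G : Type} [CommGroup G] {H E : Subgroup G} (n : ℕ) (hn : 0 < n)
    (h : H.relIndex E = n) :
    ∃ f : G → Fin n, ∀ a b : G, a ∈ E → b ∈ E → f a = f b → a⁻¹ * b ∈ H := by
  classical
  have hc : Nat.card (E ⧸ H.subgroupOf E) = n := h
  have hfin : Finite (E ⧸ H.subgroupOf E) := Nat.finite_of_card_ne_zero (by omega)
  let e : (E ⧸ H.subgroupOf E) ≃ Fin n := Finite.equivFinOfCardEq hc
  refine ⟨fun a => if ha : a ∈ E then e (QuotientGroup.mk ⟨a, ha⟩) else ⟨0, hn⟩, ?_⟩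
  intro a b ha hb hab
  simp only [dif_pos ha, dif_pos hb] at hab
  have h1 := e.injective hab
  rw [QuotientGroup.eq, Subgroup.mem_subgroupOf] at h1
  exact h1

theorem T8b_prod {w : Pl L} {a b : Lˣ} (h : a⁻¹ * b ∈ SqG w) : LSq w ((a * b : Lˣ) : L) := by
  have h1 : a * b = a * a * (a⁻¹ * b) := by group
  rw [h1, Units.val_mul]
  exact lsq_mul w (lsq_of_isSquare w ⟨(a : L), Units.val_mul a a⟩) h

end

theorem thm_T8b : St_T8b := by
  intro L _ _
  obtain ⟨hfin, hre, hco⟩ := st_L14 L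
  refine ⟨fun w e he => ?_, fun w => ?_⟩
  · have hN : 0 < Ideal.absNorm w.asIdeal := by
      rw [Nat.pos_iff_ne_zero, Ne, Ideal.absNorm_eq_zero_iff]
      exact w.ne_bot
    have hrel : (SqG (Sum.inl w : Pl L)).relIndex (T8b_E w) =
        2 * Ideal.absNorm w.asIdeal ^ e := by
      have h1 := Subgroup.relIndex_mul_index (T8b_le w)
      rw [T8b_index, hfin w e he] at h1
      omega
    obtain ⟨f, hf⟩ := T8b_map _ (by positivity) hrel
    exact ⟨f, fun α α' h1 h2 h3 => T8b_prod (hf α α' h1 h2 h3)⟩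
  · classical
    refine ⟨fun a => if a ∈ SqG (Sum.inr w : Pl L) then 0 else 1, fun α α' h => ?_⟩
    rcases w.isReal_or_isComplex with hw | hw
    · have h2 := hre w hw
      have h3 : α * α' ∈ SqG (Sum.inr w : Pl L) := by
        rw [Subgroup.mul_mem_iff_of_index_two h2]
        by_cases h4 : α ∈ SqG (Sum.inr w : Pl L)
        · by_cases h5 : α' ∈ SqG (Sum.inr w : Pl L)
          · exact ⟨fun _ => h5, fun _ => h4⟩
          · simp only [if_pos h4, if_neg h5] at h
            exact absurd h (by decide)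
        · by_cases h5 : α' ∈ SqG (Sum.inr w : Pl L)
          · simp only [if_neg h4, if_pos h5] at h
            exact absurd h (by decide)
          · exact ⟨fun h6 => absurd h6 h4, fun h6 => absurd h6 h5⟩
      exact h3
    · have h2 := hco w hw
      rw [Subgroup.index_eq_one] at h2
      have h3 : α * α' ∈ SqG (Sum.inr w : Pl L) := by
        rw [h2]
        exact Subgroup.mem_top _
      exact h3

end Pool.Agent.UDT
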