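import Pool.Agent.UDT.StT

set_option autoImplicit false
set_option linter.deprecated false

/-!
# UDT / T8c: residue fields at split primes, Galois action at infinite places
-/

namespace Pool.Agent.UDT

open IsDedekindDomain NumberField HP7 Pool.Agent.QCF

private theorem T8c_norm (k L : Type) [Field k] [NumberField k] [Field L] [NumberField L]
    [Algebra k L] (v : HeightOneSpectrum (𝓞 k)) (w : HeightOneSpectrum (𝓞 L)) (hs : SpC L v)
    (hw : w.under (𝓞 k) = v) : Ideal.absNorm w.asIdeal = Ideal.absNorm v.asIdeal := by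
  classical
  have hmax : v.asIdeal.IsMaximal := v.isMaximal
  set S := IsDedekindDomain.primesOverFinset v.asIdeal (𝓞 L) with hS
  have hmem : ∀ P : Ideal (𝓞 L), P ∈ S ↔ P ∈ v.asIdeal.primesOver (𝓞 L) := fun P =>
    IsDedekindDomain.mem_primesOverFinset_iff v.ne_bot (𝓞 L)
  have himg : (fun w : HeightOneSpectrum (𝓞 L) => w.asIdeal) ''
      {w : HeightOneSpectrum (𝓞 L) | w.under (𝓞 k) = v} = (S : Set (Ideal (𝓞 L))) := by
    ext P
    rw [Finset.mem_coe, hmem]
    constructor
    · rintro ⟨w', hw', rfl⟩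
      have hw'' : w'.under (𝓞 k) = v := hw'
      exact ⟨w'.isPrime, ⟨by rw [← hw'']; rfl⟩⟩
    · rintro ⟨hP, hPl⟩
      refine ⟨⟨P, hP, Ideal.ne_bot_of_liesOver_of_ne_bot v.ne_bot P⟩, ?_, rfl⟩
      apply HeightOneSpectrum.ext
      exact hPl.over.symm
  have hcard : S.card = Module.finrank k L := by
    rw [← Set.ncard_coe_finset, ← himg, Set.ncard_image_of_injective _
      (fun w w' h => HeightOneSpectrum.ext h)]
    exact hs
  have hsum := Ideal.sum_ramification_inertia (𝓞 L) k L (p := v.asIdeal) v.ne_bot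
  rw [← hS, ← hcard, Finset.card_eq_sum_ones] at hsum
  have hge : ∀ P ∈ S, 1 ≤ v.asIdeal.ramificationIdx' P * v.asIdeal.inertiaDeg' P := by
    intro P hP
    rw [hmem] at hP
    obtain ⟨hPp, hPl⟩ := hP
    have h1 : v.asIdeal.ramificationIdx' P ≠ 0 :=
      Ideal.IsDedekindDomain.ramificationIdx_ne_zero_of_liesOver P v.ne_bot
    have h2 : 0 < v.asIdeal.inertiaDeg' P := Ideal.inertiaDeg'_pos v.asIdeal P
    exact Nat.mul_pos (Nat.pos_of_ne_zero h1) h2
  have heq := (Finset.sum_eq_sum_iff_of_le hge).mp hsum.symm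
  have hwl : w.asIdeal.LiesOver v.asIdeal := ⟨by rw [← hw]; rfl⟩
  have hwS : w.asIdeal ∈ S := by
    rw [hmem]
    exact ⟨w.isPrime, hwl⟩
  have h1 := heq w.asIdeal hwS
  have h2 : v.asIdeal.inertiaDeg' w.asIdeal = 1 := Nat.eq_one_of_mul_eq_one_left h1.symm
  have h3 := Ideal.absNorm_eq_pow_inertiaDeg'_of_liesOver w.asIdeal v.asIdeal v.isPrime v.ne_bot
  rw [h2, pow_one] at h3
  exact h3

private theorem T8c_inf (k L : Type) [Field k] [NumberField k] [Field L] [NumberField L]
    [Algebra k L] (hG : IsGalois k L) (w w' : InfinitePlace L)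
    (hww : w.comap (algebraMap k L) = w'.comap (algebraMap k L)) (α : Lˣ)
    (hα : ∀ σ : L ≃ₐ[k] L, IsSquare (σ (α : L) / (α : L))) (h : LSq (Sum.inr w) (α : L)) :
    LSq (Sum.inr w') (α : L) := by
  obtain ⟨σ, rfl⟩ := InfinitePlace.exists_smul_eq_of_comap_eq hww
  rcases w.isReal_or_isComplex with hw | hw
  · have hw' : (σ • w).IsReal := by rwa [InfinitePlace.isReal_smul_iff]
    rw [((QCF.st_L13 L (σ • w) α).2.1 hw')]
    rw [((QCF.st_L13 L w α).2.1 hw)] at h
    have hwr : ComplexEmbedding.IsReal w.embedding := InfinitePlace.isReal_iff.mp hw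
    -- the embedding of the conjugate place
    have hemb : (σ • w).embedding = w.embedding.comp (σ.symm : L →+* L) := by
      have h1 : σ • w = InfinitePlace.mk (w.embedding.comp (σ.symm : L →+* L)) := by
        conv_lhs => rw [← InfinitePlace.mk_embedding w]
        exact InfinitePlace.smul_mk σ w.embedding
      rw [h1]
      apply InfinitePlace.embedding_mk_eq_of_isReal
      exact hwr.comp _
    rw [hemb]
    obtain ⟨s, hs⟩ := hα σ.symm
    have h2 : σ.symm (α : L) = (α : L) * (s * s) := by
      rw [← hs]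
      field_simp
    change 0 < (w.embedding (σ.symm (α : L))).re
    rw [h2, map_mul, map_mul]
    have h3 : (w.embedding s).im = 0 := by
      have := RingHom.congr_fun hwr s
      exact Complex.conj_eq_iff_im.mp this
    have h4 : (w.embedding (α : L)).im = 0 := by
      have := RingHom.congr_fun hwr (α : L)
      exact Complex.conj_eq_iff_im.mp this
    have h5 : w.embedding s ≠ 0 := by
      rw [map_ne_zero]
      rintro rfl
      rw [mul_zero, mul_zero] at h2
      exact (map_ne_zero σ.symm).mpr α.ne_zero h2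
    have h6 : (w.embedding s).re ≠ 0 := by
      intro h0
      exact h5 (Complex.ext h0 h3)
    rw [Complex.mul_re, Complex.mul_re, Complex.mul_im, h3, h4]
    have : 0 < (w.embedding s).re * (w.embedding s).re := mul_self_pos.mpr h6
    have := mul_pos h this
    linarith
  · have hw' : (σ • w).IsComplex := by
      rw [← InfinitePlace.not_isReal_iff_isComplex, InfinitePlace.isReal_smul_iff,
        InfinitePlace.not_isReal_iff_isComplex]
      exact hw
    exact (QCF.st_L13 L (σ • w) α).1 hw'

theorem thm_T8c : St_T8c := by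
  intro k L _ _ _ _ _
  exact ⟨fun v w hs hw => T8c_norm k L v w hs hw, fun hG w w' hww α hα h =>
    T8c_inf k L hG w w' hww α hα h⟩

end Pool.Agent.UDT
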