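import Pool.Agent.UDT.StT

set_option autoImplicit false

/-!
# UDT / T9: adjoining a square root (helper25)
-/

namespace Pool.Agent.UDT

open IsDedekindDomain NumberField HP7 Pool.Agent.QCF
open scoped WithZero

theorem thm_T9 (hT1 : St_T1) (hT9a : St_T9a) (hT9b : St_T9b) (hT9c : St_T9c) : St_T9 := by
  intro k L _ _ _ _ _ S m hG hS α hA hns
  obtain ⟨L', iF, iN, iA, ⟨q⟩⟩ := st_N5 L α hns
  letI iK : Algebra k L' := ((algebraMap L L').comp (algebraMap k L)).toAlgebra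
  haveI iT : IsScalarTower k L L' := IsScalarTower.of_algebraMap_eq' rfl
  refine ⟨L', iF, iN, iK, ?_⟩
  obtain ⟨hgal, hdeg⟩ := hT9a k L L' α q hG.gal hA.gal
  obtain ⟨hspl, hreal⟩ := hT9c L L' α q
  obtain ⟨hu, hs⟩ := hT1 k L L'
  refine ⟨hgal, ?_, hreal hG.real hA.inf, ?_, ?_⟩
  · rw [← Module.finrank_mul_finrank k L L', hG.deg, hdeg, pow_succ]
  · rw [hu]
    refine ⟨hG.unr, hT9b L L' α q hA.even fun w hw => hA.fin w ?_⟩
    by_contra hv
    apply hw
    have h1 := hG.unr w 2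
    rw [hS _ hv, map_ofNat] at h1
    exact h1
  · intro v hv
    rw [hs v]
    refine ⟨hG.spl v hv, fun u hu => hspl u (hA.fin u ?_)⟩
    rw [hu]
    exact hv

end Pool.Agent.UDT
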