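import Pool.Agent.UDT.StT

set_option autoImplicit false

/-!
# UDT / T9a: `L(√α) / k` is Galois (helper25)
-/

namespace Pool.Agent.UDT

open IsDedekindDomain NumberField HP7 Pool.Agent.QCF

section

variable {L L' : Type} [Field L] [Field L'] [Algebra L L'] {α : L} (q : QE L L' α)

include q in
theorem T9a_indep (x y : L) (h : algebraMap L L' x + algebraMap L L' y * q.ω = 0) :
    x = 0 ∧ y = 0 := by
  have hy : y = 0 := by
    by_contra hy
    apply q.nsq
    refine ⟨x / y, ?_⟩
    apply (algebraMap L L').injective
    have hy' : algebraMap L L' y ≠ 0 := by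
      intro h0
      exact hy ((map_eq_zero (algebraMap L L')).1 h0)
    have h1 : q.ω = -(algebraMap L L' x / algebraMap L L' y) := by
      field_simp
      linear_combination h
    rw [← q.sq, h1, map_mul, map_div₀]
    ring
  rw [hy, map_zero, zero_mul, add_zero] at h
  exact ⟨(map_eq_zero (algebraMap L L')).1 h, hy⟩

include q in
theorem T9a_uniq {x y x' y' : L} (h : algebraMap L L' x + algebraMap L L' y * q.ω =
    algebraMap L L' x' + algebraMap L L' y' * q.ω) : x = x' ∧ y = y' := by
  have h1 := T9a_indep q (x - x') (y - y') (by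
    rw [map_sub, map_sub]
    linear_combination h)
  exact ⟨sub_eq_zero.1 h1.1, sub_eq_zero.1 h1.2⟩

include q in
/-- the degree of a quadratic extension -/
theorem T9a_finrank : Module.finrank L L' = 2 := by
  have hli : LinearIndependent L ![(1 : L'), q.ω] := by
    rw [LinearIndependent.pair_iff]
    intro s t hst
    rw [Algebra.smul_def, Algebra.smul_def, mul_one] at hst
    exact T9a_indep q s t hst
  have hsp : ⊤ ≤ Submodule.span L (Set.range ![(1 : L'), q.ω]) := by
    intro z _
    obtain ⟨x, y, rfl⟩ := q.repr z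
    rw [Matrix.range_cons, Matrix.range_cons, Matrix.range_empty, Set.union_empty,
      Set.singleton_union, Submodule.mem_span_pair]
    exact ⟨x, y, by rw [Algebra.smul_def, Algebra.smul_def, mul_one]⟩
  have h := Module.finrank_eq_card_basis (Module.Basis.mk hli hsp)
  rw [h]
  rfl

/-- first coordinate -/
noncomputable def T9a_X (z : L') : L := (q.repr z).choose

/-- second coordinate -/
noncomputable def T9a_Y (z : L') : L := (q.repr z).choose_spec.choose

theorem T9a_spec (z : L') :
    z = algebraMap L L' (T9a_X q z) + algebraMap L L' (T9a_Y q z) * q.ω :=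
  (q.repr z).choose_spec.choose_spec

theorem T9a_coord (x y : L) :
    T9a_X q (algebraMap L L' x + algebraMap L L' y * q.ω) = x ∧
      T9a_Y q (algebraMap L L' x + algebraMap L L' y * q.ω) = y :=
  T9a_uniq q (T9a_spec q _).symm

/-- the extension of `σ` to `L' = L(ω)`, `ω ↦ s ω` -/
noncomputable def T9a_hom (σ : L →+* L) (s : L) (hs : s * s * α = σ α) : L' →+* L' where
  toFun z := algebraMap L L' (σ (T9a_X q z)) + algebraMap L L' (σ (T9a_Y q z) * s) * q.ω
  map_one' := by
    have h := T9a_coord q 1 0
    rw [map_one, map_zero, zero_mul, add_zero] at h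
    rw [h.1, h.2, map_one, map_one, map_zero, zero_mul, map_zero, zero_mul, add_zero]
  map_zero' := by
    have h := T9a_coord q 0 0
    rw [map_zero, zero_mul, add_zero] at h
    rw [h.1, h.2, map_zero, map_zero, zero_mul, map_zero, zero_mul, add_zero]
  map_add' z w := by
    have h := T9a_coord q (T9a_X q z + T9a_X q w) (T9a_Y q z + T9a_Y q w)
    have e : algebraMap L L' (T9a_X q z + T9a_X q w) +
        algebraMap L L' (T9a_Y q z + T9a_Y q w) * q.ω = z + w := by
      conv_rhs => rw [T9a_spec q z, T9a_spec q w]
      rw [map_add, map_add]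
      ring
    rw [e] at h
    rw [h.1, h.2]
    simp only [map_add, add_mul]
    ring
  map_mul' z w := by
    have h := T9a_coord q (T9a_X q z * T9a_X q w + T9a_Y q z * T9a_Y q w * α)
      (T9a_X q z * T9a_Y q w + T9a_Y q z * T9a_X q w)
    have e : algebraMap L L' (T9a_X q z * T9a_X q w + T9a_Y q z * T9a_Y q w * α) +
        algebraMap L L' (T9a_X q z * T9a_Y q w + T9a_Y q z * T9a_X q w) * q.ω = z * w := by
      conv_rhs => rw [T9a_spec q z, T9a_spec q w]
      simp only [map_add, map_mul, ← q.sq]
      ring
    rw [e] at h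
    rw [h.1, h.2]
    have hs' := congrArg (algebraMap L L') hs
    simp only [map_add, map_mul] at hs' ⊢
    rw [← hs', ← q.sq]
    ring

theorem T9a_hom_alg (σ : L →+* L) (s : L) (hs : s * s * α = σ α) (x : L) :
    T9a_hom q σ s hs (algebraMap L L' x) = algebraMap L L' (σ x) := by
  have h := T9a_coord q x 0
  rw [map_zero, zero_mul, add_zero] at h
  change algebraMap L L' (σ (T9a_X q _)) + algebraMap L L' (σ (T9a_Y q _) * s) * q.ω = _
  rw [h.1, h.2, map_zero, zero_mul, map_zero, zero_mul, add_zero]

end

theorem thm_T9a : St_T9a := by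
  intro k L L' _ _ _ _ _ _ _ _ _ _ α q hgal hα
  have hfr := T9a_finrank q
  refine ⟨?_, hfr⟩
  have hfin : FiniteDimensional k L' := Module.Finite.of_restrictScalars_finite ℚ k L'
  apply IsGalois.of_fixedField_eq_bot
  rw [eq_bot_iff]
  intro z hz
  rw [IntermediateField.mem_fixedField_iff] at hz
  -- the coordinate `y` is zero
  have hσ := hz (q.σ.restrictScalars k) (Subgroup.mem_top _)
  obtain ⟨x, y, rfl⟩ := q.repr z
  have h2 : (2 : L) ≠ 0 := two_ne_zero
  have hy : y = 0 := by
    change q.σ (algebraMap L L' x + algebraMap L L' y * q.ω) = _ at hσ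
    rw [map_add, map_mul, q.hσ, AlgEquiv.commutes, AlgEquiv.commutes] at hσ
    have h1 := (T9a_uniq q (x := x) (y := -y) (x' := x) (y' := y) (by
      rw [map_neg]
      linear_combination hσ)).2
    have h3 : 2 * y = 0 := by linear_combination -h1
    exact (mul_eq_zero.1 h3).resolve_left h2
  subst hy
  rw [map_zero, zero_mul, add_zero] at hz ⊢
  have hx : ∀ σ : L ≃ₐ[k] L, σ x = x := by
    intro σ
    obtain ⟨s, hs⟩ := hα σ
    have hα0 : (α : L) ≠ 0 := α.ne_zero
    have hs' : s * s * (α : L) = (σ : L →+* L) (α : L) := by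
      rw [← hs]
      field_simp
      rfl
    let f : L' →ₐ[k] L' :=
      { T9a_hom q (σ : L →+* L) s hs' with
        commutes' := fun r => by
          change T9a_hom q (σ : L →+* L) s hs' (algebraMap k L' r) = algebraMap k L' r
          rw [IsScalarTower.algebraMap_apply k L L', T9a_hom_alg]
          congr 1
          exact σ.commutes r }
    have hinj : Function.Injective f := f.toRingHom.injective
    have hbij : Function.Bijective f :=
      ⟨hinj, (LinearMap.injective_iff_surjective (f := f.toLinearMap)).1 hinj⟩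
    have h1 := hz (AlgEquiv.ofBijective f hbij) (Subgroup.mem_top _)
    have h4 : T9a_hom q (σ : L →+* L) s hs' (algebraMap L L' x) = algebraMap L L' x := h1
    rw [T9a_hom_alg] at h4
    exact (algebraMap L L').injective h4
  obtain ⟨r, hr⟩ := (IsGalois.mem_range_algebraMap_iff_fixed (F := k) x).2 hx
  rw [IntermediateField.mem_bot]
  refine ⟨r, ?_⟩
  rw [IsScalarTower.algebraMap_apply k L L', hr]

end Pool.Agent.UDT
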