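import Pool.Agent.UDT.T9a

set_option autoImplicit false

/-!
# UDT / T9b: `L(√α) / L` is unramified (helper25)
-/

namespace Pool.Agent.UDT

open IsDedekindDomain NumberField HP7 Pool.Agent.QCF
open scoped WithZero

theorem T9b_pow {g : ℤᵐ⁰} (hg : g ≠ 0) {e : ℕ} {m : ℤ} (h : g ^ e = WithZero.exp m) :
    ∃ k : ℤ, g = WithZero.exp k ∧ (e : ℤ) * k = m := by
  refine ⟨WithZero.log g, (WithZero.exp_log hg).symm, ?_⟩
  rw [← WithZero.exp_log hg, ← WithZero.exp_nsmul, WithZero.exp_inj] at h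
  rw [← h, nsmul_eq_mul]

/-- an element of valuation `exp (-1)` at `w` and `1` at `w'` -/
theorem T9b_elem {F : Type} [Field F] [NumberField F] (w w' : HeightOneSpectrum (𝓞 F))
    (h : w' ≠ w) : ∃ z : F, w.valuation F z = WithZero.exp (-1 : ℤ) ∧ w'.valuation F z = 1 := by
  obtain ⟨z0, hz0⟩ := w.intValuation_exists_uniformizer
  have hne : w.asIdeal ≠ w'.asIdeal := fun h' => h (HeightOneSpectrum.ext h'.symm)
  have hcop : IsCoprime (w.asIdeal ^ 2) w'.asIdeal := by
    apply IsCoprime.pow_left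
    have h1 := w.isMaximal
    have h2 := w'.isMaximal
    exact (Ideal.isCoprime_of_isMaximal hne)
  obtain ⟨a, ha, b, hb, hab⟩ := Ideal.isCoprime_iff_exists.1 hcop
  have ha2 : w.intValuation a ≤ WithZero.exp (-2 : ℤ) := by
    have := (w.intValuation_le_pow_iff_mem a 2).2 ha
    exact_mod_cast this
  have ha1 : w.intValuation a < 1 := by
    rw [w.intValuation_lt_one_iff_mem]
    exact Ideal.pow_le_self two_ne_zero ha
  have hb1 : w.intValuation b = 1 := by
    have e : b = 1 - a := by rw [← hab]; ring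
    rw [e, Valuation.map_sub_eq_of_lt_left]
    · exact map_one _
    · rwa [map_one]
  have hb' : w'.intValuation b < 1 := (w'.intValuation_lt_one_iff_mem b).2 hb
  have ha' : w'.intValuation a = 1 := by
    have e : a = 1 - b := by rw [← hab]; ring
    rw [e, Valuation.map_sub_eq_of_lt_left]
    · exact map_one _
    · rwa [map_one]
  refine ⟨((z0 * b + a : 𝓞 F) : F), ?_, ?_⟩
  · rw [HeightOneSpectrum.valuation_of_algebraMap]
    have h1 : w.intValuation (z0 * b) = WithZero.exp (-1 : ℤ) := by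
      rw [map_mul, hz0, hb1, mul_one]
    rw [Valuation.map_add_eq_of_lt_left, h1]
    rw [h1]
    refine lt_of_le_of_lt ha2 ?_
    rw [WithZero.exp_lt_exp]
    norm_num
  · rw [HeightOneSpectrum.valuation_of_algebraMap]
    rw [Valuation.map_add_eq_of_lt_right, ha']
    rw [ha', map_mul]
    exact lt_of_le_of_lt (mul_le_of_le_one_left' (w'.intValuation_le_one _)) hb'

theorem thm_T9b (hT0 : St_T0) : St_T9b := by
  intro L L' _ _ _ _ _ α q hev hdy w' x
  obtain ⟨hmv, hmv1, hmvm, hund, htr, -⟩ := hT0 L L'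
  set w := w'.under (𝓞 L) with hw
  have hlie : w'.asIdeal.LiesOver w.asIdeal := ⟨rfl⟩
  have hval := fun y : L => HeightOneSpectrum.valuation_liesOver L' w w' y
  set e := w.asIdeal.ramificationIdx' w'.asIdeal with he
  suffices h1 : e = 1 by
    rw [← hval x, h1, pow_one]
  -- norms
  have hnorm : ∀ z : L', z ≠ 0 → ∃ N : Lˣ, algebraMap L L' (N : L) = z * q.σ z ∧
      LNm (Sum.inl w) (α : L) (N : L) := by
    intro z hz
    obtain ⟨x, y, hxy⟩ := q.repr z
    have h1 : algebraMap L L' (x ^ 2 - (α : L) * y ^ 2) = z * q.σ z := by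
      rw [hxy, map_add, map_mul, q.hσ, AlgEquiv.commutes, AlgEquiv.commutes]
      simp only [map_sub, map_mul, map_pow, ← q.sq]
      ring
    have h2 : x ^ 2 - (α : L) * y ^ 2 ≠ 0 := by
      intro h0
      rw [h0, map_zero] at h1
      have h3 : z * q.σ z ≠ 0 := mul_ne_zero hz ((map_ne_zero q.σ).2 hz)
      exact h3 h1.symm
    refine ⟨Units.mk0 _ h2, h1, ?_⟩
    exact at_all (P := NormOf (α : L) (x ^ 2 - (α : L) * y ^ 2))
      (fun F _ i => ⟨i x, i y, by simp only [map_sub, map_mul, map_pow]⟩) _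
  by_cases hsq : LSq (Sum.inl w) (α : L)
  · -- two primes above `w`
    have hc := (st_N6 L L' α q w).1 hsq
    obtain ⟨w'', hw'', hne⟩ : ∃ w'' : HeightOneSpectrum (𝓞 L'), w''.under (𝓞 L) = w ∧
        w'' ≠ w' := by
      obtain ⟨w'', h1, h2⟩ := Set.exists_ne_of_one_lt_ncard (by rw [hc]; norm_num) w'
      exact ⟨w'', h1, h2⟩
    have hquad : Algebra.IsQuadraticExtension L L' := ⟨T9a_finrank q⟩
    obtain ⟨τ, hτ⟩ := htr inferInstance w' w'' hw''.symm
    have hτσ : ∀ z : L', τ z = q.σ z := by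
      have h1 : (τ q.ω) ^ 2 = q.ω ^ 2 := by
        rw [← map_pow, q.sq, AlgEquiv.commutes]
      have h2 : τ q.ω = -q.ω := by
        rcases sq_eq_sq_iff_eq_or_eq_neg.1 h1 with h' | h'
        · exfalso
          have h3 : τ = 1 := by
            ext z
            obtain ⟨x, y, rfl⟩ := q.repr z
            rw [map_add, map_mul, AlgEquiv.commutes, AlgEquiv.commutes, h']
            rfl
          rw [h3, hmv1] at hτ
          exact hne hτ.symm
        · exact h'
      intro z
      obtain ⟨x, y, rfl⟩ := q.repr z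
      rw [map_add, map_mul, map_add, map_mul, AlgEquiv.commutes, AlgEquiv.commutes,
        AlgEquiv.commutes, AlgEquiv.commutes, h2, q.hσ]
    obtain ⟨z, hz1, hz2⟩ := T9b_elem w' w'' hne
    have hz0 : z ≠ 0 := by
      rintro rfl
      rw [map_zero] at hz2
      exact zero_ne_one hz2
    obtain ⟨N, hN, -⟩ := hnorm z hz0
    have h1 : w'.valuation L' (algebraMap L L' (N : L)) = WithZero.exp (-1 : ℤ) := by
      rw [hN, map_mul, ← hτσ, ← hmv, hτ, hz1, hz2, mul_one]
    rw [← hval] at h1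
    obtain ⟨k, -, hk⟩ := T9b_pow (by
      rw [Valuation.ne_zero_iff]
      exact N.ne_zero) h1
    have h3 : (e : ℤ) ∣ 1 := ⟨-k, by linarith⟩
    have h4 : (e : ℤ) = 1 := Int.eq_one_of_dvd_one (by positivity) h3
    exact_mod_cast h4
  · have hnd : w.valuation L (2 : L) = 1 := by
      by_contra h'
      exact hsq (hdy w h')
    have hc := (st_N6 L L' α q w).2 hsq
    have hfix : mv q.σ w' = w' := by
      obtain ⟨a, ha⟩ := Set.ncard_eq_one.1 hc
      have h1 : mv q.σ w' ∈ {u : HeightOneSpectrum (𝓞 L') | u.under (𝓞 L) = w} :=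
        hund q.σ w'
      have h2 : w' ∈ {u : HeightOneSpectrum (𝓞 L') | u.under (𝓞 L) = w} := rfl
      rw [ha, Set.mem_singleton_iff] at h1 h2
      rw [h1]
      exact h2.symm
    obtain ⟨z, hz1⟩ := w'.valuation_exists_uniformizer L'
    have hz0 : z ≠ 0 := by
      rintro rfl
      rw [map_zero] at hz1
      exact WithZero.exp_ne_zero hz1.symm
    obtain ⟨N, hN, hNm⟩ := hnorm z hz0
    obtain ⟨j, hj⟩ := (st_L18 L w α N hnd (hev w) hsq).1 hNm
    have h1 : w'.valuation L' (algebraMap L L' (N : L)) = WithZero.exp (-2 : ℤ) := by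
      rw [hN, map_mul, ← hmv, hfix, hz1, ← WithZero.exp_add]
      norm_num
    rw [← hval, hj, ← WithZero.exp_nsmul, WithZero.exp_inj, nsmul_eq_mul] at h1
    have h3 : (e : ℤ) ∣ 1 := ⟨-j, by linarith⟩
    have h4 : (e : ℤ) = 1 := Int.eq_one_of_dvd_one (by positivity) h3
    exact_mod_cast h4

end Pool.Agent.UDT
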