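import Pool.Agent.UDT.StT

set_option autoImplicit false

/-!
# UDT / T9c: splitting and real places in the quadratic extension (helper55)
-/

namespace Pool.Agent.UDT

open IsDedekindDomain NumberField HP7 Pool.Agent.QCF
open scoped WithZero ComplexConjugate

theorem T9c_finrank {L L' : Type} [Field L] [Field L'] [Algebra L L'] (a : L) (q : QE L L' a) :
    Module.finrank L L' = 2 := by
  let f : (L × L) →ₗ[L] L' :=
    { toFun := fun p => algebraMap L L' p.1 + algebraMap L L' p.2 * q.ω
      map_add' := fun p r => by
        simp only [Prod.fst_add, Prod.snd_add, map_add]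
        ring
      map_smul' := fun c p => by
        rw [RingHom.id_apply, Prod.smul_fst, Prod.smul_snd, smul_eq_mul,
          smul_eq_mul, map_mul, map_mul, Algebra.smul_def]
        ring }
  have hf : ∀ p, f p = algebraMap L L' p.1 + algebraMap L L' p.2 * q.ω := fun _ => rfl
  have hinj : Function.Injective f := by
    rw [injective_iff_map_eq_zero]
    intro p hp
    rw [hf] at hp
    have hy : p.2 = 0 := by
      by_contra h0
      apply q.nsq
      refine ⟨-p.1 / p.2, ?_⟩
      apply (algebraMap L L').injective
      have h0' : algebraMap L L' p.2 ≠ 0 := (map_ne_zero _).2 h0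
      have h1 : q.ω = algebraMap L L' (-p.1 / p.2) := by
        rw [map_div₀, map_neg, eq_div_iff h0']
        linear_combination hp
      rw [← q.sq, h1, map_mul, sq]
    have hx : p.1 = 0 := by
      rw [hy, map_zero, zero_mul, add_zero] at hp
      exact (map_eq_zero _).1 hp
    exact Prod.ext hx hy
  have hsurj : Function.Surjective f := by
    intro z
    obtain ⟨x, y, h⟩ := q.repr z
    exact ⟨(x, y), h.symm⟩
  rw [← (LinearEquiv.ofBijective f ⟨hinj, hsurj⟩).finrank_eq, Module.finrank_prod,
    Module.finrank_self]

theorem T9c_real (z : ℂ) (h1 : (z ^ 2).im = 0) (h2 : 0 < (z ^ 2).re) : conj z = z := by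
  have e1 : (z ^ 2).im = 2 * (z.re * z.im) := by
    rw [sq, Complex.mul_im]
    ring
  have e2 : (z ^ 2).re = z.re ^ 2 - z.im ^ 2 := by
    rw [sq, Complex.mul_re]
    ring
  rw [e1] at h1
  rw [e2] at h2
  have h3 : z.im = 0 := by
    have h4 : z.re * z.im = 0 := by linarith
    rcases mul_eq_zero.1 h4 with h5 | h5
    · rw [h5] at h2
      nlinarith [sq_nonneg z.im]
    · exact h5
  exact Complex.conj_eq_iff_im.2 h3

theorem thm_T9c : St_T9c := by
  intro L L' _ _ _ _ _ α q
  refine ⟨fun w hw => ?_, fun hre hsq w' => ?_⟩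
  · unfold SpC
    rw [T9c_finrank _ q]
    exact (st_N6 L L' α q w).1 hw
  · obtain ⟨ψ, hψ⟩ : ∃ ψ : L →+* ℂ, ψ = w'.embedding.comp (algebraMap L L') := ⟨_, rfl⟩
    have hmk : InfinitePlace.mk ψ = w'.comap (algebraMap L L') := by
      rw [hψ, ← InfinitePlace.comap_mk, InfinitePlace.mk_embedding]
    have hψr : ComplexEmbedding.IsReal ψ := by
      apply InfinitePlace.isReal_of_mk_isReal
      rw [hmk]
      exact hre _
    have hemb : (InfinitePlace.mk ψ).embedding = ψ := InfinitePlace.embedding_mk_eq_of_isReal hψr
    have hconj : ∀ x : L, conj (w'.embedding (algebraMap L L' x)) =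
        w'.embedding (algebraMap L L' x) := by
      intro x
      have h1 := RingHom.congr_fun hψr x
      rw [hψ] at h1
      exact h1
    have hpos : 0 < (w'.embedding (algebraMap L L' (α : L))).re := by
      have h1 := ((st_L13 L (InfinitePlace.mk ψ) α).2.1 (by rw [hmk]; exact hre _)).1 (hsq _)
      rw [hemb, hψ] at h1
      exact h1
    have hω : conj (w'.embedding q.ω) = w'.embedding q.ω := by
      apply T9c_real
      · rw [← map_pow, q.sq]
        exact Complex.conj_eq_iff_im.1 (hconj _)
      · rw [← map_pow, q.sq]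
        exact hpos
    rw [← InfinitePlace.mk_embedding w']
    refine ⟨w'.embedding, ?_, rfl⟩
    apply RingHom.ext
    intro z
    change conj (w'.embedding z) = w'.embedding z
    obtain ⟨x, y, h⟩ := q.repr z
    rw [h, map_add, map_mul, map_add, map_mul, hconj, hconj, hω]

end Pool.Agent.UDT
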