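import Pool.Agent.UDT.G1
import Pool.Agent.UDT.G2
import Pool.Agent.UDT.S1
import Pool.Agent.UDT.S2
import Pool.Agent.UDT.S3
import Pool.Agent.UDT.S4
import Pool.Agent.UDT.S5
import Pool.Agent.UDT.S6
import Pool.Agent.UDT.GS
import Pool.Agent.UDT.T0
import Pool.Agent.UDT.T1
import Pool.Agent.UDT.T2
import Pool.Agent.UDT.T3
import Pool.Agent.UDT.T4
import Pool.Agent.UDT.T5a
import Pool.Agent.UDT.T5b
import Pool.Agent.UDT.T5
import Pool.Agent.UDT.T6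
import Pool.Agent.UDT.T7
import Pool.Agent.UDT.T8a
import Pool.Agent.UDT.T8b
import Pool.Agent.UDT.T8c
import Pool.Agent.UDT.T8
import Pool.Agent.UDT.T9a
import Pool.Agent.UDT.T9b
import Pool.Agent.UDT.T9c
import Pool.Agent.UDT.T9
import Pool.Agent.UDT.T10
import Pool.Agent.UDT.T11
import Pool.Agent.UDT.T12a
import Pool.Agent.UDT.T12b
import Pool.Agent.UDT.T12c
import Pool.Agent.UDT.T12d
import Pool.Agent.UDT.T13a
import Pool.Agent.UDT.T13b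
import Pool.Agent.UDT.T13
import Pool.Agent.UDT.T14
import Pool.Agent.UDT.M1
import Pool.Agent.UDT.M2
import Pool.Agent.UDT.M3
import Pool.Agent.UDT.M4
import Pool.Agent.UDT.M5
import Pool.Agent.UDT.M6a
import Pool.Agent.UDT.M6b
import Pool.Agent.UDT.M6
import Pool.Agent.UDT.M7
import Pool.Agent.UDT.C1
import Pool.Agent.UDT.C2
import Pool.Agent.UDT.C3
import Pool.Agent.UDT.C4
import Pool.Agent.UDT.C5
import Pool.Agent.UDT.C6b
import Pool.Agent.UDT.C7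

set_option autoImplicit false

/-!
# UDT: assembly
-/

namespace Pool.Agent.UDT

open Pool.Agent.Helper53.Generic Pool.Agent.Helper60.Gap

theorem st_GS : St_GS := thm_GS thm_S1 thm_S2 thm_S3 thm_S4 thm_S5 thm_S6
theorem st_T2 : St_T2 := thm_T2 thm_T1
theorem st_T4 : St_T4 := thm_T4 thm_T0
theorem st_T5 : St_T5 :=
  thm_T5 thm_G1 thm_G2 thm_T0 st_T2 thm_T3 st_T4 (thm_T5a thm_T0) (thm_T5b thm_T0)
theorem st_T6 : St_T6 := thm_T6 st_T5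
theorem st_T8 : St_T8 := thm_T8 thm_T0 (thm_T8a thm_T0) thm_T8b thm_T8c
theorem st_T9 : St_T9 := thm_T9 thm_T1 thm_T9a (thm_T9b thm_T0) thm_T9c
theorem st_T11 : St_T11 := thm_T11 st_GS st_T6 thm_T7 st_T8 st_T9 thm_T10
theorem st_T13 : St_T13 :=
  thm_T13 st_T11 thm_T12a thm_T12b thm_T12c thm_T12d thm_T13a (thm_T13b thm_T8c)
theorem st_T14 : St_T14 := thm_T14 st_T13
theorem st_M5 : St_M5 := thm_M5 thm_M1 (thm_M2 thm_T0) thm_M3
theorem st_M6 : St_M6 := thm_M6 thm_M1 thm_M4 st_M5 thm_M6a thm_M6b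
theorem st_M7 : St_M7 := thm_M7 thm_M1 thm_M4 st_M6
theorem st_C7 : St_C7 := thm_C7 st_T14 st_M7 thm_C1 thm_C2 thm_C3

/-- There are `δ > 0` and `N` with `M_r(n) ≥ (n/r)^(1+δ)` for all `n` and all `1 ≤ r ≤ n/N`. -/
theorem power_gap : ∃ δ : ℝ, 0 < δ ∧ ∃ N : ℕ, ∀ n r : ℕ, 1 ≤ r → N * r ≤ n →
    ((n : ℝ) / r) ^ (1 + δ) ≤ M r n := by
  obtain ⟨C, R, hC, hR, h⟩ := st_C7
  obtain ⟨δ, hδ, n₀, hn⟩ := thm_C4 C R hC hR h
  exact thm_C6b thm_C5 ⟨R, δ, hR, hδ, n₀, hn⟩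

end Pool.Agent.UDT
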