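import Pool.Agent.UDT.StC
import Pool.Agent.Helper60.Gap.Block

set_option autoImplicit false

/-!
# UDT / C7: the configurations of two towers
-/

namespace Pool.Agent.UDT

open IsDedekindDomain NumberField Pool.Agent.Helper53.Generic Pool.Agent.Helper60.Gap

theorem C7_P_ne {A : Finset Plane} {d : ℝ} (h : P A d ≠ 0) :
    ∃ x ∈ A, ∃ y ∈ A, x ≠ y ∧ dist x y = d := by
  unfold P at h
  obtain ⟨q, hq⟩ := Finset.card_ne_zero.1 h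
  rw [Finset.mem_filter, Finset.mem_offDiag] at hq
  exact ⟨q.1, hq.1.1, q.2, hq.1.2.1, hq.1.2.2, hq.2⟩

theorem C7_P_pos {A : Finset Plane} {d : ℝ} (h : P A d ≠ 0) : 0 < d := by
  obtain ⟨x, _, y, _, hxy, hd⟩ := C7_P_ne h
  rw [← hd]
  exact dist_pos.2 hxy

theorem C7_P_le (A : Finset Plane) (d : ℝ) : P A d ≤ A.card ^ 2 := by
  unfold P
  refine (Finset.card_filter_le _ _).trans ?_
  rw [Finset.offDiag_card, pow_two]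
  exact Nat.sub_le _ _

/-- a distance of maximal multiplicity -/
theorem C7_max {A : Finset Plane} {d : ℝ} (h : P A d ≠ 0) :
    ∃ d₀, 0 < d₀ ∧ 0 < P A d₀ ∧ ∀ d', P A d' ≤ P A d₀ := by
  classical
  obtain ⟨d₀, _, hmax⟩ := Finset.exists_max_image
    (insert d (A.offDiag.image (fun q => dist q.1 q.2))) (fun e => P A e) ⟨d, by simp⟩
  have h1 : P A d ≤ P A d₀ := hmax d (Finset.mem_insert_self _ _)
  have h2 : 0 < P A d₀ := lt_of_lt_of_le (Nat.pos_of_ne_zero h) h1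
  refine ⟨d₀, C7_P_pos h2.ne', h2, fun d' => ?_⟩
  by_cases h3 : P A d' = 0
  · omega
  · obtain ⟨x, hx, y, hy, hxy, hd⟩ := C7_P_ne h3
    apply hmax d'
    apply Finset.mem_insert_of_mem
    rw [Finset.mem_image]
    exact ⟨(x, y), Finset.mem_offDiag.2 ⟨hx, hy, hxy⟩, hd⟩

/-- one configuration -/
theorem C7_one (hM : St_M7) (p : ℕ) (T : Finset ℕ) (hp : 1 ≤ p)
    (hT : ∀ l ∈ T, l.Prime ∧ l % 4 = 1) (hlam : 400000 * p ^ 4 ≤ 2 ^ T.card) :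
    ∃ C : ℕ, 2 ≤ C ∧ ∀ (m : ℕ) (L : Type) [Field L] [NumberField L],
    Module.finrank ℚ L = 2 ^ (m + 1) → (∀ w : InfinitePlace L, w.IsReal) →
    (discr L).natAbs ∣ p ^ 2 ^ m →
    (∀ l ∈ T, {w : HeightOneSpectrum (𝓞 L) | Ideal.absNorm w.asIdeal = l}.ncard = 2 ^ (m + 1)) →
    ∀ σ : L →+* ℝ, ∃ (A : Finset Plane) (d : ℝ), 2 ≤ A.card ∧ A.card ≤ C ^ 2 ^ (m + 1) ∧
      0 < d ∧ 0 < P A d ∧ (∀ d', P A d' ≤ P A d) ∧ 4 ^ 2 ^ (m + 1) * A.card ≤ P A d ∧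
      ∀ e, P A e ≠ 0 → ∃ β : 𝓞 L, e ^ 2 = σ (β : L) ∧
        ∀ τ : L →+* ℝ, 0 < τ (β : L) ∧ τ (β : L) ≤ C := by
  obtain ⟨C, hC, h⟩ := hM p T hp hT
  refine ⟨C, hC, fun m L _ _ h1 h2 h3 h4 σ => ?_⟩
  obtain ⟨B, d, hB2, hBC, hd, hmul, hdist⟩ := h m L h1 h2 h3 h4 σ
  obtain ⟨A, hAc, hAP⟩ := exists_transfer B
  have hPC : ∀ e, P A e = PC B e := hAP
  have hD : 4 ^ 2 ^ (m + 1) * A.card ≤ P A d := by
    rw [hPC, hAc]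
    have h5 : (400000 * p ^ 2) ^ 2 ^ (m + 1) ≤ 2 ^ (T.card * 2 ^ (m + 1)) := by
      rw [pow_mul]
      apply Nat.pow_le_pow_left
      refine le_trans ?_ hlam
      have h6 : p ^ 2 ≤ p ^ 4 := Nat.pow_le_pow_right hp (by norm_num)
      omega
    have h7 : (100000 * p ^ 2) ^ 2 ^ (m + 1) * (4 ^ 2 ^ (m + 1) * B.card) ≤
        (100000 * p ^ 2) ^ 2 ^ (m + 1) * PC B d := by
      calc (100000 * p ^ 2) ^ 2 ^ (m + 1) * (4 ^ 2 ^ (m + 1) * B.card) =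
          (400000 * p ^ 2) ^ 2 ^ (m + 1) * B.card := by
            rw [← mul_assoc, ← mul_pow]
            congr 2
            ring
        _ ≤ 2 ^ (T.card * 2 ^ (m + 1)) * B.card := Nat.mul_le_mul_right _ h5
        _ ≤ _ := hmul
    exact Nat.le_of_mul_le_mul_left h7 (by positivity)
  have hne : P A d ≠ 0 := by
    have h8 : 0 < 4 ^ 2 ^ (m + 1) * A.card := by
      apply Nat.mul_pos (by positivity)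
      omega
    omega
  obtain ⟨d₀, hd₀, hp₀, hmax⟩ := C7_max hne
  refine ⟨A, d₀, by omega, by rw [hAc]; exact hBC, hd₀, hp₀, hmax, hD.trans (hmax d), ?_⟩
  intro e he
  rw [hPC] at he
  unfold PC at he
  obtain ⟨q, hq⟩ := Finset.card_ne_zero.1 he
  rw [Finset.mem_filter, Finset.mem_offDiag] at hq
  obtain ⟨β, hβ, hτ⟩ := hdist q.1 hq.1.1 q.2 hq.1.2.1 hq.1.2.2
  rw [hq.2] at hβ
  exact ⟨β, hβ, hτ⟩

/-- a real embedding -/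
theorem C7_emb (L : Type) [Field L] [NumberField L] (h : ∀ w : InfinitePlace L, w.IsReal) :
    ∃ σ : L →+* ℝ, True := by
  obtain ⟨w⟩ : Nonempty (InfinitePlace L) := inferInstance
  exact ⟨InfinitePlace.embedding_of_isReal (h w), trivial⟩

/-- the common normalised distances -/
theorem C7_common (h1 : St_C1) (h2 : St_C2) (C : ℕ) (L₁ L₂ : Type) [Field L₁] [NumberField L₁]
    [Field L₂] [NumberField L₂] (hr : ∀ w : InfinitePlace L₁, w.IsReal)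
    (hc : Nat.Coprime (discr L₁).natAbs (discr L₂).natAbs) (σ₁ : L₁ →+* ℝ) (σ₂ : L₂ →+* ℝ)
    (A₁ A₂ : Finset Plane) (d₁ d₂ : ℝ) (hd₁ : 0 < d₁) (hd₂ : 0 < d₂) (hp₁ : P A₁ d₁ ≠ 0)
    (hp₂ : P A₂ d₂ ≠ 0)
    (hA₁ : ∀ e, P A₁ e ≠ 0 → ∃ β : 𝓞 L₁, e ^ 2 = σ₁ (β : L₁) ∧
        ∀ τ : L₁ →+* ℝ, 0 < τ (β : L₁) ∧ τ (β : L₁) ≤ C)
    (hA₂ : ∀ e, P A₂ e ≠ 0 → ∃ β : 𝓞 L₂, e ^ 2 = σ₂ (β : L₂))
    (S : Finset ℝ) (hS : ∀ s ∈ S, P A₁ (s * d₁) ≠ 0 ∧ P A₂ (s * d₂) ≠ 0) : S.card ≤ C ^ 2 := by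
  classical
  obtain ⟨β₁, hβ₁, hτ₁⟩ := hA₁ d₁ hp₁
  obtain ⟨β₂, hβ₂⟩ := hA₂ d₂ hp₂
  have hpos : ∀ s ∈ S, 0 < s := by
    intro s hs
    have h3 := C7_P_pos (hS s hs).1
    exact pos_of_mul_pos_left h3 hd₁.le
  have hch : ∀ s : ℝ, ∃ β : 𝓞 L₁, s ∈ S → ((s * d₁) ^ 2 = σ₁ (β : L₁) ∧
      ∀ τ : L₁ →+* ℝ, 0 < τ (β : L₁) ∧ τ (β : L₁) ≤ C) := by
    intro s
    by_cases hs : s ∈ S
    · obtain ⟨β, hβ⟩ := hA₁ _ (hS s hs).1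
      exact ⟨β, fun _ => hβ⟩
    · exact ⟨0, fun h => absurd h hs⟩
  choose f hf using hch
  have hinj : Set.InjOn f S := by
    intro s hs s' hs' hss
    have e1 := (hf s hs).1
    have e2 := (hf s' hs').1
    rw [hss, ← e2] at e1
    have hs0 := hpos s hs
    have hs0' := hpos s' hs'
    have h3 : s * d₁ = s' * d₁ := by
      rwa [sq_eq_sq₀ (by positivity) (by positivity)] at e1
    exact mul_right_cancel₀ hd₁.ne' h3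
  rw [← Finset.card_image_of_injOn hinj]
  refine h1 C L₁ hr σ₁ β₁ (S.image f) hτ₁ ?_
  intro β hβ
  rw [Finset.mem_image] at hβ
  obtain ⟨s, hs, rfl⟩ := hβ
  obtain ⟨e1, e2⟩ := hf s hs
  refine ⟨e2, ?_⟩
  obtain ⟨β', hβ'⟩ := hA₂ _ (hS s hs).2
  have n1 : σ₁ (β₁ : L₁) ≠ 0 := by
    rw [← hβ₁]
    positivity
  have n2 : σ₂ (β₂ : L₂) ≠ 0 := by
    rw [← hβ₂]
    positivity
  have q1 : σ₁ ((f s : L₁) / (β₁ : L₁)) = s ^ 2 := by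
    rw [map_div₀, ← e1, ← hβ₁]
    field_simp
  have q2 : σ₂ ((β' : L₂) / (β₂ : L₂)) = s ^ 2 := by
    rw [map_div₀, ← hβ', ← hβ₂]
    field_simp
  obtain ⟨r, hr'⟩ := h2 L₁ L₂ hc σ₁ σ₂ _ _ (q1.trans q2.symm)
  refine ⟨r, ?_⟩
  rw [← hr', map_div₀, div_mul_cancel₀ _ n1]

theorem thm_C7 : St_T14 → St_M7 → St_C1 → St_C2 → St_C3 → St_C7 := by
  intro hT14 hM7 hC1 hC2 hC3
  obtain ⟨p₁, p₂, T, hp₁, hp₂, hcop, hT, hl₁, hl₂, hfld⟩ := hT14 400000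
  obtain ⟨C₁, hC₁, hcfg₁⟩ := C7_one hM7 p₁ T hp₁ hT hl₁
  obtain ⟨C₂, hC₂, hcfg₂⟩ := C7_one hM7 p₂ T hp₂ hT hl₂
  obtain ⟨C, hC⟩ : ∃ C : ℕ, C = max C₁ C₂ := ⟨_, rfl⟩
  have hCC₁ : C₁ ≤ C := by rw [hC]; exact le_max_left _ _
  have hCC₂ : C₂ ≤ C := by rw [hC]; exact le_max_right _ _
  have hC2' : 2 ≤ C := hC₁.trans hCC₁
  refine ⟨(2 * C ^ 3) ^ 2, C ^ 2, ?_, Nat.one_le_pow _ _ (by omega), fun m => ?_⟩
  · have h1 : 1 ≤ C ^ 3 := Nat.one_le_pow _ _ (by omega)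
    nlinarith
  obtain ⟨L₁, i₁, j₁, hdeg₁, hre₁, hdi₁, hsp₁⟩ := hfld p₁ (Or.inl rfl) m
  obtain ⟨L₂, i₂, j₂, hdeg₂, hre₂, hdi₂, hsp₂⟩ := hfld p₂ (Or.inr rfl) m
  obtain ⟨σ₁, -⟩ := C7_emb L₁ hre₁
  obtain ⟨σ₂, -⟩ := C7_emb L₂ hre₂
  obtain ⟨A₁, d₁, hA2₁, hAC₁, hd₁, hpp₁, hmax₁, h4₁, hdist₁⟩ :=
    hcfg₁ m L₁ hdeg₁ hre₁ hdi₁ hsp₁ σ₁
  obtain ⟨A₂, d₂, hA2₂, hAC₂, hd₂, hpp₂, hmax₂, h4₂, hdist₂⟩ :=
    hcfg₂ m L₂ hdeg₂ hre₂ hdi₂ hsp₂ σ₂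
  have hcd : Nat.Coprime (discr L₁).natAbs (discr L₂).natAbs :=
    Nat.Coprime.of_dvd hdi₁ hdi₂ (Nat.Coprime.pow _ _ hcop)
  obtain ⟨U, hU, hTop⟩ := hC3 A₁ A₂ d₁ d₂ (C ^ 2) hd₁ hd₂ hpp₁ hpp₂ hmax₁ hmax₂
    (fun S hS => C7_common hC1 hC2 C L₁ L₂ hre₁ hcd σ₁ σ₂ A₁ A₂ d₁ d₂ hd₁ hd₂ hpp₁.ne'
      hpp₂.ne' (fun e he => by
        obtain ⟨β, hβ, hτ⟩ := hdist₁ e he
        exact ⟨β, hβ, fun τ => ⟨(hτ τ).1, (hτ τ).2.trans (by exact_mod_cast hCC₁)⟩⟩)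
      (fun e he => by
        obtain ⟨β, hβ, hτ⟩ := hdist₂ e he
        exact ⟨β, hβ⟩) S hS)
  have hle₁ : A₁.card ≤ C ^ 2 ^ (m + 1) := hAC₁.trans (Nat.pow_le_pow_left hCC₁ _)
  have hle₂ : A₂.card ≤ C ^ 2 ^ (m + 1) := hAC₂.trans (Nat.pow_le_pow_left hCC₂ _)
  refine ⟨U, P A₁ d₁ * P A₂ d₂, ?_, ?_, ?_, hTop⟩
  · rw [hU]
    have : 0 < P A₂ d₂ * A₁.card := Nat.mul_pos hpp₂ (by omega)
    omega
  · rw [hU]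
    have hq₁ := C7_P_le A₁ d₁
    have hq₂ := C7_P_le A₂ d₂
    have e1 : P A₂ d₂ * A₁.card ≤ (C ^ 2 ^ (m + 1)) ^ 3 := by
      calc P A₂ d₂ * A₁.card ≤ (C ^ 2 ^ (m + 1)) ^ 2 * C ^ 2 ^ (m + 1) :=
            Nat.mul_le_mul (hq₂.trans (Nat.pow_le_pow_left hle₂ 2)) hle₁
        _ = _ := by ring
    have e2 : P A₁ d₁ * A₂.card ≤ (C ^ 2 ^ (m + 1)) ^ 3 := by
      calc P A₁ d₁ * A₂.card ≤ (C ^ 2 ^ (m + 1)) ^ 2 * C ^ 2 ^ (m + 1) :=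
            Nat.mul_le_mul (hq₁.trans (Nat.pow_le_pow_left hle₁ 2)) hle₂
        _ = _ := by ring
    have e3 : 2 ≤ 2 ^ 2 ^ (m + 1) := by
      calc 2 = 2 ^ 1 := by norm_num
        _ ≤ 2 ^ 2 ^ (m + 1) := Nat.pow_le_pow_right (by norm_num) Nat.one_le_two_pow
    calc P A₂ d₂ * A₁.card + P A₁ d₁ * A₂.card ≤ 2 * (C ^ 2 ^ (m + 1)) ^ 3 := by omega
      _ ≤ 2 ^ 2 ^ (m + 1) * (C ^ 2 ^ (m + 1)) ^ 3 := Nat.mul_le_mul_right _ e3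
      _ = ((2 * C ^ 3) ^ 2) ^ 2 ^ m := by
          rw [← pow_mul (2 * C ^ 3) 2, ← pow_succ', mul_pow, ← pow_mul, ← pow_mul,
            mul_comm (2 ^ (m + 1)) 3]
  · rw [hU]
    have e1 : 4 ^ 2 ^ (m + 1) * (P A₂ d₂ * A₁.card) ≤ P A₁ d₁ * P A₂ d₂ := by
      calc 4 ^ 2 ^ (m + 1) * (P A₂ d₂ * A₁.card) = (4 ^ 2 ^ (m + 1) * A₁.card) * P A₂ d₂ := by
            ring
        _ ≤ _ := Nat.mul_le_mul_right _ h4₁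
    have e2 : 4 ^ 2 ^ (m + 1) * (P A₁ d₁ * A₂.card) ≤ P A₁ d₁ * P A₂ d₂ := by
      calc 4 ^ 2 ^ (m + 1) * (P A₁ d₁ * A₂.card) = (4 ^ 2 ^ (m + 1) * A₂.card) * P A₁ d₁ := by
            ring
        _ ≤ P A₂ d₂ * P A₁ d₁ := Nat.mul_le_mul_right _ h4₂
        _ = _ := mul_comm _ _
    have e3 : 2 * 2 ^ 2 ^ m ≤ 4 ^ 2 ^ (m + 1) := by
      have e4 : (4 : ℕ) ^ 2 ^ (m + 1) = (2 ^ 2 ^ m) ^ 4 := by
        rw [show (4 : ℕ) = 2 ^ 2 by norm_num, ← pow_mul, ← pow_mul, pow_succ]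
        congr 1
        ring
      have e5 : 2 ≤ 2 ^ 2 ^ m := by
        calc 2 = 2 ^ 1 := by norm_num
          _ ≤ 2 ^ 2 ^ m := Nat.pow_le_pow_right (by norm_num) Nat.one_le_two_pow
      rw [e4]
      calc 2 * 2 ^ 2 ^ m ≤ 2 ^ 2 ^ m * 2 ^ 2 ^ m := Nat.mul_le_mul_right _ e5
        _ = (2 ^ 2 ^ m) ^ 2 := by ring
        _ ≤ (2 ^ 2 ^ m) ^ 4 := Nat.pow_le_pow_right (by omega) (by norm_num)
    have e6 : 2 * (2 ^ 2 ^ m * (P A₂ d₂ * A₁.card + P A₁ d₁ * A₂.card)) ≤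
        2 * (P A₁ d₁ * P A₂ d₂) := by
      calc 2 * (2 ^ 2 ^ m * (P A₂ d₂ * A₁.card + P A₁ d₁ * A₂.card)) =
          (2 * 2 ^ 2 ^ m) * (P A₂ d₂ * A₁.card + P A₁ d₁ * A₂.card) := by ring
        _ ≤ 4 ^ 2 ^ (m + 1) * (P A₂ d₂ * A₁.card + P A₁ d₁ * A₂.card) :=
            Nat.mul_le_mul_right _ e3
        _ = 4 ^ 2 ^ (m + 1) * (P A₂ d₂ * A₁.card) + 4 ^ 2 ^ (m + 1) * (P A₁ d₁ * A₂.card) := by
            ring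
        _ ≤ _ := by omega
    omega

end Pool.Agent.UDT
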