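import Pool.Agent.QCF.Basic

set_option autoImplicit false

/-!
# UDT: definitions

Campaign for MP_1cd194_co: the gap between the two most frequent distances is at least
`n ^ (1 + δ)`. Blocks: G (finite groups: Golod-Shafarevich, descent of 2-cocycles), T (tower of
totally real fields), M (Minkowski), C (planar configurations).
-/

namespace Pool.Agent.UDT

open IsDedekindDomain NumberField HP7 Pool.Agent.QCF
open scoped WithZero

/-! ## Cocycles (written multiplicatively, `G` acts on `X` through `φ`) -/

section Cocycles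

variable {G X : Type} [Group G] [CommGroup X]

/-- `c` is a 2-cocycle -/
def IsC2 (φ : G →* MulAut X) (c : G → G → X) : Prop :=
  ∀ σ τ ρ, φ σ (c τ ρ) * c σ (τ * ρ) = c (σ * τ) ρ * c σ τ

/-- the coboundary of `a` -/
def cob (φ : G →* MulAut X) (a : G → X) (σ τ : G) : X := a σ * φ σ (a τ) * (a (σ * τ))⁻¹

/-- `c` is inflated from `G / {1, z}` and takes values fixed by `z` -/
def Infl (φ : G →* MulAut X) (z : G) (c : G → G → X) : Prop :=
  ∀ σ τ, c (z * σ) τ = c σ τ ∧ c σ (z * τ) = c σ τ ∧ φ z (c σ τ) = c σ τ

/-- 2-cocycle with values in `{1, -1}`, trivial action -/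
def Z2 (c : G → G → ℤˣ) : Prop := ∀ σ τ ρ, c τ ρ * c σ (τ * ρ) = c (σ * τ) ρ * c σ τ

/-- coboundary with values in `{1, -1}`, trivial action -/
def B2 (c : G → G → ℤˣ) : Prop := ∃ a : G → ℤˣ, ∀ σ τ, c σ τ = a σ * a τ * a (σ * τ)

end Cocycles

/-! ## The group algebra over the field of two elements -/

/-- the group algebra -/
abbrev GA (G : Type) [Group G] : Type := MonoidAlgebra (ZMod 2) G

/-- the augmentation -/
noncomputable def aug (G : Type) [Group G] : GA G →ₐ[ZMod 2] ZMod 2 :=
  MonoidAlgebra.lift (ZMod 2) (ZMod 2) G (1 : G →* ZMod 2)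

/-- the augmentation ideal as a subspace -/
noncomputable def augJ {A : Type} [Ring A] [Algebra (ZMod 2) A] (ε : A →ₐ[ZMod 2] ZMod 2) :
    Submodule (ZMod 2) A := LinearMap.ker ε.toLinearMap

/-- additive maps `f : M → F_2` with `f (a m) = ε(a) f(m)` -/
def DH {A : Type} [Ring A] [Algebra (ZMod 2) A] (ε : A →ₐ[ZMod 2] ZMod 2) (M : Type)
    [AddCommGroup M] [Module A M] : Type :=
  {f : M →+ ZMod 2 // ∀ (a : A) (m : M), f (a • m) = ε a * f m}

/-! ## Number fields -/

section NF

variable (k L : Type) [Field k] [NumberField k] [Field L] [NumberField L] [Algebra k L]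

/-- the Galois action on `Lˣ` -/
noncomputable def uact : (L ≃ₐ[k] L) →* MulAut Lˣ where
  toFun σ := Units.mapEquiv (σ : L ≃* L)
  map_one' := by ext x; rfl
  map_mul' σ τ := by ext x; rfl

variable {k L} in
/-- the prime `σ⁻¹ w`: its valuation of `x` is the valuation of `σ x` at `w` -/
noncomputable def mv (σ : L ≃ₐ[k] L) (w : HeightOneSpectrum (𝓞 L)) : HeightOneSpectrum (𝓞 L) :=
  w.comap (RingOfIntegers.mapRingEquiv (σ : L ≃+* L)).toRingHom
    (RingOfIntegers.mapRingEquiv (σ : L ≃+* L)).surjective

variable {k L} in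
omit [NumberField k] [NumberField L] in
theorem mv_one (w : HeightOneSpectrum (𝓞 L)) : mv (1 : L ≃ₐ[k] L) w = w := by
  ext x
  rfl

variable {k L} in
omit [NumberField k] [NumberField L] in
theorem mv_mul (σ τ : L ≃ₐ[k] L) (w : HeightOneSpectrum (𝓞 L)) :
    mv (σ * τ) w = mv τ (mv σ w) := by
  ext x
  rfl

/-- the Galois action on divisors (functions on the set of primes, written multiplicatively) -/
noncomputable def dact : (L ≃ₐ[k] L) →* MulAut (Multiplicative (HeightOneSpectrum (𝓞 L) → ℤ)) where
  toFun σ :=
    { toFun := fun f => Multiplicative.ofAdd (fun w => Multiplicative.toAdd f (mv σ w))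
      invFun := fun f => Multiplicative.ofAdd (fun w => Multiplicative.toAdd f (mv σ⁻¹ w))
      left_inv := fun f => by
        apply Multiplicative.toAdd.injective
        funext w
        change Multiplicative.toAdd f (mv σ (mv σ⁻¹ w)) = Multiplicative.toAdd f w
        rw [← mv_mul, inv_mul_cancel, mv_one]
      right_inv := fun f => by
        apply Multiplicative.toAdd.injective
        funext w
        change Multiplicative.toAdd f (mv σ⁻¹ (mv σ w)) = Multiplicative.toAdd f w
        rw [← mv_mul, mul_inv_cancel, mv_one]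
      map_mul' := fun f g => rfl }
  map_one' := by
    apply MulEquiv.ext
    intro f
    apply Multiplicative.toAdd.injective
    funext w
    change Multiplicative.toAdd f (mv (1 : L ≃ₐ[k] L) w) = Multiplicative.toAdd f w
    rw [mv_one]
  map_mul' σ τ := by
    apply MulEquiv.ext
    intro f
    apply Multiplicative.toAdd.injective
    funext w
    change Multiplicative.toAdd f (mv (σ * τ) w) = Multiplicative.toAdd f (mv τ (mv σ w))
    rw [mv_mul]

variable {L} in
/-- the additive valuation (minus the order of `x` at `w`) -/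
noncomputable def vl (w : HeightOneSpectrum (𝓞 L)) (x : Lˣ) : ℤ :=
  WithZero.log (w.valuation L (x : L))

/-- unramified at all finite primes, in terms of valuations -/
def Unr : Prop := ∀ (w : HeightOneSpectrum (𝓞 L)) (x : k),
  w.valuation L (algebraMap k L x) = (w.under (𝓞 k)).valuation k x

variable {k} in
/-- the prime `v` splits completely in `L` -/
def SpC (v : HeightOneSpectrum (𝓞 k)) : Prop :=
  {w : HeightOneSpectrum (𝓞 L) | w.under (𝓞 k) = v}.ncard = Module.finrank k L

/-- the good extensions: Galois of degree `2 ^ m`, `L` totally real, unramified at all finite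
primes, the primes of `S` split completely -/
structure Gd (S : Set (HeightOneSpectrum (𝓞 k))) (m : ℕ) : Prop where
  gal : IsGalois k L
  deg : Module.finrank k L = 2 ^ m
  real : ∀ w : InfinitePlace L, w.IsReal
  unr : Unr k L
  spl : ∀ v ∈ S, SpC L v

variable {k} in
/-- `S` contains all dyadic primes -/
def Dy (S : Set (HeightOneSpectrum (𝓞 k))) : Prop :=
  ∀ v : HeightOneSpectrum (𝓞 k), v ∉ S → v.valuation k (2 : k) = 1

variable {k L} in
/-- the elements `α` such that `L(√α)` is again good -/
structure Adj (S : Set (HeightOneSpectrum (𝓞 k))) (α : Lˣ) : Prop where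
  gal : ∀ σ : L ≃ₐ[k] L, IsSquare (σ (α : L) / (α : L))
  even : ∀ w : HeightOneSpectrum (𝓞 L), EvenAt w (α : L)
  fin : ∀ w : HeightOneSpectrum (𝓞 L), w.under (𝓞 k) ∈ S → LSq (Sum.inl w) (α : L)
  inf : ∀ w : InfinitePlace L, LSq (Sum.inr w) (α : L)

end NF

end Pool.Agent.UDT
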