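import Pool.Agent.UDT.StG

set_option autoImplicit false

/-!
# UDT / G1: descent of 2-cocycles to the quotient by a central subgroup of order two
-/

namespace Pool.Agent.UDT

namespace G1

variable {G X : Type} [Group G] [CommGroup X]

private theorem ab {A B C D E F : X} :
    (A * B * C⁻¹) * (D * C * E⁻¹) = (F * B * E⁻¹) * (D * A * F⁻¹) := by
  have h : ∀ {Y : Type} [AddCommGroup Y] (A B C D E F : Y),
      (A + B + -C) + (D + C + -E) = (F + B + -E) + (D + A + -F) := by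
    intros
    abel
  exact h (Y := Additive X) A B C D E F

private theorem cob_C2 (φ : G →* MulAut X) (a : G → X) : IsC2 φ (cob φ a) := by
  intro σ τ ρ
  unfold cob
  rw [map_mul, map_mul, map_inv, map_mul, MulAut.mul_apply, mul_assoc σ τ ρ]
  exact ab

private theorem C2_mul {φ : G →* MulAut X} {c d : G → G → X} (hc : IsC2 φ c) (hd : IsC2 φ d) :
    IsC2 φ (fun σ τ => c σ τ * d σ τ) := by
  intro σ τ ρ
  have h1 := hc σ τ ρ
  have h2 := hd σ τ ρ
  change φ σ (c τ ρ * d τ ρ) * (c σ (τ * ρ) * d σ (τ * ρ)) =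
    c (σ * τ) ρ * d (σ * τ) ρ * (c σ τ * d σ τ)
  rw [map_mul, mul_mul_mul_comm, h1, h2, mul_mul_mul_comm]

private theorem cob_mul (φ : G →* MulAut X) (a b : G → X) (σ τ : G) :
    cob φ a σ τ * cob φ b σ τ = cob φ (fun g => a g * b g) σ τ := by
  unfold cob
  rw [map_mul, mul_inv, mul_mul_mul_comm, mul_mul_mul_comm (a σ)]

/-- it suffices to treat a cohomologous cocycle -/
private theorem chain {φ : G →* MulAut X} {z : G} {c : G → G → X} (b : G → X)
    (h : ∃ a : G → X, Infl φ z (fun σ τ => (c σ τ * cob φ b σ τ) * cob φ a σ τ)) :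
    ∃ a : G → X, Infl φ z (fun σ τ => c σ τ * cob φ a σ τ) := by
  obtain ⟨a, ha⟩ := h
  refine ⟨fun g => b g * a g, ?_⟩
  have e : (fun σ τ => c σ τ * cob φ (fun g => b g * a g) σ τ) =
      (fun σ τ => (c σ τ * cob φ b σ τ) * cob φ a σ τ) := by
    funext σ τ
    rw [mul_assoc, cob_mul]
  rw [e]
  exact ha

/-- step 4 -/
private theorem step4 {φ : G →* MulAut X} {z : G} (hz : ∀ g, z * g = g * z) {c : G → G → X}
    (hc : IsC2 φ c) (h1 : ∀ σ, c σ z = 1) (h2 : ∀ σ, c z σ = 1) : Infl φ z c := by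
  have e1 : ∀ σ τ, c σ (z * τ) = c σ τ := by
    intro σ τ
    have h := hc σ τ z
    rw [h1, h1, map_one, one_mul, one_mul] at h
    rw [hz, h]
  have e2 : ∀ σ τ, c (z * σ) τ = c σ τ := by
    intro σ τ
    have h := hc σ z τ
    rw [h1, h2, map_one, one_mul, mul_one, e1] at h
    rw [hz, h]
  intro σ τ
  refine ⟨e2 σ τ, e1 σ τ, ?_⟩
  have h := hc z σ τ
  rw [h2, h2, mul_one, mul_one, e2] at h
  exact h

/-- step 3 -/
private theorem step3 {φ : G →* MulAut X} {z : G} (hzz : z * z = 1) (hz : ∀ g, z * g = g * z)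
    (H : ∀ x : X, x * φ z x = 1 → ∃ y, x = φ z y * y⁻¹) {c : G → G → X}
    (hc : IsC2 φ c) (h0 : c 1 1 = 1) (h1 : ∀ σ, c σ z = 1) :
    ∃ a : G → X, Infl φ z (fun σ τ => c σ τ * cob φ a σ τ) := by
  have h10 : ∀ σ, c 1 σ = 1 := by
    intro σ
    have h := hc 1 1 σ
    rw [map_one, MulAut.one_apply, one_mul, one_mul, h0] at h
    exact mul_left_cancel h
  have hY : ∀ x : X, ∃ y : X, (x = 1 → y = 1) ∧ (x * φ z x = 1 → x = φ z y * y⁻¹) := by
    intro x
    by_cases hx : x = 1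
    · refine ⟨1, fun _ => rfl, fun _ => ?_⟩
      rw [map_one, inv_one, mul_one, hx]
    · by_cases hx2 : x * φ z x = 1
      · obtain ⟨y, hy⟩ := H x hx2
        exact ⟨y, fun h => absurd h hx, fun _ => hy⟩
      · exact ⟨1, fun h => absurd h hx, fun h => absurd h hx2⟩
  choose Y hY1 hY2 using hY
  have e1 : ∀ σ, c z (σ * z) = c z σ := by
    intro σ
    have h := hc z σ z
    rw [h1, h1, map_one, one_mul, one_mul] at h
    exact h
  have e2 : ∀ σ, c z (z * σ) = c z σ := fun σ => by rw [hz, e1]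
  have e3 : ∀ σ, c z σ * φ z (c z σ) = 1 := by
    intro σ
    have h := hc z z σ
    rw [hzz, h10, h1, mul_one, e2, mul_comm] at h
    exact h
  set a : G → X := fun σ => (Y (c z σ))⁻¹ with ha
  have az : a z = 1 := by
    rw [ha]
    change (Y (c z z))⁻¹ = 1
    rw [h1, hY1 1 rfl, inv_one]
  have az2 : ∀ σ, a (σ * z) = a σ := fun σ => by
    change (Y (c z (σ * z)))⁻¹ = (Y (c z σ))⁻¹
    rw [e1]
  refine ⟨a, step4 hz (C2_mul hc (cob_C2 φ a)) (fun σ => ?_) (fun σ => ?_)⟩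
  · change c σ z * (a σ * φ σ (a z) * (a (σ * z))⁻¹) = 1
    rw [h1, az, az2, map_one, mul_one, one_mul, mul_inv_cancel]
  · change c z σ * (a z * φ z (a σ) * (a (z * σ))⁻¹) = 1
    rw [hz σ, az, az2, one_mul]
    change c z σ * (φ z (Y (c z σ))⁻¹ * ((Y (c z σ))⁻¹)⁻¹) = 1
    have h := hY2 _ (e3 σ)
    rw [map_inv, inv_inv]
    nth_rewrite 1 [h]
    rw [mul_mul_mul_comm, mul_inv_cancel, inv_mul_cancel, one_mul]

/-- a transversal containing `1` -/
private theorem transv {z : G} (hz1 : z ≠ 1) (hzz : z * z = 1) :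
    ∃ T : G → Prop, T 1 ∧ ∀ σ, T (σ * z) ↔ ¬ T σ := by
  have hne : ∀ σ : G, σ * z ≠ σ := fun σ h => hz1 (mul_left_cancel (h.trans (mul_one σ).symm))
  have hss : ∀ σ : G, σ * z * z = σ := fun σ => by rw [mul_assoc, hzz, mul_one]
  have key : ∀ σ : G, WellOrderingRel (σ * z) (σ * z * z) ↔ ¬ WellOrderingRel σ (σ * z) := by
    intro σ
    rw [hss]
    constructor
    · intro h1 h2
      exact asymm_of WellOrderingRel h1 h2
    · intro h
      rcases trichotomous_of WellOrderingRel σ (σ * z) with h1 | h1 | h1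
      · exact absurd h1 h
      · exact absurd h1.symm (hne σ)
      · exact h1
  by_cases h : WellOrderingRel (1 : G) (1 * z)
  · exact ⟨fun σ => WellOrderingRel σ (σ * z), h, key⟩
  · refine ⟨fun σ => ¬ WellOrderingRel σ (σ * z), h, fun σ => ?_⟩
    exact not_congr (key σ)

/-- step 2 -/
private theorem step2 {φ : G →* MulAut X} {z : G} (hz1 : z ≠ 1) (hzz : z * z = 1)
    (hz : ∀ g, z * g = g * z)
    (H : ∀ x : X, x * φ z x = 1 → ∃ y, x = φ z y * y⁻¹) {c : G → G → X}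
    (hc : IsC2 φ c) (h0 : c 1 1 = 1) {y : X} (hy : c z z = y * φ z y) :
    ∃ a : G → X, Infl φ z (fun σ τ => c σ τ * cob φ a σ τ) := by
  classical
  obtain ⟨T, hT1, hT⟩ := transv hz1 hzz
  have hss : ∀ σ : G, σ * z * z = σ := fun σ => by rw [mul_assoc, hzz, mul_one]
  have h10 : ∀ σ, c 1 σ = 1 := by
    intro σ
    have h := hc 1 1 σ
    rw [map_one, MulAut.one_apply, one_mul, one_mul, h0] at h
    exact mul_left_cancel h
  have h01 : ∀ σ, c σ 1 = 1 := by
    intro σ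
    have h := hc σ 1 1
    rw [h0, map_one, one_mul, mul_one, mul_one] at h
    exact (mul_eq_left.mp h.symm)
  set a : G → X := fun σ => if T σ then 1 else c (σ * z) z * φ (σ * z) y⁻¹ with ha
  have aT : ∀ σ, T σ → a σ = 1 := fun σ h => if_pos h
  have aF : ∀ σ, ¬ T σ → a σ = c (σ * z) z * φ (σ * z) y⁻¹ := fun σ h => if_neg h
  have a1 : a 1 = 1 := aT 1 hT1
  have az : a z = y⁻¹ := by
    have h : ¬ T z := by
      have := hT 1
      rw [one_mul] at this
      rw [this]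
      exact fun h => h hT1
    rw [aF z h, hzz, h10, map_one, MulAut.one_apply, one_mul]
  have main : ∀ σ, a (σ * z) = c σ z * a σ * φ σ (a z) := by
    intro σ
    by_cases h : T σ
    · rw [aT σ h, aF (σ * z) (fun h' => (hT σ).mp h' h), hss, az, mul_one]
    · rw [aT (σ * z) ((hT σ).mpr h), aF σ h, az]
      have e := hc σ z z
      rw [hzz, h01, mul_one, hy] at e
      have e2 : φ (σ * z) y⁻¹ * φ σ y⁻¹ = (φ σ (y * φ z y))⁻¹ := by
        rw [map_mul φ, MulAut.mul_apply, ← map_mul, ← map_inv, map_inv (φ z), mul_inv,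
          mul_comm]
      rw [mul_assoc, mul_assoc, e2, ← mul_assoc, mul_comm (c σ z), ← e, mul_inv_cancel]
  have hC := C2_mul hc (cob_C2 φ a)
  refine chain a (step3 hzz hz H hC ?_ (fun σ => ?_))
  · change c 1 1 * (a 1 * φ 1 (a 1) * (a (1 * 1))⁻¹) = 1
    rw [h0, mul_one, a1, map_one, inv_one, mul_one, mul_one, mul_one]
  · change c σ z * (a σ * φ σ (a z) * (a (σ * z))⁻¹) = 1
    rw [main σ, ← mul_assoc, ← mul_assoc, mul_inv_cancel]

end G1

theorem thm_G1 : St_G1 := by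
  intro G X _ _ φ z hz1 hzz hz H c hc hy
  obtain ⟨y, hy⟩ := hy
  have h10 : ∀ σ, c 1 σ = c 1 1 := by
    intro σ
    have h := hc 1 1 σ
    rw [map_one, MulAut.one_apply, one_mul, one_mul] at h
    exact mul_left_cancel h
  have hC := G1.C2_mul hc (G1.cob_C2 φ (fun _ => (c 1 1)⁻¹))
  have e : ∀ σ τ, cob φ (fun _ : G => (c 1 1)⁻¹) σ τ = φ σ (c 1 1)⁻¹ := by
    intro σ τ
    unfold cob
    rw [mul_comm ((c 1 1)⁻¹), mul_assoc, mul_inv_cancel, mul_one]
  refine G1.chain (fun _ => (c 1 1)⁻¹) (G1.step2 (y := y * (c 1 1)⁻¹) hz1 hzz hz H hC ?_ ?_)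
  · change c 1 1 * cob φ (fun _ : G => (c 1 1)⁻¹) 1 1 = 1
    rw [e, map_one, MulAut.one_apply, mul_inv_cancel]
  · change c z z * cob φ (fun _ : G => (c 1 1)⁻¹) z z = _
    rw [e, map_mul, mul_mul_mul_comm, ← hy, mul_assoc, mul_inv_cancel_left]

end Pool.Agent.UDT
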