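import Pool.Agent.UDT.StC
set_option autoImplicit false
namespace Pool.Agent.UDT
open Pool.Agent.Helper53.Generic Pool.Agent.Helper60.Gap

theorem assemble
  (thm_G1 : St_G1) (thm_G2 : St_G2) (thm_S1 : St_S1) (thm_S2 : St_S2) (thm_S3 : St_S3)
  (thm_S4 : St_S4) (thm_S5 : St_S5) (thm_S6 : St_S6)
  (thm_GS : St_S1 → St_S2 → St_S3 → St_S4 → St_S5 → St_S6 → St_GS)
  (thm_T0 : St_T0) (thm_T1 : St_T1) (thm_T2 : St_T1 → St_T2) (thm_T3 : St_T3)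
  (thm_T4 : St_T0 → St_T4) (thm_T5a : St_T0 → St_T5a) (thm_T5b : St_T0 → St_T5b)
  (thm_T5 : St_G1 → St_G2 → St_T0 → St_T2 → St_T3 → St_T4 → St_T5a → St_T5b → St_T5)
  (thm_T6 : St_T5 → St_T6) (thm_T7 : St_T7) (thm_T8a : St_T0 → St_T8a) (thm_T8b : St_T8b)
  (thm_T8c : St_T8c) (thm_T8 : St_T0 → St_T8a → St_T8b → St_T8c → St_T8) (thm_T9a : St_T9a)
  (thm_T9b : St_T0 → St_T9b) (thm_T9c : St_T9c)
  (thm_T9 : St_T1 → St_T9a → St_T9b → St_T9c → St_T9) (thm_T10 : St_T10)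
  (thm_T11 : St_GS → St_T6 → St_T7 → St_T8 → St_T9 → St_T10 → St_T11)
  (thm_T12a : St_T12a) (thm_T12b : St_T12b) (thm_T12c : St_T12c) (thm_T12d : St_T12d)
  (thm_T13a : St_T13a) (thm_T13b : St_T8c → St_T13b)
  (thm_T13 : St_T11 → St_T12a → St_T12b → St_T12c → St_T12d → St_T13a → St_T13b → St_T13)
  (thm_T14 : St_T13 → St_T14)
  (thm_M1 : St_M1) (thm_M2 : St_T0 → St_M2) (thm_M3 : St_M3) (thm_M4 : St_M4)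
  (thm_M5 : St_M1 → St_M2 → St_M3 → St_M5) (thm_M6a : St_M6a) (thm_M6b : St_M6b)
  (thm_M6 : St_M1 → St_M4 → St_M5 → St_M6a → St_M6b → St_M6)
  (thm_M7 : St_M1 → St_M4 → St_M6 → St_M7)
  (thm_C1 : St_C1) (thm_C2 : St_C2) (thm_C3 : St_C3) (thm_C4 : St_C4) (thm_C5 : St_C5)
  (thm_C6 : St_C5 → St_C6) (thm_C7 : St_T14 → St_M7 → St_C1 → St_C2 → St_C3 → St_C7) :
  ∃ δ : ℝ, 0 < δ ∧ ∃ n₀ : ℕ, ∀ n : ℕ, n₀ ≤ n → ∀ r : ℕ, 1 ≤ r → (r : ℝ) ≤ √n →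
    ((n : ℝ) / r) ^ (1 + δ) ≤ M r n := by
  have hGS := thm_GS thm_S1 thm_S2 thm_S3 thm_S4 thm_S5 thm_S6
  have hT2 := thm_T2 thm_T1
  have hT4 := thm_T4 thm_T0
  have hT5 := thm_T5 thm_G1 thm_G2 thm_T0 hT2 thm_T3 hT4 (thm_T5a thm_T0) (thm_T5b thm_T0)
  have hT6 := thm_T6 hT5
  have hT8 := thm_T8 thm_T0 (thm_T8a thm_T0) thm_T8b thm_T8c
  have hT9 := thm_T9 thm_T1 thm_T9a (thm_T9b thm_T0) thm_T9c
  have hT11 := thm_T11 hGS hT6 thm_T7 hT8 hT9 thm_T10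
  have hT13 := thm_T13 hT11 thm_T12a thm_T12b thm_T12c thm_T12d thm_T13a (thm_T13b thm_T8c)
  have hT14 := thm_T14 hT13
  have hM5 := thm_M5 thm_M1 (thm_M2 thm_T0) thm_M3
  have hM6 := thm_M6 thm_M1 thm_M4 hM5 thm_M6a thm_M6b
  have hM7 := thm_M7 thm_M1 thm_M4 hM6
  obtain ⟨C, R, hC, hR, h⟩ := thm_C7 hT14 hM7 thm_C1 thm_C2 thm_C3
  obtain ⟨δ, hδ, n₀, hn⟩ := thm_C4 C R hC hR h
  exact thm_C6 thm_C5 ⟨R, δ, hR, hδ, n₀, hn⟩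

end Pool.Agent.UDT
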