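import Pool.Agent.UDT.StM
import Pool.Agent.Helper60.Gap.FixedRank

set_option autoImplicit false

/-!
# UDT / StC: planar configurations, statements with proofs

Library: `Pool/Agent/Helper60/Gap` (`f, fr, M, Mstar`, `family3`, `pad`, `exists_scaled`, `fixed_rank`,
`exists_transfer`), `Pool/Agent/Helper53/Generic` (`P A d`: ordered pairs at distance `d`).
-/

namespace Pool.Agent.UDT

open IsDedekindDomain NumberField Pool.Agent.Helper53.Generic Pool.Agent.Helper60.Gap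

/-- [C1] Few integers with a rational ratio to a given one.
PROOF. `σ β = r σ β₀` gives `β = r β₀` (`σ` injective), `r = a/b > 0` in lowest terms. Norms:
`b^D N β = a^D N β₀` with `1 ≤ N β, N β₀ ≤ C^D` (products over the real embeddings, all embeddings of
`L` are real), so `b^D ∣ N β₀`, `b ≤ C`, `a^D ∣ N β`, `a ≤ C`. So at most `C^2` values. -/
def St_C1 : Prop := ∀ (C : ℕ) (L : Type) [Field L] [NumberField L],
  (∀ w : InfinitePlace L, w.IsReal) → ∀ (σ : L →+* ℝ) (β₀ : 𝓞 L) (X : Finset (𝓞 L)),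
  (∀ τ : L →+* ℝ, 0 < τ (β₀ : L) ∧ τ (β₀ : L) ≤ C) →
  (∀ β ∈ X, (∀ τ : L →+* ℝ, 0 < τ (β : L) ∧ τ (β : L) ≤ C) ∧
    ∃ r : ℚ, σ (β : L) = (r : ℝ) * σ (β₀ : L)) → X.card ≤ C ^ 2

/-- [C2] Fields with coprime discriminants only have rational numbers in common.
PROOF. `F = ℚ(x₁) ⊆ L₁` is isomorphic to `ℚ(x₂) ⊆ L₂` (same minimal polynomial, as
`σ₁ x₁ = σ₂ x₂`). `disc F ^ [L_i : F]` divides `disc L_i`
(`natAbs_discr_eq_absNorm_differentIdeal_mul_natAbs_discr_pow`), so `|disc F| = 1` and `F = ℚ`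
(`NumberField.abs_discr_gt_two`). -/
def St_C2 : Prop := ∀ (L₁ L₂ : Type) [Field L₁] [NumberField L₁] [Field L₂] [NumberField L₂],
  Nat.Coprime (discr L₁).natAbs (discr L₂).natAbs → ∀ (σ₁ : L₁ →+* ℝ) (σ₂ : L₂ →+* ℝ)
  (x₁ : L₁) (x₂ : L₂), σ₁ x₁ = σ₂ x₂ → ∃ r : ℚ, σ₁ x₁ = r

/-- outside a set of at most `R` distances all multiplicities (ordered pairs) are by `g` smaller
than one of them -/
def Top (U : Finset Plane) (R g : ℕ) : Prop :=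
  ∃ (d₀ : ℝ) (S : Finset ℝ), S.card ≤ R ∧ ∀ d, d ∉ S → P U d + g ≤ P U d₀

/-- [C3] Union of two configurations with few common distances (up to scaling).
PROOF. Let `a_i = P A_i d_i`. Scale `A_i` by `1/d_i` (`exists_scaled`): `B_i`, `P B_i s = P A_i (s d_i)`.
`family3` for `a₂` copies of `B₁` and `a₁` copies of `B₂`: `U` with `a₂ |A₁| + a₁ |A₂|` points and
`P U s = a₂ P B₁ s + a₁ P B₂ s` up to `max _ 2`. `P U 1 ≥ 2 a₁ a₂`. `S` = set of the `s` occurring in both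
(`|S| ≤ R`); for `s ∉ S` one of the two summands is zero and `P U s ≤ max (a₁ a₂) 2 = a₁ a₂`
(`a_i ≥ 2`: they are even and positive). -/
def St_C3 : Prop := ∀ (A₁ A₂ : Finset Plane) (d₁ d₂ : ℝ) (R : ℕ), 0 < d₁ → 0 < d₂ →
  0 < P A₁ d₁ → 0 < P A₂ d₂ → (∀ d, P A₁ d ≤ P A₁ d₁) → (∀ d, P A₂ d ≤ P A₂ d₂) →
  (∀ S : Finset ℝ, (∀ s ∈ S, P A₁ (s * d₁) ≠ 0 ∧ P A₂ (s * d₂) ≠ 0) → S.card ≤ R) →
  ∃ U : Finset Plane, U.card = P A₂ d₂ * A₁.card + P A₁ d₁ * A₂.card ∧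
    Top U R (P A₁ d₁ * P A₂ d₂)

/-- [C4] From the sequence to all `n`.
PROOF. `n` large, `m` maximal with `C ^ 2 ^ m ≤ n`; `U` for this `m`, `k = ⌊n / |U|⌋ ≥ 1` copies
(`family3`), padded to `n` points (`pad`): `Top U' R (k g - 2)`, `k g ≥ n 2^(2^m) / 2`, and
`n < C^(2^(m+1))` gives `2^(2^m) ≥ n^(log 2 / (2 log C))`. `Top U' R g'` gives
`fr U' 1 - fr U' (R+1) ≥ g'/2` (`P = 2 f`, `f_le_fr_one`, `fr_le`), and `Mstar R n` is the supremum. -/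
def St_C4 : Prop := ∀ (C R : ℕ), 2 ≤ C → 1 ≤ R →
  (∀ m : ℕ, ∃ (U : Finset Plane) (g : ℕ), 1 ≤ U.card ∧ U.card ≤ C ^ 2 ^ m ∧
    2 ^ 2 ^ m * U.card ≤ g ∧ Top U R g) →
  ∃ δ : ℝ, 0 < δ ∧ ∃ n₀ : ℕ, ∀ n : ℕ, n₀ ≤ n → (n : ℝ) ^ (1 + δ) ≤ Mstar R n

/-- [C5] Several copies.
PROOF. Take an `n`-point set `A` with `M 1 n = fr A 1 - fr A 2` (`exists_M`), top distance `e` (if
`M 1 n ≥ 2`, otherwise trivial). `r` copies of `A` scaled by `1, c, c^2, ...`, `c` so large that no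
distances coincide (as in `Good.add`), generic union (`family3`), padded to `N` points (`pad`): the
`r` distances `c^i e` have `f = fr A 1`, all others at most `max (fr A 2) 1`; `fr_ge`, `fr_le`, `le_M`. -/
def St_C5 : Prop := ∀ r n N : ℕ, 1 ≤ r → r * n ≤ N → M 1 n ≤ M r N + 1

/-- [C6] Conclusion.
PROOF. `fixed_rank` (with rank `R`, `R ≤ n^(1/(300 log log n))` for large `n`):
`n^(1+δ) ≤ Mstar R n ≤ 3 R^4 M 1 n`. For `1 ≤ r ≤ √n`: C5 with `⌊n / r⌋`: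
`M r n ≥ M 1 ⌊n/r⌋ - 1 ≥ (n/(2r))^(1+δ) / (3 R^4) - 1 ≥ (n/r)^(1+δ/2)`. -/
def St_C6 : Prop := (∃ (R : ℕ) (δ : ℝ), 1 ≤ R ∧ 0 < δ ∧ ∃ n₀ : ℕ, ∀ n : ℕ, n₀ ≤ n →
    (n : ℝ) ^ (1 + δ) ≤ Mstar R n) →
  ∃ δ : ℝ, 0 < δ ∧ ∃ n₀ : ℕ, ∀ n : ℕ, n₀ ≤ n → ∀ r : ℕ, 1 ≤ r → (r : ℝ) ≤ √n →
    ((n : ℝ) / r) ^ (1 + δ) ≤ M r n

/-- [C7] The configurations of two towers.
PROOF. T14 with `lam = 400000`, M7 for `P₁` and `P₂` (`C = max`). For every `m` fields `L₁, L₂`, real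
embeddings `σ₁, σ₂` (all places real), sets `A₁, A₂ ⊆ ℂ`, transferred to the plane
(`exists_transfer`). `d_i` := a distance of maximal multiplicity `a_i`;
`4^D |A_i| ≤ a_i` (`2^t ≥ 400000 P_i^4 ≥ 4 * 100000 P_i^2`). Common normalised distances `s`:
`s^2 = σ₁(β)/σ₁(β₁) = σ₂(β')/σ₂(β₂)`, rational by C2 (`disc` coprime since `P₁, P₂` are), so at most
`C^2` values of `s` by C1. C3: `|U| = a₂ |A₁| + a₁ |A₂| ≤ 2 C^(3D)` (`a_i ≤ |A_i|^2`) and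
`g = a₁ a₂ ≥ (4^D / 2) |U| ≥ 2^D |U|`. With `D = 2^(m+1)` and the constant `(2 C^3)^2`. -/
def St_C7 : Prop := ∃ C R : ℕ, 2 ≤ C ∧ 1 ≤ R ∧ ∀ m : ℕ, ∃ (U : Finset Plane) (g : ℕ),
  1 ≤ U.card ∧ U.card ≤ C ^ 2 ^ m ∧ 2 ^ 2 ^ m * U.card ≤ g ∧ Top U R g

end Pool.Agent.UDT
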