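import Pool.Agent.UDT.Defs

set_option autoImplicit false

/-!
# UDT / StG: finite groups, statements with proofs
-/

namespace Pool.Agent.UDT

/-! ## Descent of 2-cocycles to the quotient by a central subgroup of order two -/

/-- [G1] Descent.
PROOF. Write `z x` for `φ z x`. Identities from `IsC2` (all elements arbitrary): `(1,1,σ)`:
`c 1 σ = c 1 1`; `(σ,1,1)`: `c σ 1 = φ σ (c 1 1)`. Step 1: multiply `c` by the coboundary of the
constant `(c 1 1)⁻¹`: then `c 1 σ = c σ 1 = 1` and `c z z = y * z y` for a new `y`. Step 2 (choice of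
representatives `R` of `G / {1,z}`, `1 ∈ R`): choose `a 1 = 1`, `a z = y⁻¹`, `a r = 1` for `r ∈ R`,
and `a (r z) := c r z * a r * φ r (a z)`; after multiplication by `cob a` we have `c r z = 1` for
`r ∈ R` and `c z z = 1` (`z = 1 z`: here `a (1 z) = c 1 z * 1 * a z = y⁻¹`, consistent). The identity
`(r,z,z)`: `φ r (c z z) * c r 1 = c (r z) z * c r z` gives `c (r z) z = 1`; so `c σ z = 1` for all
`σ`. Step 3: `(z,σ,z)`: `z (c σ z) * c z (σ z) = c (z σ) z * c z σ` gives `c z (σ z) = c z σ`;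
`(z,z,σ)`: `z (c z σ) * c z (z σ) = c 1 σ * c z z = 1`, so `c z σ * z (c z σ) = 1`, hence
`c z σ = z (y σ) / y σ` with `y (z σ) = y σ`, `y 1 = y z = 1` (hypothesis; `c z 1 = 1`). Multiply by
`cob a`, `a σ = (y σ)⁻¹`: `cob a σ z = a σ * φ σ (a z) / a (σ z) = 1`, `cob a z σ = z (a σ) / a σ`.
Now `c σ z = c z σ = 1` for all `σ`. Step 4: `(σ,τ,z)`: `c σ (τ z) = c σ τ`; `(σ,z,τ)`:
`c σ (z τ) = c (σ z) τ`; `(z,σ,τ)`: `z (c σ τ) = c (z σ) τ`. With `z` central this is `Infl`. -/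
def St_G1 : Prop := ∀ (G X : Type) [Group G] [CommGroup X] (φ : G →* MulAut X) (z : G),
  z ≠ 1 → z * z = 1 → (∀ g, z * g = g * z) → (∀ x : X, x * φ z x = 1 → ∃ y, x = φ z y * y⁻¹) →
  ∀ c : G → G → X, IsC2 φ c → (∃ y, c z z * c 1 1 = y * φ z y) →
  ∃ a : G → X, Infl φ z (fun σ τ => c σ τ * cob φ a σ τ)

/-- [G2] Injectivity of inflation.
PROOF. `c σ τ = cob b σ τ`. `c z z = c 1 1 = b 1` (`Infl`), so `z (b 1) = b 1` and
`b z * z (b z) = (b 1)^2`; `e = b z / b 1` satisfies `e * z e = 1`, so `e = z y / y`. Put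
`b' σ = b σ * (φ σ y / y)⁻¹`: `cob b' = cob b` and `b' z = b 1 = b' 1`. From `c σ z = c σ 1`
(`Infl` and centrality) and `cob b' σ 1 = φ σ (b' 1)`: `b' σ * φ σ (b' z) / b' (σ z) = φ σ (b' 1)`,
so `b' (σ z) = b' σ`; from `c z σ = c 1 σ = b' 1`: `b' z * z (b' σ) / b' (z σ) = b' 1`, so
`z (b' σ) = b' (z σ) = b' σ`. -/
def St_G2 : Prop := ∀ (G X : Type) [Group G] [CommGroup X] (φ : G →* MulAut X) (z : G),
  z ≠ 1 → z * z = 1 → (∀ g, z * g = g * z) → (∀ x : X, x * φ z x = 1 → ∃ y, x = φ z y * y⁻¹) →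
  ∀ c : G → G → X, Infl φ z c → (∃ b : G → X, c = cob φ b) →
  ∃ b : G → X, c = cob φ b ∧ ∀ σ, b (z * σ) = b σ ∧ φ z (b σ) = b σ

/-! ## Golod-Shafarevich -/

/-- [S1] The augmentation ideal of a finite 2-group is nilpotent.
PROOF. Induction on `m`, for all groups of order `2^m`: `G` has a central element `z` of order two
(`m ≥ 1`). The kernel of `GA G → GA (G / z)` is `(z - 1) GA G` (a function on `G` whose sums over the
cosets of `{1,z}` vanish is, in characteristic 2, of the form `f(g) = h(z g) - h(g)`), and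
`(z - 1)^2 = 0` with `z - 1` central. If `(augJ (G/z))^N = 0` then a product of `N` elements of the
augmentation ideal lies in `(z-1) GA G`, and a product of `2N` elements is `0`. Alternatively: an
element of `GA G` is a sum of elements `g - 1`, and use that `G` acts on the finite `F_2`-space
`(augJ)^n / (augJ)^(n+1)`... (any proof). -/
def St_S1 : Prop := ∀ (G : Type) [Group G] [Finite G] (m : ℕ), Nat.card G = 2 ^ m →
  ∃ N : ℕ, augJ (aug G) ^ N = ⊥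

/-- [S2] Minimal number of generators (Nakayama).
PROOF. `J = ker ε`, `JM` = additive subgroup generated by the `a m`, `a ∈ J` (an `A`-submodule since
`J` is a two-sided ideal). `M / JM` is a finite elementary abelian 2-group (`2 M = 0` as `A` is an
`F_2`-algebra), let `r` be its dimension; `DH ε M` is its dual (`f (a m) = ε a f m` iff `f` kills
`JM`, because `a = ε(a) + (a - ε(a))`), so it has `2^r` elements. Lift a basis to `m_1..m_r`;
`M' = span` satisfies `M = M' + JM`, hence `M = M' + J^N M = M'`. -/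
def St_S2 : Prop := ∀ (A : Type) [Ring A] [Algebra (ZMod 2) A] (ε : A →ₐ[ZMod 2] ZMod 2) (N : ℕ),
  augJ ε ^ N = ⊥ → ∀ (M : Type) [AddCommGroup M] [Module A M] [Finite M],
  ∃ (r : ℕ) (u : Fin r → M), Submodule.span A (Set.range u) = ⊤ ∧ Nat.card (DH ε M) = 2 ^ r

/-- [S3] Characters of `G` and the augmentation ideal.
PROOF. `f ↦ (g ↦ (-1)^{f(g - 1)})`: from `g h - 1 = (g - 1) + g (h - 1)` and `ε g = 1` this is a
homomorphism. Injective: the `g - 1` span the ideal over `F_2`. Surjective: for `χ` define `f` on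
the ideal as the restriction of the linear map `∑ n_g g ↦ ∑ n_g χ'(g)` (`χ = (-1)^χ'`); on `g - 1` it
is `χ'(g)`, and `f (h (g - 1)) = f ((h g - 1) - (h - 1)) = χ'(g)`. -/
def St_S3 : Prop := ∀ (G : Type) [Group G] [Finite G],
  Nat.card (DH (aug G) (RingHom.ker (aug G) : Ideal (GA G))) = Nat.card (G →* ℤˣ)

/-- [S4] Relations give cocycles.
Here `x_1..x_d` generate the augmentation ideal as a left ideal and `K` is the module of relations
`{a | ∑ a_i x_i = 0}`, contained in `J^d`.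
PROOF. Choose `s(σ) ∈ A^d` with `∑ s(σ)_i x_i = σ - 1` (`s(1) = 0`). Since
`σ τ - 1 = (σ - 1) + σ (τ - 1)`, `κ(σ,τ) := s(στ) - s(σ) - σ s(τ) ∈ K`, and
`κ(σ,τρ) + σ κ(τ,ρ) = s(στρ) - s(σ) - σ s(τ) - στ s(ρ) = κ(στ,ρ) + κ(σ,τ)`. `Φ f σ τ := (-1)^{f(κ(σ,τ))}`
is a cocycle (`f(σ k) = f(k)`), additive in `f`. If `Φ f * Φ g = Φ (f+g)` is a coboundary: let
`f := f+g`, `f(κ(σ,τ)) = h(σ) + h(τ) + h(στ)`. Define `F : A^d → F_2`,
`F(u) = f(u - ∑_σ n_σ s(σ)) + ∑_σ n_σ h(σ)`, where `∑ u_i x_i = ∑_{σ} n_σ (σ - 1)` (the `σ - 1`,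
`σ ≠ 1`, are a basis of the ideal; `h(1) = 0` from `κ(1,1) = -s(1) = 0`). `F` is additive and
`F(τ u) = F(u)` (from `τ (σ - 1) = (τσ - 1) - (τ - 1)` and the formula for `h`), and `F = f` on `K`.
(`F(τ u) - F(u)`: with `n_σ` the coefficients of `∑ u_i x_i`, those of `∑ (τ u)_i x_i` give
`∑ n_σ ((τσ - 1) - (τ - 1))`; the `K`-part changes by `f(τ k') = f(k')` and the elements
`s(τσ) - s(τ) - τ s(σ) = κ(τ,σ)`, whose `f` is `h(τ) + h(σ) + h(τσ)`.) Hence `F(a u) = ε(a) F(u)`,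
and for `k ∈ K ⊆ J^d`: `k = ∑_i k_i e_i`, `F(k) = ∑ ε(k_i) F(e_i) = 0`, so `f = 0` on `K`. -/
def St_S4 : Prop := ∀ (G : Type) [Group G] [Finite G] (d : ℕ) (x : Fin d → GA G),
  (Submodule.span (GA G) (Set.range x) : Ideal (GA G)) = RingHom.ker (aug G) →
  ∀ K : Submodule (GA G) (Fin d → GA G), (∀ a, a ∈ K ↔ ∑ i, a i * x i = 0) →
  (∀ a ∈ K, ∀ i, aug G (a i) = 0) →
  ∃ Φ : DH (aug G) K → G → G → ℤˣ, (∀ f, Z2 (Φ f)) ∧
    ∀ f g, B2 (fun σ τ => Φ f σ τ * Φ g σ τ) → f = g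

/-- [S5] The Golod-Shafarevich inequality for the dimensions `c n = dim A / (A J^n)`, `c 0 = 0`.
`A` finite dimensional, `J` generated as a left ideal by `x_1..x_d`, the relations
`K = {a | ∑ a_i x_i = 0} ⊆ J^d` generated by `ρ_1..ρ_r`.
PROOF. `F n = ⊤ * J^n` (two-sided ideal; `F 0 = ⊤`, `F n = J^n` for `n ≥ 1`), `c n = dim A - dim F n`.
`c 1 = 1`. For `n ≥ 2`: `F n = ∑ F(n-1) x_i` (`F n = F(n-1) J`, `J = ∑ A x_i`). The map
`A^d → J`, `a ↦ ∑ a_i x_i` is onto, the preimage of `F n` is `K + F(n-1)^d`, so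
`dim J - dim F n = d c(n-1) - dim (K + F(n-1)^d)/F(n-1)^d`, and `(K + F(n-1)^d)/F(n-1)^d` is a
quotient of `(A / F(n-2))^r` via `b ↦ ∑ b_j ρ_j` (`F(n-2) ρ_j ⊆ F(n-1)^d` because `ρ_j ∈ J^d`).
`dim J = dim A - 1`, so `c n - 1 ≥ d c(n-1) - r c(n-2)`. -/
def St_S5 : Prop := ∀ (A : Type) [Ring A] [Algebra (ZMod 2) A] [Module.Finite (ZMod 2) A]
  (ε : A →ₐ[ZMod 2] ZMod 2) (d r : ℕ) (x : Fin d → A) (ρ : Fin r → Fin d → A),
  (∀ y, y ∈ augJ ε ↔ ∃ a : Fin d → A, y = ∑ i, a i * x i) →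
  (∀ a : Fin d → A, ∑ i, a i * x i = 0 ↔ ∃ b : Fin r → A, a = fun i => ∑ j, b j * ρ j i) →
  (∀ a : Fin d → A, ∑ i, a i * x i = 0 → ∀ i, ε (a i) = 0) →
  ∃ c : ℕ → ℕ, c 0 = 0 ∧ c 1 = 1 ∧ (∃ B, ∀ n, c n ≤ B) ∧
    ∀ n, 1 + d * c (n + 1) ≤ c (n + 2) + r * c n

/-- [S6] Numerical part.
PROOF. Suppose `4 r ≤ d^2`. Put `t = 2/d < 1`. Multiply by `t^(n+2)` and sum over `n ≥ 0` (`c` is
bounded, everything converges): with `C = ∑_{n≥1} c_n t^n > 0`,
`(C - t) + r t^2 C ≥ t^2/(1-t) + d t C`, i.e. `(1 - d t + r t^2) C ≥ t/(1-t) > 0`, but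
`1 - d t + r t^2 = -1 + 4r/d^2 ≤ 0`. -/
def St_S6 : Prop := ∀ (d r : ℕ) (c : ℕ → ℕ), 2 < d → c 0 = 0 → c 1 = 1 → (∃ B, ∀ n, c n ≤ B) →
  (∀ n, 1 + d * c (n + 1) ≤ c (n + 2) + r * c n) → d ^ 2 < 4 * r

/-- [GS] Golod-Shafarevich.
PROOF. S1; S2 for the left ideal `ker aug` gives `x_1..x_d`, `2^d` = number of characters (S3).
`K ⊆ J^d`: if `∑ a_i x_i = 0` and `ε(a_1) = 1`, say, then for `f ∈ DH` (for the left ideal):
`∑ ε(a_i) f(x_i) = 0`; the `2^d` elements `f` are determined by the vectors `(f(x_i)) ∈ F_2^d`, so all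
vectors occur, hence all `ε(a_i) = 0`. S2 for `K` gives `ρ_1..ρ_r` and `2^r = |DH K|`; S4, S5, S6. -/
def St_GS : Prop := ∀ (G : Type) [Group G] [Finite G] (m : ℕ), Nat.card G = 2 ^ m →
  ∃ (d r : ℕ) (Φ : Fin (2 ^ r) → G → G → ℤˣ), Nat.card (G →* ℤˣ) = 2 ^ d ∧ (∀ i, Z2 (Φ i)) ∧
    (∀ i j, B2 (fun σ τ => Φ i σ τ * Φ j σ τ) → i = j) ∧ (2 < d → d ^ 2 < 4 * r)

end Pool.Agent.UDT
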