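import Pool.Agent.UDT.StT

set_option autoImplicit false

/-!
# UDT / StM: lattice points, statements with proofs

`K = L(√-1)`, `L` totally real; `q : QE L K (-1)`, `q.σ` is complex conjugation. Put
`D = [L:ℚ]`, `[K:ℚ] = 2 D`.
-/

namespace Pool.Agent.UDT

open IsDedekindDomain NumberField HP7 Pool.Agent.QCF
open scoped WithZero

/-- [M1] Embeddings and discriminant of `K`.
PROOF. `[K:L] = 2` (`repr`). For `φ : K → ℂ` and a real embedding `τ` of `L` below it: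
`φ z = τ x + τ y φ(ω)`, `φ(ω) = ± I`, so `φ (σ z) = conj (φ z)` and `‖φ z‖^2 = τ(x^2 + y^2)`; every
embedding `L → ℂ` is real (all places real), so comes from `τ : L → ℝ`; every `τ` extends (both signs).
No embedding of `K` is real (`φ(ω)^2 = -1`). Discriminant: `natAbs_discr_eq_absNorm_differentIdeal_mul_natAbs_discr_pow`
and `2 ω` is in the different ideal (`aeval_derivative_mem_differentIdeal`, minimal polynomial
`X^2 + 1`), `|N(2 ω)| = 4^D`. -/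
def St_M1 : Prop := ∀ (L K : Type) [Field L] [NumberField L] [Field K] [NumberField K]
  [Algebra L K] (q : QE L K (-1 : L)), (∀ w : InfinitePlace L, w.IsReal) →
  Module.finrank L K = 2 ∧ (∀ w : InfinitePlace K, w.IsComplex) ∧
  (discr K).natAbs ≤ 4 ^ Module.finrank ℚ L * (discr L).natAbs ^ 2 ∧
  (∀ (φ : K →+* ℂ) (z : K), φ (q.σ z) = starRingEnd ℂ (φ z)) ∧
  (∀ φ : K →+* ℂ, ∃ τ : L →+* ℝ, ∀ x : L, φ (algebraMap L K x) = (τ x : ℂ)) ∧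
  (∀ τ : L →+* ℝ, ∃ φ : K →+* ℂ, ∀ x : L, φ (algebraMap L K x) = (τ x : ℂ)) ∧
  (∀ z : K, ∃ β : L, algebraMap L K β = z * q.σ z)

/-- [M2] Primes above a prime of norm `l ≡ 1 mod 4`.
PROOF. `-1` is a local square at `w`: `QCF.st_L12` with `x^2 ≡ -1 mod l`. `N6`: two primes above `w`,
`e = f = 1` (`∑ e f = 2`); they are exchanged by `q.σ` (transitivity, T0). -/
def St_M2 : Prop := ∀ (L K : Type) [Field L] [NumberField L] [Field K] [NumberField K]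
  [Algebra L K] (q : QE L K (-1 : L)) (w : HeightOneSpectrum (𝓞 L)) (l : ℕ), l.Prime → l % 4 = 1 →
  Ideal.absNorm w.asIdeal = l →
  ∃ 𝔓 : HeightOneSpectrum (𝓞 K), 𝔓.under (𝓞 L) = w ∧ Ideal.absNorm 𝔓.asIdeal = l ∧
    mv q.σ 𝔓 ≠ 𝔓 ∧ Ideal.absNorm (mv q.σ 𝔓).asIdeal = l ∧
    Ideal.map (algebraMap (𝓞 L) (𝓞 K)) w.asIdeal = 𝔓.asIdeal * (mv q.σ 𝔓).asIdeal

/-- [M3] Minkowski's theorem for an ideal of a totally complex field of degree `2 D`.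
PROOF. Mathlib: `NumberField.mixedEmbedding.exists_ne_zero_mem_ideal_lt` with `f w = √r`:
`minkowskiBound K I = absNorm I * 2^D * √|disc K|` (`2^(2D)` times the covolume
`absNorm I * 2^(-D) * √|disc K|`), volume of the convex body `π^D r^D`. Conclusion for embeddings:
`InfinitePlace.mk φ`. -/
def St_M3 : Prop := ∀ (K : Type) [Field K] [NumberField K] (D : ℕ) (I : Ideal (𝓞 K)) (r : ℝ),
  (∀ w : InfinitePlace K, w.IsComplex) → Module.finrank ℚ K = 2 * D → I ≠ ⊥ → 0 < r →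
  (Ideal.absNorm I : ℝ) * 2 ^ D * √((discr K).natAbs : ℝ) < Real.pi ^ D * r ^ D →
  ∃ z : 𝓞 K, z ∈ I ∧ z ≠ 0 ∧ ∀ φ : K →+* ℂ, ‖φ (z : K)‖ ^ 2 < r

/-- [M4] Bounded integers are few.
PROOF. (i) `x ↦ (⌊2 Re φ x⌋, ⌊2 Im φ x⌋)_φ` is injective: if the floors agree for `x, y` then
`‖φ (x - y)‖^2 < 1/2` for all `φ`, so the norm of `x - y` is less than 1 in absolute value; the values
lie in `[-2B, 2B]`. (ii) the same with `⌊2 τ x⌋ ∈ [0, 2 B]`, all embeddings being real. (iii) finiteness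
from (i) (or Mathlib `Embeddings.finite_of_norm_le`), then cells `(⌊2 Re φ x / ρ⌋, ⌊2 Im φ x / ρ⌋)`
with values in `[-4, 4]`; the elements of a cell differ by elements of the smaller box. -/
def St_M4 : Prop :=
  (∀ (K : Type) [Field K] [NumberField K] (B : ℕ) (X : Finset (𝓞 K)),
    (∀ x ∈ X, ∀ φ : K →+* ℂ, ‖φ (x : K)‖ ≤ B) →
    X.card ≤ (4 * B + 1) ^ (2 * Module.finrank ℚ K)) ∧
  (∀ (L : Type) [Field L] [NumberField L] (B : ℕ) (X : Finset (𝓞 L)),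
    (∀ w : InfinitePlace L, w.IsReal) → (∀ x ∈ X, ∀ τ : L →+* ℝ, 0 ≤ τ (x : L) ∧ τ (x : L) ≤ B) →
    X.card ≤ (2 * B + 1) ^ Module.finrank ℚ L) ∧
  (∀ (K : Type) [Field K] [NumberField K] (ρ : ℝ), 0 < ρ →
    ∃ X Y : Finset (𝓞 K), (∀ x, x ∈ X ↔ ∀ φ : K →+* ℂ, ‖φ (x : K)‖ ≤ ρ) ∧
      (∀ x, x ∈ Y ↔ ∀ φ : K →+* ℂ, ‖φ (x : K)‖ ≤ 2 * ρ) ∧
      Y.card ≤ 81 ^ Module.finrank ℚ K * X.card)

/-- [M5] The ideals and their short elements.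
Here `Z` is the set of all primes of `L` with norm in `T`, `|Z| = t D`, `Q = ∏ T`.
PROOF. For `w ∈ Z` choose `𝔓 w` by M2. For `E ⊆ Z`: `𝔞 E = ∏_{w ∈ E} 𝔓 w * ∏_{w ∈ Z \ E} (mv q.σ (𝔓 w))`,
of norm `∏_{w ∈ Z} N w = Q^D`. M3 with `r = 2 Q P`: `√|disc K| ≤ 2^D |disc L| ≤ 2^D √P^D` (M1,
`D = 2^(m+1)`, `|disc L| ≤ P^(D/2)`), and `Q^D 2^D 2^D √P^D < π^D (2 Q P)^D`. -/
def St_M5 : Prop := ∀ (L K : Type) [Field L] [NumberField L] [Field K] [NumberField K]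
  [Algebra L K] (q : QE L K (-1 : L)) (P m : ℕ) (T : Finset ℕ)
  (Z : Finset (HeightOneSpectrum (𝓞 L))), (∀ w : InfinitePlace L, w.IsReal) → 1 ≤ P →
  Module.finrank ℚ L = 2 ^ (m + 1) → (discr L).natAbs ∣ P ^ 2 ^ m →
  (∀ l ∈ T, l.Prime ∧ l % 4 = 1) → (∀ w, w ∈ Z ↔ Ideal.absNorm w.asIdeal ∈ T) →
  (∀ l ∈ T, {w : HeightOneSpectrum (𝓞 L) | Ideal.absNorm w.asIdeal = l}.ncard = 2 ^ (m + 1)) →
  ∃ (𝔓 : HeightOneSpectrum (𝓞 L) → HeightOneSpectrum (𝓞 K))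
    (z : Finset (HeightOneSpectrum (𝓞 L)) → 𝓞 K),
    (∀ w ∈ Z, (𝔓 w).under (𝓞 L) = w ∧ mv q.σ (𝔓 w) ≠ 𝔓 w ∧
      Ideal.map (algebraMap (𝓞 L) (𝓞 K)) w.asIdeal = (𝔓 w).asIdeal * (mv q.σ (𝔓 w)).asIdeal) ∧
    ∀ E ⊆ Z, z E ≠ 0 ∧ (∀ φ : K →+* ℂ, ‖φ (z E : K)‖ ^ 2 ≤ 2 * (∏ l ∈ T, l) * P) ∧
      (∀ w ∈ E, z E ∈ (𝔓 w).asIdeal) ∧ ∀ w ∈ Z, w ∉ E → z E ∈ (mv q.σ (𝔓 w)).asIdeal

/-- [M6a] Division by `∏ T` when every `l ∈ T` splits completely.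
PROOF. For `l ∈ T` the product of the `D = [L:ℚ]` primes of norm `l` (each contains `l`) divides `(l)`
and has the same norm `l^D`, so it is `(l)`; hence `(∏ T) = ∏_w w` over all `w` with `N w ∈ T`, a product
of distinct primes; it divides `β`. If `β ∈ w^2`, `β = (∏ T) γ`, then `w ∣ γ` because `w` divides `∏ T`
exactly once. -/
def St_M6a : Prop := ∀ (L : Type) [Field L] [NumberField L] (T : Finset ℕ), (∀ l ∈ T, l.Prime) →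
  (∀ l ∈ T, {w : HeightOneSpectrum (𝓞 L) | Ideal.absNorm w.asIdeal = l}.ncard =
    Module.finrank ℚ L) →
  ∀ β : 𝓞 L, (∀ w : HeightOneSpectrum (𝓞 L), Ideal.absNorm w.asIdeal ∈ T → β ∈ w.asIdeal) →
  ∃ γ : 𝓞 L, β = ((∏ l ∈ T, l : ℕ) : 𝓞 L) * γ ∧ ∀ w : HeightOneSpectrum (𝓞 L),
    Ideal.absNorm w.asIdeal ∈ T → β ∈ w.asIdeal ^ 2 → γ ∈ w.asIdeal

/-- [M6b] Few primes contain a small integer.
PROOF. `∏_{w ∈ J} w` divides `(γ)`, its norm is at least `2^|J|`, and `|N γ| = ∏_τ τ γ ≤ (2P)^D` (all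
embeddings are real). -/
def St_M6b : Prop := ∀ (L : Type) [Field L] [NumberField L] (P : ℕ) (γ : 𝓞 L)
  (J : Finset (HeightOneSpectrum (𝓞 L))), (∀ w : InfinitePlace L, w.IsReal) →
  (∀ τ : L →+* ℝ, 0 < τ (γ : L) ∧ τ (γ : L) ≤ 2 * P) → (∀ w ∈ J, γ ∈ w.asIdeal) →
  2 ^ J.card ≤ (2 * P) ^ Module.finrank ℚ L

/-- [M6] Many elements with the same norm to `L`.
PROOF. Let `Z` be the (finite) set of all primes of `L` with norm in `T`, `|Z| = t D`; M5. `z = z E`: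
`z σ(z) = β` (M1) is an integer of `L` in every `w ∈ Z` (`z ∈ 𝔓 w` or `σ z ∈ 𝔓 w`, and
`𝔓 w ∩ 𝓞 L = w`). M6a: `β = Q γ`, and `0 < τ γ ≤ 2 P` for all `τ` (M1: `τ β = ‖φ z‖^2`), at most
`(4 P + 1)^D ≤ (5 P)^D` values of `γ` (M4 (ii)). For fixed `z` the `E` with `z = z E` number at most
`2^j`, `j = #{w ∈ Z : z ∈ 𝔓 w and z ∈ mv q.σ (𝔓 w)}` (for the other `w`, `z` decides whether
`w ∈ E`); for these `w` the extension of `w` to `K` is `𝔓 w * mv q.σ (𝔓 w)` and divides `z`, so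
`β ∈ w^2` and `γ ∈ w` (M6a); M6b: `2^j ≤ (2P)^D`. Pigeonhole over the `2^(tD)` sets `E`: `U` = the
largest set of `z`'s with the same `γ`. -/
def St_M6 : Prop := ∀ (L K : Type) [Field L] [NumberField L] [Field K] [NumberField K]
  [Algebra L K] (q : QE L K (-1 : L)) (P m : ℕ) (T : Finset ℕ),
  (∀ w : InfinitePlace L, w.IsReal) → 1 ≤ P →
  Module.finrank ℚ L = 2 ^ (m + 1) → (discr L).natAbs ∣ P ^ 2 ^ m →
  (∀ l ∈ T, l.Prime ∧ l % 4 = 1) →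
  (∀ l ∈ T, {w : HeightOneSpectrum (𝓞 L) | Ideal.absNorm w.asIdeal = l}.ncard = 2 ^ (m + 1)) →
  ∃ (U : Finset (𝓞 K)) (β : 𝓞 L), (∀ z ∈ U, z ≠ 0 ∧
      algebraMap L K (β : L) = (z : K) * q.σ (z : K) ∧
      ∀ φ : K →+* ℂ, ‖φ (z : K)‖ ^ 2 ≤ 2 * (∏ l ∈ T, l) * P) ∧
    2 ^ (T.card * 2 ^ (m + 1)) ≤ (10 * P ^ 2) ^ 2 ^ (m + 1) * U.card

/-- number of ordered pairs of distinct points of `A` at distance `d` -/
noncomputable def PC (A : Finset ℂ) (d : ℝ) : ℕ :=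
  (A.offDiag.filter (fun q => dist q.1 q.2 = d)).card

/-- [M7] The configurations.
PROOF. `K` and `q` from `QCF.st_N5` (`-1` is not a square: real embedding), `φ : K → ℂ` extending `σ`
(M1). `ρ = √(2 Q P)`, `X, Y` from M4 (iii), `U, β` from M6; `A = φ(Y)`, `d = √(σ β)`. `x + u ∈ Y` for
`x ∈ X`, `u ∈ U`, and `dist (φ (x+u)) (φ x)^2 = ‖φ u‖^2 = σ β`: at least `|X| |U|` ordered pairs.
`|A| = |Y| ≤ 81^(2D) |X|`, `81^2 * 10 ≤ 100000`. Upper bound for `|Y|`: M4 (i) with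
`B = ⌈2ρ⌉ ≤ 4 Q P`. For `x ≠ y ∈ Y`, `z = x - y`: `dist^2 = ‖φ z‖^2 = σ(β')`, `β' = z σ(z)` integral,
`0 < τ β' = ‖φ' z‖^2 ≤ 16 ρ^2` (`φ'` extending `τ`). `C` only depends on `P, T`. -/
def St_M7 : Prop := ∀ (P : ℕ) (T : Finset ℕ), 1 ≤ P → (∀ l ∈ T, l.Prime ∧ l % 4 = 1) →
  ∃ C : ℕ, 2 ≤ C ∧ ∀ (m : ℕ) (L : Type) [Field L] [NumberField L],
    Module.finrank ℚ L = 2 ^ (m + 1) → (∀ w : InfinitePlace L, w.IsReal) →
    (discr L).natAbs ∣ P ^ 2 ^ m →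
    (∀ l ∈ T, {w : HeightOneSpectrum (𝓞 L) | Ideal.absNorm w.asIdeal = l}.ncard = 2 ^ (m + 1)) →
    ∀ σ : L →+* ℝ, ∃ (A : Finset ℂ) (d : ℝ), 2 ≤ A.card ∧ A.card ≤ C ^ 2 ^ (m + 1) ∧ 0 < d ∧
      2 ^ (T.card * 2 ^ (m + 1)) * A.card ≤ (100000 * P ^ 2) ^ 2 ^ (m + 1) * PC A d ∧
      ∀ x ∈ A, ∀ y ∈ A, x ≠ y → ∃ β : 𝓞 L, dist x y ^ 2 = σ (β : L) ∧
        ∀ τ : L →+* ℝ, 0 < τ (β : L) ∧ τ (β : L) ≤ C

end Pool.Agent.UDT
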