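import Pool.Agent.UDT.StG
import Pool.Agent.QCF.All

set_option autoImplicit false

/-!
# UDT / StT: the tower, statements with proofs

Available without hypotheses (import `Pool.Agent.QCF.All`): `QCF.hNT : HP7.St_HNT` and
`QCF.st_L12, st_L13, st_L14, st_L18, st_L19, st_L21, st_N5, st_N6, st_N7` (statements in `QCF/St.lean`),
`QCF.lnm_of_lsq, lsq_mul, lsq_inv, lsq_of_isSquare` (`QCF/Basic.lean`). In Mathlib:
`HeightOneSpectrum.valuation_liesOver`, `Ideal.sum_ramification_inertia`,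
`Ideal.ncard_primesOver_mul_ramificationIdxIn_mul_inertiaDegIn`.
-/

namespace Pool.Agent.UDT

open IsDedekindDomain NumberField HP7 Pool.Agent.QCF
open scoped WithZero

/-! ## T0-T3: Galois action on primes, subfields -/

/-- [T0] The action on primes.
PROOF. (i) for integral `x` compare the powers of the prime (`intValuation`), then quotients; or use
`valuation_liesOver` for the ring isomorphism. (ii) and (iii) from the definition (comap of comap;
`σ` fixes `k`). (iv) transitivity of the Galois group on the primes above a prime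
(`IsGaloisGroup`/`isPretransitive` in Mathlib `NumberTheory/RamificationInertia/Galois`). (v) by the
criterion `QCF.st_L12` and (i); the unit case `x ≠ 0` is enough (`x = 0` is trivial on both sides). -/
def St_T0 : Prop := ∀ (k L : Type) [Field k] [NumberField k] [Field L] [NumberField L]
  [Algebra k L],
  (∀ (σ : L ≃ₐ[k] L) (w : HeightOneSpectrum (𝓞 L)) (x : L),
    (mv σ w).valuation L x = w.valuation L (σ x)) ∧
  (∀ w : HeightOneSpectrum (𝓞 L), mv (1 : L ≃ₐ[k] L) w = w) ∧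
  (∀ (σ τ : L ≃ₐ[k] L) (w : HeightOneSpectrum (𝓞 L)), mv (σ * τ) w = mv τ (mv σ w)) ∧
  (∀ (σ : L ≃ₐ[k] L) (w : HeightOneSpectrum (𝓞 L)), (mv σ w).under (𝓞 k) = w.under (𝓞 k)) ∧
  (IsGalois k L → ∀ w w' : HeightOneSpectrum (𝓞 L), w.under (𝓞 k) = w'.under (𝓞 k) →
    ∃ σ : L ≃ₐ[k] L, mv σ w = w') ∧
  (∀ (σ : L ≃ₐ[k] L) (w : HeightOneSpectrum (𝓞 L)) (x : L),
    (LSq (Sum.inl (mv σ w)) x ↔ LSq (Sum.inl w) (σ x)))

/-- [T1] Unramified and split in towers.
PROOF. `valuation_liesOver`: exponent `e(w/v)`; `Unr` says all `e = 1` (a uniformiser has valuation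
`exp (-1)`), and `e` is multiplicative. Number of primes: `#(w/v) = ∑_{u/v} #(w/u)`, with
`#(u/v) ≤ [M:k]` and `#(w/u) ≤ [L:M]` (`∑ e f = n`), equality forces equality everywhere; conversely
equalities multiply. -/
def St_T1 : Prop := ∀ (k M L : Type) [Field k] [NumberField k] [Field M] [NumberField M] [Field L]
  [NumberField L] [Algebra k M] [Algebra M L] [Algebra k L] [IsScalarTower k M L],
  (Unr k L ↔ Unr k M ∧ Unr M L) ∧
  ∀ v : HeightOneSpectrum (𝓞 k), (SpC L v ↔ SpC M v ∧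
    ∀ u : HeightOneSpectrum (𝓞 M), u.under (𝓞 k) = v → SpC L u)

/-- [T2] A central involution and its fixed field.
PROOF. A 2-group of order `2^(m+1)` has a central element of order 2; `M` = its fixed field
(`IntermediateField.fixedField`), normal over `k` since the subgroup is central; `[L:M] = 2`; real
places: every embedding of `M` extends to `L`; `T1`. -/
def St_T2 : Prop := ∀ (k L : Type) [Field k] [NumberField k] [Field L] [NumberField L]
  [Algebra k L] (S : Set (HeightOneSpectrum (𝓞 k))) (m : ℕ), Gd k L S (m + 1) →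
  ∃ (z : L ≃ₐ[k] L) (M : Type) (_ : Field M) (_ : NumberField M) (_ : Algebra k M)
    (_ : Algebra M L) (_ : IsScalarTower k M L),
    z ≠ 1 ∧ z * z = 1 ∧ (∀ g, z * g = g * z) ∧
    (∀ x : L, z x = x ↔ ∃ y : M, algebraMap M L y = x) ∧
    Module.finrank M L = 2 ∧ Gd k M S m ∧ Unr M L ∧
    ∀ u : HeightOneSpectrum (𝓞 M), u.under (𝓞 k) ∈ S → SpC L u

/-- [T3] Quadratic extensions in characteristic zero.
PROOF. Take `θ ∈ L` outside `M` (`finrank = 2`); `1, θ` is a basis of `L` over `M`, so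
`θ^2 = p θ + r` with `p, r ∈ M`; `ω = θ - p/2` satisfies `ω^2 = a := r + p^2/4 ∈ M`, `a ≠ 0`
(otherwise `θ = p/2 ∈ M`), `a` is not a square (otherwise `ω = ± x ∈ M`), `1, ω` is a basis. The
automorphism `x + y ω ↦ x - y ω`: `AlgEquiv` built by hand, or from `IsGalois` (degree 2) a
nontrivial automorphism, which sends `ω` to `-ω`. -/
def St_T3 : Prop := ∀ (M L : Type) [Field M] [NumberField M] [Field L] [NumberField L]
  [Algebra M L], Module.finrank M L = 2 → ∃ a : Mˣ, Nonempty (QE M L (a : M))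

/-! ## T4-T7: the embedding problem -/

/-- [T4] Norms in a good quadratic extension.
PROOF. `QCF.hNT`: it is enough that `b` is a local norm everywhere. Infinite place `v` of `M`: if
`a` were not a square there, `v` would be real with `a < 0` (`L13`) and the place of `L` above `v`
complex (`L13`/`N7`; or: `ω` has `ω^2 = a < 0` under a real embedding of `L`, impossible); so `LSq`
and `lnm_of_lsq`. Finite `v`: if `LSq`, `lnm_of_lsq`. If not, there is only one prime `w` above `v`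
(`N6`), so `v` is not dyadic (`SpC` would give two), `mv q.σ w = w`, hence `vl w b = 2 B w` and, by
`Unr`, `EvenAt v b`; and `v(a) = w(a) = w(ω)^2`, so `EvenAt v a`; `L18`. -/
def St_T4 : Prop := ∀ (M L : Type) [Field M] [NumberField M] [Field L] [NumberField L]
  [Algebra M L] (a : Mˣ) (q : QE M L (a : M)), Unr M L → (∀ w : InfinitePlace L, w.IsReal) →
  (∀ u : HeightOneSpectrum (𝓞 M), u.valuation M (2 : M) ≠ 1 → SpC L u) →
  ∀ b : Mˣ, (∃ B : HeightOneSpectrum (𝓞 L) → ℤ, ∀ w : HeightOneSpectrum (𝓞 L),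
    vl w (Units.map (algebraMap M L : M →* L) b) = B w + B (mv q.σ w)) →
  ∃ x y : M, x ^ 2 - (a : M) * y ^ 2 = (b : M)

/-- the valuations of the cocycle `c` are a coboundary -/
def VB (k L : Type) [Field k] [NumberField k] [Field L] [NumberField L] [Algebra k L]
    (c : (L ≃ₐ[k] L) → (L ≃ₐ[k] L) → Lˣ) (B : (L ≃ₐ[k] L) → HeightOneSpectrum (𝓞 L) → ℤ) :
    Prop := ∀ σ τ w, vl w (c σ τ) = B σ w + B τ (mv σ w) - B (σ * τ) w

/-- [T5a] Passage to the fixed field `M` of the central involution `z`.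
PROOF. `π = AlgEquiv.restrictNormalHom M` is onto `Gal(M/k)` with kernel `{1, z}`. By `Infl`,
`c σ τ` depends only on `π σ, π τ` and lies in `M`: this is `c'`. A prime of `L` above a prime `v` of
`M` is unique up to `z` (`T0` over `M`), so `B'(π σ)(v) := B σ w`, `w` above `v`, is well defined;
`vl w x = vl v x` for `x ∈ M` (`Unr M L`). If `c' = cob a'`, take `a σ := a'(π σ)`. -/
def St_T5a : Prop := ∀ (k M L : Type) [Field k] [NumberField k] [Field M] [NumberField M] [Field L]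
  [NumberField L] [Algebra k M] [Algebra M L] [Algebra k L] [IsScalarTower k M L]
  (z : L ≃ₐ[k] L), z ≠ 1 → z * z = 1 → (∀ g, z * g = g * z) →
  (∀ x : L, z x = x ↔ ∃ y : M, algebraMap M L y = x) → Module.finrank M L = 2 →
  IsGalois k L → IsGalois k M → Unr M L →
  ∀ (c : (L ≃ₐ[k] L) → (L ≃ₐ[k] L) → Lˣ) (B : (L ≃ₐ[k] L) → HeightOneSpectrum (𝓞 L) → ℤ),
    IsC2 (uact k L) c → Infl (uact k L) z c → VB k L c B →
    (∀ σ w, B (z * σ) w = B σ w ∧ B σ (mv z w) = B σ w) →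
    ∃ (c' : (M ≃ₐ[k] M) → (M ≃ₐ[k] M) → Mˣ) (B' : (M ≃ₐ[k] M) → HeightOneSpectrum (𝓞 M) → ℤ),
      IsC2 (uact k M) c' ∧ VB k M c' B' ∧
      ((∃ a', c' = cob (uact k M) a') → ∃ a, c = cob (uact k L) a)

/-- [T5b] The conditions of G1, G2 for `Lˣ` and for divisors.
PROOF. (i) Hilbert 90 for `{1, z}`: if `x = -1` take `y ∈ L` with `z y = -y`, e.g. `y = t - z t` for a
`t` not fixed by `z`; otherwise `y = (1 + x)⁻¹`: `z x = x⁻¹`, so `z y = (1 + x⁻¹)⁻¹ = x (1 + x)⁻¹`.
(ii) `mv z` is an involution of the set of primes (`T0 (ii), (iii)`). On a fixed prime `2 f w = 0`. On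
an orbit `{w, w'}` of length two choose one element `w` (e.g. choose a set of representatives), put
`g w = 0`, `g w' = f w`: then `g (mv z w) - g w = f w` and `g (mv z w') - g w' = - f w = f w'`.
Alternatively `g w = if w is the chosen element then 0 else f (mv z w)`. -/
def St_T5b : Prop := ∀ (k L : Type) [Field k] [NumberField k] [Field L] [NumberField L]
  [Algebra k L] (z : L ≃ₐ[k] L), z ≠ 1 → z * z = 1 →
  (∀ x : Lˣ, x * uact k L z x = 1 → ∃ y : Lˣ, x = uact k L z y * y⁻¹) ∧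
  ∀ f : Multiplicative (HeightOneSpectrum (𝓞 L) → ℤ), f * dact k L z f = 1 →
    ∃ g : Multiplicative (HeightOneSpectrum (𝓞 L) → ℤ), f = dact k L z g * g⁻¹

/-- [T5] Vanishing.
PROOF. Induction on `m`. `m = 0`: the group is trivial, `c σ τ = c 1 1`, `a = c 1 1`. Step: T2 gives
`z, M`; T3 a `q : QE M L a` and `q.σ = z` (restricted to `M`). `b := c z z * c 1 1` is fixed by `z`
(identity `(z,z,z)` of the cocycle), so in `M`, and `vl w b = B z w + B z (mv z w)` from `VB`; T4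
gives `b = x^2 - a y^2 = u * z u`, `u = x + y ω`. G1 (condition: T5b (i)): `c * cob a0` is inflated.
G2 for `X = Multiplicative (primes → ℤ)`, `φ = dact k L` (condition: T5b (ii)), applied to the divisor
`σ, τ, w ↦ vl w (c σ τ * cob a0 σ τ)`, which is the coboundary of `B σ w + vl w (a0 σ)` (`T0 (i)`:
`vl w (σ x) = vl (mv σ w) x`), gives the new `B`. T5a, induction hypothesis for `M`, `S` (note that
`Dy S` only speaks about `k`). The dyadic hypothesis of T4: if `u` is a prime of `M` with `u(2) ≠ 1`,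
then `v = u.under` has `v(2) ≠ 1` (valuations of integers below), so `v ∈ S` and T2 gives `SpC L u`. -/
def St_T5 : Prop := ∀ (k L : Type) [Field k] [NumberField k] [Field L] [NumberField L]
  [Algebra k L] (S : Set (HeightOneSpectrum (𝓞 k))) (m : ℕ), Gd k L S m → Dy S →
  ∀ (c : (L ≃ₐ[k] L) → (L ≃ₐ[k] L) → Lˣ) (B : (L ≃ₐ[k] L) → HeightOneSpectrum (𝓞 L) → ℤ),
    IsC2 (uact k L) c → VB k L c B → ∃ a, c = cob (uact k L) a

/-- the image of a sign in `Lˣ` -/
noncomputable def sg (L : Type) [Field L] : ℤˣ →* Lˣ := Units.map (Int.castRingHom L : ℤ →* L)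

/-- [T6] The Kummer element of a class.
PROOF. `sg ∘ c` is a cocycle in `Lˣ` with valuation `0`: T5 (with `B = 0`) gives `a`. `σ ↦ (a σ)^2`
is a 1-cocycle; Hilbert 90 (`groupCohomology.isMulCoboundary₁_of_isMulCocycle₁_of_aut_to_units`). -/
def St_T6 : Prop := ∀ (k L : Type) [Field k] [NumberField k] [Field L] [NumberField L]
  [Algebra k L] (S : Set (HeightOneSpectrum (𝓞 k))) (m : ℕ), Gd k L S m → Dy S →
  ∀ c : (L ≃ₐ[k] L) → (L ≃ₐ[k] L) → ℤˣ, Z2 c → ∃ (a : (L ≃ₐ[k] L) → Lˣ) (α : Lˣ),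
    (∀ σ τ, a σ * uact k L σ (a τ) * (a (σ * τ))⁻¹ = sg L (c σ τ)) ∧
    ∀ σ, uact k L σ α = α * a σ ^ 2

/-- [T7] Classes with the same Kummer element up to `kˣ (Lˣ)^2` are equal.
PROOF. `(a₁ σ a₂ σ)^2 = σ(α₁ α₂)/(α₁ α₂) = (σ β/β)^2`, so `a₁ σ a₂ σ = ε σ * σ β / β`, `ε σ = ±1`,
and `c₁ c₂ = cob ε`. -/
def St_T7 : Prop := ∀ (k L : Type) [Field k] [NumberField k] [Field L] [NumberField L]
  [Algebra k L] (c₁ c₂ : (L ≃ₐ[k] L) → (L ≃ₐ[k] L) → ℤˣ) (a₁ a₂ : (L ≃ₐ[k] L) → Lˣ)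
  (α₁ α₂ β : Lˣ) (x : kˣ),
  (∀ σ τ, a₁ σ * uact k L σ (a₁ τ) * (a₁ (σ * τ))⁻¹ = sg L (c₁ σ τ)) →
  (∀ σ τ, a₂ σ * uact k L σ (a₂ τ) * (a₂ (σ * τ))⁻¹ = sg L (c₂ σ τ)) →
  (∀ σ, uact k L σ α₁ = α₁ * a₁ σ ^ 2) → (∀ σ, uact k L σ α₂ = α₂ * a₂ σ ^ 2) →
  α₁ * α₂ = Units.map (algebraMap k L : k →* L) x * β ^ 2 →
  B2 (fun σ τ => c₁ σ τ * c₂ σ τ)

/-! ## T8: counting Kummer elements -/

/-- [T8a] Class group part.
PROOF. For `α` with `σ α / α` a square for all `σ`, the parity of `w(α)` depends only on the prime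
`v` of `k` below `w` (T0 (i), (iv)). Let `𝔟(α)` be the product of the `v` with odd parity (finitely
many), `f α` its class. If `𝔟 𝔟' ^ (-1) = (x)` (fractional ideals; equality of classes) then
`w(α α' x)` is even for all `w`, by `Unr`. (`f = 1` for the other `α`.) -/
def St_T8a : Prop := ∀ (k L : Type) [Field k] [NumberField k] [Field L] [NumberField L]
  [Algebra k L], IsGalois k L → Unr k L →
  ∃ f : Lˣ → ClassGroup (𝓞 k), ∀ α α' : Lˣ,
    (∀ σ : L ≃ₐ[k] L, IsSquare (σ (α : L) / (α : L))) →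
    (∀ σ : L ≃ₐ[k] L, IsSquare (σ (α' : L) / (α' : L))) → f α = f α' →
    ∃ x : kˣ, ∀ w : HeightOneSpectrum (𝓞 L), EvenAt w ((α : L) * (α' : L) * algebraMap k L x)

/-- [T8b] Local part.
PROOF. Finite `w`: `QCF.st_L14`: the index of the group `SqG` of local squares in `Lˣ` is `4 N^e`; the
elements with even valuation are a subgroup of index 2 containing it, so `2 N^e` classes. Infinite
`w`: index at most 2. -/
def St_T8b : Prop := ∀ (L : Type) [Field L] [NumberField L],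
  (∀ (w : HeightOneSpectrum (𝓞 L)) (e : ℕ), w.valuation L (2 : L) = WithZero.exp (-(e : ℤ)) →
    ∃ f : Lˣ → Fin (2 * Ideal.absNorm w.asIdeal ^ e), ∀ α α' : Lˣ, EvenAt w (α : L) →
      EvenAt w (α' : L) → f α = f α' → LSq (Sum.inl w) ((α * α' : Lˣ) : L)) ∧
  ∀ w : InfinitePlace L, ∃ f : Lˣ → Fin 2, ∀ α α' : Lˣ, f α = f α' →
    LSq (Sum.inr w) ((α * α' : Lˣ) : L)

/-- [T8c] Residue fields at completely split primes, and the Galois action at infinite places.
PROOF. `∑ e f = n` with `n` terms gives `f = 1`, so `𝓞 k / v ≃ 𝓞 L / w`. Infinite places: the places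
of `L` above a place of `k` are conjugate (`InfinitePlace` orbits in Mathlib: `exists_smul_eq_of_comap_eq`),
and `LSq` at a real place means positive (`L13`). -/
def St_T8c : Prop := ∀ (k L : Type) [Field k] [NumberField k] [Field L] [NumberField L]
  [Algebra k L], (∀ (v : HeightOneSpectrum (𝓞 k)) (w : HeightOneSpectrum (𝓞 L)), SpC L v →
      w.under (𝓞 k) = v → Ideal.absNorm w.asIdeal = Ideal.absNorm v.asIdeal) ∧
  (IsGalois k L → ∀ w w' : InfinitePlace L,
    w.comap (algebraMap k L) = w'.comap (algebraMap k L) → ∀ α : Lˣ,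
    (∀ σ : L ≃ₐ[k] L, IsSquare (σ (α : L) / (α : L))) → LSq (Sum.inr w) (α : L) →
    LSq (Sum.inr w') (α : L))

/-- [T8] Counting.
PROOF. If `n` is larger than the bound, T8a and the pigeonhole principle give a set `I` of more than
`∏ b * 2 ^ r` indices with the same class; fix `i0 ∈ I`; `β_i := α_i α_{i0} x_i` has even valuations.
For every `v ∈ W` choose one `w_v` above it (`Unr`, T8c: same `e`, same norm) and for every infinite
place of `k` one place above it: T8b gives maps with `∏ b * 2 ^ r` values in total, so two indices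
`i ≠ j` of `I` have the same values, and `β_i β_j` is a local square at the chosen places, hence at
all places above `S` (T0 (iv),(v), T8c) and at infinity; all valuations are even: `Adj`. So
`β_i β_j` is a square, `α_i α_j ∈ kˣ (Lˣ)^2`, contradiction. -/
def St_T8 : Prop := ∀ (k L : Type) [Field k] [NumberField k] [Field L] [NumberField L]
  [Algebra k L] (W : Finset (HeightOneSpectrum (𝓞 k))) (m : ℕ),
  Gd k L (W : Set (HeightOneSpectrum (𝓞 k))) m →
  (∀ α : Lˣ, Adj (W : Set (HeightOneSpectrum (𝓞 k))) α → IsSquare (α : L)) →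
  ∀ b : HeightOneSpectrum (𝓞 k) → ℕ,
  (∀ v ∈ W, ∃ e : ℕ, v.valuation k (2 : k) = WithZero.exp (-(e : ℤ)) ∧
    b v = 2 * Ideal.absNorm v.asIdeal ^ e) →
  ∀ (n : ℕ) (α : Fin n → Lˣ),
    (∀ i, ∀ σ : L ≃ₐ[k] L, IsSquare (σ (α i : L) / (α i : L))) →
    (∀ i j, (∃ (x : kˣ) (β : Lˣ), α i * α j = Units.map (algebraMap k L : k →* L) x * β ^ 2) →
      i = j) →
    n ≤ Fintype.card (ClassGroup (𝓞 k)) * (∏ v ∈ W, b v) * 2 ^ Fintype.card (InfinitePlace k)

/-! ## T9: adjoining a square root -/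

/-- [T9a] PROOF. Every `σ ∈ Gal(L/k)` extends to `L' = L(ω)`: `ω ↦ s ω` with `s^2 = σ α/α`
(`repr`, `nsq` of `QE`); together with `q.σ` this gives `2 [L:k]` automorphisms, or: the fixed field
of `Aut(L'/k)` is `k`. -/
def St_T9a : Prop := ∀ (k L L' : Type) [Field k] [NumberField k] [Field L] [NumberField L]
  [Field L'] [NumberField L'] [Algebra k L] [Algebra L L'] [Algebra k L'] [IsScalarTower k L L']
  (α : Lˣ) (_ : QE L L' (α : L)), IsGalois k L →
  (∀ σ : L ≃ₐ[k] L, IsSquare (σ (α : L) / (α : L))) →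
  IsGalois k L' ∧ Module.finrank L L' = 2

/-- [T9b] Unramified.
PROOF. Let `w` be a prime of `L`. If `LSq w α` there are two primes above (`N6`), so `e = 1`
(`∑ e f = 2`). If not, `w` is not dyadic and there is one prime `w'` above; if `e = 2` then `f = 1`;
take `z ∈ L'` with `w'(z) = 1`: its norm `x^2 - α y^2` has (as an element of `L'`) `w'`-valuation
`w'(z) + w'(q.σ z) = 2`, so `w`-valuation `1`, odd; but norms are `LNm`, contradiction to `L18`. -/
def St_T9b : Prop := ∀ (L L' : Type) [Field L] [NumberField L] [Field L'] [NumberField L']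
  [Algebra L L'] (α : Lˣ) (_ : QE L L' (α : L)),
  (∀ w : HeightOneSpectrum (𝓞 L), EvenAt w (α : L)) →
  (∀ w : HeightOneSpectrum (𝓞 L), w.valuation L (2 : L) ≠ 1 → LSq (Sum.inl w) (α : L)) →
  Unr L L'

/-- [T9c] Split and real.
PROOF. `N6`; `L13`/`N7`: over a real place where `α` is a square there are two places of `L'`, so both
are real (`∑ = 2`), or directly: an embedding of `L'` extends a real embedding `ι` of `L` with
`ι(α) > 0`, and sends `ω` to `± √ι(α)`. -/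
def St_T9c : Prop := ∀ (L L' : Type) [Field L] [NumberField L] [Field L'] [NumberField L']
  [Algebra L L'] (α : Lˣ) (_ : QE L L' (α : L)),
  (∀ w : HeightOneSpectrum (𝓞 L), LSq (Sum.inl w) (α : L) → SpC L' w) ∧
  ((∀ w : InfinitePlace L, w.IsReal) → (∀ w : InfinitePlace L, LSq (Sum.inr w) (α : L)) →
    ∀ w : InfinitePlace L', w.IsReal)

/-- [T9] PROOF. `QCF.st_N5` gives `L'` and `q`; `Algebra k L'` by composition; T9a, T9b, T9c, T1
(`Dy S`: dyadic primes of `L` lie above `S`). -/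
def St_T9 : Prop := ∀ (k L : Type) [Field k] [NumberField k] [Field L] [NumberField L]
  [Algebra k L] (S : Set (HeightOneSpectrum (𝓞 k))) (m : ℕ), Gd k L S m → Dy S →
  ∀ α : Lˣ, Adj S α → ¬ IsSquare (α : L) →
  ∃ (L' : Type) (_ : Field L') (_ : NumberField L') (_ : Algebra k L'), Gd k L' S (m + 1)

/-! ## T10-T14: the tower -/

/-- [T10] Characters.
PROOF. The image of `μ i` in `L` satisfies `Adj` (`gal`: `σ μ = μ`; `even`: `Unr`; `fin`, `inf`:
`QCF.st_L21`), so it is a square `r_i^2`, and `χ_i(σ) = σ r_i / r_i` is a character. If `χ_i = χ_j`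
then `r_i r_j ∈ k` (fixed field), so `μ i μ j` is a square in `k`. -/
def St_T10 : Prop := ∀ (k L : Type) [Field k] [NumberField k] [Field L] [NumberField L]
  [Algebra k L] (S : Set (HeightOneSpectrum (𝓞 k))) (m : ℕ), Gd k L S m →
  (∀ α : Lˣ, Adj S α → IsSquare (α : L)) → ∀ (n : ℕ) (μ : Fin n → kˣ),
  (∀ i, ∀ v : HeightOneSpectrum (𝓞 k), EvenAt v (μ i : k)) →
  (∀ i, ∀ v ∈ S, LSq (Sum.inl v) (μ i : k)) →
  (∀ i, ∀ v : InfinitePlace k, LSq (Sum.inr v) (μ i : k)) →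
  (∀ i j, IsSquare ((μ i : k) * (μ j : k)) → i = j) →
  n ≤ Nat.card ((L ≃ₐ[k] L) →* ℤˣ)

/-- [T11] One step of the tower.
PROOF. If all `α` with `Adj` are squares: `G = Gal(L/k)` has order `2^m`. `GS` gives `d, r, Φ`;
T10: `2^s ≤ 2^d`; T6 for the `Φ i`, T7 and T8: `2^r ≤ h ∏ b 2^{r_1} ≤ 2^R`. So `s ≤ d`, `r ≤ R` and
`s^2 ≤ d^2 < 4 r ≤ 4 R ≤ s^2`. Otherwise T9. -/
def St_T11 : Prop := ∀ (k L : Type) [Field k] [NumberField k] [Field L] [NumberField L]
  [Algebra k L] (W : Finset (HeightOneSpectrum (𝓞 k))) (m s R : ℕ)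
  (b : HeightOneSpectrum (𝓞 k) → ℕ) (μ : Fin (2 ^ s) → kˣ),
  Gd k L (W : Set (HeightOneSpectrum (𝓞 k))) m → Dy (W : Set (HeightOneSpectrum (𝓞 k))) →
  (∀ v ∈ W, ∃ e : ℕ, v.valuation k (2 : k) = WithZero.exp (-(e : ℤ)) ∧
    b v = 2 * Ideal.absNorm v.asIdeal ^ e) →
  (∀ i, ∀ v : HeightOneSpectrum (𝓞 k), EvenAt v (μ i : k)) →
  (∀ i, ∀ v ∈ W, LSq (Sum.inl v) (μ i : k)) →
  (∀ i, ∀ v : InfinitePlace k, LSq (Sum.inr v) (μ i : k)) →
  (∀ i j, IsSquare ((μ i : k) * (μ j : k)) → i = j) →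
  Fintype.card (ClassGroup (𝓞 k)) * (∏ v ∈ W, b v) * 2 ^ Fintype.card (InfinitePlace k) ≤ 2 ^ R →
  2 < s → 4 * R ≤ s ^ 2 →
  ∃ (L' : Type) (_ : Field L') (_ : NumberField L') (_ : Algebra k L'),
    Gd k L' (W : Set (HeightOneSpectrum (𝓞 k))) (m + 1)

/-- [T12a] The base field.
PROOF. `P ≡ 1 mod 8` is not a square (`s ≥ 1` distinct primes): `QCF.st_N5` for `ℚ`; `P > 0`: all
places real; the basis `1, (1 + √P)/2` of integers has discriminant `P`, and the discriminant of any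
basis of integers is a square times the discriminant of the field. (Or: `|disc k|` divides the
discriminant of any order; or: the different contains `2 θ - 1 = √P` for `θ = (1 + √P)/2`,
`aeval_derivative_mem_differentIdeal`, and `|N(√P)| = P`.) -/
def St_T12a : Prop := ∀ (P : ℕ), P % 8 = 1 → ¬ IsSquare P →
  ∃ (k : Type) (_ : Field k) (_ : NumberField k) (ω : k), Nonempty (QE ℚ k (P : ℚ)) ∧
    ω ^ 2 = (P : k) ∧ Module.finrank ℚ k = 2 ∧ (∀ w : InfinitePlace k, w.IsReal) ∧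
    (discr k).natAbs ∣ P

/-- [T12d] The class number of a quadratic field.
PROOF. Every ideal class contains an integral ideal of norm `≤ (4/π)^{r₂} (2!/2^2) √|disc| ≤ P`
(Minkowski, `NumberField.exists_ideal_in_class_of_norm_le`). An ideal `I` of norm `n`, `1 ≤ n ≤ P`,
contains `n 𝓞 k` (`Ideal.absNorm_mem`) and is a free `ℤ`-module of rank `2`, `I = ℤ a + ℤ b`, so
`I = ℤ a + ℤ b + n 𝓞 k` only depends on the classes of `a, b` in `𝓞 k / n 𝓞 k` (a set of `n^2`
elements): at most `n^4` ideals of norm `n`, in total at most `∑_{n ≤ P} n^4 ≤ P^5`. -/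
def St_T12d : Prop := ∀ (k : Type) [Field k] [NumberField k] (P : ℕ), Module.finrank ℚ k = 2 →
  1 ≤ P → (discr k).natAbs ≤ P → Fintype.card (ClassGroup (𝓞 k)) ≤ P ^ 5

/-- [T12b] Splitting in the base field of a prime `l` (`l = 2`, or `l = q` prime with `P` a square
mod `q`).
PROOF. `P` is a local square at `l` (`QCF.st_L12`: for `l = 2`, `x = 1`: `v(P - 1) ≤ v(8) < v(4)`; for
`l = q` odd, `x^2 ≡ P mod q`), so `N6` gives two primes above `l`, and `e = f = 1` from
`∑ e f = 2`: norm `l`, and `v(l) = exp (-1)`. -/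
def St_T12b : Prop := ∀ (k : Type) [Field k] [NumberField k] (P l : ℕ),
  Nonempty (QE ℚ k (P : ℚ)) → l.Prime → (l = 2 ∧ P % 8 = 1 ∨ l ≠ 2 ∧ ¬ l ∣ P ∧
    ∃ x : ℕ, (P : ℤ) ≡ (x : ℤ) ^ 2 [ZMOD l]) →
  ∃ W : Finset (HeightOneSpectrum (𝓞 k)), W.card = 2 ∧
    (∀ v : HeightOneSpectrum (𝓞 k), v ∈ W ↔ v.valuation k (l : k) ≠ 1) ∧
    ∀ v ∈ W, Ideal.absNorm v.asIdeal = l ∧ v.valuation k (l : k) = WithZero.exp (-1 : ℤ)

/-- [T12c] The square classes `μ`: products of an even number of the primes `p_i`, modulo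
complements.
PROOF. For `I ⊆ {1..s}` of even size, `s` even, `m_I = ∏_{i ∈ I} p_i ≡ c^|I| ≡ 1 mod 8`. Even
valuations: for `v` above `p_i`: `2 v(ω) = v(P) = v(p_i)`. Local squares: at dyadic `v`: `L12` with
`x = 1`; at `v` above `q`: `m_I` is a square mod `q`; infinite: `m_I > 0`. If `m_I m_J` is a square in
`k = ℚ(√P)` then it is `x^2` or `P x^2` with `x` rational, so `I = J` or `J` is the complement of `I`.
Take the even subsets not containing the last index: `2^(s-2)` of them. -/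
def St_T12c : Prop := ∀ (k : Type) [Field k] [NumberField k] (s c : ℕ) (p : Fin s → ℕ)
  (T : Finset ℕ) (ω : k), Nonempty (QE ℚ k ((∏ i, p i : ℕ) : ℚ)) → ω ^ 2 = ((∏ i, p i : ℕ) : k) →
  2 ≤ s → Even s → Function.Injective p → (∀ i, (p i).Prime ∧ p i % 8 = c) → c % 2 = 1 →
  (∀ q ∈ T, q.Prime ∧ q ≠ 2 ∧ ∀ i, ¬ q ∣ p i ∧ ∃ x : ℕ, (p i : ℤ) ≡ (x : ℤ) ^ 2 [ZMOD q]) →
  ∃ μ : Fin (2 ^ (s - 2)) → kˣ,
    (∀ i, ∀ v : HeightOneSpectrum (𝓞 k), EvenAt v (μ i : k)) ∧
    (∀ i, ∀ v : HeightOneSpectrum (𝓞 k), (v.valuation k (2 : k) ≠ 1 ∨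
      ∃ q ∈ T, v.valuation k (q : k) ≠ 1) → LSq (Sum.inl v) (μ i : k)) ∧
    (∀ i, ∀ v : InfinitePlace k, LSq (Sum.inr v) (μ i : k)) ∧
    ∀ i j, IsSquare ((μ i : k) * (μ j : k)) → i = j

/-- [T13a] The discriminant of an unramified extension.
PROOF. For a prime `w` of `L` above `v`: a uniformiser of `v` has `w`-valuation `exp (-1)` by `Unr`, so
the ramification index is `1`, and the residue extension is separable (finite fields): `w` does not
divide the different ideal of `𝓞 L / 𝓞 k` (`not_dvd_differentIdeal_iff`), which is therefore `⊤`;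
`natAbs_discr_eq_absNorm_differentIdeal_mul_natAbs_discr_pow`. -/
def St_T13a : Prop := ∀ (k L : Type) [Field k] [NumberField k] [Field L] [NumberField L]
  [Algebra k L], Unr k L → (discr L).natAbs = (discr k).natAbs ^ Module.finrank k L

/-- [T13b] The number of primes of norm `q`.
PROOF. If `N w = q` then `q ∈ w`, so `v = w.under` has `v(q) ≠ 1` and `v ∈ W`; conversely for `v ∈ W`
and `w` above `v`, `N w = N v = q` by T8c. Each `v ∈ W` has `[L:k]` primes above it (`SpC`). -/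
def St_T13b : Prop := ∀ (k L : Type) [Field k] [NumberField k] [Field L] [NumberField L]
  [Algebra k L] (q : ℕ) (W : Finset (HeightOneSpectrum (𝓞 k))), q.Prime →
  (∀ v : HeightOneSpectrum (𝓞 k), v ∈ W ↔ v.valuation k (q : k) ≠ 1) →
  (∀ v ∈ W, Ideal.absNorm v.asIdeal = q ∧ SpC L v) →
  {w : HeightOneSpectrum (𝓞 L) | Ideal.absNorm w.asIdeal = q}.ncard =
    W.card * Module.finrank k L

/-- [T13] The tower over `ℚ`, for given primes.
`P = ∏ p_i`, `T` = set of `t` primes which are `1` mod `4 P`.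
PROOF. T12a-T12d for `P` (`P ≡ 1 mod 8`, not a square; `(p_i / q) = (q / p_i) = (1 / p_i) = 1` by
quadratic reciprocity, `p_i ≡ 1 mod 4` or `q ≡ 1 mod 4`), `W` = primes above `2 ∏ q`, `b = 4` at the
two dyadic primes, `b = 2` at the `2 t` others, so `h ∏ b 2^2 ≤ P^5 2^(2t+6) ≤ 2^R`. `Gd k k W 0` is
clear. T11 by induction gives `L` of degree `2^m` over `k`. T13a: `|disc L| = |disc k|^(2^m)`. Primes
of norm `q`: T13b. -/
def St_T13 : Prop := ∀ (s c R : ℕ) (p : Fin s → ℕ) (T : Finset ℕ), 6 ≤ s → Even s →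
  Function.Injective p → (∀ i, (p i).Prime ∧ p i % 4 = 1 ∧ p i % 8 = c) →
  (∀ q ∈ T, q.Prime ∧ q % (4 * ∏ i, p i) = 1) → (∏ i, p i) ^ 5 * 2 ^ (2 * T.card + 6) ≤ 2 ^ R →
  4 * R ≤ (s - 2) ^ 2 → ∀ m : ℕ, ∃ (L : Type) (_ : Field L) (_ : NumberField L),
    Module.finrank ℚ L = 2 ^ (m + 1) ∧ (∀ w : InfinitePlace L, w.IsReal) ∧
    (discr L).natAbs ∣ (∏ i, p i) ^ 2 ^ m ∧
    ∀ q ∈ T, {w : HeightOneSpectrum (𝓞 L) | Ideal.absNorm w.asIdeal = q}.ncard = 2 ^ (m + 1)

/-- [T14] Choice of the primes.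
For given `λ` there are `P₁, P₂ ≥ 1` coprime and a set `T` of primes `≡ 1 mod 4` with
`2^t ≥ λ P_i^4`, such that both towers exist.
PROOF. `MertensFour.many_primes` (`Helper53`): for large `N` there are `≥ N^8` primes `≡ 1 mod 4` in
`[N^9, N^10]`; at least half of them are in one class `c` mod 8 (`c = 1` or `5`); take `2 s` of them,
`s = 2 N` say, for `P₁` and `P₂`: `P_i ≤ N^(10 s)`. `T`: `t` primes `≡ 1 mod 4 P₁ P₂` (infinitely many,
`Nat.exists_prime_gt_modEq_one`), `t = ⌈log₂ λ⌉ + 4 ⌈10 s log₂ N⌉ + 1`,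
`R = 5 ⌈10 s log₂ N⌉ + 2 t + 6 = O(s log s) ≤ (s-2)^2 / 4` for large `N`. T13. -/
def St_T14 : Prop := ∀ lam : ℕ, ∃ (P₁ P₂ : ℕ) (T : Finset ℕ), 1 ≤ P₁ ∧ 1 ≤ P₂ ∧
  Nat.Coprime P₁ P₂ ∧ (∀ q ∈ T, q.Prime ∧ q % 4 = 1) ∧
  lam * P₁ ^ 4 ≤ 2 ^ T.card ∧ lam * P₂ ^ 4 ≤ 2 ^ T.card ∧
  ∀ P : ℕ, P = P₁ ∨ P = P₂ → ∀ m : ℕ, ∃ (L : Type) (_ : Field L) (_ : NumberField L),
    Module.finrank ℚ L = 2 ^ (m + 1) ∧ (∀ w : InfinitePlace L, w.IsReal) ∧
    (discr L).natAbs ∣ P ^ 2 ^ m ∧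
    ∀ q ∈ T, {w : HeightOneSpectrum (𝓞 L) | Ideal.absNorm w.asIdeal = q}.ncard = 2 ^ (m + 1)

end Pool.Agent.UDT
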