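import Pool.Agent.UDT.StT

set_option autoImplicit false

/-!
# UDT / T13b: the number of primes of norm `q` (helper92)
-/

namespace Pool.Agent.UDT

open IsDedekindDomain NumberField HP7 Pool.Agent.QCF
open scoped WithZero

theorem T13b_mem {k : Type} [Field k] [NumberField k] (v : HeightOneSpectrum (𝓞 k)) (q : ℕ) :
    v.valuation k (q : k) ≠ 1 ↔ ((q : ℕ) : 𝓞 k) ∈ v.asIdeal := by
  have h := HeightOneSpectrum.valuation_eq_one_iff_notMem (K := k) (v := v) (r := ((q : ℕ) : 𝓞 k))
  rw [map_natCast] at h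
  rw [Ne, h, not_not]

theorem thm_T13b (h8 : St_T8c) : St_T13b := by
  intro k L _ _ _ _ _ q W hq hW hW2
  have hn0 : Module.finrank k L ≠ 0 := Module.finrank_pos.ne'
  have hfin : ∀ v ∈ W, {w : HeightOneSpectrum (𝓞 L) | w.under (𝓞 k) = v}.Finite := by
    intro v hv
    apply Set.finite_of_ncard_ne_zero
    rw [(hW2 v hv).2]
    exact hn0
  have hset : {w : HeightOneSpectrum (𝓞 L) | Ideal.absNorm w.asIdeal = q} =
      ⋃ v ∈ W, {w : HeightOneSpectrum (𝓞 L) | w.under (𝓞 k) = v} := by
    ext w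
    simp only [Set.mem_iUnion, Set.mem_ofPred_eq, exists_prop, exists_eq_right']
    constructor
    · intro h
      rw [hW, T13b_mem]
      have h1 : ((Ideal.absNorm w.asIdeal : ℕ) : 𝓞 L) ∈ w.asIdeal := Ideal.absNorm_mem _
      rw [h] at h1
      change ((q : ℕ) : 𝓞 k) ∈ w.asIdeal.under (𝓞 k)
      rw [Ideal.under_def, Ideal.mem_comap, map_natCast]
      exact h1
    · intro h
      rw [(h8 k L).1 (w.under (𝓞 k)) w (hW2 _ h).2 rfl]
      exact (hW2 _ h).1
  rw [hset]
  classical
  have key : ∀ W' : Finset (HeightOneSpectrum (𝓞 k)), W' ⊆ W →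
      (⋃ v ∈ W', {w : HeightOneSpectrum (𝓞 L) | w.under (𝓞 k) = v}).Finite ∧
      (⋃ v ∈ W', {w : HeightOneSpectrum (𝓞 L) | w.under (𝓞 k) = v}).ncard =
        W'.card * Module.finrank k L := by
    intro W'
    induction W' using Finset.induction_on with
    | empty =>
      intro _
      simp
    | insert v W' hv ih =>
      intro hsub
      have hvW : v ∈ W := hsub (Finset.mem_insert_self _ _)
      obtain ⟨ih1, ih2⟩ := ih ((Finset.subset_insert _ _).trans hsub)
      have he : (⋃ u ∈ insert v W', {w : HeightOneSpectrum (𝓞 L) | w.under (𝓞 k) = u}) =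
          {w : HeightOneSpectrum (𝓞 L) | w.under (𝓞 k) = v} ∪
          ⋃ u ∈ W', {w : HeightOneSpectrum (𝓞 L) | w.under (𝓞 k) = u} := by
        ext w
        simp
      rw [he]
      refine ⟨(hfin v hvW).union ih1, ?_⟩
      rw [Set.ncard_union_eq ?_ (hfin v hvW) ih1, (hW2 v hvW).2, ih2,
        Finset.card_insert_of_notMem hv]
      · ring
      · rw [Set.disjoint_left]
        intro w hw hw'
        simp only [Set.mem_iUnion, Set.mem_ofPred_eq, exists_prop, exists_eq_right'] at hw hw'
        rw [hw] at hw'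
        exact hv hw'
  exact (key W subset_rfl).2

end Pool.Agent.UDT
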