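import Pool.Agent.UDT.StT

set_option autoImplicit false

/-!
# UDT / T6: the Kummer element of a class (helper55)
-/

namespace Pool.Agent.UDT

open IsDedekindDomain NumberField HP7 Pool.Agent.QCF
open scoped WithZero

theorem T6_sg_val (L : Type) [Field L] (x : ℤˣ) : (sg L x : L) = ((x : ℤ) : L) := rfl

theorem T6_act_sg (k L : Type) [Field k] [NumberField k] [Field L] [NumberField L] [Algebra k L]
    (σ : L ≃ₐ[k] L) (x : ℤˣ) : uact k L σ (sg L x) = sg L x := by
  apply Units.ext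
  change σ (sg L x : L) = (sg L x : L)
  rw [T6_sg_val, map_intCast]

theorem T6_sg_sq (L : Type) [Field L] (x : ℤˣ) : sg L x ^ 2 = 1 := by
  rw [← map_pow, Int.units_sq, map_one]

theorem T6_vl_sg (L : Type) [Field L] [NumberField L] (w : HeightOneSpectrum (𝓞 L)) (x : ℤˣ) :
    vl w (sg L x) = 0 := by
  unfold vl
  rw [T6_sg_val]
  rcases Int.units_eq_one_or x with h | h
  · rw [h, Units.val_one, Int.cast_one, map_one]
    exact WithZero.log_one
  · rw [h, Units.val_neg, Units.val_one, Int.cast_neg, Int.cast_one, Valuation.map_neg, map_one]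
    exact WithZero.log_one

theorem thm_T6 : St_T5 → St_T6 := by
  intro hT5 k L _ _ _ _ _ S m hG hD c hc
  have hC2 : IsC2 (uact k L) (fun σ τ => sg L (c σ τ)) := by
    intro σ τ ρ
    beta_reduce
    rw [T6_act_sg, ← map_mul, hc σ τ ρ, map_mul]
  obtain ⟨a, ha⟩ := hT5 k L S m hG hD (fun σ τ => sg L (c σ τ)) (fun _ _ => 0) hC2 (by
    intro σ τ w
    beta_reduce
    rw [T6_vl_sg]
    rfl)
  have ha' : ∀ σ τ, a σ * uact k L σ (a τ) * (a (σ * τ))⁻¹ = sg L (c σ τ) := fun σ τ =>
    (congrFun (congrFun ha σ) τ).symm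
  have hfin : FiniteDimensional k L := Module.Finite.of_restrictScalars_finite ℚ k L
  have hact : ∀ (g : L ≃ₐ[k] L) (x : Lˣ), g • x = uact k L g x := fun g x => Units.ext rfl
  have hcoc : groupCohomology.IsMulCocycle₁ (fun σ : L ≃ₐ[k] L => a σ ^ 2) := by
    intro σ τ
    beta_reduce
    rw [hact, map_pow]
    have h1 := congrArg (fun u => u ^ 2) (ha' σ τ)
    beta_reduce at h1
    rw [T6_sg_sq, mul_pow, mul_pow, inv_pow] at h1
    rw [← mul_inv_eq_one.1 h1]
    exact mul_comm _ _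
  obtain ⟨α, hα⟩ := groupCohomology.isMulCoboundary₁_of_isMulCocycle₁_of_aut_to_units _ hcoc
  refine ⟨a, α, ha', fun σ => ?_⟩
  have h1 := hα σ
  beta_reduce at h1
  rw [hact, div_eq_iff_eq_mul] at h1
  rw [h1, mul_comm]

end Pool.Agent.UDT
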